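import Pool.Agent.Lib.MP_ae5b4e_an_M.FnA

/-! # Section M: the right side of the limit equation and the first integral -/

noncomputable section

namespace Pool.Agent.MP_ae5b4e_an_M

open Complex Set Filter Topology Metric
open PorTR (Hm)

private theorem FnB_Hm_open : IsOpen Hm := isOpen_lt Complex.continuous_im continuous_const

/-- `bb q` is analytic on `Hm × ℂ`. -/
theorem bb_an {q : ℂ → ℂ} (hq : DifferentiableOn ℂ q Hm) :
    AnalyticOnNhd ℂ (fun p : ℂ × ℂ => bb q p.1 p.2) (Hm ×ˢ univ) := by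
  intro p hp
  have h1 : AnalyticAt ℂ q p.1 := hq.analyticOnNhd FnB_Hm_open p.1 hp.1
  have h2 : AnalyticAt ℂ (fun p : ℂ × ℂ => p.1) p := analyticAt_fst
  have h3 : AnalyticAt ℂ (fun p : ℂ × ℂ => p.2) p := analyticAt_snd
  have h4 : AnalyticAt ℂ (fun p : ℂ × ℂ => q p.1) p := AnalyticAt.fun_comp h1 h2
  have h5 : AnalyticAt ℂ (fun p : ℂ × ℂ => deriv q p.1) p := AnalyticAt.fun_comp h1.deriv h2
  have h6 : AnalyticAt ℂ (fun p : ℂ × ℂ => q p.1 * p.2 ^ 2) p := h4.mul (h3.pow 2)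
  have h7 : AnalyticAt ℂ (fun p : ℂ × ℂ => E2 (q p.1 * p.2 ^ 2)) p :=
    AnalyticAt.fun_comp (E2_diff.analyticAt _) h6
  have h8 : AnalyticAt ℂ (fun p : ℂ × ℂ => -(deriv q p.1 / 2)) p := (h5.div_const (c := 2)).neg
  exact (h8.mul (h3.pow 4)).mul h7

/-- `bb` where `q l ≠ 0`, in terms of a square root `w` of `q l`. -/
theorem bb_eq {q : ℂ → ℂ} {l α w : ℂ} (hw : w ^ 2 = q l) (h0 : w ≠ 0) :
    bb q l α = -(deriv q l / (2 * w ^ 2)) * (α ^ 2 - sin (w * α) ^ 2 / w ^ 2) := by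
  have h1 := E2_sq (w * α)
  have h2 : q l * α ^ 2 = (w * α) ^ 2 := by rw [← hw]; ring
  unfold bb
  rw [h2]
  have h3 : α ^ 4 * E2 ((w * α) ^ 2) = ((w * α) ^ 2 - sin (w * α) ^ 2) / w ^ 4 := by
    rw [eq_div_iff (pow_ne_zero 4 h0), ← h1]
    ring
  rw [mul_assoc, h3]
  field_simp

/-- `x E2 x = 1 - S1 x ^ 2` for all `x`. -/
private theorem FnB_E2 (x : ℂ) : x * E2 x = 1 - S1 x ^ 2 := by
  have h1 : Continuous fun x : ℂ => x * E2 x := continuous_id.mul E2_diff.continuous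
  have h2 : Continuous fun x : ℂ => 1 - S1 x ^ 2 := continuous_const.sub (S1_diff.continuous.pow 2)
  have h3 : (fun x : ℂ => x * E2 x) = fun x : ℂ => 1 - S1 x ^ 2 := by
    refine Continuous.ext_on (dense_compl_singleton (0 : ℂ)) h1 h2 fun x hx => ?_
    have hx0 : x ≠ 0 := hx
    obtain ⟨w, hw⟩ : ∃ w : ℂ, w ^ 2 = x := IsAlgClosed.exists_pow_nat_eq x two_pos
    have hw0 : w ^ 2 ≠ 0 := by rw [hw]; exact hx0
    have h4 := E2_sq w
    have h5 := S1_sq w
    rw [← hw]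
    apply mul_left_cancel₀ hw0
    calc w ^ 2 * (w ^ 2 * E2 (w ^ 2)) = w ^ 4 * E2 (w ^ 2) := by ring
      _ = w ^ 2 - sin w ^ 2 := h4
      _ = w ^ 2 * (1 - S1 (w ^ 2) ^ 2) := by rw [← h5]; ring
  exact congrFun h3 x

/-- The bracket of the logarithmic derivative, for all `x`. -/
private theorem FnB_br (x : ℂ) :
    2 * (deriv S1 x * S1 x + S1 x ^ 2 / 2 + C1f x * deriv S1 x) = E2 x := by
  have hd : Continuous (deriv S1) := by
    have h := S1_diff.contDiff (n := 1)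
    exact h.continuous_deriv le_rfl
  have h1 : Continuous fun x : ℂ =>
      2 * (deriv S1 x * S1 x + S1 x ^ 2 / 2 + C1f x * deriv S1 x) :=
    continuous_const.mul (((hd.mul S1_diff.continuous).add
      ((S1_diff.continuous.pow 2).div_const 2)).add (C1f_diff.continuous.mul hd))
  have h3 : (fun x : ℂ => 2 * (deriv S1 x * S1 x + S1 x ^ 2 / 2 + C1f x * deriv S1 x)) =
      fun x : ℂ => E2 x := by
    refine Continuous.ext_on (dense_compl_singleton (0 : ℂ)) h1 E2_diff.continuous fun x hx => ?_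
    have hx0 : x ≠ 0 := hx
    obtain ⟨s, hs, hs2⟩ := S1_hasDerivAt x
    have hs3 : deriv S1 x = s := hs.deriv
    have h4 := FnB_E2 x
    have h5 := C1f_S1 x
    rw [hs3]
    apply mul_left_cancel₀ hx0
    rw [h4]
    linear_combination (S1 x + C1f x) * hs2 + h5
  exact congrFun h3 x

private theorem FnB_alg {γ σ κ d e X A Q Q' B x' : ℂ} (hγ : γ ≠ 0) (h0 : σ ≠ 0)
    (e1 : Q * A ^ 2 * e = 1 - σ ^ 2) (e2 : 2 * (d * σ + σ ^ 2 / 2 + κ * d) = e)
    (e3 : B = -(Q' / 2) * A ^ 4 * e)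
    (hx : x' = Q' * (A / γ) * A ^ 2 + Q * (2 * A * (B / γ))) :
    (B / γ * σ + A * (d * x')) * X +
      A * σ * (X * -((-σ / 2 * x' * σ - κ * (d * x')) / σ ^ 2)) = 0 := by
  have h1 : γ * x' = Q' * A ^ 3 + 2 * Q * A * B := by
    rw [hx]; field_simp
  have h2 : B * σ ^ 2 + A * (γ * x') * (d * σ + σ ^ 2 / 2 + κ * d) = 0 := by
    rw [h1]
    linear_combination (A * (Q' * A ^ 3 + 2 * Q * A * B) / 2) * e2 + B * e1 + e3
  have h3 : (B / γ * σ + A * (d * x')) * X +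
      A * σ * (X * -((-σ / 2 * x' * σ - κ * (d * x')) / σ ^ 2)) =
      X / (γ * σ) * (B * σ ^ 2 + A * (γ * x') * (d * σ + σ ^ 2 / 2 + κ * d)) := by
    field_simp
    ring
  rw [h3, h2, mul_zero]

/-- THE FIRST INTEGRAL. Let `l`, `a` be functions with `l' = a / γ` and `a' = bb q l a / γ` at the
point `s`, `l s ∈ Hm`, `S1 (q (l s) * a s ^ 2) ≠ 0`. Then `s ↦ Gf q (l s) (a s)` has derivative `0`
at `s`.

Proof. Put `x = q (l) a²`; `x' = (q' (l) a³ + 2 q a bb) / γ`. With `Gf = a S1 (x) exp (1 - C / S1)`: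
`Gf' / ((S1) exp (..)) = a' + a x' [S1' / S1 - (C' S1 - C S1') / S1²]`. Insert `C' = - S1 / 2`,
`2 x S1' = C - S1`, `C² + x S1² = 1`: for `x ≠ 0` the bracket is
`(1 - S1²) / (2 x S1²)`-like; precisely `S1'/S1 - C'/S1 + C S1'/S1² = 1/2 + S1' (S1 + C)/S1² =
1/2 + (C² - S1²)/(2 x S1²) = 1/2 + (1 - x S1² - S1²) / (2 x S1²) = (1 - S1²) / (2 x S1²)`, and
`bb = - (q'/2) a⁴ (x - x S1²) / x²` (`E2_sq`: `x² E2 x = x - x S1²`), so
`γ (a' + a x' [..]) = bb + (q' a⁴ + 2 q a² bb)(1 - S1²)/(2 x S1²)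
= bb (1 + (1 - S1²)/S1²) + q' a⁴ (1 - S1²)/(2 x S1²) = bb / S1² + q' a⁴ (1 - S1²)/(2 x S1²) = 0`.
For `x = 0`: the identity holds by continuity: multiply by `S1²` and show the polynomial identity
`bb + q' a⁴ e / 2 = 0`, where `e = (1 - S1²)/x = x E2`.. in general use the entire function `E2`:
`1 - S1 x ^ 2 = x * E2 x` for all `x` (`E2_sq` divided by `w²`, and continuity), which makes the
computation uniform in `x`: `[..] = E2 x / (2 S1²)` (also at `x = 0` by continuity of both sides). -/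
theorem Gf_const {q : ℂ → ℂ} (hq : DifferentiableOn ℂ q Hm) {l a : ℂ → ℂ} {γ s : ℂ} (hγ : γ ≠ 0)
    (hl : HasDerivAt l (a s / γ) s) (ha : HasDerivAt a (bb q (l s) (a s) / γ) s)
    (hs : l s ∈ Hm) (h0 : S1 (q (l s) * a s ^ 2) ≠ 0) :
    HasDerivAt (fun s => Gf q (l s) (a s)) 0 s := by
  have hqd : HasDerivAt q (deriv q (l s)) (l s) :=
    ((hq (l s) hs).differentiableAt (FnB_Hm_open.mem_nhds hs)).hasDerivAt
  have h1 : HasDerivAt (fun s => q (l s)) (deriv q (l s) * (a s / γ)) s := hqd.comp s hl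
  have h2 : HasDerivAt (fun s => a s ^ 2) (2 * a s * (bb q (l s) (a s) / γ)) s := by
    have h := ha.pow 2
    refine h.congr_deriv ?_
    ring
  have h3 := h1.mul h2
  obtain ⟨x', hx'⟩ : ∃ x', x' = deriv q (l s) * (a s / γ) * a s ^ 2 +
    q (l s) * (2 * a s * (bb q (l s) (a s) / γ)) := ⟨_, rfl⟩
  have h4 : HasDerivAt (fun s => q (l s) * a s ^ 2) x' s := by
    rw [hx']; exact h3
  have h5 : HasDerivAt (fun s => S1 (q (l s) * a s ^ 2)) (deriv S1 (q (l s) * a s ^ 2) * x') s :=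
    (S1_diff _).hasDerivAt.comp s h4
  have h6 : HasDerivAt (fun s => C1f (q (l s) * a s ^ 2))
      (-(S1 (q (l s) * a s ^ 2)) / 2 * x') s := (C1f_hasDerivAt _).comp s h4
  have h7 := h6.div h5 h0
  have h8 := ((h7.const_sub 1).cexp)
  have h9 := (ha.mul h5).mul h8
  have h10 : HasDerivAt (fun s => Gf q (l s) (a s)) _ s := h9
  refine h10.congr_deriv ?_
  have e1 := FnB_E2 (q (l s) * a s ^ 2)
  have e2 := FnB_br (q (l s) * a s ^ 2)
  have e3 : bb q (l s) (a s) = -(deriv q (l s) / 2) * a s ^ 4 * E2 (q (l s) * a s ^ 2) := rfl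
  simp only [Pi.div_apply, Pi.mul_apply]
  exact FnB_alg hγ h0 e1 e2 e3 hx'

/-- Uniqueness for the limit equation: two solutions `l₁`, `l₂` of `l'' γ² = bb q l (γ l')` on a
preconnected open set `S`, with values in `Hm`, with the same value and derivative at one point,
agree.

Proof. The set where `l₁ = l₂` and `l₁' = l₂'` is closed in `S`; it is open because all higher
derivatives at such a point are determined (`l'' = bb q l (γ l') / γ²`, and `bb q` is analytic), or by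
the local Lipschitz property of the vector field `(l, a) ↦ (a / γ, bb q l a / γ)` (restrict to
complex lines / real segments and use Gronwall `ODE_solution_unique`), so `l₁ = l₂` near the point. -/
theorem bb_unique {q : ℂ → ℂ} (hq : DifferentiableOn ℂ q Hm) {l₁ l₂ : ℂ → ℂ} {γ : ℂ} (hγ : γ ≠ 0)
    {S : Set ℂ} (hS : IsOpen S) (hSc : IsPreconnected S)
    (h₁ : AnalyticOnNhd ℂ l₁ S) (h₂ : AnalyticOnNhd ℂ l₂ S) (m₁ : MapsTo l₁ S Hm)
    (m₂ : MapsTo l₂ S Hm)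
    (e₁ : ∀ s ∈ S, γ ^ 2 * deriv (deriv l₁) s = bb q (l₁ s) (γ * deriv l₁ s))
    (e₂ : ∀ s ∈ S, γ ^ 2 * deriv (deriv l₂) s = bb q (l₂ s) (γ * deriv l₂ s))
    {s₀ : ℂ} (hs₀ : s₀ ∈ S) (h0 : l₁ s₀ = l₂ s₀) (h1 : deriv l₁ s₀ = deriv l₂ s₀) :
    EqOn l₁ l₂ S := by
  obtain ⟨F, hF⟩ : ∃ F : ℂ × ℂ → ℂ × ℂ, F = fun p => (p.2 / γ, bb q p.1 p.2 / γ) := ⟨_, rfl⟩
  have hFa : AnalyticAt ℂ F (l₁ s₀, γ * deriv l₁ s₀) := by
    rw [hF]
    have h := bb_an hq (l₁ s₀, γ * deriv l₁ s₀) ⟨m₁ hs₀, trivial⟩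
    exact AnalyticAt.prod ((analyticAt_snd).div_const) (h.div_const)
  obtain ⟨K, T, hT, hL⟩ := (hFa.contDiffAt (n := 1)).exists_lipschitzOnWith
  have key : ∀ l : ℂ → ℂ, AnalyticOnNhd ℂ l S →
      (∀ s ∈ S, γ ^ 2 * deriv (deriv l) s = bb q (l s) (γ * deriv l s)) →
      l s₀ = l₁ s₀ → deriv l s₀ = deriv l₁ s₀ →
      ∀ᶠ r : ℝ in 𝓝 0, HasDerivAt (fun r : ℝ => (l (s₀ + r), γ * deriv l (s₀ + r)))
        (F (l (s₀ + r), γ * deriv l (s₀ + r))) r ∧
        (l (s₀ + r), γ * deriv l (s₀ + r)) ∈ T := by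
    intro l hl he g0 g1
    have c0 : Tendsto (fun r : ℝ => s₀ + (r : ℂ)) (𝓝 0) (𝓝 s₀) := by
      have hc : Continuous fun r : ℝ => s₀ + (r : ℂ) := continuous_const.add continuous_ofReal
      have := hc.tendsto 0
      simpa using this
    have c1 : ∀ᶠ r : ℝ in 𝓝 0, s₀ + (r : ℂ) ∈ S := c0.eventually (hS.mem_nhds hs₀)
    have c2 : Tendsto (fun s : ℂ => (l s, γ * deriv l s)) (𝓝 s₀)
        (𝓝 (l₁ s₀, γ * deriv l₁ s₀)) := by
      rw [← g0, ← g1]
      exact ((hl s₀ hs₀).continuousAt.prodMk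
        (continuousAt_const.mul (hl s₀ hs₀).deriv.continuousAt)).tendsto
    have c3 : ∀ᶠ r : ℝ in 𝓝 0, (l (s₀ + r), γ * deriv l (s₀ + r)) ∈ T :=
      (c2.comp c0).eventually hT
    filter_upwards [c1, c3] with r hr1 hr3
    refine ⟨?_, hr3⟩
    have d1 : HasDerivAt (fun s : ℂ => l (s₀ + s)) (deriv l (s₀ + r)) (r : ℂ) := by
      have := (hl _ hr1).differentiableAt.hasDerivAt
      exact this.comp_const_add s₀ (r : ℂ)
    have d2 : HasDerivAt (fun s : ℂ => deriv l (s₀ + s)) (deriv (deriv l) (s₀ + r)) (r : ℂ) := by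
      have := (hl _ hr1).deriv.differentiableAt.hasDerivAt
      exact this.comp_const_add s₀ (r : ℂ)
    have d3 := d1.comp_ofReal
    have d4 := (d2.const_mul γ).comp_ofReal
    have d5 := d3.prodMk d4
    refine d5.congr_deriv ?_
    rw [hF]
    refine Prod.ext ?_ ?_
    · change deriv l (s₀ + r) = γ * deriv l (s₀ + r) / γ
      field_simp
    · change γ * deriv (deriv l) (s₀ + r) = bb q (l (s₀ + r)) (γ * deriv l (s₀ + r)) / γ
      rw [← he _ hr1]
      field_simp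
  have u := ODE_solution_unique_of_eventually (v := fun _ => F) (s := fun _ => T) (K := K)
    (t₀ := 0) (.of_forall fun _ => hL) (key l₁ h₁ e₁ rfl rfl)
    (key l₂ h₂ e₂ h0.symm h1.symm) (by
      simp only [ofReal_zero, add_zero]
      rw [h0, h1])
  refine AnalyticOnNhd.eqOn_of_preconnected_of_frequently_eq h₁ h₂ hSc hs₀ ?_
  have v1 : ∀ᶠ r : ℝ in 𝓝[≠] 0, l₁ (s₀ + r) = l₂ (s₀ + r) := by
    have := u.filter_mono (nhdsWithin_le_nhds (s := {0}ᶜ))
    filter_upwards [this] with r hr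
    exact congrArg Prod.fst hr
  have v2 : Tendsto (fun r : ℝ => s₀ + (r : ℂ)) (𝓝[≠] 0) (𝓝[≠] s₀) := by
    refine tendsto_nhdsWithin_of_tendsto_nhds_of_eventually_within _ ?_ ?_
    · have hc : Continuous fun r : ℝ => s₀ + (r : ℂ) := continuous_const.add continuous_ofReal
      have := hc.tendsto 0
      simp only [ofReal_zero, add_zero] at this
      exact this.mono_left nhdsWithin_le_nhds
    · filter_upwards [self_mem_nhdsWithin] with r hr
      simpa using hr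
  exact v2.frequently v1.frequently

end Pool.Agent.MP_ae5b4e_an_M
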