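import Pool.Agent.Lib.MP_ae5b4e_an_M.SA
import Pool.Agent.Lib.MP_ae5b4e_an_M.FnB
import Pool.Agent.Lib.MP_ae5b4e_an_NB5.StC
import Pool.Agent.Lib.MP_ae5b4e_an_M0.Jet

/-! # Section M: one step (general version of NB5/StC) -/

noncomputable section

namespace Pool.Agent.MP_ae5b4e_an_M

open Complex Set Filter Topology Metric
open Pool.Agent.MP_ae5b4e_an_NB2 (Sys)
open Pool.Agent.MP_ae5b4e_an_NB5 (Pn Pn' ROK)
open PorTR (Hm)

/-! ### scaling -/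

private def SB_sc (Z : Sys) (z ε : ℂ) : Sys where
  Q ζ := ε ^ 2 * Z.Q (z + ε * ζ)
  y1 ζ := Z.y1 (z + ε * ζ)
  y1' ζ := ε * Z.y1' (z + ε * ζ)
  y2 ζ := Z.y2 (z + ε * ζ) / ε
  y2' ζ := Z.y2' (z + ε * ζ)

private theorem SB_c (Z : Sys) (z : ℂ) {ε : ℂ} (hε : ε ≠ 0) (ζ : ℂ) :
    (SB_sc Z z ε).c ζ 0 = Z.c (z + ε * ζ) z := by
  show Z.y2' (z + ε * 0) * Z.y1 (z + ε * ζ) - ε * Z.y1' (z + ε * 0) * (Z.y2 (z + ε * ζ) / ε) = _
  rw [mul_zero, add_zero]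
  unfold Sys.c
  field_simp

private theorem SB_s (Z : Sys) (z : ℂ) {ε : ℂ} (hε : ε ≠ 0) (ζ : ℂ) :
    ε * (SB_sc Z z ε).s ζ 0 = Z.s (z + ε * ζ) z := by
  show ε * (Z.y1 (z + ε * 0) * (Z.y2 (z + ε * ζ) / ε) - Z.y2 (z + ε * 0) / ε *
    Z.y1 (z + ε * ζ)) = _
  rw [mul_zero, add_zero]
  unfold Sys.s
  field_simp

private theorem SB_sd (Z : Sys) (z : ℂ) {ε : ℂ} (hε : ε ≠ 0) (ζ : ℂ) :
    (SB_sc Z z ε).sd ζ 0 = Z.sd (z + ε * ζ) z := by
  show Z.y1 (z + ε * 0) * Z.y2' (z + ε * ζ) - Z.y2 (z + ε * 0) / ε *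
    (ε * Z.y1' (z + ε * ζ)) = _
  rw [mul_zero, add_zero]
  unfold Sys.sd
  field_simp

private theorem SB_cd (Z : Sys) (z ε : ℂ) (ζ : ℂ) :
    (SB_sc Z z ε).cd ζ 0 = ε * Z.cd (z + ε * ζ) z := by
  show Z.y2' (z + ε * 0) * (ε * Z.y1' (z + ε * ζ)) - ε * Z.y1' (z + ε * 0) *
    Z.y2' (z + ε * ζ) = _
  rw [mul_zero, add_zero]
  unfold Sys.cd
  ring

private theorem SB_on {Z : Sys} {Ω S : Set ℂ} (hZ : Z.On Ω) {z ε : ℂ} (hε : ε ≠ 0)
    (h : ∀ ζ ∈ S, z + ε * ζ ∈ Ω) : (SB_sc Z z ε).On S := by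
  have hin : ∀ ζ : ℂ, HasDerivAt (fun ζ : ℂ => z + ε * ζ) ε ζ := by
    intro ζ
    simpa using ((hasDerivAt_id ζ).const_mul ε).const_add z
  refine ⟨fun ζ hζ => ?_, fun ζ hζ => ?_, fun ζ hζ => ?_, fun ζ hζ => ?_, fun ζ hζ => ?_⟩
  · have h1 := (hZ.d1 _ (h ζ hζ)).comp ζ (hin ζ)
    rw [mul_comm] at h1
    exact h1
  · have h1 := ((hZ.d1' _ (h ζ hζ)).comp ζ (hin ζ)).const_mul ε
    have h2 : ε * (-(Z.Q (z + ε * ζ) * Z.y1 (z + ε * ζ)) * ε) =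
        -(ε ^ 2 * Z.Q (z + ε * ζ) * Z.y1 (z + ε * ζ)) := by ring
    rw [h2] at h1
    exact h1
  · have h1 := ((hZ.d2 _ (h ζ hζ)).comp ζ (hin ζ)).div_const ε
    have h2 : Z.y2' (z + ε * ζ) * ε / ε = Z.y2' (z + ε * ζ) := by field_simp
    rw [h2] at h1
    exact h1
  · have h1 := (hZ.d2' _ (h ζ hζ)).comp ζ (hin ζ)
    have h2 : -(Z.Q (z + ε * ζ) * Z.y2 (z + ε * ζ)) * ε =
        -(ε ^ 2 * Z.Q (z + ε * ζ) * (Z.y2 (z + ε * ζ) / ε)) := by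
      field_simp
    rw [h2] at h1
    exact h1
  · have h1 := hZ.wr _ (h ζ hζ)
    show Z.y1 (z + ε * ζ) * Z.y2' (z + ε * ζ) - ε * Z.y1' (z + ε * ζ) *
      (Z.y2 (z + ε * ζ) / ε) = 1
    rw [← h1]
    field_simp

private theorem SB_Pn (Z : Sys) (z : ℂ) {ε : ℂ} (hε : ε ≠ 0) (α x : ℂ) :
    Pn Z z (z - ε * α) (ε * x) = ε * ((SB_sc Z z ε).c x 0 * (SB_sc Z z ε).s (-α) 0 +
      (SB_sc Z z ε).c (-α) 0 * (SB_sc Z z ε).s x 0) := by
  have e : z - ε * α = z + ε * (-α) := by ring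
  unfold Pn
  rw [e, ← SB_c Z z hε, ← SB_c Z z hε, ← SB_s Z z hε, ← SB_s Z z hε]
  ring

private theorem SB_Pn' (Z : Sys) (z : ℂ) {ε : ℂ} (hε : ε ≠ 0) (α x : ℂ) :
    Pn' Z z (z - ε * α) (ε * x) = (SB_sc Z z ε).cd x 0 * (SB_sc Z z ε).s (-α) 0 +
      (SB_sc Z z ε).c (-α) 0 * (SB_sc Z z ε).sd x 0 := by
  have e : z - ε * α = z + ε * (-α) := by ring
  unfold Pn'
  rw [e, SB_cd, ← SB_c Z z hε, ← SB_sd Z z hε, ← SB_s Z z hε]
  ring

/-! ### the potential -/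

private theorem SB_der {f : ℂ → ℂ} {l : ℂ} {r s C : ℝ} (hs : 0 < s)
    (hf : DifferentiableOn ℂ f (ball l (r + s))) (hC : ∀ z ∈ ball l (r + s), ‖f z‖ ≤ C) :
    ∀ z ∈ ball l r, ‖deriv f z‖ ≤ 2 * C / s := by
  intro z hz
  have hcb : closedBall z (s / 2) ⊆ ball l (r + s) := by
    refine closedBall_subset_ball' ?_
    rw [mem_ball] at hz
    linarith
  have h1 := Complex.norm_deriv_le_of_forall_mem_sphere_norm_le (c := z) (R := s / 2) (C := C)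
    (f := f) (by positivity) (hf.diffContOnCl_ball hcb)
    (fun y hy => hC y (hcb (sphere_subset_closedBall hy)))
  refine h1.trans (le_of_eq ?_)
  field_simp

private theorem SB_lip {f : ℂ → ℂ} {l : ℂ} {r C : ℝ} (hf : DifferentiableOn ℂ f (ball l r))
    (hC : ∀ z ∈ ball l r, ‖deriv f z‖ ≤ C) {x y : ℂ} (hx : x ∈ ball l r) (hy : y ∈ ball l r) :
    ‖f y - f x‖ ≤ C * ‖y - x‖ :=
  Convex.norm_image_sub_le_of_norm_deriv_le (𝕜 := ℂ)
    (fun z hz => (hf z hz).differentiableAt (isOpen_ball.mem_nhds hz)) hC (convex_ball _ _) hx hy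

private theorem SB_tay {q : ℂ → ℂ} {l : ℂ} {d M : ℝ} (hd : 0 < d) (hM0 : 0 ≤ M)
    (hq : DifferentiableOn ℂ q (ball l d)) (hM : ∀ z ∈ ball l d, ‖q z‖ ≤ M) {h : ℂ}
    (hh : ‖h‖ < d / 4) : ‖q (l + h) - q l - deriv q l * h‖ ≤ 32 * M / d ^ 2 * ‖h‖ ^ 2 := by
  have e1 : d / 2 + d / 2 = d := by ring
  have e2 : d / 4 + d / 4 = d / 2 := by ring
  have h1 : ∀ z ∈ ball l (d / 2), ‖deriv q z‖ ≤ 2 * M / (d / 2) :=
    SB_der (by positivity) (by rwa [e1]) (by rwa [e1])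
  have hq1 : DifferentiableOn ℂ (deriv q) (ball l (d / 2)) :=
    (hq.deriv isOpen_ball).mono (ball_subset_ball (by linarith))
  have h2 : ∀ z ∈ ball l (d / 4), ‖deriv (deriv q) z‖ ≤ 2 * (2 * M / (d / 2)) / (d / 4) :=
    SB_der (by positivity) (by rwa [e2]) (by rwa [e2])
  have e3 : 2 * (2 * M / (d / 2)) / (d / 4) = 32 * M / d ^ 2 := by
    field_simp
    ring
  rw [e3] at h2
  have hl : l ∈ ball l (d / 4) := mem_ball_self (by positivity)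
  have h3 : ∀ z ∈ closedBall l ‖h‖, ‖deriv q z - deriv q l‖ ≤ 32 * M / d ^ 2 * ‖h‖ := by
    intro z hz
    rw [mem_closedBall, dist_eq_norm] at hz
    have hz' : z ∈ ball l (d / 4) := by
      rw [mem_ball, dist_eq_norm]
      linarith
    refine (SB_lip (hq1.mono (ball_subset_ball (by linarith))) h2 hl hz').trans ?_
    exact mul_le_mul_of_nonneg_left hz (by positivity)
  have h4 : ∀ z ∈ closedBall l ‖h‖, HasDerivWithinAt (fun z => q z - deriv q l * z)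
      (deriv q z - deriv q l) (closedBall l ‖h‖) z := by
    intro z hz
    rw [mem_closedBall, dist_eq_norm] at hz
    have hz' : z ∈ ball l d := by
      rw [mem_ball, dist_eq_norm]
      linarith
    have h5 := ((hq z hz').differentiableAt (isOpen_ball.mem_nhds hz')).hasDerivAt
    have h6 := h5.sub ((hasDerivAt_id z).const_mul (deriv q l))
    rw [mul_one] at h6
    exact h6.hasDerivWithinAt
  have h7 := Convex.norm_image_sub_le_of_norm_hasDerivWithin_le (𝕜 := ℂ) h4 h3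
    (convex_closedBall l ‖h‖) (mem_closedBall_self (norm_nonneg _))
    (show l + h ∈ closedBall l ‖h‖ by
      rw [mem_closedBall, dist_eq_norm]
      simp)
  have h8 : q (l + h) - deriv q l * (l + h) - (q l - deriv q l * l) =
      q (l + h) - q l - deriv q l * h := by ring
  rw [h8, add_sub_cancel_left] at h7
  refine h7.trans (le_of_eq ?_)
  ring

private theorem SB_q {q F : ℂ → ℂ} {l : ℂ} {d M δ : ℝ} (hd : 0 < d) (hM0 : 0 ≤ M)
    (hq : DifferentiableOn ℂ q (ball l d)) (hM : ∀ z ∈ ball l d, ‖q z‖ ≤ M)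
    (hF : DifferentiableOn ℂ F (ball l d)) (hδ : ∀ z ∈ ball l d, ‖F z - q z‖ ≤ δ) {h : ℂ}
    (hh : ‖h‖ < d / 4) :
    ‖F (l + h) - q l‖ ≤ δ + 4 * M / d * ‖h‖ ∧
    ‖F (l + h) - F (l - h) - 2 * deriv q l * h‖ ≤
      ‖h‖ * (8 * δ / d + 64 * M / d ^ 2 * ‖h‖) := by
  have e1 : d / 2 + d / 2 = d := by ring
  have h1 : ∀ z ∈ ball l (d / 2), ‖deriv q z‖ ≤ 2 * M / (d / 2) :=
    SB_der (by positivity) (by rwa [e1]) (by rwa [e1])
  have e3 : 2 * M / (d / 2) = 4 * M / d := by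
    field_simp
    ring
  rw [e3] at h1
  have hfd : DifferentiableOn ℂ (fun z => F z - q z) (ball l d) := hF.sub hq
  have h2 : ∀ z ∈ ball l (d / 2), ‖deriv (fun z => F z - q z) z‖ ≤ 2 * δ / (d / 2) :=
    SB_der (by positivity) (by rwa [e1]) (by rwa [e1])
  have e4 : 2 * δ / (d / 2) = 4 * δ / d := by
    field_simp
    ring
  rw [e4] at h2
  have m0 : l ∈ ball l (d / 2) := mem_ball_self (by positivity)
  have m1 : l + h ∈ ball l (d / 2) := by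
    rw [mem_ball, dist_eq_norm, add_sub_cancel_left]
    linarith
  have m2 : l - h ∈ ball l (d / 2) := by
    rw [mem_ball, dist_eq_norm, sub_sub_cancel_left, norm_neg]
    linarith
  have hsub : ball l (d / 2) ⊆ ball l d := ball_subset_ball (by linarith)
  constructor
  · have h3 := SB_lip (hq.mono hsub) h1 m0 m1
    rw [add_sub_cancel_left] at h3
    have h4 : F (l + h) - q l = (F (l + h) - q (l + h)) + (q (l + h) - q l) := by ring
    rw [h4]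
    exact (norm_add_le _ _).trans (add_le_add (hδ _ (hsub m1)) h3)
  · have h3 := SB_lip (hfd.mono hsub) h2 m2 m1
    have h4 : l + h - (l - h) = 2 * h := by ring
    rw [h4, norm_mul, Complex.norm_ofNat] at h3
    have h5 := SB_tay hd hM0 hq hM hh
    have h6 := SB_tay hd hM0 hq hM (h := -h) (by rwa [norm_neg])
    rw [norm_neg, ← sub_eq_add_neg] at h6
    have h7 : F (l + h) - F (l - h) - 2 * deriv q l * h =
        ((F (l + h) - q (l + h)) - (F (l - h) - q (l - h))) +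
        ((q (l + h) - q l - deriv q l * h) - (q (l - h) - q l - deriv q l * -h)) := by ring
    rw [h7]
    refine (norm_add_le _ _).trans ((add_le_add h3 ((norm_sub_le _ _).trans
      (add_le_add h5 h6))).trans (le_of_eq ?_))
    field_simp
    ring

/-! ### the derivative of the node function -/

private theorem SB_D {a s b d a₀ s₀ b₀ d₀ : ℂ} {ν A : ℝ} (hν : 0 ≤ ν) (hν1 : ν ≤ 1) (hA : 1 ≤ A)
    (h1 : ‖a - a₀‖ ≤ ν) (h2 : ‖s - s₀‖ ≤ ν) (h3 : ‖b - b₀‖ ≤ ν) (h4 : ‖d - d₀‖ ≤ ν)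
    (k1 : ‖a₀‖ ≤ A) (k2 : ‖s₀‖ ≤ A) (k3 : ‖b₀‖ ≤ A) (k4 : ‖d₀‖ ≤ A) :
    ‖a * s + b * d - (a₀ * s₀ + b₀ * d₀)‖ ≤ 6 * A * ν := by
  have hs : ‖s‖ ≤ A + ν := by
    have h5 : s = s₀ + (s - s₀) := by ring
    rw [h5]
    exact (norm_add_le _ _).trans (add_le_add k2 h2)
  have hd : ‖d‖ ≤ A + ν := by
    have h5 : d = d₀ + (d - d₀) := by ring
    rw [h5]
    exact (norm_add_le _ _).trans (add_le_add k4 h4)
  have key : a * s + b * d - (a₀ * s₀ + b₀ * d₀) = (a - a₀) * s + a₀ * (s - s₀) +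
      (b - b₀) * d + b₀ * (d - d₀) := by ring
  rw [key]
  have n1 : ‖(a - a₀) * s‖ ≤ ν * (A + ν) := by
    rw [norm_mul]
    exact mul_le_mul h1 hs (norm_nonneg _) hν
  have n2 : ‖a₀ * (s - s₀)‖ ≤ A * ν := by
    rw [norm_mul]
    exact mul_le_mul k1 h2 (norm_nonneg _) (by linarith)
  have n3 : ‖(b - b₀) * d‖ ≤ ν * (A + ν) := by
    rw [norm_mul]
    exact mul_le_mul h3 hd (norm_nonneg _) hν
  have n4 : ‖b₀ * (d - d₀)‖ ≤ A * ν := by
    rw [norm_mul]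
    exact mul_le_mul k3 h4 (norm_nonneg _) (by linarith)
  have n5 := norm_add_le ((a - a₀) * s + a₀ * (s - s₀) + (b - b₀) * d) (b₀ * (d - d₀))
  have n6 := norm_add_le ((a - a₀) * s + a₀ * (s - s₀)) ((b - b₀) * d)
  have n7 := norm_add_le ((a - a₀) * s) (a₀ * (s - s₀))
  have hνν : ν * ν ≤ A * ν := mul_le_mul_of_nonneg_right (hν1.trans hA) hν
  nlinarith

private theorem SB_add (p x α : ℂ) :
    -(p * (x * S1 (p * x ^ 2))) * (-α * S1 (p * (-α) ^ 2)) +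
      C1f (p * (-α) ^ 2) * C1f (p * x ^ 2) = C1f (p * (x - α) ^ 2) := by
  obtain ⟨w, rfl⟩ := IsAlgClosed.exists_pow_nat_eq p (n := 2) (by norm_num)
  have e1 : w ^ 2 * x ^ 2 = (w * x) ^ 2 := by ring
  have e2 : w ^ 2 * (-α) ^ 2 = (w * α) ^ 2 := by ring
  have e3 : w ^ 2 * (x - α) ^ 2 = (w * x - w * α) ^ 2 := by ring
  rw [e1, e2, e3, C1f_sq, C1f_sq, C1f_sq, Complex.cos_sub, ← S1_sq (w * x), ← S1_sq (w * α)]
  ring

private theorem SB_bd (W : ℝ) (hW : 1 ≤ W) : ∃ E : ℝ, 1 ≤ E ∧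
    (∀ x : ℂ, ‖x‖ ≤ W → ‖S1 x‖ ≤ E ∧ ‖C1f x‖ ≤ E ∧ ‖E2 x‖ ≤ E ∧ ‖C1f x - 1‖ ≤ E * ‖x‖) := by
  obtain ⟨a, ha⟩ := (isCompact_closedBall (0:ℂ) W).exists_bound_of_continuousOn
    S1_diff.continuous.continuousOn
  obtain ⟨b, hb⟩ := (isCompact_closedBall (0:ℂ) W).exists_bound_of_continuousOn
    C1f_diff.continuous.continuousOn
  obtain ⟨c, hc⟩ := (isCompact_closedBall (0:ℂ) W).exists_bound_of_continuousOn
    E2_diff.continuous.continuousOn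
  refine ⟨max 1 (max a (max b c)), le_max_left _ _, fun x hx => ?_⟩
  have hx' : x ∈ closedBall (0:ℂ) W := by rwa [mem_closedBall_zero_iff]
  have l1 : a ≤ max 1 (max a (max b c)) := (le_max_left _ _).trans (le_max_right _ _)
  have l2 : b ≤ max 1 (max a (max b c)) :=
    (le_max_left _ _).trans ((le_max_right _ _).trans (le_max_right _ _))
  have l3 : c ≤ max 1 (max a (max b c)) :=
    (le_max_right _ _).trans ((le_max_right _ _).trans (le_max_right _ _))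
  refine ⟨(ha x hx').trans l1, (hb x hx').trans l2, (hc x hx').trans l3, ?_⟩
  have h1 := Convex.norm_image_sub_le_of_norm_hasDerivWithin_le (𝕜 := ℂ) (f := C1f)
    (f' := fun z => -(S1 z) / 2) (s := closedBall (0:ℂ) W) (C := max 1 (max a (max b c)))
    (fun z _ => (C1f_hasDerivAt z).hasDerivWithinAt) (fun z hz => by
      rw [norm_div, norm_neg, Complex.norm_ofNat]
      have := (ha z hz).trans l1
      have h0 := norm_nonneg (S1 z)
      linarith) (convex_closedBall _ _) (mem_closedBall_self (by linarith)) hx'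
  rwa [C1f_zero, sub_zero] at h1

/-- THE STEP. General version of `step_b` (file NB5/StC.lean; same proof, `odd_gen` in place of
`odd_limit`).

Proof. Let `K' = cthickening d K`, a compact subset of the lower half plane (`hKd`), and `M` a bound for
`q`, `q'`, `q''` on `cthickening (d / 2) K`. At `l ∈ K` use the scaled system `Y` (`StC_sc Z l ε` in
NB5/StC.lean, private there: copy it and its lemmas `StC_c`, `StC_s`, `StC_sd`, `StC_cd`, `StC_on`,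
`StC_Pn`, `StC_Pn'`): `Y.Q ζ = ε² Z.Q (l + ε ζ)`, `‖ζ‖ < R + 2`; `ε (R + 2) ≤ d / 4`. With
`p = q l`, `p₁ = q' l`, `f = ε² Z.Q - q` (analytic on `ball l d`, bounded by `δ₀`; `Z.Q` is analytic on
`ball l d` by `Q_an` of MP_ae5b4e_an_M0/Jet.lean or because `Z.Q = - y1'' / y1` .. ):
`‖Y.Q ζ - p‖ ≤ δ₀ + M ε (R + 2)`, and
`‖Y.Q ζ - Y.Q (-ζ) - 2 ε p₁ ζ‖ ≤ 2 ε ‖ζ‖ sup ‖f'‖ + C M ε² ‖ζ‖² ≤ ε (4 (R + 2) δ₀ / d + C M ε (R + 2)²)`
(Cauchy's estimate for `f'` on discs of radius `d / 2`; Taylor for `q`). So `μ = C' δ₀` for `ε ≤ δ₀`.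
Apply `odd_gen`. `Pn Z l (l - ε α) (ε x) = ε (Y.c x Y.s (-α) + Y.c (-α) Y.s x)`, and
`Pn' = Y.cd x Y.s (-α) + Y.c (-α) Y.sd x = C1f (p (x - α)²) + O (μ)`
(addition theorem: `p s₀ (x) s₀ (α) + c₀ (α) c₀ (x) = c₀ (x - α)`, from `C1f_sq`, `S1_sq` with a square
root of `p`): `‖Pn' - 1‖ ≤ 1/2` for `‖x - α‖ ≤ ρ₀` with `ρ₀` depending only on `R` and the bound of `p`
(`‖C1f x - 1‖ ≤ 1/4` for small `x`) and `δ₀` small. At `x = α`: `Pn = - ε² bb q l α + O (ε² μ)`, since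
`bb q l α = - (p₁ / 2) α⁴ E2 (p α²)`, so `small` holds. If `α'` is a root with `‖α' - α‖ ≤ ρ₀` then
`‖α' - α‖ ≤ 2 ‖Pn (ε α)‖ / ε = O (ε)`, so `Pn' - 1 = O (ε² + μ)` between, and
`‖α' - α + Pn (ε α) / ε‖ ≤ O (ε) O (ε² + μ) ≤ ε η / 2`, and `- Pn (ε α) / ε = ε bb q l α + O (ε μ)`. -/
theorem step_gen {q : ℂ → ℂ} (hq : DifferentiableOn ℂ q Hm) {K : Set ℂ} (hK : IsCompact K) {d : ℝ}
    (hd : 0 < d) (hKd : ∀ l ∈ K, l.im ≤ -(2 * d)) {R : ℝ} (hR : 1 ≤ R) :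
    ∃ ρ₀ : ℝ, 0 < ρ₀ ∧ ρ₀ ≤ 1 ∧ ∀ η : ℝ, 0 < η → ∃ δ₀ : ℝ, 0 < δ₀ ∧ ∀ (Z : Sys) (ε : ℝ), 0 < ε →
      ε ≤ δ₀ → (∀ l ∈ K, Z.On (ball l d)) →
      (∀ l ∈ K, ∀ z ∈ ball l d, ‖(ε:ℂ) ^ 2 * Z.Q z - q z‖ ≤ δ₀) → ∀ l ∈ K, ∀ α : ℂ, ‖α‖ ≤ R →
        ROK Z (ball l d) l (l - ε * α) (ρ₀ * ε) ∧
        ∀ α' : ℂ, ‖α' - α‖ ≤ ρ₀ → Pn Z l (l - ε * α) (ε * α') = 0 →
          ‖α' - α - ε * bb q l α‖ ≤ ε * η := by
  -- constants
  have hR0 : 0 < R + 2 := by linarith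
  have hK' : IsCompact (cthickening d K) := hK.cthickening
  have hKH : cthickening d K ⊆ Hm := by
    intro z hz
    rw [hK.cthickening_eq_biUnion_closedBall hd.le] at hz
    obtain ⟨l, hl, hzl⟩ := mem_iUnion₂.1 hz
    rw [mem_closedBall, dist_eq_norm] at hzl
    have h1 := (Complex.abs_im_le_norm (z - l)).trans hzl
    have h2 := (abs_le.1 h1).2
    rw [Complex.sub_im] at h2
    have h3 := hKd l hl
    show z.im < 0
    linarith
  obtain ⟨M', hM'⟩ := hK'.exists_bound_of_continuousOn (hq.continuousOn.mono hKH)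
  obtain ⟨M, hMd⟩ : ∃ M : ℝ, M = max M' 0 := ⟨_, rfl⟩
  have hM0 : 0 ≤ M := by rw [hMd]; exact le_max_right _ _
  have hball : ∀ l ∈ K, ball l d ⊆ cthickening d K := fun l hl =>
    ball_subset_closedBall.trans (closedBall_subset_cthickening hl d)
  have hM : ∀ l ∈ K, ∀ z ∈ ball l d, ‖q z‖ ≤ M := fun l hl z hz =>
    (hM' z (hball l hl hz)).trans (by rw [hMd]; exact le_max_left _ _)
  have hqb : ∀ l ∈ K, DifferentiableOn ℂ q (ball l d) := fun l hl =>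
    hq.mono ((hball l hl).trans hKH)
  obtain ⟨W, hW⟩ : ∃ W : ℝ, W = R + 2 + M + 4 * M / d := ⟨_, rfl⟩
  have hMd0 : 0 ≤ 4 * M / d := by positivity
  have hW1 : 1 ≤ W := by rw [hW]; linarith
  obtain ⟨C, hC, hodd⟩ := odd_gen hW1
  obtain ⟨E, hE1, hE⟩ := SB_bd (W ^ 3) (one_le_pow₀ hW1)
  obtain ⟨A, hA⟩ : ∃ A : ℝ, A = W ^ 2 * E := ⟨_, rfl⟩
  have hW2 : 1 ≤ W ^ 2 := one_le_pow₀ hW1
  have hWW : W ≤ W ^ 2 := by nlinarith only [hW1]
  have hE0 : 0 ≤ E := zero_le_one.trans hE1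
  have hEA : E ≤ A := by rw [hA]; exact le_mul_of_one_le_left hE0 hW2
  have hA1 : 1 ≤ A := hE1.trans hEA
  have hWEA : W * E ≤ A := by rw [hA]; exact mul_le_mul_of_nonneg_right hWW hE0
  obtain ⟨C₁, hC₁⟩ : ∃ C₁ : ℝ, C₁ = 1 + 4 * M / d * (R + 2) +
    (R + 2) * (8 / d + 64 * M / d ^ 2 * (R + 2)) := ⟨_, rfl⟩
  have hC₁1 : 1 ≤ C₁ := by
    have h1 : 0 ≤ 4 * M / d * (R + 2) := by positivity
    have h2 : 0 ≤ (R + 2) * (8 / d + 64 * M / d ^ 2 * (R + 2)) := by positivity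
    linarith
  have hC₁0 : 0 < C₁ := by linarith
  obtain ⟨C₂, hC₂⟩ : ∃ C₂ : ℝ, C₂ = 6 * A * C := ⟨_, rfl⟩
  have hC₂0 : 0 < C₂ := by rw [hC₂]; positivity
  obtain ⟨W₃, hW₃⟩ : ∃ W₃ : ℝ, W₃ = W ^ 5 * E + 1 := ⟨_, rfl⟩
  have hW₃1 : 1 ≤ W₃ := by
    rw [hW₃]
    have : 0 ≤ W ^ 5 * E := by positivity
    linarith
  have hW₃0 : 0 < W₃ := by linarith
  obtain ⟨G, hG⟩ : ∃ G : ℝ, G = E * W := ⟨_, rfl⟩
  have hG1 : 1 ≤ G := by rw [hG]; exact one_le_mul_of_one_le_of_one_le hE1 hW1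
  have hG0 : 0 < G := by linarith
  have hρ1 : 1 / (2 * G) ≤ 1 := by
    rw [div_le_one (by positivity)]
    linarith
  refine ⟨1 / (2 * G), by positivity, hρ1, ?_⟩
  intro η hη
  obtain ⟨T, hT⟩ : ∃ T : ℝ, T = C₁ + C * C₁ + 4 * C₂ * C₁ + 8 * G * W₃ + 4 * (R + 2) / d +
    2 * W₃ * C₂ * C₁ + 8 * G * W₃ ^ 3 + C * C₁ := ⟨_, rfl⟩
  have t1 : 0 < C * C₁ := by positivity
  have t2 : 0 < C₂ * C₁ := by positivity
  have t3 : 0 < 8 * G * W₃ := by positivity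
  have t4 : 0 < 2 * W₃ * C₂ * C₁ := by positivity
  have t5 : 0 < 8 * G * W₃ ^ 3 := by positivity
  have t6 : 0 < 4 * (R + 2) / d := by positivity
  have hT0 : 0 < T := by rw [hT]; linarith
  refine ⟨min (1 / T) (η / T), by positivity, ?_⟩
  obtain ⟨δ, hδd⟩ : ∃ δ : ℝ, δ = min (1 / T) (η / T) := ⟨_, rfl⟩
  rw [← hδd]
  intro Z ε hε hεδ hZon hZq l hl α hα
  have hδT : δ * T ≤ 1 := by
    have h1 : δ ≤ 1 / T := hδd.le.trans (min_le_left _ _)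
    rwa [le_div_iff₀ hT0] at h1
  have hδη : δ * T ≤ η := by
    have h1 : δ ≤ η / T := hδd.le.trans (min_le_right _ _)
    rwa [le_div_iff₀ hT0] at h1
  have hδ0 : 0 < δ := lt_of_lt_of_le hε hεδ
  -- consequences
  have hterm : ∀ X : ℝ, X ≤ T → δ * X ≤ 1 := fun X hX =>
    (mul_le_mul_of_nonneg_left hX hδ0.le).trans hδT
  have b1 : δ * C₁ ≤ 1 := hterm _ (by rw [hT]; linarith)
  have b2 : C * (C₁ * δ) ≤ 1 := by
    have := hterm (C * C₁) (by rw [hT]; linarith)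
    linarith
  have b3 : C₂ * (C₁ * δ) ≤ 1 / 4 := by
    have := hterm (4 * C₂ * C₁) (by rw [hT]; linarith)
    linarith
  have b4 : δ * (8 * G * W₃) ≤ 1 := hterm _ (by rw [hT]; linarith)
  have hε1 : ε * (R + 2) ≤ d / 4 := by
    have h1 := hterm (4 * (R + 2) / d) (by rw [hT]; linarith)
    have h2 : δ * (4 * (R + 2) / d) = δ * (R + 2) * 4 / d := by ring
    rw [h2, div_le_one hd] at h1
    have h3 : ε * (R + 2) ≤ δ * (R + 2) := mul_le_mul_of_nonneg_right hεδ hR0.le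
    linarith
  have hδle : δ ≤ 1 := (le_mul_of_one_le_right hδ0.le hC₁1).trans b1
  have hεle : ε ≤ 1 := hεδ.trans hδle
  have hεc : (ε:ℂ) ≠ 0 := by exact_mod_cast hε.ne'
  have hnε : ‖(ε:ℂ)‖ = ε := by rw [Complex.norm_real, Real.norm_eq_abs, abs_of_pos hε]
  obtain ⟨μ, hμ⟩ : ∃ μ : ℝ, μ = C₁ * δ := ⟨_, rfl⟩
  rw [← hμ] at b2 b3
  have hμ0 : 0 ≤ μ := by rw [hμ]; positivity
  have hμ1 : μ ≤ 1 := by rw [hμ]; linarith
  obtain ⟨p, hp⟩ : ∃ p : ℂ, p = q l := ⟨_, rfl⟩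
  have hpW : ‖p‖ ≤ W := by
    rw [hp, hW]
    have := hM l hl l (mem_ball_self hd)
    linarith
  have hp₁W : ‖deriv q l‖ ≤ W := by
    have e1 : d / 2 + d / 2 = d := by ring
    have h1 := SB_der (f := q) (l := l) (r := d / 2) (s := d / 2) (C := M) (by positivity)
      (by rw [e1]; exact hqb l hl) (by rw [e1]; exact hM l hl) l (mem_ball_self (by positivity))
    have e3 : 2 * M / (d / 2) = 4 * M / d := by
      field_simp
      ring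
    rw [e3] at h1
    rw [hW]
    linarith
  -- the scaled system
  obtain ⟨Y, hY⟩ : ∃ Y : Sys, Y = SB_sc Z l ε := ⟨_, rfl⟩
  have hsm : ∀ ζ : ℂ, ‖ζ‖ < R + 2 → ‖(ε:ℂ) * ζ‖ < d / 4 := by
    intro ζ hζ
    rw [norm_mul, hnε]
    exact (mul_lt_mul_of_pos_left hζ hε).trans_le hε1
  have hin : ∀ ζ ∈ ball (0:ℂ) (R + 2), l + ε * ζ ∈ ball l d := by
    intro ζ hζ
    rw [mem_ball_zero_iff] at hζ
    rw [mem_ball, dist_eq_norm, add_sub_cancel_left]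
    have := hsm ζ hζ
    linarith
  have hYon : Y.On (ball 0 (R + 2)) := by
    rw [hY]
    exact SB_on (hZon l hl) hεc hin
  have hYQ : ∀ ζ : ℂ, Y.Q ζ = (ε:ℂ) ^ 2 * Z.Q (l + ε * ζ) := by
    intro ζ
    rw [hY]
    rfl
  have hF : DifferentiableOn ℂ (fun z => (ε:ℂ) ^ 2 * Z.Q z) (ball l d) :=
    (Pool.Agent.MP_ae5b4e_an_M0.Q_an (hZon l hl) isOpen_ball).differentiableOn.const_mul _
  have hpot : ∀ ζ : ℂ, ‖ζ‖ < R + 2 → _ := fun ζ hζ =>
    SB_q hd hM0 (hqb l hl) (hM l hl) hF (hZq l hl) (hsm ζ hζ)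
  have hεζ : ∀ ζ : ℂ, ‖ζ‖ < R + 2 → ‖(ε:ℂ) * ζ‖ ≤ ε * (R + 2) := by
    intro ζ hζ
    rw [norm_mul, hnε]
    exact mul_le_mul_of_nonneg_left hζ.le hε.le
  have H := hodd Y p (deriv q l) (R + 2) ε μ (by linarith) (by rw [hW]; linarith) hpW hp₁W hε hεle
    hμ0 hμ1 hYon (by
      intro ζ hζ
      rw [hYQ ζ, hp]
      rw [mem_ball_zero_iff] at hζ
      refine (hpot ζ hζ).1.trans ?_
      have h1 : 4 * M / d * ‖(ε:ℂ) * ζ‖ ≤ 4 * M / d * (δ * (R + 2)) :=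
        mul_le_mul_of_nonneg_left ((hεζ ζ hζ).trans
          (mul_le_mul_of_nonneg_right hεδ hR0.le)) hMd0
      rw [hμ, hC₁]
      have h3 : 0 ≤ (R + 2) * (8 / d + 64 * M / d ^ 2 * (R + 2)) * δ := by positivity
      linarith only [h1, h3]) (by
      intro ζ hζ
      rw [hYQ ζ, hYQ (-ζ)]
      rw [mem_ball_zero_iff] at hζ
      have h0 : l + ε * -ζ = l - ε * ζ := by ring
      rw [h0]
      have h1 := (hpot ζ hζ).2
      have h2 : (2:ℂ) * deriv q l * (ε * ζ) = 2 * ε * deriv q l * ζ := by ring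
      rw [h2] at h1
      refine h1.trans ?_
      have h3 : ‖(ε:ℂ) * ζ‖ ≤ δ * (R + 2) :=
        (hεζ ζ hζ).trans (mul_le_mul_of_nonneg_right hεδ hR0.le)
      have h4 : 8 * δ / d + 64 * M / d ^ 2 * ‖(ε:ℂ) * ζ‖ ≤
          8 * δ / d + 64 * M / d ^ 2 * (δ * (R + 2)) := by
        have h5 : 64 * M / d ^ 2 * ‖(ε:ℂ) * ζ‖ ≤ 64 * M / d ^ 2 * (δ * (R + 2)) :=
          mul_le_mul_of_nonneg_left h3 (by positivity)
        linarith
      have h6 : ‖(ε:ℂ) * ζ‖ * (8 * δ / d + 64 * M / d ^ 2 * ‖(ε:ℂ) * ζ‖) ≤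
          (ε * (R + 2)) * (8 * δ / d + 64 * M / d ^ 2 * (δ * (R + 2))) :=
        mul_le_mul (hεζ ζ hζ) h4 (by positivity) (by positivity)
      refine h6.trans ?_
      have h7 : (ε * (R + 2)) * (8 * δ / d + 64 * M / d ^ 2 * (δ * (R + 2))) =
          ε * ((R + 2) * (8 / d + 64 * M / d ^ 2 * (R + 2)) * δ) := by ring
      rw [h7]
      refine mul_le_mul_of_nonneg_left ?_ hε.le
      rw [hμ, hC₁]
      have h8 : 0 ≤ 4 * M / d * (R + 2) * δ := by positivity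
      linarith only [h8, hδ0])
  have hCμ : 0 ≤ C * μ := by positivity
  -- bounds for the comparison functions
  have hx3 : ∀ x : ℂ, ‖x‖ ≤ W → ‖p * x ^ 2‖ ≤ W ^ 3 := by
    intro x hx
    rw [norm_mul, norm_pow]
    have h1 : ‖x‖ ^ 2 ≤ W ^ 2 := pow_le_pow_left₀ (norm_nonneg _) hx 2
    calc ‖p‖ * ‖x‖ ^ 2 ≤ W * W ^ 2 := mul_le_mul hpW h1 (by positivity) (by linarith)
      _ = _ := by ring
  have hbW : ∀ x : ℂ, x ∈ ball (0:ℂ) (R + 2) → ‖x‖ ≤ W := by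
    intro x hx
    rw [mem_ball_zero_iff] at hx
    rw [hW]
    linarith
  have hs0 : ∀ x : ℂ, ‖x‖ ≤ W → ‖x * S1 (p * x ^ 2)‖ ≤ W * E := by
    intro x hx
    rw [norm_mul]
    exact mul_le_mul hx (hE _ (hx3 x hx)).1 (norm_nonneg _) (by linarith)
  have hα2 : ‖α‖ < R + 2 := by linarith
  have hαb : α ∈ ball (0:ℂ) (R + 2) := by rwa [mem_ball_zero_iff]
  have hαb' : -α ∈ ball (0:ℂ) (R + 2) := by rwa [mem_ball_zero_iff, norm_neg]
  -- the derivative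
  have hD : ∀ x ∈ ball (0:ℂ) (R + 2),
      ‖Y.cd x 0 * Y.s (-α) 0 + Y.c (-α) 0 * Y.sd x 0 - C1f (p * (x - α) ^ 2)‖ ≤ C₂ * μ := by
    intro x hx
    have h1 := H x hx
    have h2 := H (-α) hαb'
    have hxW := hbW x hx
    have hαW := hbW _ hαb'
    have q1 : ‖Y.cd x 0 - -(p * (x * S1 (p * x ^ 2)))‖ ≤ C * μ := by
      rw [sub_neg_eq_add]
      exact h1.2.2.1
    have q2 : ‖-(p * (x * S1 (p * x ^ 2)))‖ ≤ A := by
      rw [norm_neg, norm_mul]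
      refine (mul_le_mul hpW (hs0 x hxW) (norm_nonneg _) (by linarith)).trans (le_of_eq ?_)
      rw [hA]
      ring
    have h3 := SB_D hCμ b2 hA1 q1 h2.2.1 h2.1 h1.2.2.2.1 q2 ((hs0 _ hαW).trans hWEA)
      ((hE _ (hx3 _ hαW)).2.1.trans hEA) ((hE _ (hx3 _ hxW)).2.1.trans hEA)
    rw [SB_add] at h3
    refine h3.trans (le_of_eq ?_)
    rw [hC₂]
    ring
  have hD1 : ∀ (s : ℝ) (x : ℂ), s ≤ 1 → x ∈ ball (0:ℂ) (R + 2) → ‖x - α‖ ≤ s →
      ‖Y.cd x 0 * Y.s (-α) 0 + Y.c (-α) 0 * Y.sd x 0 - 1‖ ≤ C₂ * μ + G * s ^ 2 := by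
    intro s x hs hx hxs
    have h0 : 0 ≤ s := (norm_nonneg _).trans hxs
    have h1 : ‖x - α‖ ≤ W := hxs.trans (hs.trans hW1)
    have h2 := (hE _ (hx3 _ h1)).2.2.2
    have h3 : E * ‖p * (x - α) ^ 2‖ ≤ G * s ^ 2 := by
      rw [norm_mul, norm_pow, hG, mul_assoc]
      refine mul_le_mul_of_nonneg_left ?_ (by linarith)
      exact mul_le_mul hpW (pow_le_pow_left₀ (norm_nonneg _) hxs 2) (by positivity) (by linarith)
    have h4 : Y.cd x 0 * Y.s (-α) 0 + Y.c (-α) 0 * Y.sd x 0 - 1 =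
        (Y.cd x 0 * Y.s (-α) 0 + Y.c (-α) 0 * Y.sd x 0 - C1f (p * (x - α) ^ 2)) +
        (C1f (p * (x - α) ^ 2) - 1) := by ring
    rw [h4]
    exact (norm_add_le _ _).trans (add_le_add (hD x hx) (h2.trans h3))
  have hhalf : ∀ x : ℂ, ‖x - α‖ ≤ 1 / (2 * G) → x ∈ ball (0:ℂ) (R + 2) ∧
      ‖Y.cd x 0 * Y.s (-α) 0 + Y.c (-α) 0 * Y.sd x 0 - 1‖ ≤ 1 / 2 := by
    intro x hx
    have hxb : x ∈ ball (0:ℂ) (R + 2) := by
      rw [mem_ball_zero_iff]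
      have h2 : x = α + (x - α) := by ring
      have h3 := norm_add_le α (x - α)
      rw [← h2] at h3
      linarith
    have h3 := hD1 (1 / (2 * G)) x hρ1 hxb hx
    have h2 : G * (1 / (2 * G)) ^ 2 ≤ 1 / 4 := by
      have h4 : G * (1 / (2 * G)) ^ 2 = 1 / (4 * G) := by
        field_simp
        norm_num
      rw [h4]
      exact one_div_le_one_div_of_le (by norm_num) (by linarith)
    refine ⟨hxb, h3.trans ?_⟩
    linarith
  -- the value at `α`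
  have hval : ‖Y.c α 0 * Y.s (-α) 0 + Y.c (-α) 0 * Y.s α 0 + ε * bb q l α‖ ≤ C * (ε * μ) := by
    have h1 := (H α hαb).2.2.2.2
    have h2 : Y.c α 0 * Y.s (-α) 0 + Y.c (-α) 0 * Y.s α 0 + ε * bb q l α =
        Y.c α 0 * Y.s (-α) 0 + Y.c (-α) 0 * Y.s α 0 -
          ε * (deriv q l / 2 * α ^ 4 * E2 (p * α ^ 2)) := by
      rw [hp]
      unfold bb
      ring
    rw [h2]
    exact h1
  have hbz : ‖bb q l α‖ ≤ W ^ 5 * E := by
    unfold bb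
    rw [← hp, norm_mul, norm_mul, norm_neg, norm_div, norm_pow, Complex.norm_ofNat]
    have hαW := hbW _ hαb
    have h1 := (hE _ (hx3 _ hαW)).2.2.1
    have h2 : ‖α‖ ^ 4 ≤ W ^ 4 := pow_le_pow_left₀ (norm_nonneg _) hαW 4
    have h3 : ‖deriv q l‖ / 2 ≤ W := by linarith [norm_nonneg (deriv q l)]
    calc ‖deriv q l‖ / 2 * ‖α‖ ^ 4 * ‖E2 (p * α ^ 2)‖ ≤ W * W ^ 4 * E := by
          refine mul_le_mul ?_ h1 (norm_nonneg _) (by positivity)
          exact mul_le_mul h3 h2 (by positivity) (by linarith)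
      _ = _ := by ring
  have hN : ‖Y.c α 0 * Y.s (-α) 0 + Y.c (-α) 0 * Y.s α 0‖ ≤ ε * W₃ := by
    have h1 : Y.c α 0 * Y.s (-α) 0 + Y.c (-α) 0 * Y.s α 0 =
        (Y.c α 0 * Y.s (-α) 0 + Y.c (-α) 0 * Y.s α 0 + ε * bb q l α) - ε * bb q l α := by ring
    have h2 : ‖(ε:ℂ) * bb q l α‖ ≤ ε * (W ^ 5 * E) := by
      rw [norm_mul, hnε]
      exact mul_le_mul_of_nonneg_left hbz hε.le
    have h3 : C * (ε * μ) ≤ ε * 1 := by
      have := mul_le_mul_of_nonneg_left b2 hε.le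
      linarith
    rw [h1]
    refine (norm_sub_le _ _).trans ((add_le_add (hval.trans h3) h2).trans (le_of_eq ?_))
    rw [hW₃]
    ring
  -- the node function in the scaled coordinate
  have hderiv : ∀ x ∈ ball (0:ℂ) (R + 2), HasDerivAt
      (fun x => Y.c x 0 * Y.s (-α) 0 + Y.c (-α) 0 * Y.s x 0)
      (Y.cd x 0 * Y.s (-α) 0 + Y.c (-α) 0 * Y.sd x 0) x := fun x hx =>
    ((Pool.Agent.MP_ae5b4e_an_NB2.Sys.hasDerivAt_c hYon hx).mul_const _).add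
      ((Pool.Agent.MP_ae5b4e_an_NB2.Sys.hasDerivAt_s hYon hx).const_mul _)
  have hlm : l - (l - ε * α) = ε * α := by ring
  refine ⟨⟨by positivity, mem_ball_self hd, ?_, ?_, ?_, ?_⟩, ?_⟩
  · have h1 := hin (-α) hαb'
    have h2 : l + ε * -α = l - ε * α := by ring
    rwa [h2] at h1
  · intro x hx
    rw [hlm, mem_closedBall, dist_eq_norm] at hx
    have hx' : ‖x / ε - α‖ ≤ 1 / (2 * G) := by
      have h1 : x / ε - α = (x - ε * α) / ε := by field_simp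
      rw [h1, norm_div, hnε, div_le_iff₀ hε]
      exact hx
    have h2 := hin _ (hhalf _ hx').1
    have h3 : (ε:ℂ) * (x / ε) = x := by field_simp
    rwa [h3] at h2
  · intro x hx
    rw [hlm, mem_closedBall, dist_eq_norm] at hx
    have hx' : ‖x / ε - α‖ ≤ 1 / (2 * G) := by
      have h1 : x / ε - α = (x - ε * α) / ε := by field_simp
      rw [h1, norm_div, hnε, div_le_iff₀ hε]
      exact hx
    have h2 := (hhalf _ hx').2
    have h3 : (ε:ℂ) * (x / ε) = x := by field_simp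
    rw [hY, ← SB_Pn' Z l hεc, h3] at h2
    exact h2
  · rw [hlm, SB_Pn Z l hεc, norm_mul, hnε, ← hY]
    have h1 : ε * ‖Y.c α 0 * Y.s (-α) 0 + Y.c (-α) 0 * Y.s α 0‖ ≤ ε * (ε * W₃) :=
      mul_le_mul_of_nonneg_left hN hε.le
    have h2 : ε * W₃ < 1 / (2 * G) / 2 := by
      have h3 : 1 / (2 * G) / 2 = 1 / (4 * G) := by
        field_simp
        norm_num
      rw [h3, lt_div_iff₀ (by positivity)]
      have h4 : ε * W₃ * (4 * G) ≤ δ * W₃ * (4 * G) := by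
        exact mul_le_mul_of_nonneg_right (mul_le_mul_of_nonneg_right hεδ hW₃0.le)
          (by positivity)
      linarith
    calc _ ≤ ε * (ε * W₃) := h1
      _ < ε * (1 / (2 * G) / 2) := mul_lt_mul_of_pos_left h2 hε
      _ = _ := by ring
  · intro α' hα' h0
    have hroot : Y.c α' 0 * Y.s (-α) 0 + Y.c (-α) 0 * Y.s α' 0 = 0 := by
      rw [SB_Pn Z l hεc, ← hY] at h0
      exact (mul_eq_zero.1 h0).resolve_left hεc
    -- mean value inequality on balls about `α`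
    have hmv : ∀ s κ : ℝ, ‖α' - α‖ ≤ s → (∀ x : ℂ, ‖x - α‖ ≤ s → x ∈ ball (0:ℂ) (R + 2) ∧
        ‖Y.cd x 0 * Y.s (-α) 0 + Y.c (-α) 0 * Y.sd x 0 - 1‖ ≤ κ) →
        ‖α' - α + (Y.c α 0 * Y.s (-α) 0 + Y.c (-α) 0 * Y.s α 0)‖ ≤ κ * ‖α' - α‖ := by
      intro s κ hs hκ
      have h1 : ∀ x ∈ closedBall α s, HasDerivWithinAt
          (fun x => Y.c x 0 * Y.s (-α) 0 + Y.c (-α) 0 * Y.s x 0 - x)
          (Y.cd x 0 * Y.s (-α) 0 + Y.c (-α) 0 * Y.sd x 0 - 1) (closedBall α s) x := by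
        intro x hx
        rw [mem_closedBall, dist_eq_norm] at hx
        exact ((hderiv x (hκ x hx).1).sub (hasDerivAt_id x)).hasDerivWithinAt
      have h2 := Convex.norm_image_sub_le_of_norm_hasDerivWithin_le (𝕜 := ℂ) h1
        (C := κ) (fun x hx => by
          rw [mem_closedBall, dist_eq_norm] at hx
          exact (hκ x hx).2) (convex_closedBall α s)
        (mem_closedBall_self ((norm_nonneg _).trans hs))
        (show α' ∈ closedBall α s by rwa [mem_closedBall, dist_eq_norm])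
      have h3 : Y.c α' 0 * Y.s (-α) 0 + Y.c (-α) 0 * Y.s α' 0 - α' -
          (Y.c α 0 * Y.s (-α) 0 + Y.c (-α) 0 * Y.s α 0 - α) =
          -(α' - α + (Y.c α 0 * Y.s (-α) 0 + Y.c (-α) 0 * Y.s α 0)) := by
        rw [hroot]
        ring
      rw [h3, norm_neg] at h2
      exact h2
    obtain ⟨N₀, hN₀⟩ : ∃ N₀ : ℂ, N₀ = Y.c α 0 * Y.s (-α) 0 + Y.c (-α) 0 * Y.s α 0 := ⟨_, rfl⟩
    rw [← hN₀] at hmv hN hval
    have s1 : ‖α' - α‖ ≤ 2 * (ε * W₃) := by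
      have h1 := hmv (1 / (2 * G)) (1 / 2) hα' hhalf
      have h2 : ‖α' - α‖ ≤ ‖α' - α + N₀‖ + ‖N₀‖ := by
        have h3 := norm_sub_le (α' - α + N₀) N₀
        rwa [add_sub_cancel_right] at h3
      linarith
    have hsρ : 2 * (ε * W₃) ≤ 1 := by
      have h4 : ε * W₃ ≤ δ * W₃ := mul_le_mul_of_nonneg_right hεδ hW₃0.le
      have h5 : 0 ≤ δ * W₃ := by positivity
      have h6 : δ * W₃ * 1 ≤ δ * W₃ * G := mul_le_mul_of_nonneg_left hG1 h5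
      linarith
    have s2 := hmv (2 * (ε * W₃)) (C₂ * μ + G * (2 * (ε * W₃)) ^ 2) s1 (fun x hx => by
      have hxb : x ∈ ball (0:ℂ) (R + 2) := by
        rw [mem_ball_zero_iff]
        have h2 : x = α + (x - α) := by ring
        have h3 := norm_add_le α (x - α)
        rw [← h2] at h3
        linarith
      exact ⟨hxb, hD1 _ x hsρ hxb hx⟩)
    have s3 : ‖α' - α + N₀‖ ≤ ε * (2 * W₃ * C₂ * C₁ + 8 * G * W₃ ^ 3) * δ := by
      refine s2.trans ?_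
      have h1 : 0 ≤ C₂ * μ + G * (2 * (ε * W₃)) ^ 2 := by positivity
      refine (mul_le_mul_of_nonneg_left s1 h1).trans ?_
      have h2 : G * (2 * (ε * W₃)) ^ 2 ≤ 4 * G * W₃ ^ 2 * δ := by
        have h3 : G * (2 * (ε * W₃)) ^ 2 = 4 * G * W₃ ^ 2 * (ε * ε) := by ring
        rw [h3]
        refine mul_le_mul_of_nonneg_left ?_ (by positivity)
        exact (mul_le_mul hεδ hεle hε.le hδ0.le).trans (le_of_eq (mul_one δ))
      have h4 : (C₂ * μ + G * (2 * (ε * W₃)) ^ 2) * (2 * (ε * W₃)) ≤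
          (C₂ * μ + 4 * G * W₃ ^ 2 * δ) * (2 * (ε * W₃)) :=
        mul_le_mul_of_nonneg_right (by linarith) (by positivity)
      refine h4.trans (le_of_eq ?_)
      rw [hμ]
      ring
    have s4 : α' - α - ε * bb q l α = (α' - α + N₀) - (N₀ + ε * bb q l α) := by ring
    rw [s4]
    refine (norm_sub_le _ _).trans ((add_le_add s3 hval).trans ?_)
    have s5 : ε * (2 * W₃ * C₂ * C₁ + 8 * G * W₃ ^ 3) * δ + C * (ε * μ) =
        ε * (δ * (2 * W₃ * C₂ * C₁ + 8 * G * W₃ ^ 3 + C * C₁)) := by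
      rw [hμ]
      ring
    rw [s5]
    refine mul_le_mul_of_nonneg_left (le_trans ?_ hδη) hε.le
    refine mul_le_mul_of_nonneg_left ?_ hδ0.le
    rw [hT]
    linarith

end Pool.Agent.MP_ae5b4e_an_M
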