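import Pool.Agent.Lib.MP_ae5b4e_an_M.FnB

/-! # Section M: propagation of the first integral, uniqueness at `- i ∞` -/

noncomputable section

namespace Pool.Agent.MP_ae5b4e_an_M

open Complex Set Filter Topology Metric
open PorTR (Hm)

private theorem FnC_open : IsOpen Hm := isOpen_lt Complex.continuous_im continuous_const

/-- A punctured disc is preconnected. -/
private theorem FnC_punct (z : ℂ) (r : ℝ) : IsPreconnected (ball z r \ {z}) := by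
  have h1 : IsPreconnected ((Ioo (0 : ℝ) r) ×ˢ (univ : Set ℝ)) :=
    isPreconnected_Ioo.prod isPreconnected_univ
  have h2 := h1.image (fun p : ℝ × ℝ => z + p.1 * cexp (p.2 * I))
    (by fun_prop : Continuous fun p : ℝ × ℝ => z + p.1 * cexp (p.2 * I)).continuousOn
  have h3 : (fun p : ℝ × ℝ => z + p.1 * cexp (p.2 * I)) '' ((Ioo (0 : ℝ) r) ×ˢ (univ : Set ℝ))
      = ball z r \ {z} := by
    ext w
    constructor
    · rintro ⟨⟨ρ, θ⟩, ⟨⟨h4, h5⟩, -⟩, rfl⟩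
      simp only at h4 h5
      have h6 : ‖(ρ : ℂ) * cexp (θ * I)‖ = ρ := by
        rw [norm_mul, norm_exp_ofReal_mul_I, mul_one, norm_real, Real.norm_eq_abs, abs_of_pos h4]
      constructor
      · rw [mem_ball_iff_norm, add_sub_cancel_left, h6]
        exact h5
      · intro h7
        rw [mem_singleton_iff] at h7
        have h8 : (ρ : ℂ) * cexp (θ * I) = 0 := by
          simpa using h7
        rw [h8, norm_zero] at h6
        exact h4.ne h6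
    · rintro ⟨h4, h5⟩
      rw [mem_singleton_iff] at h5
      rw [mem_ball_iff_norm] at h4
      refine ⟨(‖w - z‖, arg (w - z)), ⟨⟨norm_pos_iff.2 (sub_ne_zero.2 h5), h4⟩, trivial⟩, ?_⟩
      simp only
      rw [norm_mul_exp_arg_mul_I, add_sub_cancel]
  rw [← h3]
  exact h2

/-- The first integral is constant on preconnected open sets where it is defined. -/
private theorem FnC_const {q : ℂ → ℂ} (hq : DifferentiableOn ℂ q Hm) {γ : ℂ} (hγ : γ ≠ 0)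
    {S : Set ℂ} {l : ℂ → ℂ} (hl : AnalyticOnNhd ℂ l S)
    (hm : MapsTo l S Hm)
    (he : ∀ s ∈ S, γ ^ 2 * deriv (deriv l) s = bb q (l s) (γ * deriv l s)) {D : Set ℂ}
    (hD : IsOpen D) (hDc : IsPreconnected D) (hDS : D ⊆ S)
    (h0 : ∀ s ∈ D, S1 (q (l s) * (γ * deriv l s) ^ 2) ≠ 0) {x y : ℂ} (hx : x ∈ D) (hy : y ∈ D) :
    Gf q (l x) (γ * deriv l x) = Gf q (l y) (γ * deriv l y) := by
  have key : ∀ s ∈ D, HasDerivAt (fun s => Gf q (l s) (γ * deriv l s)) 0 s := by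
    intro s hs
    have hla := hl s (hDS hs)
    refine Gf_const (l := l) (a := fun s => γ * deriv l s) hq hγ ?_ ?_ (hm (hDS hs)) (h0 s hs)
    · have h1 := hla.differentiableAt.hasDerivAt
      refine h1.congr_deriv ?_
      field_simp
    · have h1 := (hla.deriv.differentiableAt.hasDerivAt).const_mul γ
      refine h1.congr_deriv ?_
      have h2 := he s (hDS hs)
      rw [← h2]
      field_simp
  exact hD.is_const_of_deriv_eq_zero hDc
    (fun s hs => (key s hs).differentiableAt.differentiableWithinAt)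
    (fun s hs => (key s hs).deriv) hx hy

/-- (M8) PROPAGATION OF THE FIRST INTEGRAL. Let `l` be a holomorphic solution, with values in the
lower half plane, of the limit equation on the open connected set `S`. If at one point
`S1 (q α²) ≠ 0` and `Gf q l α = γ`, `α = γ l'`, then this is true at all points of `S`.

Proof. Put `a s = γ l' s`, `Y2 s = q (l s) * a s ^ 2`, `A = {s ∈ S | S1 (Y2 s) ≠ 0 ∧ Gf q (l s) (a s) = γ}`.
We have `l' = a / γ`, `a' = bb q l a / γ`. `A` is open: `S1 ∘ Y2` is continuous, and where it is not zero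
the function `s ↦ Gf q (l s) (a s)` has derivative zero (`Gf_const`), so it is locally constant.
`A` is closed in `S`: let `z ∈ S` be in the closure of `A`. If `S1 (Y2 z) ≠ 0`, then `Gf` is continuous at
`z` and equals `γ` there. Suppose `S1 (Y2 z) = 0`. The holomorphic function `S1 ∘ Y2` is not identically
zero near `z` (`z ∈ closure A`), so there is a punctured disc `D` about `z`, `D ⊆ S`, on which it is not
zero; `D` is connected and meets `A`, so `Gf = γ` on `D`. By `S1_eq_zero`, `Y2 z ≠ 0`, so `a z ≠ 0`, and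
`S1 (Y2) exp (1 - C1f (Y2) / S1 (Y2)) = γ / a` is bounded on a smaller `D`. The holomorphic function `Y2`
is not constant near `z`, so by the open mapping theorem (`AnalyticAt.eventually_constant_or_nhds_le_map_nhds`)
it maps every neighbourhood of `z` onto a neighbourhood of `Y2 z`; this contradicts `exists_big` (the
point there is different from `Y2 z`, since `S1 x ≠ 0`). So `A` is closed in `S`, open and nonempty. -/
theorem Gf_prop {q : ℂ → ℂ} (hq : DifferentiableOn ℂ q Hm) {γ : ℂ} (hγ : γ ≠ 0) {S : Set ℂ}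
    (hS : IsOpen S) (hSc : IsPreconnected S) {l : ℂ → ℂ} (hl : AnalyticOnNhd ℂ l S)
    (hm : MapsTo l S Hm)
    (he : ∀ s ∈ S, γ ^ 2 * deriv (deriv l) s = bb q (l s) (γ * deriv l s)) {s₀ : ℂ} (hs₀ : s₀ ∈ S)
    (h0 : S1 (q (l s₀) * (γ * deriv l s₀) ^ 2) ≠ 0)
    (h1 : Gf q (l s₀) (γ * deriv l s₀) = γ) :
    ∀ s ∈ S, S1 (q (l s) * (γ * deriv l s) ^ 2) ≠ 0 ∧ Gf q (l s) (γ * deriv l s) = γ := by
  obtain ⟨Y2, hY2⟩ : ∃ Y2 : ℂ → ℂ, Y2 = fun s => q (l s) * (γ * deriv l s) ^ 2 := ⟨_, rfl⟩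
  obtain ⟨f, hf⟩ : ∃ f : ℂ → ℂ, f = fun s => Gf q (l s) (γ * deriv l s) := ⟨_, rfl⟩
  have hYan : AnalyticOnNhd ℂ Y2 S := by
    intro s hs
    rw [hY2]
    have e1 : AnalyticAt ℂ q (l s) := hq.analyticOnNhd FnC_open (l s) (hm hs)
    have e2 : AnalyticAt ℂ (fun s => q (l s)) s := AnalyticAt.fun_comp e1 (hl s hs)
    have e3 : AnalyticAt ℂ (fun s => γ * deriv l s) s := analyticAt_const.mul (hl s hs).deriv
    exact e2.mul (e3.pow 2)
  have hφan : AnalyticOnNhd ℂ (fun s => S1 (Y2 s)) S := fun s hs =>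
    AnalyticAt.fun_comp (S1_diff.analyticAt _) (hYan s hs)
  have hS1Y : ∀ s, S1 (q (l s) * (γ * deriv l s) ^ 2) = S1 (Y2 s) := fun s => by rw [hY2]
  have hfe : ∀ s, Gf q (l s) (γ * deriv l s) = f s := fun s => by rw [hf]
  have hfG : ∀ s, f s = (γ * deriv l s) * (S1 (Y2 s) * cexp (1 - C1f (Y2 s) / S1 (Y2 s))) := by
    intro s
    rw [hf, hY2]
    simp only [Gf]
    ring
  -- local constancy
  have hloc : ∀ z ∈ S, S1 (Y2 z) ≠ 0 → ∃ r > 0, ball z r ⊆ S ∧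
      ∀ s ∈ ball z r, S1 (Y2 s) ≠ 0 ∧ f s = f z := by
    intro z hz hz0
    have e1 : ∀ᶠ s in 𝓝 z, S1 (Y2 s) ≠ 0 := (hφan z hz).continuousAt.eventually_ne hz0
    have e2 : ∀ᶠ s in 𝓝 z, s ∈ S := hS.mem_nhds hz
    obtain ⟨r, hr, hb⟩ := Metric.eventually_nhds_iff_ball.1 (e1.and e2)
    refine ⟨r, hr, fun s hs => (hb s hs).2, fun s hs => ⟨(hb s hs).1, ?_⟩⟩
    have h2 := FnC_const hq hγ hl hm he isOpen_ball (convex_ball z r).isPreconnected
      (fun s hs => (hb s hs).2) (fun s hs => by rw [hS1Y]; exact (hb s hs).1) hs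
      (mem_ball_self hr)
    rwa [hfe, hfe] at h2
  set A : Set ℂ := {s | s ∈ S ∧ S1 (Y2 s) ≠ 0 ∧ f s = γ} with hA
  have hAo : IsOpen A := by
    rw [Metric.isOpen_iff]
    rintro z ⟨hz, hz0, hz1⟩
    obtain ⟨r, hr, hrS, hb⟩ := hloc z hz hz0
    refine ⟨r, hr, fun s hs => ⟨hrS hs, (hb s hs).1, ?_⟩⟩
    rw [(hb s hs).2, hz1]
  have hAc : closure A ∩ S ⊆ A := by
    rintro z ⟨hzA, hz⟩
    by_cases hz0 : S1 (Y2 z) = 0
    · exfalso
      have hzn : z ∉ A := fun h => h.2.1 hz0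
      have hfreq : ∀ {N : Set ℂ}, N ∈ 𝓝 z → (N ∩ A).Nonempty := fun hN =>
        mem_closure_iff_nhds.1 hzA _ hN
      have hne : ∀ᶠ s in 𝓝[≠] z, S1 (Y2 s) ≠ 0 := by
        rcases (hφan z hz).eventually_eq_zero_or_eventually_ne_zero with h | h
        · obtain ⟨s, hs1, hs2⟩ := hfreq h
          exact absurd hs1 hs2.2.1
        · exact h
      rw [eventually_nhdsWithin_iff] at hne
      obtain ⟨r, hr, hb⟩ := Metric.eventually_nhds_iff_ball.1 (hne.and (hS.mem_nhds hz))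
      have hDo : IsOpen (ball z r \ {z}) := isOpen_ball.sdiff isClosed_singleton
      obtain ⟨s1, hs1b, hs1A⟩ := hfreq (ball_mem_nhds z hr)
      have hs1D : s1 ∈ ball z r \ {z} := ⟨hs1b, fun h => hzn (by
        rw [mem_singleton_iff] at h
        rwa [h] at hs1A)⟩
      have hfγ : ∀ s ∈ ball z r \ {z}, f s = γ := by
        intro s hs
        have h2 := FnC_const hq hγ hl hm he hDo (FnC_punct z r)
          (fun s hs => (hb s hs.1).2) (fun s hs => by rw [hS1Y]; exact (hb s hs.1).1 hs.2) hs hs1D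
        rw [hfe, hfe] at h2
        rw [h2, hs1A.2.2]
      have hY0 : Y2 z ≠ 0 := by
        intro h
        rw [h, S1_zero] at hz0
        exact one_ne_zero hz0
      have ha0 : γ * deriv l z ≠ 0 := by
        intro h
        apply hY0
        rw [hY2]
        simp only
        rw [h]
        ring
      have hac : ∀ᶠ s in 𝓝 z, ‖γ * deriv l z‖ / 2 < ‖γ * deriv l s‖ := by
        have e3 : ContinuousAt (fun s => ‖γ * deriv l s‖) z :=
          (continuousAt_const.mul (hl z hz).deriv.continuousAt).norm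
        refine e3.eventually_const_lt ?_
        have := norm_pos_iff.2 ha0
        simp only
        linarith
      rcases (hYan z hz).eventually_constant_or_nhds_le_map_nhds with h | h
      · have h2 : ∀ᶠ s in 𝓝 z, S1 (Y2 s) = 0 := by
          filter_upwards [h] with s hs
          rw [hs, hz0]
        obtain ⟨s, hs1, hs2⟩ := hfreq h2
        exact hs2.2.1 hs1
      · have hN : {s | ‖γ * deriv l z‖ / 2 < ‖γ * deriv l s‖} ∩ ball z r ∈ 𝓝 z :=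
          inter_mem hac (ball_mem_nhds z hr)
        have hYN : Y2 '' ({s | ‖γ * deriv l z‖ / 2 < ‖γ * deriv l s‖} ∩ ball z r) ∈ 𝓝 (Y2 z) :=
          h (image_mem_map hN)
        obtain ⟨x, ⟨s, ⟨hs1, hs2⟩, rfl⟩, hx0, hxM⟩ :=
          exists_big hz0 (‖γ‖ / (‖γ * deriv l z‖ / 2)) hYN
        have hsz : s ≠ z := by
          rintro rfl
          exact hx0 hz0
        have h3 := hfγ s ⟨hs2, hsz⟩
        rw [hfG] at h3
        have h4 : ‖γ * deriv l s‖ * ‖S1 (Y2 s) * cexp (1 - C1f (Y2 s) / S1 (Y2 s))‖ = ‖γ‖ := by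
          rw [← norm_mul, h3]
        have h5 : 0 < ‖γ * deriv l z‖ / 2 := by
          have := norm_pos_iff.2 ha0
          linarith
        have hγ0 : 0 < ‖γ‖ := norm_pos_iff.2 hγ
        rw [div_lt_iff₀ h5] at hxM
        have h6 : ‖S1 (Y2 s) * cexp (1 - C1f (Y2 s) / S1 (Y2 s))‖ * (‖γ * deriv l z‖ / 2)
            ≤ ‖S1 (Y2 s) * cexp (1 - C1f (Y2 s) / S1 (Y2 s))‖ * ‖γ * deriv l s‖ :=
          mul_le_mul_of_nonneg_left (le_of_lt hs1) (norm_nonneg _)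
        rw [mul_comm] at h4
        linarith
    · obtain ⟨r, hr, hrS, hb⟩ := hloc z hz hz0
      obtain ⟨s1, hs1b, hs1A⟩ := mem_closure_iff_nhds.1 hzA _ (ball_mem_nhds z hr)
      refine ⟨hz, hz0, ?_⟩
      rw [← (hb s1 hs1b).2]
      exact hs1A.2.2
  have hsub : S ⊆ A := hSc.subset_of_closure_inter_subset hAo ⟨s₀, hs₀, hs₀, by
    rw [← hS1Y]; exact h0, by rw [← hfe]; exact h1⟩ hAc
  intro s hs
  have h2 := hsub hs
  rw [hS1Y, hfe]
  exact h2.2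

private theorem FnC_cauchy {q : ℂ → ℂ} (hq : DifferentiableOn ℂ q Hm) {C : ℝ}
    (hb : ∀ z : ℂ, z.im ≤ -1 → ‖q z‖ ≤ C / z.im ^ 2) (hC : 0 ≤ C) {y : ℝ} (hy : 2 ≤ y) {l : ℂ}
    (hl : l.im ≤ -y) :
    ‖q l‖ ≤ 4 * C / y ^ 2 ∧ ‖deriv q l‖ ≤ 8 * C / y ^ 3 ∧ ‖deriv (deriv q) l‖ ≤ 32 * C / y ^ 4 := by
  have hy0 : 0 < y := by linarith
  have hcl : ∀ z ∈ closedBall l (y / 2), z.im ≤ -(y / 2) := by
    intro z hz
    rw [mem_closedBall, dist_eq_norm] at hz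
    have h1 : z.im - l.im ≤ ‖z - l‖ := by
      rw [← sub_im]
      exact (le_abs_self _).trans (abs_im_le_norm _)
    linarith
  have hbd : ∀ z ∈ closedBall l (y / 2), ‖q z‖ ≤ 4 * C / y ^ 2 := by
    intro z hz
    have h1 := hcl z hz
    refine (hb z (by linarith)).trans ?_
    have h2 : (y / 2) ^ 2 ≤ z.im ^ 2 := by nlinarith
    have h3 : 0 < (y / 2) ^ 2 := by positivity
    calc C / z.im ^ 2 ≤ C / (y / 2) ^ 2 := div_le_div_of_nonneg_left hC h3 h2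
      _ = 4 * C / y ^ 2 := by field_simp; ring
  have hdc : DiffContOnCl ℂ q (ball l (y / 2)) := by
    refine DifferentiableOn.diffContOnCl ?_
    rw [closure_ball l (by positivity)]
    refine hq.mono fun z hz => ?_
    have h1 := hcl z hz
    change z.im < 0
    linarith
  have hR : 0 < y / 2 := by positivity
  refine ⟨hbd l (mem_closedBall_self hR.le), ?_, ?_⟩
  · have h1 := norm_deriv_le_of_forall_mem_sphere_norm_le hR hdc
      (fun z hz => hbd z (sphere_subset_closedBall hz))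
    refine h1.trans (le_of_eq ?_)
    field_simp
    ring
  · have h1 := norm_iteratedDeriv_le_of_forall_mem_sphere_norm_le 2 hR hdc
      (fun z hz => hbd z (sphere_subset_closedBall hz))
    rw [iteratedDeriv_succ, iteratedDeriv_one] at h1
    refine h1.trans (le_of_eq ?_)
    rw [show (2 : ℕ).factorial = 2 from rfl]
    push_cast
    field_simp
    ring

private theorem FnC_pow4 {A : ℝ} {a b : ℂ} (ha : ‖a‖ ≤ A) (hb : ‖b‖ ≤ A) :
    ‖a ^ 4 - b ^ 4‖ ≤ 4 * A ^ 3 * ‖a - b‖ := by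
  have hA : 0 ≤ A := (norm_nonneg _).trans ha
  have e : a ^ 4 - b ^ 4 = (a ^ 3 + a ^ 2 * b + a * b ^ 2 + b ^ 3) * (a - b) := by ring
  rw [e, norm_mul]
  refine mul_le_mul_of_nonneg_right ?_ (norm_nonneg _)
  refine (norm_add_le _ _).trans ?_
  have h1 : ‖a ^ 3 + a ^ 2 * b + a * b ^ 2‖ ≤ ‖a ^ 3‖ + ‖a ^ 2 * b‖ + ‖a * b ^ 2‖ :=
    norm_add₃_le
  have h2 : ‖a ^ 3‖ ≤ A ^ 3 := by
    rw [norm_pow]; exact pow_le_pow_left₀ (norm_nonneg _) ha 3
  have h3 : ‖b ^ 3‖ ≤ A ^ 3 := by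
    rw [norm_pow]; exact pow_le_pow_left₀ (norm_nonneg _) hb 3
  have h4 : ‖a ^ 2 * b‖ ≤ A ^ 2 * A := by
    rw [norm_mul, norm_pow]
    exact mul_le_mul (pow_le_pow_left₀ (norm_nonneg _) ha 2) hb (norm_nonneg _) (by positivity)
  have h5 : ‖a * b ^ 2‖ ≤ A * A ^ 2 := by
    rw [norm_mul, norm_pow]
    exact mul_le_mul ha (pow_le_pow_left₀ (norm_nonneg _) hb 2) (by positivity) hA
  nlinarith

private theorem FnC_pow2 {A : ℝ} {a b : ℂ} (ha : ‖a‖ ≤ A) (hb : ‖b‖ ≤ A) :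
    ‖a ^ 2 - b ^ 2‖ ≤ 2 * A * ‖a - b‖ := by
  have e : a ^ 2 - b ^ 2 = (a + b) * (a - b) := by ring
  rw [e, norm_mul]
  refine mul_le_mul_of_nonneg_right ?_ (norm_nonneg _)
  refine (norm_add_le _ _).trans ?_
  linarith

/-- Bounds for `bb` and its differences at great depth. For `‖q‖ ≤ C / Im²` at depth `≥ 1` and
`‖α‖ ≤ A` there is `C'` with, for `y ≥ 2`, `- Im lⱼ ≥ y`, `‖αⱼ‖ ≤ A`:
`‖bb q l₁ α₁ - bb q l₂ α₂‖ ≤ C' (‖l₁ - l₂‖ / y ^ 4 + ‖α₁ - α₂‖ / y ^ 3)`.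

Proof. Cauchy's estimates: `‖q'‖ ≤ C₁ / y³`, `‖q''‖ ≤ C₁ / y⁴` at depth `≥ y ≥ 2` (discs of radius `y / 2`).
`bb q l α = -(q' l / 2) α⁴ E2 (q l α²)`, `E2` and `E2'` are bounded on the disc of radius `C A²`. The
derivative with respect to `l` is `O (‖q''‖ + ‖q'‖²)`, with respect to `α` it is `O (‖q'‖)`; mean value
inequality on the convex set `{Im l ≤ - y} × closedBall 0 A`. -/
theorem bb_lip {q : ℂ → ℂ} (hq : DifferentiableOn ℂ q Hm) {C : ℝ}
    (hb : ∀ z : ℂ, z.im ≤ -1 → ‖q z‖ ≤ C / z.im ^ 2) (A : ℝ) :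
    ∃ C' : ℝ, 0 < C' ∧ ∀ y : ℝ, 2 ≤ y → ∀ l₁ l₂ α₁ α₂ : ℂ, l₁.im ≤ -y → l₂.im ≤ -y → ‖α₁‖ ≤ A →
      ‖α₂‖ ≤ A →
      ‖bb q l₁ α₁ - bb q l₂ α₂‖ ≤ C' * (‖l₁ - l₂‖ / y ^ 4 + ‖α₁ - α₂‖ / y ^ 3) := by
  have hC : 0 ≤ C := by
    have h1 := (norm_nonneg _).trans (hb (-I) (by simp))
    simpa using h1
  obtain ⟨a, ha⟩ : ∃ a : ℝ, a = |A| := ⟨_, rfl⟩
  have ha0 : 0 ≤ a := by rw [ha]; exact abs_nonneg _
  have hAa : A ≤ a := by rw [ha]; exact le_abs_self _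
  -- bounds for `E2`
  obtain ⟨R, hR⟩ : ∃ R : ℝ, R = C * a ^ 2 := ⟨_, rfl⟩
  obtain ⟨M0, hM0⟩ := (isCompact_closedBall (0 : ℂ) R).exists_bound_of_continuousOn
    E2_diff.continuous.continuousOn
  obtain ⟨K0, hK0⟩ := (isCompact_closedBall (0 : ℂ) R).exists_bound_of_continuousOn
    (f := deriv E2) ((E2_diff.contDiff (n := 1)).continuous_deriv le_rfl).continuousOn
  obtain ⟨M, hM⟩ : ∃ M : ℝ, M = |M0| := ⟨_, rfl⟩
  obtain ⟨K, hK⟩ : ∃ K : ℝ, K = |K0| := ⟨_, rfl⟩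
  have hMn : 0 ≤ M := by rw [hM]; exact abs_nonneg _
  have hKn : 0 ≤ K := by rw [hK]; exact abs_nonneg _
  have hMb : ∀ x ∈ closedBall (0 : ℂ) R, ‖E2 x‖ ≤ M := fun x hx => by
    rw [hM]
    exact (hM0 x hx).trans (le_abs_self _)
  have hKb : ∀ x ∈ closedBall (0 : ℂ) R, ‖deriv E2 x‖ ≤ K := fun x hx => by
    rw [hK]
    exact (hK0 x hx).trans (le_abs_self _)
  have hEl : ∀ x₁ ∈ closedBall (0 : ℂ) R, ∀ x₂ ∈ closedBall (0 : ℂ) R,
      ‖E2 x₁ - E2 x₂‖ ≤ K * ‖x₁ - x₂‖ := fun x₁ h1 x₂ h2 =>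
    (convex_closedBall (0 : ℂ) R).norm_image_sub_le_of_norm_deriv_le
      (fun x _ => E2_diff x) hKb h2 h1
  refine ⟨32 * C * a ^ 4 * M + 64 * C ^ 2 * a ^ 6 * K + 32 * C * a ^ 3 * M
    + 64 * C ^ 2 * a ^ 5 * K + 1, by positivity, ?_⟩
  intro y hy l₁ l₂ α₁ α₂ hl₁ hl₂ hα₁' hα₂'
  have hα₁ : ‖α₁‖ ≤ a := hα₁'.trans hAa
  have hα₂ : ‖α₂‖ ≤ a := hα₂'.trans hAa
  have hy0 : 0 < y := by linarith
  have hqd : ∀ z ∈ {z : ℂ | z.im ≤ -y}, DifferentiableAt ℂ q z := fun z hz =>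
    (hq z (by change z.im < 0; have : z.im ≤ -y := hz; linarith)).differentiableAt
      (FnC_open.mem_nhds (by change z.im < 0; have : z.im ≤ -y := hz; linarith))
  have hqdd : ∀ z ∈ {z : ℂ | z.im ≤ -y}, DifferentiableAt ℂ (deriv q) z := fun z hz =>
    ((hq.analyticOnNhd FnC_open z
      (by change z.im < 0; have : z.im ≤ -y := hz; linarith)).deriv).differentiableAt
  have hcv : Convex ℝ {z : ℂ | z.im ≤ -y} := convex_halfSpace_im_le (-y)
  have d0 : ‖q l₁ - q l₂‖ ≤ 8 * C / y ^ 3 * ‖l₁ - l₂‖ :=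
    hcv.norm_image_sub_le_of_norm_deriv_le hqd
      (fun z hz => (FnC_cauchy hq hb hC hy hz).2.1) hl₂ hl₁
  have d1 : ‖deriv q l₁ - deriv q l₂‖ ≤ 32 * C / y ^ 4 * ‖l₁ - l₂‖ :=
    hcv.norm_image_sub_le_of_norm_deriv_le hqdd
      (fun z hz => (FnC_cauchy hq hb hC hy hz).2.2) hl₂ hl₁
  have q1 := FnC_cauchy hq hb hC hy hl₁
  have q2 := FnC_cauchy hq hb hC hy hl₂
  have hy2 : 4 * C / y ^ 2 ≤ C := by
    rw [div_le_iff₀ (by positivity)]
    nlinarith [mul_nonneg hC (by nlinarith : (0:ℝ) ≤ y ^ 2 - 4)]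
  have hx : ∀ (l α : ℂ), ‖q l‖ ≤ 4 * C / y ^ 2 → ‖α‖ ≤ a → q l * α ^ 2 ∈ closedBall (0 : ℂ) R := by
    intro l α h1 h2
    rw [mem_closedBall_zero_iff, norm_mul, norm_pow, hR]
    exact mul_le_mul (h1.trans hy2) (pow_le_pow_left₀ (norm_nonneg _) h2 2) (by positivity) hC
  have hx1 := hx l₁ α₁ q1.1 hα₁
  have hx2 := hx l₂ α₂ q2.1 hα₂
  have hxd : ‖q l₁ * α₁ ^ 2 - q l₂ * α₂ ^ 2‖
      ≤ 8 * C * a ^ 2 * (‖l₁ - l₂‖ / y) + 8 * C * a * ‖α₁ - α₂‖ := by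
    have e : q l₁ * α₁ ^ 2 - q l₂ * α₂ ^ 2
        = (q l₁ - q l₂) * α₁ ^ 2 + q l₂ * (α₁ ^ 2 - α₂ ^ 2) := by ring
    rw [e]
    refine (norm_add_le _ _).trans (add_le_add ?_ ?_)
    · rw [norm_mul, norm_pow]
      have h1 : 8 * C / y ^ 3 * ‖l₁ - l₂‖ ≤ 8 * C * (‖l₁ - l₂‖ / y) := by
        rw [div_mul_eq_mul_div, mul_div_assoc]
        refine mul_le_mul_of_nonneg_left ?_ (by positivity)
        refine div_le_div_of_nonneg_left (norm_nonneg _) hy0 ?_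
        nlinarith [pow_le_pow_left₀ (by norm_num : (0:ℝ) ≤ 2) hy 2]
      calc ‖q l₁ - q l₂‖ * ‖α₁‖ ^ 2 ≤ (8 * C * (‖l₁ - l₂‖ / y)) * a ^ 2 :=
            mul_le_mul (d0.trans h1) (pow_le_pow_left₀ (norm_nonneg _) hα₁ 2) (by positivity)
              (by positivity)
        _ = 8 * C * a ^ 2 * (‖l₁ - l₂‖ / y) := by ring
    · rw [norm_mul]
      calc ‖q l₂‖ * ‖α₁ ^ 2 - α₂ ^ 2‖ ≤ (4 * C) * (2 * a * ‖α₁ - α₂‖) :=
            mul_le_mul (q2.1.trans (hy2.trans (by linarith))) (FnC_pow2 hα₁ hα₂) (norm_nonneg _)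
              (by positivity)
        _ = 8 * C * a * ‖α₁ - α₂‖ := by ring
  have t1 : ‖(deriv q l₁ - deriv q l₂) * α₁ ^ 4 * E2 (q l₁ * α₁ ^ 2)‖
      ≤ 32 * C * a ^ 4 * M * (‖l₁ - l₂‖ / y ^ 4) := by
    rw [norm_mul, norm_mul, norm_pow]
    calc ‖deriv q l₁ - deriv q l₂‖ * ‖α₁‖ ^ 4 * ‖E2 (q l₁ * α₁ ^ 2)‖
        ≤ (32 * C / y ^ 4 * ‖l₁ - l₂‖) * a ^ 4 * M :=
          mul_le_mul (mul_le_mul d1 (pow_le_pow_left₀ (norm_nonneg _) hα₁ 4) (by positivity)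
            (by positivity)) (hMb _ hx1) (norm_nonneg _) (by positivity)
      _ = 32 * C * a ^ 4 * M * (‖l₁ - l₂‖ / y ^ 4) := by ring
  have t2 : ‖deriv q l₂ * (α₁ ^ 4 - α₂ ^ 4) * E2 (q l₁ * α₁ ^ 2)‖
      ≤ 32 * C * a ^ 3 * M * (‖α₁ - α₂‖ / y ^ 3) := by
    rw [norm_mul, norm_mul]
    calc ‖deriv q l₂‖ * ‖α₁ ^ 4 - α₂ ^ 4‖ * ‖E2 (q l₁ * α₁ ^ 2)‖
        ≤ (8 * C / y ^ 3) * (4 * a ^ 3 * ‖α₁ - α₂‖) * M :=
          mul_le_mul (mul_le_mul q2.2.1 (FnC_pow4 hα₁ hα₂) (norm_nonneg _)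
            (by positivity)) (hMb _ hx1) (norm_nonneg _) (by positivity)
      _ = 32 * C * a ^ 3 * M * (‖α₁ - α₂‖ / y ^ 3) := by ring
  have t3 : ‖deriv q l₂ * α₂ ^ 4 * (E2 (q l₁ * α₁ ^ 2) - E2 (q l₂ * α₂ ^ 2))‖
      ≤ 64 * C ^ 2 * a ^ 6 * K * (‖l₁ - l₂‖ / y ^ 4)
        + 64 * C ^ 2 * a ^ 5 * K * (‖α₁ - α₂‖ / y ^ 3) := by
    rw [norm_mul, norm_mul, norm_pow]
    calc ‖deriv q l₂‖ * ‖α₂‖ ^ 4 * ‖E2 (q l₁ * α₁ ^ 2) - E2 (q l₂ * α₂ ^ 2)‖
        ≤ (8 * C / y ^ 3) * a ^ 4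
          * (K * (8 * C * a ^ 2 * (‖l₁ - l₂‖ / y) + 8 * C * a * ‖α₁ - α₂‖)) :=
          mul_le_mul (mul_le_mul q2.2.1 (pow_le_pow_left₀ (norm_nonneg _) hα₂ 4) (by positivity)
            (by positivity)) ((hEl _ hx1 _ hx2).trans (mul_le_mul_of_nonneg_left hxd hKn))
            (norm_nonneg _) (by positivity)
      _ = 64 * C ^ 2 * a ^ 6 * K * (‖l₁ - l₂‖ / y ^ 4)
          + 64 * C ^ 2 * a ^ 5 * K * (‖α₁ - α₂‖ / y ^ 3) := by
        field_simp
        ring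
  have e : bb q l₁ α₁ - bb q l₂ α₂
      = (-1 / 2 : ℂ) * ((deriv q l₁ - deriv q l₂) * α₁ ^ 4 * E2 (q l₁ * α₁ ^ 2)
        + deriv q l₂ * (α₁ ^ 4 - α₂ ^ 4) * E2 (q l₁ * α₁ ^ 2)
        + deriv q l₂ * α₂ ^ 4 * (E2 (q l₁ * α₁ ^ 2) - E2 (q l₂ * α₂ ^ 2))) := by
    unfold bb
    ring
  obtain ⟨P, hP⟩ : ∃ P : ℝ, P = ‖l₁ - l₂‖ / y ^ 4 := ⟨_, rfl⟩
  obtain ⟨T, hT⟩ : ∃ T : ℝ, T = ‖α₁ - α₂‖ / y ^ 3 := ⟨_, rfl⟩
  have hP0 : 0 ≤ P := by rw [hP]; positivity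
  have hT0 : 0 ≤ T := by rw [hT]; positivity
  rw [← hP] at t1 t3
  rw [← hT] at t2 t3
  rw [e, norm_mul, ← hP, ← hT]
  have hh : ‖(-1 / 2 : ℂ)‖ ≤ 1 := by
    rw [norm_div, norm_neg, norm_one]
    norm_num
  have hs : ‖(deriv q l₁ - deriv q l₂) * α₁ ^ 4 * E2 (q l₁ * α₁ ^ 2)
        + deriv q l₂ * (α₁ ^ 4 - α₂ ^ 4) * E2 (q l₁ * α₁ ^ 2)
        + deriv q l₂ * α₂ ^ 4 * (E2 (q l₁ * α₁ ^ 2) - E2 (q l₂ * α₂ ^ 2))‖
      ≤ 32 * C * a ^ 4 * M * P + 32 * C * a ^ 3 * M * T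
        + (64 * C ^ 2 * a ^ 6 * K * P + 64 * C ^ 2 * a ^ 5 * K * T) :=
    norm_add₃_le.trans (add_le_add (add_le_add t1 t2) t3)
  refine (mul_le_of_le_one_left (norm_nonneg _) hh).trans (hs.trans ?_)
  have n1 : 0 ≤ 32 * C * a ^ 4 * M * T := by positivity
  have n2 : 0 ≤ 64 * C ^ 2 * a ^ 6 * K * T := by positivity
  have n3 : 0 ≤ 32 * C * a ^ 3 * M * P := by positivity
  have n4 : 0 ≤ 64 * C ^ 2 * a ^ 5 * K * P := by positivity
  nlinarith

/-- If `‖f'‖ ≤ - b'` on `[y₀, ∞)` and `f → 0`, `b → 0`, then `‖f‖ ≤ b`. -/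
private theorem FnC_tail {f f' : ℝ → ℂ} {b b' : ℝ → ℝ} {y0 : ℝ}
    (hf : ∀ y, y0 ≤ y → HasDerivAt f (f' y) y) (hb : ∀ y, y0 ≤ y → HasDerivAt b (b' y) y)
    (hfb : ∀ y, y0 ≤ y → ‖f' y‖ ≤ -b' y) (hf0 : Tendsto f atTop (𝓝 0))
    (hb0 : Tendsto b atTop (𝓝 0)) {y : ℝ} (hy : y0 ≤ y) : ‖f y‖ ≤ b y := by
  have key : ∀ z, y ≤ z → ‖f z - f y‖ ≤ b y - b z := by
    intro z hz
    refine image_norm_le_of_norm_deriv_right_le_deriv_boundary' (f := fun t => f t - f y)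
      (f' := f') (a := y) (b := z) (B := fun t => b y - b t) (B' := fun t => -b' t)
      ?_ ?_ ?_ ?_ ?_ ?_ (right_mem_Icc.2 hz)
    · intro t ht
      exact ((hf t (hy.trans ht.1)).sub_const _).continuousAt.continuousWithinAt
    · intro t ht
      exact ((hf t (hy.trans ht.1)).sub_const _).hasDerivWithinAt
    · simp
    · intro t ht
      exact ((hb t (hy.trans ht.1)).const_sub _).continuousAt.continuousWithinAt
    · intro t ht
      exact ((hb t (hy.trans ht.1)).const_sub _).hasDerivWithinAt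
    · intro t ht
      exact hfb t (hy.trans ht.1)
  have h1 : Tendsto (fun z => ‖f z - f y‖) atTop (𝓝 ‖0 - f y‖) :=
    (hf0.sub_const _).norm
  have h2 : Tendsto (fun z => b y - b z) atTop (𝓝 (b y - 0)) := hb0.const_sub _
  rw [zero_sub, norm_neg] at h1
  rw [sub_zero] at h2
  refine le_of_tendsto_of_tendsto h1 h2 ?_
  filter_upwards [eventually_ge_atTop y] with z hz using key z hz

/-- UNIQUENESS AT `- i ∞`. Two holomorphic solutions of the limit equation on a half plane, with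
values in the lower half plane, such that `lⱼ (- i y) + i y → 0` and `lⱼ' (- i y) → 1` for
`y → ∞`, agree.

Proof. `d y = l₁ (- i y) - l₂ (- i y)` for large real `y`; `‖d'' y‖ ≤ ‖γ‖⁻² C' (‖d‖ / (y/2)⁴ +
‖γ‖ ‖d'‖ / (y/2)³)` by `bb_lip` (the values are at depth `≥ y / 2`, the `αⱼ = γ lⱼ'` bounded). For
`y ≥ y₀` let `D₀`, `D₁` be the suprema of `‖d‖`, `‖d'‖` on `[y₀, ∞)` (finite: both tend to `0`).
Integrating from `∞`: `‖d' y‖ ≤ ∫_y^∞ ‖d''‖ ≤ C'' (D₀ / y³ + D₁ / y²)`,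
`‖d y‖ ≤ ∫_y^∞ ‖d'‖ ≤ C'' (D₀ / y² + D₁ / y)`. For `y₀` large: `D₀ + D₁ ≤ (D₀ + D₁) / 2`, so `d = 0` on
`[y₀, ∞)` (to avoid improper integrals: use `‖d' y‖ ≤ ‖d' z‖ + ∫_y^z` and let `z → ∞`). The identity
theorem on the half plane (the ray has accumulation points). -/
theorem asym_unique {q : ℂ → ℂ} (hq : DifferentiableOn ℂ q Hm) {C : ℝ}
    (hb : ∀ z : ℂ, z.im ≤ -1 → ‖q z‖ ≤ C / z.im ^ 2) {γ : ℂ} (hγ : γ ≠ 0) {M : ℝ}
    {l₁ l₂ : ℂ → ℂ} (h₁ : AnalyticOnNhd ℂ l₁ {z | z.im < -M})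
    (h₂ : AnalyticOnNhd ℂ l₂ {z | z.im < -M}) (m₁ : MapsTo l₁ {z | z.im < -M} Hm)
    (m₂ : MapsTo l₂ {z | z.im < -M} Hm)
    (e₁ : ∀ s : ℂ, s.im < -M → γ ^ 2 * deriv (deriv l₁) s = bb q (l₁ s) (γ * deriv l₁ s))
    (e₂ : ∀ s : ℂ, s.im < -M → γ ^ 2 * deriv (deriv l₂) s = bb q (l₂ s) (γ * deriv l₂ s))
    (a₁ : Tendsto (fun y : ℝ => l₁ (-(y * I)) + y * I) atTop (𝓝 0))
    (a₂ : Tendsto (fun y : ℝ => l₂ (-(y * I)) + y * I) atTop (𝓝 0))
    (b₁ : Tendsto (fun y : ℝ => deriv l₁ (-(y * I))) atTop (𝓝 1))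
    (b₂ : Tendsto (fun y : ℝ => deriv l₂ (-(y * I))) atTop (𝓝 1)) :
    EqOn l₁ l₂ {z | z.im < -M} := by
  obtain ⟨C', hC', hlip⟩ := bb_lip hq hb (2 * ‖γ‖)
  have hγ0 : 0 < ‖γ‖ := norm_pos_iff.2 hγ
  -- the difference and the difference of the derivatives
  obtain ⟨D, hD⟩ : ∃ D : ℝ → ℂ, D = fun y : ℝ => l₁ (-(y * I)) - l₂ (-(y * I)) := ⟨_, rfl⟩
  obtain ⟨E, hE⟩ : ∃ E : ℝ → ℂ,
    E = fun y : ℝ => deriv l₁ (-(y * I)) - deriv l₂ (-(y * I)) := ⟨_, rfl⟩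
  have hD0 : Tendsto D atTop (𝓝 0) := by
    have h := a₁.sub a₂
    rw [sub_zero] at h
    refine h.congr fun y => ?_
    rw [hD]
    ring
  have hE0 : Tendsto E atTop (𝓝 0) := by
    have h := b₁.sub b₂
    rw [sub_self] at h
    rw [hE]
    exact h
  have himy : ∀ y : ℝ, (-(y * I) : ℂ).im = -y := fun y => by simp
  have hpath : ∀ y : ℝ, HasDerivAt (fun y : ℝ => (-(y * I) : ℂ)) (-I) y := by
    intro y
    have h := ((hasDerivAt_id y).ofReal_comp.mul_const I).neg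
    have h' : HasDerivAt (fun y : ℝ => (-(y * I) : ℂ)) _ y := h
    refine h'.congr_deriv ?_
    simp
  have hDd : ∀ y : ℝ, M < y → HasDerivAt D (-(I * E y)) y := by
    intro y hy
    have hm : (-(y * I) : ℂ) ∈ {z : ℂ | z.im < -M} := by
      change (-(y * I) : ℂ).im < -M
      rw [himy]; linarith
    have e1 : HasDerivAt (fun y : ℝ => l₁ (-(y * I))) (deriv l₁ (-(y * I)) * (-I)) y :=
      HasDerivAt.comp y (h₂ := l₁) (h₁ _ hm).differentiableAt.hasDerivAt (hpath y)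
    have e2 : HasDerivAt (fun y : ℝ => l₂ (-(y * I))) (deriv l₂ (-(y * I)) * (-I)) y :=
      HasDerivAt.comp y (h₂ := l₂) (h₂ _ hm).differentiableAt.hasDerivAt (hpath y)
    rw [hD, hE]
    refine (e1.sub e2).congr_deriv ?_
    ring
  have hEd : ∀ y : ℝ, M < y → HasDerivAt E
      (-(I * (deriv (deriv l₁) (-(y * I)) - deriv (deriv l₂) (-(y * I))))) y := by
    intro y hy
    have hm : (-(y * I) : ℂ) ∈ {z : ℂ | z.im < -M} := by
      change (-(y * I) : ℂ).im < -M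
      rw [himy]; linarith
    have e1 : HasDerivAt (fun y : ℝ => deriv l₁ (-(y * I)))
        (deriv (deriv l₁) (-(y * I)) * (-I)) y :=
      HasDerivAt.comp y (h₂ := deriv l₁) (h₁ _ hm).deriv.differentiableAt.hasDerivAt (hpath y)
    have e2 : HasDerivAt (fun y : ℝ => deriv l₂ (-(y * I)))
        (deriv (deriv l₂) (-(y * I)) * (-I)) y :=
      HasDerivAt.comp y (h₂ := deriv l₂) (h₂ _ hm).deriv.differentiableAt.hasDerivAt (hpath y)
    rw [hE]
    refine (e1.sub e2).congr_deriv ?_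
    ring
  -- large `y`
  have hnear : ∀ {l : ℂ → ℂ}, Tendsto (fun y : ℝ => l (-(y * I)) + y * I) atTop (𝓝 0) →
      ∀ᶠ y : ℝ in atTop, (l (-(y * I))).im ≤ -y + 1 := by
    intro l hl
    have e1 : ∀ᶠ y : ℝ in atTop, ‖l (-(y * I)) + y * I‖ < 1 := by
      have := hl.norm
      rw [norm_zero] at this
      exact this.eventually_lt_const one_pos
    filter_upwards [e1] with y hy
    have e2 := (le_abs_self _).trans ((abs_im_le_norm (l (-(y * I)) + y * I)).trans hy.le)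
    have e3 : (l (-(y * I)) + y * I).im = (l (-(y * I))).im + y := by simp
    rw [e3] at e2
    linarith
  have hder : ∀ {l : ℂ → ℂ}, Tendsto (fun y : ℝ => deriv l (-(y * I))) atTop (𝓝 1) →
      ∀ᶠ y : ℝ in atTop, ‖γ * deriv l (-(y * I))‖ ≤ 2 * ‖γ‖ := by
    intro l hl
    have e1 : ∀ᶠ y : ℝ in atTop, ‖deriv l (-(y * I))‖ < 2 := by
      have := hl.norm
      rw [norm_one] at this
      exact this.eventually_lt_const (by norm_num)
    filter_upwards [e1] with y hy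
    rw [norm_mul, mul_comm]
    exact mul_le_mul_of_nonneg_right hy.le (norm_nonneg _)
  have hDb : ∀ᶠ y : ℝ in atTop, ‖D y‖ ≤ 1 := by
    have := hD0.norm
    rw [norm_zero] at this
    exact (this.eventually_lt_const one_pos).mono fun _ h => h.le
  have hEb : ∀ᶠ y : ℝ in atTop, ‖E y‖ ≤ 1 := by
    have := hE0.norm
    rw [norm_zero] at this
    exact (this.eventually_lt_const one_pos).mono fun _ h => h.le
  obtain ⟨K, hK⟩ : ∃ K : ℝ, K = (‖γ‖ ^ 2)⁻¹ * C' * (16 + 8 * ‖γ‖) := ⟨_, rfl⟩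
  have hK0 : 0 ≤ K := by rw [hK]; positivity
  obtain ⟨y0, hy0⟩ := eventually_atTop.1
    ((hnear a₁).and ((hnear a₂).and ((hder b₁).and ((hder b₂).and (hDb.and (hEb.and
      ((eventually_ge_atTop (4 : ℝ)).and ((eventually_gt_atTop M).and
        (eventually_ge_atTop (2 * K))))))))))
  -- one step
  have step : ∀ S : ℝ, 0 ≤ S → (∀ y, y0 ≤ y → ‖D y‖ ≤ S ∧ ‖E y‖ ≤ S) →
      ∀ y, y0 ≤ y → ‖D y‖ ≤ S / 2 ∧ ‖E y‖ ≤ S / 2 := by
    intro S hS hSb
    have hder2 : ∀ y, y0 ≤ y →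
        ‖-(I * (deriv (deriv l₁) (-(y * I)) - deriv (deriv l₂) (-(y * I))))‖ ≤ K * S / y ^ 3 := by
      intro y hy
      obtain ⟨n1, n2, g1, g2, -, -, hy4, hyM, -⟩ := hy0 y hy
      have hyp : 0 < y := by linarith
      have hm : (-(y * I) : ℂ).im < -M := by rw [himy]; linarith
      have e1 := e₁ _ hm
      have e2 := e₂ _ hm
      have hl := hlip (y / 2) (by linarith) (l₁ (-(y * I))) (l₂ (-(y * I)))
        (γ * deriv l₁ (-(y * I))) (γ * deriv l₂ (-(y * I))) (by linarith) (by linarith) g1 g2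
      rw [← e1, ← e2, ← mul_sub, norm_mul, norm_pow, ← mul_sub, norm_mul] at hl
      have hDy : ‖l₁ (-(y * I)) - l₂ (-(y * I))‖ ≤ S := by
        have := (hSb y hy).1
        rwa [hD] at this
      have hEy : ‖deriv l₁ (-(y * I)) - deriv l₂ (-(y * I))‖ ≤ S := by
        have := (hSb y hy).2
        rwa [hE] at this
      rw [norm_neg, norm_mul, norm_I, one_mul]
      have f1 : ‖l₁ (-(y * I)) - l₂ (-(y * I))‖ / (y / 2) ^ 4 ≤ 16 * S / y ^ 3 := by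
        rw [div_le_div_iff₀ (by positivity) (by positivity)]
        have f2 : y ^ 3 ≤ y ^ 4 := by
          have : y ^ 4 = y ^ 3 * y := by ring
          rw [this]
          exact le_mul_of_one_le_right (by positivity) (by linarith)
        calc ‖l₁ (-(y * I)) - l₂ (-(y * I))‖ * y ^ 3 ≤ S * y ^ 4 :=
              mul_le_mul hDy f2 (by positivity) hS
          _ = 16 * S * (y / 2) ^ 4 := by ring
      have f3 : ‖γ‖ * ‖deriv l₁ (-(y * I)) - deriv l₂ (-(y * I))‖ / (y / 2) ^ 3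
          ≤ 8 * ‖γ‖ * S / y ^ 3 := by
        rw [div_le_div_iff₀ (by positivity) (by positivity)]
        calc ‖γ‖ * ‖deriv l₁ (-(y * I)) - deriv l₂ (-(y * I))‖ * y ^ 3 ≤ ‖γ‖ * S * y ^ 3 := by
              gcongr
          _ = 8 * ‖γ‖ * S * (y / 2) ^ 3 := by ring
      have f4 : ‖γ‖ ^ 2 * ‖deriv (deriv l₁) (-(y * I)) - deriv (deriv l₂) (-(y * I))‖
          ≤ C' * (16 * S / y ^ 3 + 8 * ‖γ‖ * S / y ^ 3) :=
        hl.trans (mul_le_mul_of_nonneg_left (add_le_add f1 f3) hC'.le)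
      have f5 : ‖deriv (deriv l₁) (-(y * I)) - deriv (deriv l₂) (-(y * I))‖
          = (‖γ‖ ^ 2)⁻¹ *
            (‖γ‖ ^ 2 * ‖deriv (deriv l₁) (-(y * I)) - deriv (deriv l₂) (-(y * I))‖) := by
        rw [← mul_assoc, inv_mul_cancel₀ (by positivity), one_mul]
      rw [f5]
      refine (mul_le_mul_of_nonneg_left f4 (by positivity)).trans (le_of_eq ?_)
      rw [hK]
      ring
    have hEt : ∀ y, y0 ≤ y → ‖E y‖ ≤ K * S / 2 * (y ^ 2)⁻¹ := by
      intro y hy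
      refine FnC_tail (f' := fun y : ℝ =>
        -(I * (deriv (deriv l₁) (-(y * I)) - deriv (deriv l₂) (-(y * I)))))
        (b := fun y => K * S / 2 * (y ^ 2)⁻¹) (b' := fun y => -(K * S / y ^ 3)) (y0 := y0)
        ?_ ?_ ?_ hE0 ?_ hy
      · intro z hz
        exact hEd z (hy0 z hz).2.2.2.2.2.2.2.1
      · intro z hz
        have hz4 : 4 ≤ z := (hy0 z hz).2.2.2.2.2.2.1
        have hz0 : z ≠ 0 := by
          intro h
          rw [h] at hz4
          linarith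
        have h1 := ((hasDerivAt_pow 2 z).inv (pow_ne_zero 2 hz0)).const_mul (K * S / 2)
        refine h1.congr_deriv ?_
        push_cast
        field_simp
      · intro z hz
        rw [neg_neg]
        exact hder2 z hz
      · have h1 : Tendsto (fun y : ℝ => (y ^ 2)⁻¹) atTop (𝓝 0) :=
          (tendsto_pow_atTop (n := 2) (by norm_num)).inv_tendsto_atTop
        have h2 := h1.const_mul (K * S / 2)
        rwa [mul_zero] at h2
    have hDt : ∀ y, y0 ≤ y → ‖D y‖ ≤ K * S / 2 * y⁻¹ := by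
      intro y hy
      refine FnC_tail (f' := fun y : ℝ => -(I * E y))
        (b := fun y => K * S / 2 * y⁻¹) (b' := fun y => -(K * S / 2 * (y ^ 2)⁻¹)) (y0 := y0)
        ?_ ?_ ?_ hD0 ?_ hy
      · intro z hz
        exact hDd z (hy0 z hz).2.2.2.2.2.2.2.1
      · intro z hz
        have hz4 : 4 ≤ z := (hy0 z hz).2.2.2.2.2.2.1
        have hz0 : z ≠ 0 := by
          intro h
          rw [h] at hz4
          linarith
        have h1 := (hasDerivAt_inv hz0).const_mul (K * S / 2)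
        refine h1.congr_deriv ?_
        ring
      · intro z hz
        rw [neg_neg, norm_neg, norm_mul, norm_I, one_mul]
        exact hEt z hz
      · have h2 := (tendsto_inv_atTop_zero (𝕜 := ℝ)).const_mul (K * S / 2)
        rwa [mul_zero] at h2
    intro y hy
    obtain ⟨-, -, -, -, -, -, hy4, -, hy2K⟩ := hy0 y hy
    have hyp : 0 < y := by linarith
    have g1 : K * S / 2 * y⁻¹ ≤ S / 2 := by
      rw [← div_eq_mul_inv, div_le_iff₀ hyp]
      nlinarith [mul_nonneg hS (by linarith : 0 ≤ y - K)]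
    refine ⟨(hDt y hy).trans g1, (hEt y hy).trans (le_trans ?_ g1)⟩
    refine mul_le_mul_of_nonneg_left ?_ (by positivity)
    refine inv_anti₀ hyp ?_
    nlinarith
  have hall : ∀ n : ℕ, ∀ y, y0 ≤ y → ‖D y‖ ≤ (1 / 2) ^ n ∧ ‖E y‖ ≤ (1 / 2) ^ n := by
    intro n
    induction n with
    | zero =>
      intro y hy
      obtain ⟨-, -, -, -, g1, g2, -, -, -⟩ := hy0 y hy
      rw [pow_zero]
      exact ⟨g1, g2⟩
    | succ n ih =>
      intro y hy
      have h1 := step ((1 / 2) ^ n) (by positivity) ih y hy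
      have e : ((1 / 2 : ℝ)) ^ (n + 1) = (1 / 2) ^ n / 2 := by ring
      rw [e]
      exact h1
  have hDz : ∀ y, y0 ≤ y → D y = 0 := by
    intro y hy
    have h1 : Tendsto (fun n : ℕ => ((1 / 2 : ℝ)) ^ n) atTop (𝓝 0) :=
      tendsto_pow_atTop_nhds_zero_of_lt_one (by norm_num) (by norm_num)
    have h2 : ‖D y‖ ≤ 0 := ge_of_tendsto' h1 fun n => (hall n y hy).1
    exact norm_le_zero_iff.1 h2
  -- the identity theorem
  have hcv : IsPreconnected {z : ℂ | z.im < -M} := (convex_halfSpace_im_lt (-M)).isPreconnected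
  obtain ⟨y2, hy2⟩ : ∃ y2 : ℝ, y2 = y0 + 1 := ⟨_, rfl⟩
  have hm2 : (-(y2 * I) : ℂ) ∈ {z : ℂ | z.im < -M} := by
    change (-(y2 * I) : ℂ).im < -M
    rw [himy]
    have := (hy0 y2 (by linarith)).2.2.2.2.2.2.2.1
    linarith
  refine AnalyticOnNhd.eqOn_of_preconnected_of_frequently_eq h₁ h₂ hcv hm2 ?_
  have v1 : ∀ᶠ r : ℝ in 𝓝[≠] y2, l₁ (-(r * I)) = l₂ (-(r * I)) := by
    have h1 : ∀ᶠ r : ℝ in 𝓝 y2, y0 ≤ r := by
      refine (lt_mem_nhds (a := y0) (b := y2) (by linarith)).mono fun r hr => hr.le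
    filter_upwards [h1.filter_mono nhdsWithin_le_nhds] with r hr
    have h2 := hDz r hr
    rw [hD] at h2
    exact sub_eq_zero.1 h2
  have v2 : Tendsto (fun r : ℝ => (-(r * I) : ℂ)) (𝓝[≠] y2) (𝓝[≠] (-(y2 * I))) := by
    refine tendsto_nhdsWithin_of_tendsto_nhds_of_eventually_within _ ?_ ?_
    · have hc : Continuous fun r : ℝ => (-(r * I) : ℂ) := by fun_prop
      exact (hc.tendsto y2).mono_left nhdsWithin_le_nhds
    · filter_upwards [self_mem_nhdsWithin] with r hr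
      intro h
      apply hr
      have h3 := congrArg Complex.im h
      rw [himy, himy] at h3
      simp only [mem_singleton_iff]
      linarith
  exact v2.frequently v1.frequently

end Pool.Agent.MP_ae5b4e_an_M
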