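import Pool.Agent.Lib.MP_ae5b4e_an_M.ZA
import Pool.Agent.Lib.MP_ae5b4e_an_M.SB
import Pool.Agent.Lib.MP_ae5b4e_an_M.FnC

/-! # Section M: the limit equation (M7) and the first integral (M8) -/

noncomputable section

namespace Pool.Agent.MP_ae5b4e_an_M

open Complex Set Filter Topology Metric
open Pool.Agent.MP_ae5b4e_an_NBT (St Mer EqM)
open Pool.Agent.MP_ae5b4e_an_NB2 (Sys)
open Pool.Agent.MP_ae5b4e_an_N5 (NV)
open Pool.Agent.MP_ae5b4e_an_PB
open PorTR (Hm)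

/-- one step of the Taylor expansion with bounds -/
private theorem EqA_ds {F : ℂ → ℂ} {τ : ℂ} {δ M : ℝ} (hδ : 0 < δ)
    (hF : DifferentiableOn ℂ F (ball τ δ)) (hb : ∀ z ∈ ball τ δ, ‖F z‖ ≤ M) :
    DifferentiableOn ℂ (dslope F τ) (ball τ δ) ∧
      (∀ z ∈ ball τ δ, ‖dslope F τ z‖ ≤ (2 * M + 1) / δ) ∧
      ∀ z, F z = F τ + (z - τ) * dslope F τ z := by
  refine ⟨?_, fun z hz => ?_, fun z => ?_⟩
  · exact (Complex.differentiableOn_dslope (ball_mem_nhds τ hδ)).2 hF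
  · refine Complex.norm_dslope_le_div_of_mapsTo_ball hF (fun w hw => ?_) hz
    rw [mem_closedBall, dist_eq_norm]
    have h1 := norm_sub_le (F w) (F τ)
    have h2 := hb w hw
    have h3 := hb τ (mem_ball_self hδ)
    linarith
  · have h := sub_smul_dslope F τ z
    rw [smul_eq_mul] at h
    rw [h]
    ring

/-- the bound for the remainder -/
def EqA_C (δ M : ℝ) : ℝ := (2 * ((2 * ((2 * M + 1) / δ) + 1) / δ) + 1) / δ

private theorem EqA_tay {F : ℂ → ℂ} {τ : ℂ} {δ M : ℝ} (hδ : 0 < δ)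
    (hF : DifferentiableOn ℂ F (ball τ δ)) (hb : ∀ z ∈ ball τ δ, ‖F z‖ ≤ M) :
    ∃ D : ℂ → ℂ, (∀ z, F z = F τ + (z - τ) * deriv F τ +
      (z - τ) ^ 2 * (deriv (deriv F) τ / 2) + (z - τ) ^ 3 * D z) ∧
      ∀ z ∈ ball τ δ, ‖D z‖ ≤ EqA_C δ M := by
  obtain ⟨a1, a2, a3⟩ := EqA_ds hδ hF hb
  obtain ⟨b1, b2, b3⟩ := EqA_ds hδ a1 a2
  obtain ⟨c1, c2, c3⟩ := EqA_ds hδ b1 b2
  have e1 : dslope F τ τ = deriv F τ := dslope_same F τ
  have e2 : dslope (dslope F τ) τ τ = deriv (dslope F τ) τ := dslope_same _ τ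
  have hev : ∀ z ∈ ball τ δ, deriv F z = dslope F τ z + (z - τ) * deriv (dslope F τ) z := by
    intro z hz
    have h1 : HasDerivAt (dslope F τ) (deriv (dslope F τ) z) z :=
      (a1.differentiableAt (isOpen_ball.mem_nhds hz)).hasDerivAt
    have h2 : HasDerivAt (fun w => F τ + (w - τ) * dslope F τ w)
        (1 * dslope F τ z + (z - τ) * deriv (dslope F τ) z) z :=
      (((hasDerivAt_id z).sub_const τ).mul h1).const_add (F τ)
    have h3 : F = fun w => F τ + (w - τ) * dslope F τ w := funext a3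
    have h4 := h2.deriv
    rw [← h3] at h4
    rw [h4, one_mul]
  have h5 : deriv (deriv F) τ = 2 * deriv (dslope F τ) τ := by
    have h1 : HasDerivAt (dslope F τ) (deriv (dslope F τ) τ) τ :=
      (a1.differentiableAt (isOpen_ball.mem_nhds (mem_ball_self hδ))).hasDerivAt
    have h2 : HasDerivAt (deriv (dslope F τ)) (deriv (deriv (dslope F τ)) τ) τ :=
      ((a1.deriv isOpen_ball).differentiableAt
        (isOpen_ball.mem_nhds (mem_ball_self hδ))).hasDerivAt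
    have h3 : HasDerivAt (fun w => dslope F τ w + (w - τ) * deriv (dslope F τ) w)
        (deriv (dslope F τ) τ + (1 * deriv (dslope F τ) τ + (τ - τ) *
          deriv (deriv (dslope F τ)) τ)) τ :=
      h1.add (((hasDerivAt_id τ).sub_const τ).mul h2)
    have h4 : deriv F =ᶠ[𝓝 τ] fun w => dslope F τ w + (w - τ) * deriv (dslope F τ) w := by
      filter_upwards [ball_mem_nhds τ hδ] with z hz
      exact hev z hz
    rw [h4.deriv_eq, h3.deriv]
    ring
  refine ⟨dslope (dslope (dslope F τ) τ) τ, fun z => ?_, c2⟩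
  have k1 := a3 z
  have k2 := b3 z
  have k3 := c3 z
  rw [h5]
  rw [e1] at k2
  rw [e2] at k3
  rw [k1, k2, k3]
  ring

/-- `γ ∂_τ L_∞` -/
def al (L : ℂ × ℂ → ℂ) (h : ℝ) (U : Ultrafilter ℕ) (x c V : ℕ → ℝ) (p : ℂ × ℂ) : ℂ :=
  p.2 * deriv (fun s => LI L h U x c V (s, p.2)) p.1

variable {Y : Sys} {h R C0 : ℝ} {v : ℂ → ℝ} {G L : ℂ × ℂ → ℂ} {U : Ultrafilter ℕ} {β C1 : ℝ}
  {c V : ℕ → ℝ}

private theorem EqA_zero {e : ℕ → ℂ} {D : ℕ → ℂ} {C : ℝ} {U : Ultrafilter ℕ}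
    (he : Tendsto e U (𝓝 0)) (hD : ∀ᶠ n in (U : Filter ℕ), ‖D n‖ ≤ C) :
    Tendsto (fun n => e n * D n) U (𝓝 0) := by
  refine he.zero_mul_isBoundedUnder_le ⟨C, ?_⟩
  rw [Filter.eventually_map]
  exact hD

/-- second differences: for `p ∈ DI` and `ε = c n / V n`,
`(Ln (τ + ε γ) - Ln τ) / ε → γ ∂_τ LI`, `(Ln τ - Ln (τ - ε γ)) / ε → γ ∂_τ LI` and
`(Ln (τ + ε γ) - 2 Ln τ + Ln (τ - ε γ)) / ε² → γ² ∂_τ² LI` along `U`.

Proof. Taylor's formula for the analytic function `s ↦ Ln (τ + s, γ)` on a disc of fixed radius on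
which it is bounded (`Ln_bdd`): the third derivatives are bounded on the half disc, for almost all `n`
(Cauchy); the first and second derivatives at `τ` converge (`LI_deriv`); `ε → 0` (`eps_lim`). -/
theorem secdiff (hB : Base Y h R C0 v G L) (HW : Win v U β C1 c V) (x : ℕ → ℝ) {p : ℂ × ℂ}
    (hp : p ∈ DI v U c V) :
    Tendsto (fun n => (Ln L h x c V n (p.1 + (c n / V n : ℝ) * p.2, p.2) - Ln L h x c V n p) /
      ((c n / V n : ℝ) : ℂ)) U (𝓝 (al L h U x c V p)) ∧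
    Tendsto (fun n => (Ln L h x c V n p - Ln L h x c V n (p.1 - (c n / V n : ℝ) * p.2, p.2)) /
      ((c n / V n : ℝ) : ℂ)) U (𝓝 (al L h U x c V p)) ∧
    Tendsto (fun n => (Ln L h x c V n (p.1 + (c n / V n : ℝ) * p.2, p.2) -
      2 * Ln L h x c V n p + Ln L h x c V n (p.1 - (c n / V n : ℝ) * p.2, p.2)) /
      ((c n / V n : ℝ) : ℂ) ^ 2) U
      (𝓝 (p.2 ^ 2 * deriv (deriv fun s => LI L h U x c V (s, p.2)) p.1)) := by
  obtain ⟨τ, γ⟩ := p
  dsimp only [al]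
  obtain ⟨δ, hδ, M, hev⟩ := Ln_bdd hB HW hp
  -- abbreviations
  obtain ⟨e, he⟩ : ∃ e : ℕ → ℂ, e = fun n => ((c n / V n : ℝ) : ℂ) := ⟨_, rfl⟩
  obtain ⟨F, hF⟩ : ∃ F : ℕ → ℂ → ℂ, F = fun n s => Ln L h x c V n (s, γ) := ⟨_, rfl⟩
  have he0 : ∀ n, e n ≠ 0 := by
    intro n
    rw [he]
    simp only
    exact_mod_cast (div_pos (HW.c_pos n) (HW.V_pos n)).ne'
  have hel : Tendsto e U (𝓝 0) := by
    have h1 : Tendsto (fun n => ((c n / V n : ℝ) : ℂ)) U (𝓝 ((0 : ℝ) : ℂ)) :=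
      (Complex.continuous_ofReal.tendsto 0).comp (eps_lim HW)
    rw [he]
    simpa using h1
  have hmem : ∀ s ∈ ball τ δ, ((s, γ) : ℂ × ℂ) ∈ ball (τ, γ) δ := by
    intro s hs
    rw [mem_ball, Prod.dist_eq, dist_self]
    exact max_lt hs hδ
  -- Taylor
  have htay : ∀ n, ∃ D : ℂ → ℂ, (AnalyticOnNhd ℂ (Ln L h x c V n) (ball (τ, γ) δ) ∧
      ∀ q ∈ ball ((τ, γ) : ℂ × ℂ) δ, ‖Ln L h x c V n q‖ ≤ M) → (∀ z, F n z = F n τ +
      (z - τ) * deriv (F n) τ + (z - τ) ^ 2 * (deriv (deriv (F n)) τ / 2) + (z - τ) ^ 3 * D z) ∧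
      ∀ z ∈ ball τ δ, ‖D z‖ ≤ EqA_C δ M := by
    intro n
    by_cases hn : AnalyticOnNhd ℂ (Ln L h x c V n) (ball (τ, γ) δ) ∧
      ∀ q ∈ ball ((τ, γ) : ℂ × ℂ) δ, ‖Ln L h x c V n q‖ ≤ M
    · have h1 : DifferentiableOn ℂ (F n) (ball τ δ) := by
        intro s hs
        have h2 : AnalyticAt ℂ (Ln L h x c V n) (s, γ) := hn.1 _ (hmem s hs)
        have h3 : AnalyticAt ℂ (fun s : ℂ => ((s, γ) : ℂ × ℂ)) s :=
          analyticAt_id.prod analyticAt_const
        have h4 : AnalyticAt ℂ (F n) s := by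
          rw [hF]
          exact AnalyticAt.fun_comp h2 h3
        exact h4.differentiableAt.differentiableWithinAt
      have h5 : ∀ z ∈ ball τ δ, ‖F n z‖ ≤ M := by
        intro z hz
        rw [hF]
        exact hn.2 _ (hmem z hz)
      obtain ⟨D, hD⟩ := EqA_tay hδ h1 h5
      exact ⟨D, fun _ => hD⟩
    · exact ⟨fun _ => 0, fun h1 => absurd h1 hn⟩
  choose D hD using htay
  have hgood : ∀ᶠ n in (U : Filter ℕ), AnalyticOnNhd ℂ (Ln L h x c V n) (ball (τ, γ) δ) ∧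
      ∀ q ∈ ball ((τ, γ) : ℂ × ℂ) δ, ‖Ln L h x c V n q‖ ≤ M := by
    filter_upwards [hev] with n hn
    exact (hn x).2
  have hsmall : ∀ᶠ n in (U : Filter ℕ), ‖e n * γ‖ < δ := by
    have h1 : Tendsto (fun n => ‖e n * γ‖) U (𝓝 ‖(0 : ℂ) * γ‖) := (hel.mul_const γ).norm
    rw [zero_mul, norm_zero] at h1
    exact h1.eventually (gt_mem_nhds hδ)
  have hK : IsCompact ({(τ, γ)} : Set (ℂ × ℂ)) := isCompact_singleton
  have hKD : ({(τ, γ)} : Set (ℂ × ℂ)) ⊆ DI v U c V := by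
    rintro _ rfl
    exact hp
  have hA1 : Tendsto (fun n => deriv (F n) τ) U
      (𝓝 (deriv (fun s => LI L h U x c V (s, γ)) τ)) := by
    rw [Metric.tendsto_nhds]
    intro ε hε
    filter_upwards [LI_deriv hB HW x hK hKD hε] with n hn
    have h1 := (hn (τ, γ) rfl).2.1
    rw [dist_eq_norm, hF]
    exact h1
  have hA2 : Tendsto (fun n => deriv (deriv (F n)) τ) U
      (𝓝 (deriv (deriv fun s => LI L h U x c V (s, γ)) τ)) := by
    rw [Metric.tendsto_nhds]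
    intro ε hε
    filter_upwards [LI_deriv hB HW x hK hKD hε] with n hn
    have h1 := (hn (τ, γ) rfl).2.2
    rw [dist_eq_norm, hF]
    exact h1
  have hmp : ∀ n, ‖e n * γ‖ < δ → τ + e n * γ ∈ ball τ δ ∧ τ - e n * γ ∈ ball τ δ := by
    intro n hn
    rw [mem_ball, mem_ball, dist_eq_norm, dist_eq_norm]
    constructor
    · rw [add_sub_cancel_left]
      exact hn
    · rw [sub_sub_cancel_left, norm_neg]
      exact hn
  have hDp : ∀ᶠ n in (U : Filter ℕ), ‖D n (τ + e n * γ)‖ ≤ EqA_C δ M := by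
    filter_upwards [hgood, hsmall] with n h1 h2
    exact (hD n h1).2 _ (hmp n h2).1
  have hDm : ∀ᶠ n in (U : Filter ℕ), ‖D n (τ - e n * γ)‖ ≤ EqA_C δ M := by
    filter_upwards [hgood, hsmall] with n h1 h2
    exact (hD n h1).2 _ (hmp n h2).2
  have hzp : Tendsto (fun n => e n * D n (τ + e n * γ)) U (𝓝 0) := EqA_zero hel hDp
  have hzm : Tendsto (fun n => e n * D n (τ - e n * γ)) U (𝓝 0) := EqA_zero hel hDm
  have hep : ∀ᶠ n in (U : Filter ℕ), F n (τ + e n * γ) = F n τ + e n * γ * deriv (F n) τ +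
      (e n * γ) ^ 2 * (deriv (deriv (F n)) τ / 2) + (e n * γ) ^ 3 * D n (τ + e n * γ) := by
    filter_upwards [hgood] with n h1
    have h2 := (hD n h1).1 (τ + e n * γ)
    rw [add_sub_cancel_left] at h2
    exact h2
  have hem : ∀ᶠ n in (U : Filter ℕ), F n (τ - e n * γ) = F n τ - e n * γ * deriv (F n) τ +
      (e n * γ) ^ 2 * (deriv (deriv (F n)) τ / 2) - (e n * γ) ^ 3 * D n (τ - e n * γ) := by
    filter_upwards [hgood] with n h1
    have h2 := (hD n h1).1 (τ - e n * γ)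
    rw [sub_sub_cancel_left] at h2
    rw [h2]
    ring
  have hre : ∀ n, ((c n / V n : ℝ) : ℂ) = e n := fun n => by rw [he]
  have hrF : ∀ n s, Ln L h x c V n (s, γ) = F n s := fun n s => by rw [hF]
  simp only [hre, hrF]
  refine ⟨?_, ?_, ?_⟩
  · have h1 : Tendsto (fun n => γ * deriv (F n) τ + e n * (γ ^ 2 * (deriv (deriv (F n)) τ / 2)) +
        e n * (γ ^ 3 * (e n * D n (τ + e n * γ)))) U
        (𝓝 (γ * deriv (fun s => LI L h U x c V (s, γ)) τ + 0 * (γ ^ 2 *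
          (deriv (deriv fun s => LI L h U x c V (s, γ)) τ / 2)) + 0 * (γ ^ 3 * 0))) :=
      ((hA1.const_mul γ).add (hel.mul ((hA2.div_const 2).const_mul _))).add
        (hel.mul (hzp.const_mul _))
    have h2 : γ * deriv (fun s => LI L h U x c V (s, γ)) τ + 0 * (γ ^ 2 *
        (deriv (deriv fun s => LI L h U x c V (s, γ)) τ / 2)) + 0 * (γ ^ 3 * 0) =
        γ * deriv (fun s => LI L h U x c V (s, γ)) τ := by ring
    rw [h2] at h1
    refine h1.congr' ?_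
    filter_upwards [hep] with n hn
    rw [hn, eq_div_iff (he0 n)]
    ring
  · have h1 : Tendsto (fun n => γ * deriv (F n) τ - e n * (γ ^ 2 * (deriv (deriv (F n)) τ / 2)) +
        e n * (γ ^ 3 * (e n * D n (τ - e n * γ)))) U
        (𝓝 (γ * deriv (fun s => LI L h U x c V (s, γ)) τ - 0 * (γ ^ 2 *
          (deriv (deriv fun s => LI L h U x c V (s, γ)) τ / 2)) + 0 * (γ ^ 3 * 0))) :=
      ((hA1.const_mul γ).sub (hel.mul ((hA2.div_const 2).const_mul _))).add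
        (hel.mul (hzm.const_mul _))
    have h2 : γ * deriv (fun s => LI L h U x c V (s, γ)) τ - 0 * (γ ^ 2 *
        (deriv (deriv fun s => LI L h U x c V (s, γ)) τ / 2)) + 0 * (γ ^ 3 * 0) =
        γ * deriv (fun s => LI L h U x c V (s, γ)) τ := by ring
    rw [h2] at h1
    refine h1.congr' ?_
    filter_upwards [hem] with n hn
    rw [hn, eq_div_iff (he0 n)]
    ring
  · have h1 : Tendsto (fun n => γ ^ 2 * deriv (deriv (F n)) τ +
        γ ^ 3 * (e n * D n (τ + e n * γ)) - γ ^ 3 * (e n * D n (τ - e n * γ))) U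
        (𝓝 (γ ^ 2 * (deriv (deriv fun s => LI L h U x c V (s, γ)) τ) + γ ^ 3 * 0 - γ ^ 3 * 0)) :=
      ((hA2.const_mul _).add (hzp.const_mul _)).sub (hzm.const_mul _)
    have h2 : γ ^ 2 * (deriv (deriv fun s => LI L h U x c V (s, γ)) τ) + γ ^ 3 * 0 - γ ^ 3 * 0 =
        γ ^ 2 * (deriv (deriv fun s => LI L h U x c V (s, γ)) τ) := by ring
    rw [h2] at h1
    refine h1.congr' ?_
    filter_upwards [hep, hem] with n hn hn'
    rw [hn, hn', eq_div_iff (pow_ne_zero 2 (he0 n))]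
    ring


private theorem EqA_On_mono {Z : Sys} {S T : Set ℂ} (h : Z.On T) (hST : S ⊆ T) : Z.On S :=
  ⟨fun z hz => h.d1 z (hST hz), fun z hz => h.d1' z (hST hz), fun z hz => h.d2 z (hST hz),
    fun z hz => h.d2' z (hST hz), fun z hz => h.wr z (hST hz)⟩

/-- (M7) THE LIMIT EQUATION.

Proof. `ε = c n / V n`, `l = Ln (τ, γ)`, `α = (Ln τ - Ln (τ - ε γ)) / ε`,
`α' = (Ln (τ + ε γ) - Ln τ) / ε`. By `secdiff`, `l → LI p =: l₀`, `α → al p =: α₀`, `α' - α = O (ε)`, and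
`(α' - α) / ε → γ² ∂_τ² LI`. Let `4 d = - Im l₀`, `K = closedBall l₀ d`, `R = ‖α₀‖ + 1`; `step_gen` gives
`ρ₀`; let `η > 0` and `δ₀` as there. For almost all `n`: `l ∈ K`, `‖α‖ ≤ R`, `ε ≤ δ₀`, the hypotheses on
`Z = Zn` hold on the balls of radius `d` about the points of `K` (`Zn_on`, `Zn_lim` for the compact set
`closedBall l₀ (2 d)`), and `Pn Z l (l - ε α) (ε α') = 0` by `Zn_Pn` (`l - ε α = Ln (τ - ε γ)`,
`ε α' = Ln (τ + ε γ) - l`; the three points are in the label domain by `mem_DKU` for a small closed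
ball about `p`), `‖α' - α‖ ≤ ρ₀`. So `‖(α' - α) / ε - bb qI l α‖ ≤ η`; limit:
`‖γ² ∂_τ² LI - bb qI l₀ α₀‖ ≤ η` (`bb qI` is continuous, `bb_an`, `qI_hol`). -/
theorem LI_eq (hB : Base Y h R C0 v G L) (HW : Win v U β C1 c V) (x : ℕ → ℝ) {p : ℂ × ℂ}
    (hp : p ∈ DI v U c V) :
    p.2 ^ 2 * deriv (deriv fun s => LI L h U x c V (s, p.2)) p.1 =
      bb (qI Y h U x c V) (LI L h U x c V p) (al L h U x c V p) := by
  obtain ⟨s1, s2, s3⟩ := secdiff hB HW x hp
  obtain ⟨τ, γ⟩ := p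
  obtain ⟨q, hq⟩ : ∃ q : ℂ → ℂ, q = qI Y h U x c V := ⟨_, rfl⟩
  obtain ⟨l₀, hl₀⟩ : ∃ l : ℂ, l = LI L h U x c V (τ, γ) := ⟨_, rfl⟩
  obtain ⟨α₀, hα₀⟩ : ∃ a : ℂ, a = al L h U x c V (τ, γ) := ⟨_, rfl⟩
  rw [← hq, ← hl₀, ← hα₀]
  rw [← hα₀] at s1 s2
  have hqh : DifferentiableOn ℂ q Hm := by
    rw [hq]
    exact qI_hol hB HW x
  have hl₀H : l₀.im < 0 := by
    have h1 := LI_Hm hB HW x hp
    rw [← hl₀] at h1
    exact h1
  obtain ⟨d, hd⟩ : ∃ d : ℝ, d = -l₀.im / 4 := ⟨_, rfl⟩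
  have hd0 : 0 < d := by
    rw [hd]
    linarith
  have him : ∀ r : ℝ, ∀ z ∈ closedBall l₀ r, z.im ≤ l₀.im + r := by
    intro r z hz
    rw [mem_closedBall, dist_eq_norm] at hz
    have h1 := (abs_le.1 (abs_im_le_norm (z - l₀))).2
    rw [sub_im] at h1
    linarith
  have hKd : ∀ l ∈ closedBall l₀ d, l.im ≤ -(2 * d) := by
    intro l hl
    have h1 := him d l hl
    linarith
  have hR1 : (1 : ℝ) ≤ ‖α₀‖ + 1 := by
    have := norm_nonneg α₀
    linarith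
  obtain ⟨ρ₀, hρ0, -, H⟩ := step_gen hqh (isCompact_closedBall l₀ d) hd0 hKd hR1
  -- abbreviations
  obtain ⟨e, he⟩ : ∃ e : ℕ → ℝ, e = fun n => c n / V n := ⟨_, rfl⟩
  have hre : ∀ n, c n / V n = e n := fun n => by rw [he]
  simp only [hre] at s1 s2 s3
  have he0 : ∀ n, 0 < e n := by
    intro n
    rw [he]
    exact div_pos (HW.c_pos n) (HW.V_pos n)
  have hec : ∀ n, (e n : ℂ) ≠ 0 := fun n => by exact_mod_cast (he0 n).ne'
  have hel : Tendsto e U (𝓝 0) := by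
    rw [he]
    exact eps_lim HW
  obtain ⟨l, hl⟩ : ∃ l : ℕ → ℂ, l = fun n => Ln L h x c V n (τ, γ) := ⟨_, rfl⟩
  obtain ⟨α, hα⟩ : ∃ a : ℕ → ℂ, a = fun n => (Ln L h x c V n (τ, γ) -
    Ln L h x c V n (τ - (e n : ℂ) * γ, γ)) / (e n : ℂ) := ⟨_, rfl⟩
  obtain ⟨α', hα'⟩ : ∃ a : ℕ → ℂ, a = fun n => (Ln L h x c V n (τ + (e n : ℂ) * γ, γ) -
    Ln L h x c V n (τ, γ)) / (e n : ℂ) := ⟨_, rfl⟩
  have hlt : Tendsto l U (𝓝 l₀) := by
    rw [Metric.tendsto_nhds]
    intro ε hε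
    have hKD : ({(τ, γ)} : Set (ℂ × ℂ)) ⊆ DI v U c V := by
      rintro _ rfl
      exact hp
    filter_upwards [LI_deriv hB HW x isCompact_singleton hKD hε] with n hn
    have h1 := (hn (τ, γ) rfl).1
    rw [dist_eq_norm, hl, hl₀]
    exact h1
  have hαt : Tendsto α U (𝓝 α₀) := by
    rw [hα]
    exact s2
  have hα't : Tendsto α' U (𝓝 α₀) := by
    rw [hα']
    exact s1
  have hst : Tendsto (fun n => (α' n - α n) / (e n : ℂ)) U
      (𝓝 (γ ^ 2 * deriv (deriv fun s => LI L h U x c V (s, γ)) τ)) := by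
    refine s3.congr fun n => ?_
    rw [hα', hα]
    have h1 := hec n
    field_simp
    ring
  have hbbc : Tendsto (fun n => bb q (l n) (α n)) U (𝓝 (bb q l₀ α₀)) := by
    have h1 : ContinuousAt (fun p : ℂ × ℂ => bb q p.1 p.2) (l₀, α₀) :=
      (bb_an hqh (l₀, α₀) ⟨hl₀H, mem_univ _⟩).continuousAt
    have h2 : Tendsto (fun n => (l n, α n)) U (𝓝 (l₀, α₀)) := hlt.prodMk_nhds hαt
    have h3 : Tendsto ((fun p : ℂ × ℂ => bb q p.1 p.2) ∘ fun n => (l n, α n)) U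
        (𝓝 (bb q l₀ α₀)) := Filter.Tendsto.comp h1 h2
    exact h3
  -- it is enough to bound the distance
  have key : ∀ η : ℝ, 0 < η →
      ‖γ ^ 2 * deriv (deriv fun s => LI L h U x c V (s, γ)) τ - bb q l₀ α₀‖ ≤ η := by
    intro η hη
    obtain ⟨δ₀, hδ₀, Hη⟩ := H η hη
    have hlim : Tendsto (fun n => ‖(α' n - α n) / (e n : ℂ) - bb q (l n) (α n)‖) U
        (𝓝 ‖γ ^ 2 * deriv (deriv fun s => LI L h U x c V (s, γ)) τ - bb q l₀ α₀‖) :=
      (hst.sub hbbc).norm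
    refine le_of_tendsto hlim ?_
    have hK2 : closedBall l₀ (2 * d) ⊆ Hm := by
      intro z hz
      have h1 := him (2 * d) z hz
      show z.im < 0
      linarith
    obtain ⟨δ, hδ, M, hev⟩ := Ln_bdd hB HW hp
    have hsmall : ∀ᶠ n in (U : Filter ℕ), e n * ‖γ‖ < δ := lim_lt hel _ hδ
    have hδ₀' : ∀ᶠ n in (U : Filter ℕ), e n < δ₀ := hel.eventually (gt_mem_nhds hδ₀)
    have hαR : ∀ᶠ n in (U : Filter ℕ), ‖α n‖ < ‖α₀‖ + 1 :=
      hαt.norm.eventually (gt_mem_nhds (by linarith))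
    have hαρ : ∀ᶠ n in (U : Filter ℕ), ‖α' n - α n‖ < ρ₀ := by
      have h1 := (hα't.sub hαt).norm
      rw [sub_self, norm_zero] at h1
      exact h1.eventually (gt_mem_nhds hρ0)
    have hlK : ∀ᶠ n in (U : Filter ℕ), l n ∈ closedBall l₀ d := by
      filter_upwards [hlt.eventually (closedBall_mem_nhds l₀ hd0)] with n hn
      exact hn
    filter_upwards [Zn_lim hB HW x (isCompact_closedBall l₀ (2 * d)) hK2 hδ₀, hev, hsmall, hδ₀',
      hαR, hαρ, hlK] with n n1 n2 n3 n4 n5 n6 n7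
    have hsub : ∀ l ∈ closedBall l₀ d, ball l d ⊆ closedBall l₀ (2 * d) := by
      intro l hl z hz
      rw [mem_closedBall] at hl ⊢
      rw [mem_ball] at hz
      have := dist_triangle z l l₀
      linarith
    have hOn : ∀ l ∈ closedBall l₀ d, (Zn Y h x V n).On (ball l d) := by
      intro l hl
      refine EqA_On_mono (Zn_on hB.h_pos (HW.V_pos n) hB.on) ?_
      intro z hz
      exact ⟨hK2 (hsub l hl hz), n1.1 z (hsub l hl hz)⟩
    have hQ : ∀ l ∈ closedBall l₀ d, ∀ z ∈ ball l d,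
        ‖((e n : ℝ) : ℂ) ^ 2 * (Zn Y h x V n).Q z - q z‖ ≤ δ₀ := by
      intro l hl z hz
      have h1 := n1.2 z (hsub l hl hz)
      rw [hre, ← hq] at h1
      exact h1.le
    have hmem : ∀ s : ℂ, ‖s - τ‖ < δ → ((s, γ) : ℂ × ℂ) ∈ ball (τ, γ) δ := by
      intro s hs
      rw [mem_ball, Prod.dist_eq, dist_self, dist_eq_norm]
      exact max_lt hs hδ
    have hns : ‖(e n : ℂ) * γ‖ < δ := by
      rw [norm_mul, Complex.norm_real, Real.norm_eq_abs, abs_of_pos (he0 n)]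
      exact n3
    have m0 := (n2 x).1 (τ, γ) (mem_ball_self hδ)
    have m1 := (n2 x).1 (τ + (e n : ℂ) * γ, γ) (hmem _ (by rw [add_sub_cancel_left]; exact hns))
    have m2 := (n2 x).1 (τ - (e n : ℂ) * γ, γ)
      (hmem _ (by rw [sub_sub_cancel_left, norm_neg]; exact hns))
    have hP := Zn_Pn hB HW n x m0 (by rw [hre]; exact m1) (by rw [hre]; exact m2)
    rw [hre] at hP
    have hP' : Pool.Agent.MP_ae5b4e_an_NB5.Pn (Zn Y h x V n) (l n) (l n - (e n : ℂ) * α n)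
        ((e n : ℂ) * α' n) = 0 := by
      have h1 : l n - (e n : ℂ) * α n = Ln L h x c V n (τ - (e n : ℂ) * γ, γ) := by
        rw [hl, hα]
        simp only
        rw [mul_div_cancel₀ _ (hec n)]
        ring
      have h2 : (e n : ℂ) * α' n = Ln L h x c V n (τ + (e n : ℂ) * γ, γ) -
          Ln L h x c V n (τ, γ) := by
        rw [hα']
        simp only
        rw [mul_div_cancel₀ _ (hec n)]
      rw [h1, h2, hl]
      exact hP
    have hfin := (Hη (Zn Y h x V n) (e n) (he0 n) n4.le hOn hQ (l n) n7 (α n) n5.le).2 (α' n)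
      n6.le hP'
    have h3 : (α' n - α n) / (e n : ℂ) - bb q (l n) (α n) =
        (α' n - α n - (e n : ℂ) * bb q (l n) (α n)) / (e n : ℂ) := by
      rw [eq_div_iff (hec n), sub_mul, div_mul_cancel₀ _ (hec n)]
      ring
    rw [h3, norm_div, Complex.norm_real, Real.norm_eq_abs, abs_of_pos (he0 n),
      div_le_iff₀ (he0 n)]
    linarith
  have h0 : ‖γ ^ 2 * deriv (deriv fun s => LI L h U x c V (s, γ)) τ - bb q l₀ α₀‖ ≤ 0 :=
    le_of_forall_pos_le_add fun η hη => by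
      rw [zero_add]
      exact key η hη
  exact sub_eq_zero.1 (norm_le_zero_iff.1 h0)


private theorem EqA_Rg (HW : Win v U β C1 c V) {y : ℝ} (hy : 2 * C1 ≤ y) :
    Rg β C1 y = y / (2 * C1) := by
  have hC : 0 < C1 := by linarith [HW.C1_one]
  have h1 : 1 ≤ y / (2 * C1) := by
    rw [le_div_iff₀ (by positivity)]
    linarith
  have h2 : 1 ≤ 1 / β := by
    rw [le_div_iff₀ HW.β_pos]
    linarith [HW.β_le]
  exact min_eq_left (Real.self_le_rpow_of_one_le h1 h2)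

private theorem EqA_est (hB : Base Y h R C0 v G L) (HW : Win v U β C1 c V) (x : ℕ → ℝ)
    {τ γ : ℂ} (hy : 2 * C1 ≤ -τ.im) (hγ : 4 * C1 * ‖γ‖ < -τ.im) :
    (τ, γ) ∈ DI v U c V ∧
      ‖LI L h U x c V (τ, γ) - τ‖ ≤ 32 * C1 ^ 2 * ‖γ‖ ^ 2 / (-τ.im) := by
  have hC : 0 < C1 := by linarith [HW.C1_one]
  have hy0 : 0 < -τ.im := by linarith
  have hR := EqA_Rg HW hy
  have h1 : ‖γ‖ < Rg β C1 (-τ.im) / 2 := by
    rw [hR, div_div, lt_div_iff₀ (by positivity)]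
    linarith
  obtain ⟨h2, h3⟩ := LI_est hB HW x (by linarith) h1
  refine ⟨h2, h3.trans (le_of_eq ?_)⟩
  rw [hR]
  field_simp
  ring

private theorem EqA_an (hB : Base Y h R C0 v G L) (HW : Win v U β C1 c V) (x : ℕ → ℝ)
    {s γ : ℂ} (hs : (s, γ) ∈ DI v U c V) :
    AnalyticAt ℂ (fun s => LI L h U x c V (s, γ)) s := by
  have h2 : AnalyticAt ℂ (LI L h U x c V) (s, γ) := LI_an hB HW x _ hs
  have h3 : AnalyticAt ℂ (fun s : ℂ => ((s, γ) : ℂ × ℂ)) s := analyticAt_id.prod analyticAt_const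
  exact AnalyticAt.fun_comp h2 h3

/-- asymptotics of the limit label at `- i ∞`: `LI (τ, γ) - τ → 0`, `∂_τ LI → 1` for
`Im τ → - ∞`, uniformly in `Re τ`.

Proof. For `y = - Im τ ≥ 2 C1`: `Rg y = y / (2 C1)` (`β ≤ 1`), and `LI_est`:
`‖LI - τ‖ ≤ 32 C1² ‖γ‖² / y` as soon as `‖γ‖ < y / (4 C1)`; Cauchy's estimate on the disc of radius
`y / 2` for the derivative: `‖∂_τ LI - 1‖ ≤ 128 C1² ‖γ‖² / y²`. -/
theorem LI_asym (hB : Base Y h R C0 v G L) (HW : Win v U β C1 c V) (x : ℕ → ℝ) (γ : ℂ) {ε : ℝ}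
    (hε : 0 < ε) : ∃ M : ℝ, 0 < M ∧ ∀ τ : ℂ, τ.im < -M → (τ, γ) ∈ DI v U c V ∧
      ‖LI L h U x c V (τ, γ) - τ‖ < ε ∧ ‖deriv (fun s => LI L h U x c V (s, γ)) τ - 1‖ < ε := by
  have hC : 0 < C1 := by linarith [HW.C1_one]
  obtain ⟨g, hg⟩ : ∃ g : ℝ, g = ‖γ‖ := ⟨_, rfl⟩
  have hg0 : 0 ≤ g := by rw [hg]; exact norm_nonneg γ
  have hA : 0 ≤ 128 * C1 ^ 2 * g ^ 2 / ε := by positivity
  have hCg : 0 ≤ 8 * C1 * g := by positivity
  refine ⟨4 * C1 + 8 * C1 * g + 128 * C1 ^ 2 * g ^ 2 / ε + 1, by positivity, fun τ hτ => ?_⟩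
  obtain ⟨y, hy⟩ : ∃ y : ℝ, y = -τ.im := ⟨_, rfl⟩
  have hy1 : 4 * C1 + 8 * C1 * g + 128 * C1 ^ 2 * g ^ 2 / ε + 1 < y := by rw [hy]; linarith
  have hy0 : 1 < y := by linarith
  have hyA : 128 * C1 ^ 2 * g ^ 2 < y * ε := by
    rw [← div_lt_iff₀ hε]
    linarith
  have hest : ∀ s : ℂ, y / 2 ≤ -s.im → (s, γ) ∈ DI v U c V ∧
      ‖LI L h U x c V (s, γ) - s‖ ≤ 32 * C1 ^ 2 * g ^ 2 / (-s.im) := by
    intro s hs
    rw [hg]
    refine EqA_est hB HW x (by linarith) ?_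
    rw [← hg]
    linarith
  obtain ⟨h1, h2⟩ := hest τ (by rw [← hy]; linarith)
  refine ⟨h1, ?_, ?_⟩
  · refine lt_of_le_of_lt h2 ?_
    rw [← hy, div_lt_iff₀ (by linarith)]
    nlinarith [mul_nonneg (sq_nonneg C1) (sq_nonneg g)]
  · have h3 : ∀ s ∈ closedBall τ (y / 2), y / 2 ≤ -s.im := by
      intro s hs
      rw [mem_closedBall, dist_eq_norm] at hs
      have h4 := (abs_le.1 (abs_im_le_norm (s - τ))).2
      rw [sub_im] at h4
      linarith
    have h5 : DifferentiableOn ℂ (fun s => LI L h U x c V (s, γ) - s) (closedBall τ (y / 2)) := by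
      intro s hs
      exact ((EqA_an hB HW x (hest s (h3 s hs)).1).differentiableAt.sub
        differentiableAt_id).differentiableWithinAt
    have h6 : ∀ s ∈ sphere τ (y / 2), ‖LI L h U x c V (s, γ) - s‖ ≤
        64 * C1 ^ 2 * g ^ 2 / y := by
      intro s hs
      have h7 := h3 s (sphere_subset_closedBall hs)
      refine (hest s h7).2.trans ?_
      rw [div_le_div_iff₀ (by linarith) (by linarith)]
      nlinarith [mul_nonneg (sq_nonneg C1) (sq_nonneg g)]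
    have h8 := Complex.norm_deriv_le_of_forall_mem_sphere_norm_le (by linarith : 0 < y / 2)
      (h5.diffContOnCl_ball subset_rfl) h6
    have h9 : deriv (fun s => LI L h U x c V (s, γ) - s) τ =
        deriv (fun s => LI L h U x c V (s, γ)) τ - 1 := by
      have h10 := ((EqA_an hB HW x h1).differentiableAt.hasDerivAt.sub (hasDerivAt_id τ)).deriv
      exact h10
    rw [h9] at h8
    refine lt_of_le_of_lt h8 ?_
    have h11 : 64 * C1 ^ 2 * g ^ 2 / y / (y / 2) = 128 * C1 ^ 2 * g ^ 2 / y ^ 2 := by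
      field_simp
      ring
    rw [h11, div_lt_iff₀ (by positivity)]
    have h12 : y * ε ≤ y ^ 2 * ε := by
      have : y ≤ y ^ 2 := by nlinarith
      exact mul_le_mul_of_nonneg_right this hε.le
    linarith

private theorem EqA_q (hB : Base Y h R C0 v G L) (HW : Win v U β C1 c V) (x : ℕ → ℝ) {z : ℂ}
    (hz : z.im ≤ -1) : ‖qI Y h U x c V z‖ ≤ C3f β C1 / z.im ^ 2 := by
  have hy : 1 ≤ -z.im := by linarith
  have h1 := qI_bound hB HW x (l := z) (show z.im < 0 by linarith)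
  refine h1.trans (le_of_eq ?_)
  have h2 : (-z.im) ^ (-(2 : ℝ) / β) ≤ (-z.im) ^ (-(2 : ℝ)) := by
    refine Real.rpow_le_rpow_of_exponent_le hy ?_
    rw [div_le_iff₀ HW.β_pos]
    nlinarith [HW.β_le]
  have h3 : (-z.im) ^ (-(2 : ℝ)) = (z.im ^ 2)⁻¹ := by
    rw [Real.rpow_neg (by linarith), Real.rpow_two, neg_sq]
  unfold gr
  rw [max_eq_left h2, h3, div_eq_mul_inv]

private theorem EqA_t1 (hB : Base Y h R C0 v G L) (HW : Win v U β C1 c V) (x : ℕ → ℝ) (γ : ℂ) :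
    Tendsto (fun y : ℝ => LI L h U x c V (-(y * I), γ) + y * I) atTop (𝓝 0) := by
  rw [Metric.tendsto_nhds]
  intro ε hε
  obtain ⟨M, -, hM⟩ := LI_asym hB HW x γ hε
  filter_upwards [eventually_gt_atTop M] with y hy
  have h1 := (hM (-(y * I)) (by simp; exact hy)).2.1
  rw [dist_zero_right]
  rwa [sub_neg_eq_add] at h1

private theorem EqA_t2 (hB : Base Y h R C0 v G L) (HW : Win v U β C1 c V) (x : ℕ → ℝ) (γ : ℂ) :
    Tendsto (fun y : ℝ => deriv (fun s => LI L h U x c V (s, γ)) (-(y * I))) atTop (𝓝 1) := by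
  rw [Metric.tendsto_nhds]
  intro ε hε
  obtain ⟨M, -, hM⟩ := LI_asym hB HW x γ hε
  filter_upwards [eventually_gt_atTop M] with y hy
  rw [dist_eq_norm]
  exact (hM (-(y * I)) (by simp; exact hy)).2.2


private theorem EqA_S_open (v : ℂ → ℝ) (U : Ultrafilter ℕ) (c V : ℕ → ℝ) (γ : ℂ) :
    IsOpen {s : ℂ | (s, γ) ∈ DI v U c V} := by
  change IsOpen {s : ℂ | s.im < -vI v U c V γ}
  exact isOpen_lt Complex.continuous_im continuous_const

private theorem EqA_S_conn (v : ℂ → ℝ) (U : Ultrafilter ℕ) (c V : ℕ → ℝ) (γ : ℂ) :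
    IsPreconnected {s : ℂ | (s, γ) ∈ DI v U c V} :=
  (convex_halfSpace_im_lt (-vI v U c V γ)).isPreconnected

private theorem EqA_half_conn (M : ℝ) : IsPreconnected {s : ℂ | s.im < -M} :=
  (convex_halfSpace_im_lt (-M)).isPreconnected

/-- (M8) THE FIRST INTEGRAL on the limit domain.

Proof. Fix `γ ≠ 0`, `S = {τ | (τ, γ) ∈ DI}` (a half plane, connected), `l = LI (·, γ)`, `a = γ l'`. For
`Im τ → - ∞`: `l - τ → 0`, `a → γ` (`LI_asym`), `‖qI l‖ → 0` (`qI_bound`), so `qI l * a ^ 2 → 0`,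
`S1 → 1`, `C1f → 1` and `Gf qI l a → γ`. On a deep half plane `S1 ≠ 0` and `Gf` is constant
(`Gf_const`, derivative zero on a convex set), so `Gf = γ` there; `Gf_prop` on `S`. -/
theorem LI_G (hB : Base Y h R C0 v G L) (HW : Win v U β C1 c V) (x : ℕ → ℝ) {p : ℂ × ℂ}
    (hp : p ∈ DI v U c V) (h0 : p.2 ≠ 0) :
    S1 (qI Y h U x c V (LI L h U x c V p) * al L h U x c V p ^ 2) ≠ 0 ∧
      Gf (qI Y h U x c V) (LI L h U x c V p) (al L h U x c V p) = p.2 ∧
      al L h U x c V p ≠ 0 := by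
  obtain ⟨τ, γ⟩ := p
  dsimp only at h0
  obtain ⟨q, hq⟩ : ∃ q : ℂ → ℂ, q = qI Y h U x c V := ⟨_, rfl⟩
  obtain ⟨l, hl⟩ : ∃ l : ℂ → ℂ, l = fun s => LI L h U x c V (s, γ) := ⟨_, rfl⟩
  have hqh : DifferentiableOn ℂ q Hm := by
    rw [hq]
    exact qI_hol hB HW x
  have hlan : ∀ s : ℂ, (s, γ) ∈ DI v U c V → AnalyticAt ℂ l s := by
    intro s hs
    rw [hl]
    exact EqA_an hB HW x hs
  have hlH : ∀ s : ℂ, (s, γ) ∈ DI v U c V → l s ∈ Hm := by
    intro s hs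
    rw [hl]
    exact LI_Hm hB HW x hs
  have heq : ∀ s : ℂ, (s, γ) ∈ DI v U c V →
      γ ^ 2 * deriv (deriv l) s = bb q (l s) (γ * deriv l s) := by
    intro s hs
    have h1 := LI_eq hB HW x hs
    rw [hl, hq]
    exact h1
  -- small values deep down
  obtain ⟨r, hr, hS⟩ : ∃ r : ℝ, 0 < r ∧ ∀ x : ℂ, ‖x‖ < r → S1 x ≠ 0 := by
    have h1 : ∀ᶠ x in 𝓝 (0 : ℂ), S1 x ≠ 0 :=
      S1_diff.continuous.continuousAt.eventually_ne (by rw [S1_zero]; exact one_ne_zero)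
    obtain ⟨r, hr, h2⟩ := Metric.eventually_nhds_iff.1 h1
    exact ⟨r, hr, fun x hx => h2 (by rwa [dist_zero_right])⟩
  obtain ⟨M1, hM1, hasym⟩ := LI_asym hB HW x γ one_pos
  have hC3 : 0 ≤ C3f β C1 := by
    have := HW.C1_one
    unfold C3f
    positivity
  have hT0 : 0 ≤ C3f β C1 * (4 * ‖γ‖ ^ 2) / r := by positivity
  obtain ⟨M, hM⟩ : ∃ M : ℝ, M = M1 + 2 + C3f β C1 * (4 * ‖γ‖ ^ 2) / r := ⟨_, rfl⟩
  have hdeep : ∀ s : ℂ, s.im < -M → (s, γ) ∈ DI v U c V ∧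
      ‖q (l s) * (γ * deriv l s) ^ 2‖ ≤ C3f β C1 / (-s.im - 1) * (4 * ‖γ‖ ^ 2) := by
    intro s hs
    obtain ⟨h1, h2, h3⟩ := hasym s (by linarith)
    refine ⟨h1, ?_⟩
    have h4 : (l s).im ≤ s.im + 1 := by
      have h5 := (abs_le.1 (abs_im_le_norm (l s - s))).2
      rw [sub_im] at h5
      have h6 : ‖l s - s‖ < 1 := by rw [hl]; exact h2
      linarith
    have h5 : (l s).im ≤ -1 := by linarith
    have h6 := EqA_q hB HW x h5
    rw [← hq] at h6
    have h7 : C3f β C1 / (l s).im ^ 2 ≤ C3f β C1 / (-s.im - 1) := by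
      refine div_le_div_of_nonneg_left hC3 (by linarith) ?_
      nlinarith
    have h8 : ‖deriv l s‖ ≤ 2 := by
      have h9 : ‖deriv l s - 1‖ < 1 := by rw [hl]; exact h3
      have h10 := norm_sub_norm_le (deriv l s) 1
      rw [norm_one] at h10
      linarith
    have h9 : ‖γ * deriv l s‖ ^ 2 ≤ 4 * ‖γ‖ ^ 2 := by
      rw [norm_mul, mul_pow]
      have h11 : ‖deriv l s‖ ^ 2 ≤ 4 := by nlinarith [norm_nonneg (deriv l s)]
      nlinarith [sq_nonneg ‖γ‖]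
    rw [norm_mul, norm_pow]
    exact mul_le_mul (h6.trans h7) h9 (sq_nonneg _) (div_nonneg hC3 (by linarith))
  have hdeepr : ∀ s : ℂ, s.im < -M → ‖q (l s) * (γ * deriv l s) ^ 2‖ < r := by
    intro s hs
    refine lt_of_le_of_lt (hdeep s hs).2 ?_
    have h1 : C3f β C1 * (4 * ‖γ‖ ^ 2) / r < -s.im - 1 := by linarith
    rw [div_lt_iff₀ hr] at h1
    rw [div_mul_eq_mul_div, div_lt_iff₀ (by linarith)]
    linarith
  have hMpos : 0 < M := by linarith
  -- the first integral is constant on the deep half plane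
  have hder : ∀ s : ℂ, s.im < -M →
      HasDerivAt (fun s => Gf q (l s) (γ * deriv l s)) 0 s := by
    intro s hs
    have h1 := (hdeep s hs).1
    have h2 : HasDerivAt l (γ * deriv l s / γ) s := by
      rw [mul_div_cancel_left₀ _ h0]
      exact (hlan s h1).differentiableAt.hasDerivAt
    have h3 : HasDerivAt (fun s => γ * deriv l s) (bb q (l s) (γ * deriv l s) / γ) s := by
      have h4 : HasDerivAt (fun s => γ * deriv l s) (γ * deriv (deriv l) s) s :=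
        ((hlan s h1).deriv.differentiableAt.hasDerivAt).const_mul γ
      have h5 : bb q (l s) (γ * deriv l s) / γ = γ * deriv (deriv l) s := by
        rw [← heq s h1]
        field_simp
      rw [h5]
      exact h4
    exact Gf_const hqh (a := fun s => γ * deriv l s) h0 h2 h3 (hlH s h1)
      (hS _ (hdeepr s hs))
  have hopen : IsOpen {s : ℂ | s.im < -M} := isOpen_lt Complex.continuous_im continuous_const
  have hconst : ∀ s t : ℂ, s.im < -M → t.im < -M →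
      Gf q (l s) (γ * deriv l s) = Gf q (l t) (γ * deriv l t) := by
    intro s t hs ht
    exact hopen.is_const_of_deriv_eq_zero (EqA_half_conn M)
      (fun z hz => (hder z hz).differentiableAt.differentiableWithinAt)
      (fun z hz => (hder z hz).deriv) hs ht
  -- the limit
  have hx : Tendsto (fun y : ℝ => q (l (-(y * I))) * (γ * deriv l (-(y * I))) ^ 2) atTop
      (𝓝 0) := by
    have h1 : Tendsto (fun y : ℝ => C3f β C1 / (y - 1) * (4 * ‖γ‖ ^ 2)) atTop (𝓝 0) := by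
      have h2 : Tendsto (fun y : ℝ => y - 1) atTop atTop :=
        tendsto_atTop_add_const_right _ _ tendsto_id
      have h3 := (h2.const_div_atTop (C3f β C1)).mul_const (4 * ‖γ‖ ^ 2)
      rwa [zero_mul] at h3
    refine squeeze_zero_norm' ?_ h1
    filter_upwards [eventually_gt_atTop M] with y hy
    have h2 := (hdeep (-(y * I)) (by simp; exact hy)).2
    have h3 : -(-(y * I : ℂ)).im - 1 = y - 1 := by simp
    rw [h3] at h2
    exact h2
  have ha : Tendsto (fun y : ℝ => γ * deriv l (-(y * I))) atTop (𝓝 γ) := by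
    have h1 := (EqA_t2 hB HW x γ).const_mul γ
    rw [mul_one] at h1
    rw [hl]
    exact h1
  have hlim : Tendsto (fun y : ℝ => Gf q (l (-(y * I))) (γ * deriv l (-(y * I)))) atTop
      (𝓝 γ) := by
    have h1 : Tendsto (fun y : ℝ => S1 (q (l (-(y * I))) * (γ * deriv l (-(y * I))) ^ 2)) atTop
        (𝓝 1) := by
      have h := (S1_diff.continuous.tendsto 0).comp hx
      rw [S1_zero] at h
      exact h
    have h2 : Tendsto (fun y : ℝ => C1f (q (l (-(y * I))) * (γ * deriv l (-(y * I))) ^ 2)) atTop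
        (𝓝 1) := by
      have h := (C1f_diff.continuous.tendsto 0).comp hx
      rw [C1f_zero] at h
      exact h
    have h3 := (Complex.continuous_exp.tendsto (1 - 1 / 1)).comp
      (tendsto_const_nhds.sub (h2.div h1 one_ne_zero))
    have h4 := (ha.mul h1).mul h3
    have h5 : γ * 1 * cexp (1 - 1 / 1) = γ := by simp
    rw [h5] at h4
    exact h4
  have hs₀ : (-(((M + 1 : ℝ) : ℂ) * I)).im < -M := by simp
  have hval : Gf q (l (-(((M + 1 : ℝ) : ℂ) * I))) (γ * deriv l (-(((M + 1 : ℝ) : ℂ) * I))) = γ := by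
    refine tendsto_nhds_unique (f := fun _ : ℝ =>
      Gf q (l (-(((M + 1 : ℝ) : ℂ) * I))) (γ * deriv l (-(((M + 1 : ℝ) : ℂ) * I)))) (l := atTop)
      tendsto_const_nhds ?_
    refine hlim.congr' ?_
    filter_upwards [eventually_gt_atTop M] with y hy
    exact hconst _ _ (by simp; exact hy) hs₀
  have hmain := Gf_prop hqh h0 (EqA_S_open v U c V γ) (EqA_S_conn v U c V γ)
    (fun s hs => hlan s hs) (fun s hs => hlH s hs) (fun s hs => heq s hs)
    (s₀ := -(((M + 1 : ℝ) : ℂ) * I)) (hdeep _ hs₀).1 (hS _ (hdeepr _ hs₀)) hval τ hp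
  have e1 : LI L h U x c V (τ, γ) = l τ := by rw [hl]
  have e2 : al L h U x c V (τ, γ) = γ * deriv l τ := by rw [hl]; rfl
  rw [e1, e2, ← hq]
  refine ⟨hmain.1, hmain.2, fun h1 => ?_⟩
  have h2 := hmain.2
  rw [h1] at h2
  unfold Gf at h2
  rw [zero_mul, zero_mul] at h2
  exact h0 h2.symm

/-- Uniqueness of the limit label: a solution of the limit equation with the same asymptotics at
`- i ∞` is the limit label (`asym_unique`, `LI_asym`, `LI_eq`, and the identity theorem). -/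
theorem LI_unique (hB : Base Y h R C0 v G L) (HW : Win v U β C1 c V) (x : ℕ → ℝ) {γ : ℂ}
    (hγ : γ ≠ 0) {S : Set ℂ} (hS : IsOpen S) (hSc : IsPreconnected S) {M : ℝ}
    (hSM : {z : ℂ | z.im < -M} ⊆ S) (hSD : ∀ s ∈ S, (s, γ) ∈ DI v U c V) {l : ℂ → ℂ}
    (hl : AnalyticOnNhd ℂ l S) (hm : MapsTo l S Hm)
    (he : ∀ s ∈ S, γ ^ 2 * deriv (deriv l) s = bb (qI Y h U x c V) (l s) (γ * deriv l s))
    (ha : Tendsto (fun y : ℝ => l (-(y * I)) + y * I) atTop (𝓝 0))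
    (hb : Tendsto (fun y : ℝ => deriv l (-(y * I))) atTop (𝓝 1)) :
    ∀ s ∈ S, l s = LI L h U x c V (s, γ) := by
  have h1 : EqOn l (fun s => LI L h U x c V (s, γ)) {z | z.im < -M} :=
    asym_unique (qI_hol hB HW x) (fun z hz => EqA_q hB HW x hz) hγ (fun s hs => hl s (hSM hs))
      (fun s hs => EqA_an hB HW x (hSD s (hSM hs))) (fun s hs => hm (hSM hs))
      (fun s hs => LI_Hm hB HW x (hSD s (hSM hs))) (fun s hs => he s (hSM hs))
      (fun s hs => LI_eq hB HW x (hSD s (hSM hs))) ha (EqA_t1 hB HW x γ) hb (EqA_t2 hB HW x γ)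
  have h2 : (-(((M + 1 : ℝ) : ℂ) * I)).im < -M := by simp
  have h3 : IsOpen {z : ℂ | z.im < -M} := isOpen_lt Complex.continuous_im continuous_const
  intro s hs
  exact hl.eqOn_of_preconnected_of_eventuallyEq
    (fun s hs => EqA_an hB HW x (hSD s hs)) hSc (hSM h2)
    (h1.eventuallyEq_of_mem (h3.mem_nhds h2)) hs

end Pool.Agent.MP_ae5b4e_an_M
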