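import Pool.Agent.Lib.MP_ae5b4e_an_M.Defs
import Pool.Agent.Lib.SCV.Osgood

/-! # Section M: normal families along an ultrafilter -/

noncomputable section

namespace Pool.Agent.MP_ae5b4e_an_M

open Complex Set Filter Topology Metric

variable {U : Ultrafilter ℕ}

/-- A bounded sequence converges along the ultrafilter.

Proof. Almost all terms are in the compact ball, `IsCompact.ultrafilter_le_nhds` for `U.map f`. -/
theorem ulimC_spec {f : ℕ → ℂ} {M : ℝ} (h : ∀ᶠ n in (U : Filter ℕ), ‖f n‖ ≤ M) :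
    Tendsto f U (𝓝 (ulimC U f)) := by
  have h1 : ∃ z, Tendsto f U (𝓝 z) := by
    have h2 : closedBall (0:ℂ) M ∈ U.map f := by
      rw [Ultrafilter.mem_map]
      filter_upwards [h] with n hn
      exact mem_closedBall_zero_iff.2 hn
    obtain ⟨z, -, hz⟩ := (isCompact_closedBall (0:ℂ) M).ultrafilter_le_nhds (U.map f)
      (le_principal_iff.2 h2)
    exact ⟨z, hz⟩
  unfold ulimC
  rw [dif_pos h1]
  exact h1.choose_spec

theorem ulimC_eq {f : ℕ → ℂ} {z : ℂ} (h : Tendsto f U (𝓝 z)) : ulimC U f = z := by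
  have h1 : ∃ z, Tendsto f U (𝓝 z) := ⟨z, h⟩
  unfold ulimC
  rw [dif_pos h1]
  exact tendsto_nhds_unique h1.choose_spec h

/-- locally bounded along `U` near `p`, and analytic there -/
def LB {E : Type*} [NormedAddCommGroup E] [NormedSpace ℂ E] (U : Ultrafilter ℕ)
    (f : ℕ → E → ℂ) (p : E) : Prop :=
  ∃ δ > 0, ∃ M : ℝ, ∀ᶠ n in (U : Filter ℕ), AnalyticOnNhd ℂ (f n) (ball p δ) ∧
    ∀ q ∈ ball p δ, ‖f n q‖ ≤ M

theorem lip_of_bdd {E : Type*} [NormedAddCommGroup E] [NormedSpace ℂ E] {f : E → ℂ} {p : E}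
    {δ M : ℝ} (hδ : 0 < δ) (hf : AnalyticOnNhd ℂ f (ball p δ)) (hM : ∀ q ∈ ball p δ, ‖f q‖ ≤ M)
    {x y : E} (hx : x ∈ ball p (δ / 4)) (hy : y ∈ ball p (δ / 4)) :
    ‖f y - f x‖ ≤ 4 * M / δ * ‖y - x‖ := by
  by_cases hxy : y = x
  · simp [hxy]
  have hd : 0 < ‖y - x‖ := norm_pos_iff.2 (sub_ne_zero.2 hxy)
  have hd2 : ‖y - x‖ < δ / 2 := by
    rw [← dist_eq_norm]
    rw [mem_ball] at hx hy
    have := dist_triangle_right y x p
    linarith
  set R₁ : ℝ := δ / 2 / ‖y - x‖ with hR
  have hR1 : 1 < R₁ := by rw [hR, lt_div_iff₀ hd]; linarith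
  have hin : ∀ t ∈ ball (0:ℂ) R₁, x + t • (y - x) ∈ ball p δ := by
    intro t ht
    rw [mem_ball_zero_iff] at ht
    have h1 : ‖t • (y - x)‖ < δ / 2 := by
      rw [norm_smul]
      rw [hR, lt_div_iff₀ hd] at ht
      exact ht
    rw [mem_ball, dist_eq_norm] at hx ⊢
    have h2 : x + t • (y - x) - p = (x - p) + t • (y - x) := by abel
    rw [h2]
    have := norm_add_le (x - p) (t • (y - x))
    linarith
  have h0 : (0:ℂ) ∈ ball (0:ℂ) R₁ := mem_ball_self (by linarith)
  have h1m : (1:ℂ) ∈ ball (0:ℂ) R₁ := by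
    rw [mem_ball_zero_iff, norm_one]; exact hR1
  have hdiff : DifferentiableOn ℂ (fun t : ℂ => f (x + t • (y - x))) (ball 0 R₁) := by
    intro t ht
    exact (DifferentiableAt.comp t (g := f) (f := fun t : ℂ => x + t • (y - x))
      (hf _ (hin t ht)).differentiableAt (by fun_prop)).differentiableWithinAt
  have hmaps : MapsTo (fun t : ℂ => f (x + t • (y - x))) (ball 0 R₁)
      (closedBall (f (x + (0:ℂ) • (y - x))) (2 * M)) := by
    intro t ht
    rw [mem_closedBall, dist_eq_norm]
    have h2 := norm_sub_le (f (x + t • (y - x))) (f (x + (0:ℂ) • (y - x)))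
    have h3 := hM _ (hin t ht)
    have h4 := hM _ (hin 0 h0)
    linarith
  have h5 := Complex.dist_le_div_mul_dist_of_mapsTo_ball hdiff hmaps h1m
  simp only [one_smul, zero_smul, add_zero, add_sub_cancel, dist_zero_right, norm_one,
    mul_one] at h5
  rw [dist_eq_norm] at h5
  refine h5.trans (le_of_eq ?_)
  rw [hR]
  field_simp
  ring

theorem tlu_of_LB {E : Type*} [NormedAddCommGroup E] [NormedSpace ℂ E] {f : ℕ → E → ℂ}
    {Ω : Set E} (h : ∀ p ∈ Ω, LB U f p) :
    TendstoLocallyUniformlyOn f (fun p => ulimC U fun n => f n p) U Ω := by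
  rw [Metric.tendstoLocallyUniformlyOn_iff]
  intro ε hε x hx
  obtain ⟨δ, hδ, M, hM⟩ := h x hx
  have hM0 : 0 ≤ M := by
    obtain ⟨n, hn⟩ := hM.exists
    exact (norm_nonneg _).trans (hn.2 x (mem_ball_self hδ))
  set L : ℝ := 4 * M / δ with hL
  have hL0 : 0 ≤ L := by positivity
  have hx4 : x ∈ ball x (δ / 4) := mem_ball_self (by linarith)
  have hlim : ∀ y ∈ ball x (δ / 4), Tendsto (fun n => f n y) U
      (𝓝 (ulimC U fun n => f n y)) := by
    intro y hy
    apply ulimC_spec (M := M)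
    filter_upwards [hM] with n hn
    exact hn.2 y (ball_subset_ball (by linarith) hy)
  have hlip : ∀ y ∈ ball x (δ / 4),
      ‖(ulimC U fun n => f n y) - ulimC U fun n => f n x‖ ≤ L * ‖y - x‖ := by
    intro y hy
    have h1 := ((hlim y hy).sub (hlim x hx4)).norm
    refine le_of_tendsto h1 ?_
    filter_upwards [hM] with n hn
    exact lip_of_bdd hδ hn.1 hn.2 hx4 hy
  set η : ℝ := min (δ / 4) (ε / (3 * (L + 1))) with hη
  have hη0 : 0 < η := lt_min (by linarith) (by positivity)
  have hLη : L * η ≤ ε / 3 := by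
    have h1 : η ≤ ε / (3 * (L + 1)) := min_le_right _ _
    have h2 : (L + 1) * (ε / (3 * (L + 1))) = ε / 3 := by
      field_simp
    have h3 : L * η ≤ (L + 1) * η := by nlinarith
    have h4 : (L + 1) * η ≤ (L + 1) * (ε / (3 * (L + 1))) :=
      mul_le_mul_of_nonneg_left h1 (by linarith)
    linarith
  refine ⟨ball x η, mem_nhdsWithin_of_mem_nhds (ball_mem_nhds x hη0), ?_⟩
  have hx3 : ∀ᶠ n in (U : Filter ℕ), dist (f n x) (ulimC U fun n => f n x) < ε / 3 :=
    (hlim x hx4).eventually (ball_mem_nhds _ (by linarith))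
  filter_upwards [hM, hx3] with n hn hn3 y hy
  have hy4 : y ∈ ball x (δ / 4) := ball_subset_ball (min_le_left _ _) hy
  have h1 := lip_of_bdd hδ hn.1 hn.2 hx4 hy4
  have h2 := hlip y hy4
  have h3 : L * ‖y - x‖ ≤ L * η := by
    apply mul_le_mul_of_nonneg_left _ hL0
    rw [← dist_eq_norm]
    exact (mem_ball.1 hy).le
  rw [dist_eq_norm] at hn3 ⊢
  have h4 : (ulimC U fun n => f n y) - f n y = ((ulimC U fun n => f n y) -
      ulimC U fun n => f n x) - (f n x - ulimC U fun n => f n x) - (f n y - f n x) := by ring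
  rw [h4]
  have h5 := norm_sub_le (((ulimC U fun n => f n y) -
      ulimC U fun n => f n x) - (f n x - ulimC U fun n => f n x)) (f n y - f n x)
  have h6 := norm_sub_le ((ulimC U fun n => f n y) -
      ulimC U fun n => f n x) (f n x - ulimC U fun n => f n x)
  have h7 : 4 * M / δ * ‖y - x‖ = L * ‖y - x‖ := by rw [hL]
  linarith

/-- MONTEL, one variable. If the functions `f n` are locally bounded along `U` near every point of
the open set `Ω`, the pointwise limit `g p = lim_U f n p` is holomorphic on `Ω` and the convergence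
is uniform on compact sets.

Proof. Cauchy's estimate: on `ball p (δ / 2)` the functions are Lipschitz with constant `4 M / δ`
for
almost all `n` (`norm_deriv_le_of_forall_mem_sphere_norm_le` and the mean value inequality on the
convex ball). So the limit is Lipschitz there, and the convergence is uniform on the compact ball of
radius `δ / 4` (finite `ε`-net: `finite_cover_balls_of_compact`), hence locally uniform along `U`:
`TendstoLocallyUniformlyOn f g U Ω`. Apply `TendstoLocallyUniformlyOn.differentiableOn` (the filter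
`U` is `NeBot`). -/
theorem montel1 {f : ℕ → ℂ → ℂ} {Ω : Set ℂ} (hΩ : IsOpen Ω) (h : ∀ p ∈ Ω, LB U f p) :
    DifferentiableOn ℂ (fun p => ulimC U fun n => f n p) Ω ∧
      TendstoLocallyUniformlyOn f (fun p => ulimC U fun n => f n p) U Ω := by
  have hT := tlu_of_LB h
  refine ⟨fun p hp => ?_, hT⟩
  obtain ⟨δ, hδ, M, hM⟩ := h p hp
  have hop : IsOpen (Ω ∩ ball p δ) := hΩ.inter isOpen_ball
  have h1 := (hT.mono (inter_subset_left : Ω ∩ ball p δ ⊆ Ω)).differentiableOn
    (by
      filter_upwards [hM] with n hn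
      exact fun q hq => (hn.1 q hq.2).differentiableAt.differentiableWithinAt) hop
  exact ((h1 p ⟨hp, mem_ball_self hδ⟩).differentiableAt
    (hop.mem_nhds ⟨hp, mem_ball_self hδ⟩)).differentiableWithinAt

/-- MONTEL, two variables.

Proof. As in one variable: on `ball p (δ / 2)` (sup norm of `ℂ × ℂ`) the functions are Lipschitz
with constant `C M / δ`: restrict to complex lines. So the convergence is locally uniform and the
limit `g` is continuous; by `montel1` it is holomorphic in each variable separately; a continuous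
separately holomorphic function is analytic (theorem `osgood` of `Pool.Agent.Lib.SCV.Osgood`).
Local uniform convergence on open sets of `ℂ × ℂ`. -/
theorem montel2 {f : ℕ → ℂ × ℂ → ℂ} {Ω : Set (ℂ × ℂ)} (hΩ : IsOpen Ω) (h : ∀ p ∈ Ω, LB U f p) :
    AnalyticOnNhd ℂ (fun p => ulimC U fun n => f n p) Ω ∧
      TendstoLocallyUniformlyOn f (fun p => ulimC U fun n => f n p) U Ω := by
  classical
  have hT := tlu_of_LB h
  refine ⟨fun p hp => ?_, hT⟩
  obtain ⟨δ, hδ, M, hM⟩ := h p hp
  have hop : IsOpen (Ω ∩ ball p δ) := hΩ.inter isOpen_ball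
  have h1 := hT.mono (inter_subset_left : Ω ∩ ball p δ ⊆ Ω)
  set F : ℕ → ℂ × ℂ → ℂ := fun n =>
    if AnalyticOnNhd ℂ (f n) (ball p δ) then f n else fun _ => 0 with hF
  have h2 : ∀ n, AnalyticOnNhd ℂ (F n) (Ω ∩ ball p δ) := by
    intro n
    by_cases hn : AnalyticOnNhd ℂ (f n) (ball p δ)
    · simp only [hF, if_pos hn]
      exact hn.mono inter_subset_right
    · simp only [hF, if_neg hn]
      exact analyticOnNhd_const
  have h3 : TendstoLocallyUniformlyOn F (fun p => ulimC U fun n => f n p) U (Ω ∩ ball p δ) := by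
    rw [Metric.tendstoLocallyUniformlyOn_iff] at h1 ⊢
    intro ε hε x hx
    obtain ⟨t, ht1, ht2⟩ := h1 ε hε x hx
    refine ⟨t, ht1, ?_⟩
    filter_upwards [ht2, hM] with n hn1 hn2 y hy
    simp only [hF, if_pos hn2.1]
    exact hn1 y hy
  exact Pool.Agent.SCV.analyticOnNhd_of_tendstoLocallyUniformlyOn (Ω ∩ ball p δ) hop F _ h2 h3 p
    ⟨hp, mem_ball_self hδ⟩

/-- Uniform convergence on compact sets, in `ε`-form. -/
theorem unif_compact {E : Type*} [NormedAddCommGroup E] {f : ℕ → E → ℂ} {g : E → ℂ} {Ω K : Set E}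
    (h : TendstoLocallyUniformlyOn f g U Ω) (hK : IsCompact K) (hKΩ : K ⊆ Ω) {ε : ℝ}
    (hε : 0 < ε) : ∀ᶠ n in (U : Filter ℕ), ∀ p ∈ K, ‖f n p - g p‖ < ε := by
  have h1 := (tendstoLocallyUniformlyOn_iff_tendstoUniformlyOn_of_compact hK).1 (h.mono hKΩ)
  rw [Metric.tendstoUniformlyOn_iff] at h1
  filter_upwards [h1 ε hε] with n hn p hp
  rw [← dist_eq_norm, dist_comm]
  exact hn p hp

theorem cauchy_two {F G : ℂ → ℂ} {z : ℂ} {r η : ℝ} (hr : 0 < r)
    (hF : ∀ w ∈ closedBall z r, DifferentiableAt ℂ F w)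
    (hG : ∀ w ∈ closedBall z r, DifferentiableAt ℂ G w)
    (h : ∀ w ∈ closedBall z r, ‖F w - G w‖ ≤ η) :
    ‖deriv F z - deriv G z‖ ≤ 2 * η / r ∧
      ‖deriv (deriv F) z - deriv (deriv G) z‖ ≤ 4 * η / r ^ 2 := by
  have hr2 : 0 < r / 2 := by linarith
  have hsub : ∀ w ∈ closedBall z (r / 2), closedBall w (r / 2) ⊆ closedBall z r := by
    intro w hw
    apply closedBall_subset_closedBall'
    rw [mem_closedBall] at hw
    linarith
  have hd : ∀ w ∈ closedBall z (r / 2), ‖deriv F w - deriv G w‖ ≤ 2 * η / r := by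
    intro w hw
    have hw2 : w ∈ closedBall z r := hsub w hw (mem_closedBall_self hr2.le)
    have h1 : deriv (F - G) w = deriv F w - deriv G w := deriv_sub (hF w hw2) (hG w hw2)
    rw [← h1]
    have h2 : DiffContOnCl ℂ (F - G) (ball w (r / 2)) := by
      apply DifferentiableOn.diffContOnCl
      rw [closure_ball _ hr2.ne']
      intro u hu
      exact ((hF u (hsub w hw hu)).sub (hG u (hsub w hw hu))).differentiableWithinAt
    have h3 := Complex.norm_deriv_le_of_forall_mem_sphere_norm_le hr2 h2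
      (fun u hu => h u (hsub w hw (sphere_subset_closedBall hu)))
    refine h3.trans (le_of_eq ?_)
    field_simp
  have hz : z ∈ closedBall z (r / 2) := mem_closedBall_self hr2.le
  refine ⟨hd z hz, ?_⟩
  have hFo : DifferentiableOn ℂ (deriv F) (ball z r) := by
    apply DifferentiableOn.deriv _ isOpen_ball
    intro w hw
    exact (hF w (ball_subset_closedBall hw)).differentiableWithinAt
  have hGo : DifferentiableOn ℂ (deriv G) (ball z r) := by
    apply DifferentiableOn.deriv _ isOpen_ball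
    intro w hw
    exact (hG w (ball_subset_closedBall hw)).differentiableWithinAt
  have hFa : ∀ w ∈ ball z r, DifferentiableAt ℂ (deriv F) w := fun w hw =>
    hFo.differentiableAt (isOpen_ball.mem_nhds hw)
  have hGa : ∀ w ∈ ball z r, DifferentiableAt ℂ (deriv G) w := fun w hw =>
    hGo.differentiableAt (isOpen_ball.mem_nhds hw)
  have h1 : deriv (deriv F - deriv G) z = deriv (deriv F) z - deriv (deriv G) z :=
    deriv_sub (hFa z (mem_ball_self hr)) (hGa z (mem_ball_self hr))
  rw [← h1]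
  have h2 : DiffContOnCl ℂ (deriv F - deriv G) (ball z (r / 2)) := by
    apply DifferentiableOn.diffContOnCl
    rw [closure_ball _ hr2.ne']
    intro u hu
    have hu2 : u ∈ ball z r := closedBall_subset_ball (by linarith) hu
    exact ((hFa u hu2).sub (hGa u hu2)).differentiableWithinAt
  have h3 := Complex.norm_deriv_le_of_forall_mem_sphere_norm_le hr2 h2
    (fun u hu => hd u (sphere_subset_closedBall hu))
  refine h3.trans (le_of_eq ?_)
  field_simp
  ring

/-- Convergence of the first and second derivatives in the first variable, locally uniformly.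

Proof. For fixed second coordinate Cauchy's estimates on discs of a fixed radius, applied to
`f n - g`, which is analytic near the point for almost all `n`; the radius can be taken locally
uniform. -/
theorem unif_deriv {f : ℕ → ℂ × ℂ → ℂ} {g : ℂ × ℂ → ℂ} {Ω K : Set (ℂ × ℂ)} (hΩ : IsOpen Ω)
    (hg : AnalyticOnNhd ℂ g Ω) (h : ∀ p ∈ Ω, LB U f p) (hfg : TendstoLocallyUniformlyOn f g U Ω)
    (hK : IsCompact K) (hKΩ : K ⊆ Ω) {ε : ℝ} (hε : 0 < ε) :
    ∀ᶠ n in (U : Filter ℕ), ∀ p ∈ K,
      ‖deriv (fun s => f n (s, p.2)) p.1 - deriv (fun s => g (s, p.2)) p.1‖ < ε ∧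
      ‖deriv (deriv fun s => f n (s, p.2)) p.1 - deriv (deriv fun s => g (s, p.2)) p.1‖ < ε ∧
      ‖deriv (fun r => f n (p.1, r)) p.2 - deriv (fun r => g (p.1, r)) p.2‖ < ε ∧
      ‖deriv (deriv fun r => f n (p.1, r)) p.2 - deriv (deriv fun r => g (p.1, r)) p.2‖ < ε := by
  obtain ⟨r₀, hr₀, hr₁⟩ := hK.exists_cthickening_subset_open hΩ hKΩ
  set r : ℝ := min r₀ 1 with hr
  have hr2 : 0 < r := lt_min hr₀ one_pos
  have hr3 : r ≤ 1 := min_le_right _ _
  have hr4 : cthickening r K ⊆ Ω := (cthickening_mono (min_le_left _ _) K).trans hr₁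
  have hKc : IsCompact (cthickening r K) := hK.cthickening
  set η : ℝ := ε * r ^ 2 / 8 with hη
  have hη0 : 0 < η := by positivity
  have h1 := unif_compact hfg hKc hr4 hη0
  have h2 : ∀ᶠ n in (U : Filter ℕ), ∀ p ∈ cthickening r K, AnalyticAt ℂ (f n) p := by
    refine hKc.induction_on (p := fun s => ∀ᶠ n in (U : Filter ℕ), ∀ p ∈ s, AnalyticAt ℂ (f n) p)
      ?_ ?_ ?_ ?_
    · exact Filter.Eventually.of_forall fun n p hp => absurd hp (notMem_empty p)
    · intro s t hst ht
      filter_upwards [ht] with n hn p hp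
      exact hn p (hst hp)
    · intro s t hs ht
      filter_upwards [hs, ht] with n hn1 hn2 p hp
      exact hp.elim (hn1 p) (hn2 p)
    · intro x hx
      obtain ⟨δ, hδ, M, hM⟩ := h x (hr4 hx)
      refine ⟨ball x δ, mem_nhdsWithin_of_mem_nhds (ball_mem_nhds x hδ), ?_⟩
      filter_upwards [hM] with n hn p hp
      exact hn.1 p hp
  have hb : ∀ p ∈ K, closedBall p r ⊆ cthickening r K := fun p hp =>
    closedBall_subset_cthickening hp r
  have he1 : 2 * η / r < ε := by
    rw [div_lt_iff₀ hr2, hη]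
    nlinarith [mul_pos hε hr2, mul_pos (mul_pos hε hr2) hr2]
  have he2 : 4 * η / r ^ 2 < ε := by
    rw [div_lt_iff₀ (by positivity), hη]
    nlinarith [mul_pos (mul_pos hε hr2) hr2]
  filter_upwards [h1, h2] with n hn1 hn2 p hp
  have hx : ∀ s ∈ closedBall p.1 r, ((s, p.2) : ℂ × ℂ) ∈ cthickening r K := by
    intro s hs
    apply hb p hp
    rw [mem_closedBall, Prod.dist_eq]
    exact max_le hs (by rw [dist_self]; exact hr2.le)
  have hy : ∀ s ∈ closedBall p.2 r, ((p.1, s) : ℂ × ℂ) ∈ cthickening r K := by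
    intro s hs
    apply hb p hp
    rw [mem_closedBall, Prod.dist_eq]
    exact max_le (by rw [dist_self]; exact hr2.le) hs
  have hA := cauchy_two hr2 (F := fun s => f n (s, p.2)) (G := fun s => g (s, p.2)) (η := η)
    (z := p.1)
    (fun s hs => DifferentiableAt.comp s (g := f n) (f := fun x : ℂ => (x, p.2))
      (hn2 _ (hx s hs)).differentiableAt (by fun_prop))
    (fun s hs => DifferentiableAt.comp s (g := g) (f := fun x : ℂ => (x, p.2))
      (hg _ (hr4 (hx s hs))).differentiableAt (by fun_prop))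
    (fun s hs => (hn1 _ (hx s hs)).le)
  have hB := cauchy_two hr2 (F := fun s => f n (p.1, s)) (G := fun s => g (p.1, s)) (η := η)
    (z := p.2)
    (fun s hs => DifferentiableAt.comp s (g := f n) (f := fun x : ℂ => (p.1, x))
      (hn2 _ (hy s hs)).differentiableAt (by fun_prop))
    (fun s hs => DifferentiableAt.comp s (g := g) (f := fun x : ℂ => (p.1, x))
      (hg _ (hr4 (hy s hs))).differentiableAt (by fun_prop))
    (fun s hs => (hn1 _ (hy s hs)).le)
  exact ⟨hA.1.trans_lt he1, hA.2.trans_lt he2, hB.1.trans_lt he1, hB.2.trans_lt he2⟩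

/-- SLOW INDEX. Let `A k ∈ U` for every `k`, and let `U` be free. There is `κ : ℕ → ℕ` with
`κ → ∞` along `U` and `n ∈ A (κ n)` for almost all `n`.

Proof. `B k := ⋂_{j ≤ k} A j ∩ {n | k ≤ n}`; all `B k ∈ U` (`U` free: `{n | k ≤ n} ∈ U`),
decreasing.
`κ n := ` the largest `k ≤ n` with `n ∈ B k` if there is one, `0` otherwise. For `n ∈ B k` we have
`κ n ≥ k`; and `n ∈ B (κ n) ⊆ A (κ n)` for `n ∈ B 0`. -/
theorem exists_slow (hU : Tendsto (fun n : ℕ => n) U atTop) {A : ℕ → Set ℕ}
    (hA : ∀ k, A k ∈ (U : Filter ℕ)) :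
    ∃ κ : ℕ → ℕ, Tendsto κ U atTop ∧ ∀ᶠ n in (U : Filter ℕ), n ∈ A (κ n) := by
  classical
  set B : ℕ → ℕ → Prop := fun n k => k ≤ n ∧ ∀ j ≤ k, n ∈ A j with hB
  have hBk : ∀ k, ∀ᶠ n in (U : Filter ℕ), B n k := by
    intro k
    have h1 : ∀ᶠ n in (U : Filter ℕ), ∀ j ∈ Set.Iic k, n ∈ A j :=
      (Filter.eventually_all_finite (Set.finite_Iic k)).2 fun j _ => hA j
    filter_upwards [hU.eventually_ge_atTop k, h1] with n hn1 hn2
    exact ⟨hn1, fun j hj => hn2 j hj⟩
  refine ⟨fun n => Nat.findGreatest (B n) n, ?_, ?_⟩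
  · rw [Filter.tendsto_atTop]
    intro k
    filter_upwards [hBk k] with n hn
    exact Nat.le_findGreatest hn.1 hn
  · filter_upwards [hBk 0] with n hn
    have h1 : B n (Nat.findGreatest (B n) n) := Nat.findGreatest_spec (P := B n) hn.1 hn
    exact h1.2 _ le_rfl

end Pool.Agent.MP_ae5b4e_an_M
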