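import Pool.Agent.Lib.MP_ae5b4e_an_M.VA
import Pool.Agent.Lib.MP_ae5b4e_an_M.Mont

/-! # Section M: the limit domain and the windows of the label domain -/

noncomputable section

namespace Pool.Agent.MP_ae5b4e_an_M

open Complex Set Filter Topology Metric
open Pool.Agent.MP_ae5b4e_an_NBT (St Mer EqM)
open Pool.Agent.MP_ae5b4e_an_NB2 (Sys)
open Pool.Agent.MP_ae5b4e_an_N5 (NV)
open Pool.Agent.MP_ae5b4e_an_PB
open PorTR (Hm)

section dom

variable {v : ℂ → ℝ} {R C0 : ℝ} {U : Ultrafilter ℕ} {β C1 : ℝ} {c V : ℕ → ℝ}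

theorem DI_open (hv : NV v R C0) (hR : 0 < R) (HW : Win v U β C1 c V) : IsOpen (DI v U c V) := by
  rw [isOpen_iff_mem_nhds]
  intro p hp
  have hp' : vI v U c V p.2 < -p.1.im := by
    have : p.1.im < -vI v U c V p.2 := hp
    linarith
  obtain ⟨b, hb1, hb2⟩ := exists_between hp'
  have h1 : ∀ᶠ q : ℂ × ℂ in 𝓝 p, vI v U c V q.2 < b :=
    continuousAt_snd.eventually (vI_usc hv hR HW p.2 b hb1)
  have h2 : ∀ᶠ q : ℂ × ℂ in 𝓝 p, b < -q.1.im := by
    have hc : Continuous fun q : ℂ × ℂ => -q.1.im := (continuous_im.comp continuous_fst).neg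
    exact hc.continuousAt.eventually (lt_mem_nhds hb2)
  filter_upwards [h1, h2] with q hq1 hq2
  show q.1.im < -vI v U c V q.2
  linarith

/-- Proof. Path connected: go down (`Im τ → Im τ - M`) to a depth below `- C1 max r (r ^ β)` where
`r`
bounds `‖γ‖` on the segment between the two second coordinates (`vI_le`), then along the segment,
then
up. -/
theorem DI_conn (hv : NV v R C0) (hR : 0 < R) (HW : Win v U β C1 c V) :
    IsPreconnected (DI v U c V) := by
  apply isPreconnected_of_forall_pair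
  intro p hp q hq
  have hp' : p.1.im < -vI v U c V p.2 := hp
  have hq' : q.1.im < -vI v U c V q.2 := hq
  set r : ℝ := ‖p.2‖ + ‖q.2‖ with hr
  have hr0 : 0 ≤ r := by positivity
  set B : ℝ := C1 * max r (r ^ β) with hB
  have hB0 : 0 ≤ B := mul_nonneg (by linarith [HW.C1_one]) (le_max_of_le_left hr0)
  have hBv : ∀ γ : ℂ, ‖γ‖ ≤ r → vI v U c V γ ≤ B := by
    intro γ hγ
    refine (vI_le hv hR HW γ).trans ?_
    apply mul_le_mul_of_nonneg_left _ (by linarith [HW.C1_one])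
    exact max_le_max hγ (Real.rpow_le_rpow (norm_nonneg _) hγ HW.β_pos.le)
  set M : ℝ := B + |p.1.im| + |q.1.im| + 1 with hM
  have hM0 : 0 ≤ M := by positivity
  set p' : ℂ × ℂ := (p.1 - M * I, p.2) with hpd
  set q' : ℂ × ℂ := (q.1 - M * I, q.2) with hqd
  have key : ∀ w : ℂ × ℂ, w.1.im < -vI v U c V w.2 →
      segment ℝ w (w.1 - M * I, w.2) ⊆ DI v U c V := by
    intro w hw z hz
    rw [segment_eq_image] at hz
    obtain ⟨θ, ⟨hθ0, hθ1⟩, rfl⟩ := hz
    show ((1 - θ) • w.1 + θ • (w.1 - M * I)).im < -vI v U c V ((1 - θ) • w.2 + θ • w.2)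
    rw [← add_smul, sub_add_cancel, one_smul]
    have h1 : ((1 - θ) • w.1 + θ • (w.1 - M * I)).im = w.1.im - θ * M := by
      simp only [real_smul, add_im, mul_im, sub_im, ofReal_im, ofReal_re, I_re, I_im, mul_re,
        sub_re, one_re, one_im, zero_mul, mul_zero, mul_one, sub_zero, add_zero,
        Complex.ofReal_sub, Complex.ofReal_one]
      ring
    rw [h1]
    have := mul_nonneg hθ0 hM0
    linarith
  have key2 : segment ℝ p' q' ⊆ DI v U c V := by
    intro z hz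
    rw [segment_eq_image] at hz
    obtain ⟨θ, ⟨hθ0, hθ1⟩, rfl⟩ := hz
    show ((1 - θ) • (p.1 - M * I) + θ • (q.1 - M * I)).im <
      -vI v U c V ((1 - θ) • p.2 + θ • q.2)
    have h1 : ((1 - θ) • (p.1 - M * I) + θ • (q.1 - M * I)).im =
        (1 - θ) * p.1.im + θ * q.1.im - M := by
      simp only [real_smul, add_im, mul_im, sub_im, ofReal_im, ofReal_re, I_re, I_im, mul_re,
        sub_re, one_re, one_im, zero_mul, mul_zero, mul_one, sub_zero, add_zero,
        Complex.ofReal_sub, Complex.ofReal_one]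
      ring
    have h2 : ‖(1 - θ) • p.2 + θ • q.2‖ ≤ r := by
      refine (norm_add_le _ _).trans ?_
      rw [norm_smul, norm_smul, Real.norm_eq_abs, Real.norm_eq_abs, abs_of_nonneg hθ0,
        abs_of_nonneg (by linarith : 0 ≤ 1 - θ)]
      have h3 := norm_nonneg p.2
      have h4 := norm_nonneg q.2
      have h5 := mul_nonneg hθ0 h3
      have h6 := mul_nonneg (by linarith : 0 ≤ 1 - θ) h4
      nlinarith
    have h7 := hBv _ h2
    rw [h1]
    have h8 : (1 - θ) * p.1.im ≤ |p.1.im| := by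
      have h9 := le_abs_self p.1.im
      have h10 := abs_nonneg p.1.im
      nlinarith [mul_nonneg hθ0 h10, mul_nonneg (by linarith : 0 ≤ 1 - θ)
        (by linarith : 0 ≤ |p.1.im| - p.1.im)]
    have h11 : θ * q.1.im ≤ |q.1.im| := by
      have h9 := le_abs_self q.1.im
      have h10 := abs_nonneg q.1.im
      nlinarith [mul_nonneg (by linarith : 0 ≤ 1 - θ) h10, mul_nonneg hθ0
        (by linarith : 0 ≤ |q.1.im| - q.1.im)]
    linarith
  have s1 : IsPreconnected (segment ℝ p p') := (convex_segment p p').isPreconnected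
  have s2 : IsPreconnected (segment ℝ p' q') := (convex_segment p' q').isPreconnected
  have s3 : IsPreconnected (segment ℝ q q') := (convex_segment q q').isPreconnected
  have s12 := IsPreconnected.union p' (right_mem_segment ℝ p p') (left_mem_segment ℝ p' q') s1 s2
  have s123 := IsPreconnected.union q' (Or.inr (right_mem_segment ℝ p' q'))
    (right_mem_segment ℝ q q') s12 s3
  refine ⟨_, union_subset (union_subset (key p hp') key2) (key q hq'), ?_, ?_, s123⟩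
  · exact Or.inl (Or.inl (left_mem_segment ℝ p p'))
  · exact Or.inr (left_mem_segment ℝ q q')

theorem DI_zero (hv : NV v R C0) (hR : 0 < R) (HW : Win v U β C1 c V) {τ : ℂ} (h : τ.im < 0) :
    (τ, (0:ℂ)) ∈ DI v U c V := by
  show τ.im < -vI v U c V 0
  rw [vI_zero hv hR HW, neg_zero]
  exact h

theorem DI_im (hv : NV v R C0) (hR : 0 < R) (HW : Win v U β C1 c V) {p : ℂ × ℂ}
    (h : p ∈ DI v U c V) : p.1.im < 0 := by
  have h1 : p.1.im < -vI v U c V p.2 := h
  have h2 := vI_nonneg hv hR HW p.2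
  linarith

theorem DI_even (hv : NV v R C0) (hR : 0 < R) (HW : Win v U β C1 c V) {p : ℂ × ℂ}
    (h : p ∈ DI v U c V) : (p.1, -p.2) ∈ DI v U c V := by
  show p.1.im < -vI v U c V (-p.2)
  rw [vI_even hv hR HW]
  exact h

theorem DI_down {p : ℂ × ℂ} (h : p ∈ DI v U c V) {s : ℂ} (hs : s.im ≤ 0) :
    (p.1 + s, p.2) ∈ DI v U c V := by
  have h1 : p.1.im < -vI v U c V p.2 := h
  show (p.1 + s).im < -vI v U c V p.2
  rw [add_im]
  linarith

theorem lim_lt {U : Ultrafilter ℕ} {f : ℕ → ℝ} (hf : Tendsto f U (𝓝 0)) (B : ℝ) {ε : ℝ}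
    (hε : 0 < ε) :
    ∀ᶠ n in (U : Filter ℕ), f n * B < ε := by
  have h1 := hf.mul_const B
  rw [zero_mul] at h1
  exact h1.eventually (gt_mem_nhds hε)

/-- compact subsets of the limit domain -/
theorem ev_compact2 (hv : NV v R C0) (hR : 0 < R) (HW : Win v U β C1 c V) {K : Set (ℂ × ℂ)}
    (hK : IsCompact K) (hKD : K ⊆ DI v U c V) :
    ∃ ε > 0, ∀ᶠ n in (U : Filter ℕ), ∀ p ∈ K, vn v c V n p.2 + ε < -p.1.im := by
  refine hK.induction_on (p := fun s => ∃ ε > 0, ∀ᶠ n in (U : Filter ℕ), ∀ p ∈ s,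
    vn v c V n p.2 + ε < -p.1.im) ?_ ?_ ?_ ?_
  · exact ⟨1, one_pos, Filter.Eventually.of_forall fun n p hp => absurd hp (notMem_empty p)⟩
  · rintro s t hst ⟨ε, hε, ht⟩
    refine ⟨ε, hε, ?_⟩
    filter_upwards [ht] with n hn p hp
    exact hn p (hst hp)
  · rintro s t ⟨ε1, hε1, hs⟩ ⟨ε2, hε2, ht⟩
    refine ⟨min ε1 ε2, lt_min hε1 hε2, ?_⟩
    filter_upwards [hs, ht] with n hn1 hn2 p hp
    rcases hp with hp | hp
    · have h1 := hn1 p hp
      have h2 := min_le_left ε1 ε2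
      linarith
    · have h1 := hn2 p hp
      have h2 := min_le_right ε1 ε2
      linarith
  · intro p hp
    have hp' : vI v U c V p.2 < -p.1.im := by
      have : p.1.im < -vI v U c V p.2 := hKD hp
      linarith
    obtain ⟨b, hb1, hb2⟩ := exists_between hp'
    obtain ⟨δ, hδ, hev⟩ := ev_of_vI_lt hv hR HW hb1
    set s : ℝ := (-p.1.im - b) / 2 with hs
    have hs0 : 0 < s := by rw [hs]; linarith
    have h1 : ∀ᶠ q : ℂ × ℂ in 𝓝 p, q.2 ∈ ball p.2 δ :=
      continuousAt_snd.eventually (ball_mem_nhds _ hδ)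
    have h2 : ∀ᶠ q : ℂ × ℂ in 𝓝 p, b + s < -q.1.im := by
      have hc : Continuous fun q : ℂ × ℂ => -q.1.im := (continuous_im.comp continuous_fst).neg
      exact hc.continuousAt.eventually (lt_mem_nhds (by rw [hs]; linarith))
    refine ⟨_, mem_nhdsWithin_of_mem_nhds (h1.and h2), s, hs0, ?_⟩
    filter_upwards [hev] with n hn q hq
    have h3 := hn q.2 hq.1
    have h4 := hq.2
    linarith

end dom

variable {Y : Sys} {h R C0 : ℝ} {v : ℂ → ℝ} {G L : ℂ × ℂ → ℂ} {U : Ultrafilter ℕ} {β C1 : ℝ}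
  {c V : ℕ → ℝ}

theorem pt_im (h : ℝ) (x V : ℕ → ℝ) (n : ℕ) (τ : ℂ) :
    (pt h x V n τ).im = h + V n * τ.im := by
  simp [pt]

theorem scaled_im (c : ℕ → ℝ) (n : ℕ) (γ : ℂ) : ((c n : ℂ) * γ).im = c n * γ.im := by simp

theorem Ln_im (L : ℂ × ℂ → ℂ) (h : ℝ) (x c V : ℕ → ℝ) (n : ℕ) (p : ℂ × ℂ) :
    (Ln L h x c V n p).im = ((L (pt h x V n p.1, (c n : ℂ) * p.2)).im - h) / V n := by
  unfold Ln
  rw [Complex.div_ofReal_im]
  simp

theorem mem_DKU_of (HW : Win v U β C1 c V) {n : ℕ} {x : ℕ → ℝ} {p : ℂ × ℂ}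
    (h1 : c n * ‖p.2‖ < R) (h2 : 0 < h + V n * p.1.im)
    (h3 : vn v c V n p.2 + |p.2.im| * (c n / V n) < -p.1.im) :
    (pt h x V n p.1, (c n : ℂ) * p.2) ∈ DKU v h R := by
  have hc := HW.c_pos n
  have hV := HW.V_pos n
  refine ⟨?_, ?_, ?_⟩
  · rw [norm_mul, Complex.norm_real, Real.norm_eq_abs, abs_of_pos hc]
    exact h1
  · rw [pt_im]; exact h2
  · dsimp only
    rw [pt_im, scaled_im, abs_mul, abs_of_pos hc]
    have h4 := mul_lt_mul_of_pos_left h3 hV
    have h5 : V n * (vn v c V n p.2 + |p.2.im| * (c n / V n)) =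
        v ((c n : ℂ) * p.2) + c n * |p.2.im| := by
      unfold vn
      field_simp
    rw [h5] at h4
    linarith

theorem Ln_an_at (hB : Base Y h R C0 v G L) (HW : Win v U β C1 c V) (n : ℕ) (x : ℕ → ℝ)
    {p : ℂ × ℂ} (hp : (pt h x V n p.1, (c n : ℂ) * p.2) ∈ DKU v h R) :
    AnalyticAt ℂ (Ln L h x c V n) p := by
  have hV : (V n : ℂ) ≠ 0 := by exact_mod_cast (HW.V_pos n).ne'
  unfold Ln
  refine AnalyticAt.div (AnalyticAt.sub ?_ analyticAt_const) analyticAt_const hV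
  have h1 : AnalyticAt ℂ L (pt h x V n p.1, (c n : ℂ) * p.2) := hB.an _ hp
  have h2 : AnalyticAt ℂ (fun p : ℂ × ℂ => (pt h x V n p.1, (c n : ℂ) * p.2)) p := by
    unfold pt
    exact (analyticAt_const.add (analyticAt_const.mul analyticAt_fst)).prod
      (analyticAt_const.mul analyticAt_snd)
  exact AnalyticAt.fun_comp (g := L) (f := fun p : ℂ × ℂ => (pt h x V n p.1, (c n : ℂ) * p.2)) h1 h2

theorem Ln_zero_at (hB : Base Y h R C0 v G L) (HW : Win v U β C1 c V) {n : ℕ} {x : ℕ → ℝ}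
    {τ : ℂ} (h1 : 0 < h + V n * τ.im) (h2 : 0 < -τ.im) : Ln L h x c V n (τ, 0) = τ := by
  have hV := HW.V_pos n
  have hV2 : (V n : ℂ) ≠ 0 := by exact_mod_cast hV.ne'
  unfold Ln
  dsimp only
  rw [mul_zero, hB.zero _ (by rw [pt_im]; exact h1) (by rw [pt_im]; nlinarith)]
  unfold pt
  field_simp
  ring

/-- Compact subsets of the limit domain are in the label domain, uniformly in the place.

Proof. By `ev_compact`-like reasoning on `K ⊆ ℂ × ℂ`: cover `K` by finitely many products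
`ball τ ε × ball γ δ` on which `vn (γ') < b < - Im τ'` (`ev_of_vI_lt` with `vI γ < b < - Im τ - ε`);
moreover `|Im γ'| c n / V n → 0`. Then `h - v (c γ') - |Im (c γ')| - Im t = V n (- Im τ' - vn γ' -
|Im γ'| c n / V n) > 0`, `Im t = h + V n Im τ' > 0`, `‖c n γ'‖ < R` for almost all `n`. -/
theorem mem_DKU (hB : Base Y h R C0 v G L) (HW : Win v U β C1 c V) {K : Set (ℂ × ℂ)}
    (hK : IsCompact K) (hKD : K ⊆ DI v U c V) :
    ∀ᶠ n in (U : Filter ℕ), ∀ x : ℕ → ℝ, ∀ p ∈ K,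
      (pt h x V n p.1, (c n : ℂ) * p.2) ∈ DKU v h R := by
  obtain ⟨ε, hε, hev⟩ := ev_compact2 hB.nv hB.R_pos HW hK hKD
  obtain ⟨B, hBK⟩ := hK.isBounded.exists_norm_le
  filter_upwards [hev, lim_lt HW.c_lim B hB.R_pos, lim_lt HW.V_lim B hB.h_pos,
    lim_lt (cV_lim HW) B hε] with n hn1 hn2 hn3 hn4 x p hp
  have hc := HW.c_pos n
  have hV := HW.V_pos n
  have h1 : ‖p.1‖ ≤ B := (norm_fst_le p).trans (hBK p hp)
  have h2 : ‖p.2‖ ≤ B := (norm_snd_le p).trans (hBK p hp)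
  apply mem_DKU_of HW
  · exact lt_of_le_of_lt (mul_le_mul_of_nonneg_left h2 hc.le) hn2
  · have h3 := (abs_im_le_norm p.1).trans h1
    have h4 := neg_abs_le p.1.im
    have h5 : V n * |p.1.im| ≤ V n * B := mul_le_mul_of_nonneg_left h3 hV.le
    nlinarith
  · have h3 := (abs_im_le_norm p.2).trans h2
    have h4 : |p.2.im| * (c n / V n) ≤ B * (c n / V n) :=
      mul_le_mul_of_nonneg_right h3 (div_nonneg hc.le hV.le)
    have h5 := hn1 p hp
    linarith

/-- the same for the domain of `G`, with points allowed slightly above: for `p` in a compact subset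
of `{Im τ < - vI γ}` this is weaker than `mem_DKU` -/
theorem mem_DFU (hB : Base Y h R C0 v G L) (HW : Win v U β C1 c V) {K : Set (ℂ × ℂ)}
    (hK : IsCompact K) (hKD : K ⊆ DI v U c V) :
    ∀ᶠ n in (U : Filter ℕ), ∀ x : ℕ → ℝ, ∀ p ∈ K,
      (pt h x V n p.1, (c n : ℂ) * p.2) ∈ DFU v h R := by
  filter_upwards [mem_DKU hB HW hK hKD] with n hn x p hp
  obtain ⟨h1, h2, h3⟩ := hn x p hp
  refine ⟨h1, h2, ?_⟩
  have := abs_nonneg ((c n : ℂ) * p.2).im
  dsimp only at h3 ⊢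
  linarith

/-- the radius of the base region at depth `y` -/
def Rg (β C1 y : ℝ) : ℝ := min (y / (2 * C1)) ((y / (2 * C1)) ^ (1 / β))

theorem Rg_pos (HW : Win v U β C1 c V) {y : ℝ} (hy : 0 < y) : 0 < Rg β C1 y := by
  have h1 : 0 < y / (2 * C1) := by have := HW.C1_one; positivity
  exact lt_min h1 (Real.rpow_pos_of_pos h1 _)

/-- `C1 max ‖γ‖ (‖γ‖ ^ β) ≤ y / 2` for `‖γ‖ ≤ Rg y` -/
theorem Rg_spec (HW : Win v U β C1 c V) {y : ℝ} (hy : 0 < y) {γ : ℂ} (h : ‖γ‖ ≤ Rg β C1 y) :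
    C1 * max ‖γ‖ (‖γ‖ ^ β) ≤ y / 2 := by
  have hC : 0 < C1 := by linarith [HW.C1_one]
  have h1 : 0 < y / (2 * C1) := by positivity
  have h2 : ‖γ‖ ≤ y / (2 * C1) := h.trans (min_le_left _ _)
  have h3 : ‖γ‖ ^ β ≤ y / (2 * C1) := by
    have h4 : ‖γ‖ ≤ (y / (2 * C1)) ^ (1 / β) := h.trans (min_le_right _ _)
    have h5 := Real.rpow_le_rpow (norm_nonneg _) h4 HW.β_pos.le
    rw [← Real.rpow_mul h1.le, one_div_mul_cancel HW.β_pos.ne', Real.rpow_one] at h5
    exact h5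
  have h6 : C1 * (y / (2 * C1)) = y / 2 := by field_simp
  rw [← h6]
  exact mul_le_mul_of_nonneg_left (max_le h2 h3) hC.le

/-- The base region is in the label domain, uniformly in the place and in the point.

Proof. `vn_up` with `1 / K'` so small that `C1 (1 / K') ^ β ≤ 1 / (8 K)`, and `Rg_spec`:
`vn γ ≤ max (y / 2) (1 / (8 K)) ≤ y / 2` where `y = - Im τ ≥ 1 / K`; `|Im γ| c n / V n ≤ 1 / (8 K)`
for
almost all `n` (`‖γ‖ ≤ Rg y ≤ K / 2`). So `h - v - |Im ρ| - Im t ≥ V n y / 4 > 0`. -/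
theorem mem_base (hB : Base Y h R C0 v G L) (HW : Win v U β C1 c V) {K : ℝ} (hK : 1 ≤ K) :
    ∀ᶠ n in (U : Filter ℕ), ∀ x : ℕ → ℝ, ∀ τ γ : ℂ, 1 / K ≤ -τ.im → -τ.im ≤ K →
      ‖γ‖ ≤ Rg β C1 (-τ.im) → (pt h x V n τ, (c n : ℂ) * γ) ∈ DKU v h R := by
  have hK0 : 0 < K := by linarith
  have hC : 0 < C1 := by linarith [HW.C1_one]
  obtain ⟨K', hK'1, hK'2⟩ : ∃ K' : ℝ, K ≤ K' ∧ C1 * (1 / K') ^ β ≤ 1 / (8 * K) := by
    have h1 : Tendsto (fun K' : ℝ => C1 * (1 / K') ^ β) atTop (𝓝 (C1 * 0 ^ β)) := by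
      have h0 : Tendsto (fun K' : ℝ => 1 / K') atTop (𝓝 0) := by
        simp only [one_div]
        exact tendsto_inv_atTop_zero (𝕜 := ℝ)
      exact (h0.rpow_const (Or.inr HW.β_pos.le)).const_mul _
    rw [Real.zero_rpow HW.β_pos.ne', mul_zero] at h1
    have h2 : (0:ℝ) < 1 / (8 * K) := by positivity
    obtain ⟨K', h3, h4⟩ := ((h1.eventually (gt_mem_nhds h2)).and (eventually_ge_atTop K)).exists
    exact ⟨K', h4, h3.le⟩
  have hK'0 : 0 < K' := by linarith
  have hε : (0:ℝ) < 1 / (8 * K) := by positivity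
  filter_upwards [vn_up hB.nv hB.R_pos HW (hK.trans hK'1), lim_lt HW.c_lim K hB.R_pos,
    lim_lt HW.V_lim K hB.h_pos, lim_lt (cV_lim HW) K hε] with n hn1 hn2 hn3 hn4 x τ γ hτ1 hτ2 hγ
  have hc := HW.c_pos n
  have hV := HW.V_pos n
  have hy : 0 < -τ.im := lt_of_lt_of_le (by positivity) hτ1
  have hγ1 : ‖γ‖ ≤ K / 2 := by
    have h1 : ‖γ‖ ≤ -τ.im / (2 * C1) := hγ.trans (min_le_left _ _)
    have h2 : -τ.im / (2 * C1) ≤ K / 2 := by
      rw [div_le_div_iff₀ (by positivity) (by norm_num)]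
      nlinarith [HW.C1_one]
    linarith
  have hγ0 := norm_nonneg γ
  apply mem_DKU_of HW (p := (τ, γ))
  · refine lt_of_le_of_lt ?_ hn2
    exact mul_le_mul_of_nonneg_left (by show ‖γ‖ ≤ K; linarith) hc.le
  · show 0 < h + V n * τ.im
    nlinarith
  · show vn v c V n γ + |γ.im| * (c n / V n) < -τ.im
    have h1 := Rg_spec HW hy hγ
    have h2 := hn1 γ (by linarith)
    have h3 : C1 * max ‖γ‖ (max ‖γ‖ (1 / K') ^ β) ≤ -τ.im / 2 := by
      have h4 : C1 * ‖γ‖ ≤ -τ.im / 2 :=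
        (mul_le_mul_of_nonneg_left (le_max_left _ _) hC.le).trans h1
      have h5 : C1 * ‖γ‖ ^ β ≤ -τ.im / 2 :=
        (mul_le_mul_of_nonneg_left (le_max_right _ _) hC.le).trans h1
      have h6 : C1 * (1 / K') ^ β ≤ -τ.im / 2 := by
        refine hK'2.trans ?_
        have h7 : 1 / (8 * K) = 1 / K / 8 := by field_simp
        rw [h7]
        linarith
      rcases le_total ‖γ‖ (max ‖γ‖ (1 / K') ^ β) with h7 | h7
      · rw [max_eq_right h7]
        rcases le_total ‖γ‖ (1 / K') with h8 | h8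
        · rw [max_eq_right h8]; exact h6
        · rw [max_eq_left h8]; exact h5
      · rw [max_eq_left h7]; exact h4
    have h8 : |γ.im| * (c n / V n) ≤ K * (c n / V n) := by
      apply mul_le_mul_of_nonneg_right _ (div_nonneg hc.le hV.le)
      have := abs_im_le_norm γ
      linarith
    have h9 : 1 / (8 * K) = 1 / K / 8 := by field_simp
    rw [h9] at hn4
    linarith

/-- an even holomorphic function with bounded imaginary part -/
theorem even_est {g : ℂ → ℂ} {r y : ℝ} (hr : 0 < r) (hy : 0 < y)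
    (hg : DifferentiableOn ℂ g (ball 0 r)) (h0 : g 0 = 0)
    (he : ∀ z ∈ ball (0:ℂ) r, g (-z) = g z) (him : ∀ z ∈ ball (0:ℂ) r, (g z).im ≤ y) {z : ℂ}
    (hz : z ∈ ball (0:ℂ) (r / 2)) : ‖g z‖ ≤ 8 * y * ‖z‖ ^ 2 / r ^ 2 := by
  have hr2 : 0 < r / 2 := by linarith
  have hsub : ball (0:ℂ) (r / 2) ⊆ ball 0 r := ball_subset_ball (by linarith)
  have key : ∀ w ∈ ball (0:ℂ) (r / 2), ‖g w‖ ≤ 2 * y := by
    intro w hw
    have h1 := borelCaratheodory_zero (f := fun ρ => -I * g ρ) (M := y) hy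
      (hg.const_mul (-I)) (by
        intro ρ hρ
        show (-I * g ρ).re ≤ y
        simp only [neg_mul, neg_re, mul_re, I_re, zero_mul, I_im, one_mul, zero_sub, neg_neg]
        exact him ρ hρ) hr (hsub hw) (by simp [h0])
    rw [norm_mul, norm_neg, norm_I, one_mul] at h1
    rw [mem_ball_zero_iff] at hw
    refine h1.trans ?_
    rw [div_le_iff₀ (by linarith)]
    have := norm_nonneg w
    nlinarith
  have hd0 : DifferentiableAt ℂ g 0 := hg.differentiableAt (ball_mem_nhds _ hr)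
  have hder : HasDerivAt g 0 0 := by
    have h1 := hd0.hasDerivAt
    have h2 : HasDerivAt (fun w => g (-w)) (-deriv g 0) 0 := by
      have h3 : HasDerivAt g (deriv g 0) (-(0:ℂ)) := by rw [neg_zero]; exact h1
      have h4 := h3.comp (0:ℂ) (hasDerivAt_neg (0:ℂ))
      rw [mul_neg, mul_one] at h4
      exact h4
    have h3 : HasDerivAt g (-deriv g 0) 0 := by
      refine h2.congr_of_eventuallyEq ?_
      filter_upwards [ball_mem_nhds (0:ℂ) hr] with w hw
      exact (he w hw).symm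
    have h4 := h1.unique h3
    have h5 : deriv g 0 = 0 := by
      have h6 : deriv g 0 + deriv g 0 = 0 := by
        nth_rewrite 2 [h4]
        ring
      have h7 : 2 * deriv g 0 = 0 := by rw [two_mul]; exact h6
      exact (mul_eq_zero.1 h7).resolve_left two_ne_zero
    rwa [h5] at h1
  have hlo : (g · - g 0) =o[𝓝 0] (fun w : ℂ => ‖w - 0‖ ^ 1) := by
    have h1 := hasDerivAt_iff_isLittleO.1 hder
    simp only [smul_zero, sub_zero, pow_one] at h1 ⊢
    exact h1.norm_right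
  have h2 := Complex.dist_le_mul_div_pow_of_mapsTo_ball_of_isLittleO (f := g) (c := 0) (z := z)
    (R₁ := r / 2) (R₂ := 2 * y) (n := 1) (hg.mono hsub) (by
      intro w hw
      rw [h0, mem_closedBall_zero_iff]
      exact key w hw) hlo hz
  rw [h0, dist_zero_right, dist_zero_right] at h2
  refine h2.trans (le_of_eq ?_)
  have h3 : ‖z‖ / (r / 2) = 2 * ‖z‖ / r := by field_simp
  rw [h3, div_pow]
  ring

/-- (M2) BASE ESTIMATE.

Proof. Fix `n`, `x`, `τ`, `y = - Im τ`, `r = Rg y`. The function `g γ = Ln (τ, γ) - τ` is analytic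
on
`ball 0 r` (`mem_base`, `hB.an`), `g 0 = 0` (`hB.zero`: `Ln (τ, 0) = τ`), even (`hB.even`), and
`Im g = Im Ln + y < y` there, since `Im Ln < 0`: by `hB.dep`, `h - Im L ≥ (1 - C0 ‖ρ‖²)(..) > 0` as
soon
as `C0 ‖c n γ‖² < 1`. Borel-Caratheodory (`Im g ≤ y`, `g 0 = 0`): `‖g γ‖ ≤ 2 y ‖γ‖ / (r - ‖γ‖) ≤ 2
y` for
`‖γ‖ ≤ r / 2`. `g` even with `g 0 = 0` vanishes to order two at `0` (`g' 0 = 0`), so by the Schwarz
lemma
applied twice (`dslope`): `‖g γ‖ ≤ 2 y (‖γ‖ / (r / 2))² = 8 y ‖γ‖² / r²` for `‖γ‖ < r / 2`.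
(Compare `bc_le` in MP_ae5b4e_an_M0/Bd.lean.) -/
theorem base_est (hB : Base Y h R C0 v G L) (HW : Win v U β C1 c V) {K : ℝ} (hK : 1 ≤ K) :
    ∀ᶠ n in (U : Filter ℕ), ∀ x : ℕ → ℝ, ∀ τ γ : ℂ, 1 / K ≤ -τ.im → -τ.im ≤ K →
      ‖γ‖ < Rg β C1 (-τ.im) / 2 →
      ‖Ln L h x c V n (τ, γ) - τ‖ ≤ 8 * (-τ.im) * ‖γ‖ ^ 2 / Rg β C1 (-τ.im) ^ 2 := by
  filter_upwards [mem_base hB HW hK, lim_lt HW.V_lim K hB.h_pos] with n hn hn3 x τ γ hτ1 hτ2 hγ
  have hK0 : 0 < K := by linarith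
  have hc := HW.c_pos n
  have hV := HW.V_pos n
  have hy : 0 < -τ.im := lt_of_lt_of_le (by positivity) hτ1
  have hr := Rg_pos HW hy
  have hmem : ∀ z ∈ ball (0:ℂ) (Rg β C1 (-τ.im)),
      (pt h x V n τ, (c n : ℂ) * z) ∈ DKU v h R := by
    intro z hz
    exact hn x τ z hτ1 hτ2 (mem_ball_zero_iff.1 hz).le
  have h0 : Ln L h x c V n (τ, 0) = τ := by
    apply Ln_zero_at hB HW
    · have := mul_le_mul_of_nonneg_left hτ2 hV.le
      nlinarith
    · exact hy
  have him : ∀ z ∈ ball (0:ℂ) (Rg β C1 (-τ.im)), (Ln L h x c V n (τ, z)).im < 0 := by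
    intro z hz
    have h1 := (hB.maps _ (hmem z hz)).2
    rw [Ln_im]
    exact div_neg_of_neg_of_pos (by linarith) hV
  have h1 := even_est (g := fun z => Ln L h x c V n (τ, z) - τ) hr hy
    (by
      intro z hz
      have h2 : AnalyticAt ℂ (Ln L h x c V n) (τ, z) := Ln_an_at hB HW n x (hmem z hz)
      have h3 : DifferentiableAt ℂ (fun z => Ln L h x c V n (τ, z)) z :=
        DifferentiableAt.comp z (g := Ln L h x c V n) (f := fun z : ℂ => (τ, z))
          h2.differentiableAt (by fun_prop)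
      exact (h3.sub_const τ).differentiableWithinAt)
    (by show Ln L h x c V n (τ, 0) - τ = 0; rw [h0, sub_self])
    (by
      intro z hz
      show Ln L h x c V n (τ, -z) - τ = Ln L h x c V n (τ, z) - τ
      have h2 := hB.even _ (hmem z hz)
      dsimp only at h2
      unfold Ln
      dsimp only
      rw [mul_neg, h2])
    (by
      intro z hz
      show (Ln L h x c V n (τ, z) - τ).im ≤ -τ.im
      rw [sub_im]
      have := him z hz
      linarith)
    (z := γ) (mem_ball_zero_iff.2 hγ)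
  exact h1

/-- (M3) in the window. Proof. `hB.dep` divided by `V n`. -/
theorem Ln_dep (hB : Base Y h R C0 v G L) (HW : Win v U β C1 c V) (n : ℕ) (x : ℕ → ℝ) {p : ℂ × ℂ}
    (hp : (pt h x V n p.1, (c n : ℂ) * p.2) ∈ DKU v h R) :
    (1 - C0 * (c n * ‖p.2‖) ^ 2) * (-vn v c V n p.2 - |p.2.im| * (c n / V n) - p.1.im) ≤
      -(Ln L h x c V n p).im := by
  have hc := HW.c_pos n
  have hV := HW.V_pos n
  have h1 := hB.dep _ hp
  dsimp only at h1
  rw [Ln_im, pt_im, scaled_im, norm_mul, Complex.norm_real, Real.norm_eq_abs, abs_of_pos hc,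
    abs_mul, abs_of_pos hc] at *
  have h2 : -vn v c V n p.2 - |p.2.im| * (c n / V n) - p.1.im =
      (h - v ((c n : ℂ) * p.2) - c n * |p.2.im| - (h + V n * p.1.im)) / V n := by
    unfold vn
    field_simp
    ring
  rw [h2, ← mul_div_assoc, ← neg_div, neg_sub]
  exact div_le_div_of_nonneg_right h1 hV.le

end Pool.Agent.MP_ae5b4e_an_M
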