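import Pool.Agent.Lib.MP_ae5b4e_an_M.VA
import Pool.Agent.Lib.MP_ae5b4e_an_M.Mont
import Pool.Agent.Lib.MP_ae5b4e_an_LL.Half
import Pool.Agent.Lib.MP_ae5b4e_an_LL.Comp

/-! # Section M: the limit of `v_n` is subharmonic, and is attained on the reals -/

noncomputable section

namespace Pool.Agent.MP_ae5b4e_an_M

open Complex Set Filter Topology Metric
open Real (circleAverage)
open Pool.Agent.MP_ae5b4e_an_N5 (NV)
open Pool.Agent.Lib.MP_ae5b4e_an_LL (SubH RHD exists_continuous_eqOn)

variable {v : ℂ → ℝ} {R C0 : ℝ} {U : Ultrafilter ℕ} {β C1 : ℝ} {c V : ℕ → ℝ}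

/-- `vn` is subharmonic on the disc of radius `R / c n` (composition with the dilation; there may be
a lemma in LL/Comp, otherwise directly: the circle averages of `g` over `sphere z r` and of
`g ∘ (· / c n)` over `sphere (c n z) (c n r)` agree). -/
theorem vn_subH (hv : NV v R C0) (HW : Win v U β C1 c V) (n : ℕ) :
    SubH (vn v c V n) (ball 0 (R / c n)) := by
  have hc := HW.c_pos n
  have h1 : SubH (fun z => v ((c n : ℂ) * z)) (ball 0 (R / c n)) := by
    apply SubH.comp (φ := fun z => (c n : ℂ) * z) (U := ball 0 R) isOpen_ball isOpen_ball hv.sub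
    · exact fun z _ => analyticAt_const.mul analyticAt_id
    · intro z hz
      rw [mem_ball_zero_iff, lt_div_iff₀ hc, mul_comm] at hz
      exact mem_scaled HW n hz
  have h2 := h1.const_mul (a := (V n)⁻¹) (inv_nonneg.2 (HW.V_pos n).le)
  refine h2.congr isOpen_ball fun z _ => ?_
  unfold vn
  rw [div_eq_inv_mul]

theorem ball_sub_scaled (hR : 0 < R) (HW : Win v U β C1 c V) (K : ℝ) :
    ∀ᶠ n in (U : Filter ℕ), closedBall (0:ℂ) K ⊆ ball 0 (R / c n) := by
  have h1 : Tendsto (fun n => c n * K) U (𝓝 (0 * K)) := HW.c_lim.mul_const _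
  rw [zero_mul] at h1
  filter_upwards [h1.eventually (gt_mem_nhds hR)] with n hn
  apply closedBall_subset_ball
  rw [lt_div_iff₀ (HW.c_pos n), mul_comm]
  exact hn

/-- The limit is subharmonic on the whole plane.

Proof. As `subH_ulim` in LL/Lim.lean (there for sequences along `atTop`; here along `U`). Upper
semicontinuity: `vI_usc`. Let `z`, `r > 0` and `g` continuous on `sphere z r` with `vI ≤ g` there;
let
`ε > 0`. By `ev_compact` (`K = sphere z r`, `f = g + ε`) there is `δ > 0` such that for almost all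
`n`:
`vn n (w') < g w + ε` for `w ∈ sphere z r`, `dist w' w < δ`. Let `z'` be close to `z` (`dist < δ`):
then
`vn n (z') ≤` the circle average of `w ↦ g w + ε` (apply `SubH.le_circleAverage` for the disc with
centre `z'` and radius `r`, which for almost all `n` is contained in `ball 0 (R / c n)`: `c n → 0`;
on
the circle `vn n (w + z' - z) ≤ g w + ε`). So the number `circleAverage g z r + ε` is in the set
whose
infimum is `vI z`. Let `ε → 0`. -/
theorem vI_sub (hv : NV v R C0) (hR : 0 < R) (HW : Win v U β C1 c V) :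
    SubH (vI v U c V) univ := by
  refine ⟨(vI_usc hv hR HW).upperSemicontinuousOn _, fun z _ => ?_⟩
  filter_upwards [self_mem_nhdsWithin] with r hr g hg1 hg2
  have hr0 : 0 < r := hr
  obtain ⟨G, hG1, hG2⟩ := exists_continuous_eqOn isClosed_sphere hg1
  have hav : circleAverage g z r = circleAverage G z r := by
    apply Real.circleAverage_congr_sphere
    rw [abs_of_pos hr0]
    exact fun w hw => (hG2 hw).symm
  rw [hav]
  apply le_of_forall_pos_le_add
  intro ε hε
  obtain ⟨δ, hδ, hev⟩ := ev_compact hv hR HW (isCompact_sphere z r) (f := fun w => G w + ε)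
    (hG1.add continuous_const).continuousOn (fun w hw => by
      have h1 := hg2 w hw
      have h2 : G w = g w := hG2 hw
      show vI v U c V w < G w + ε
      rw [h2]; linarith)
  apply csInf_le (vI_set hv hR HW z).1
  refine ⟨δ, hδ, ?_⟩
  filter_upwards [hev, ball_sub_scaled hR HW (‖z‖ + δ + r)] with n hn hn2 z' hz'
  have hz'2 : ‖z' - z‖ < δ := by rw [← dist_eq_norm]; exact hz'
  have hz'3 : ‖z'‖ ≤ ‖z‖ + δ := by
    have := norm_sub_norm_le z' z
    linarith
  have hcl : closedBall z' r ⊆ ball 0 (R / c n) := by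
    intro w hw
    apply hn2
    rw [mem_closedBall_zero_iff]
    rw [mem_closedBall, dist_eq_norm] at hw
    have := norm_sub_norm_le w z'
    linarith
  have hs := vn_subH hv HW n
  have hcont : Continuous fun w => G (w + (z - z')) + ε :=
    (hG1.comp (continuous_id.add continuous_const)).add continuous_const
  have h4 := (hs.mono (ball_subset_closedBall.trans hcl)).le_circleAverage hr0
    (hs.usc.mono hcl) (g := fun w => G (w + (z - z')) + ε) hcont.continuousOn (fun w hw => by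
      have h5 : w + (z - z') ∈ sphere z r := by
        rw [mem_sphere, dist_eq_norm] at hw ⊢
        have : w + (z - z') - z = w - z' := by ring
        rw [this]; exact hw
      have h6 := hn _ h5 w (by
        rw [mem_ball, dist_eq_norm]
        have : w - (w + (z - z')) = z' - z := by ring
        rw [this]; exact hz'2)
      linarith)
  refine h4.trans (le_of_eq ?_)
  have h7 : circleAverage (fun w => G (w + (z - z')) + ε) z' r =
      circleAverage (fun w => G w + ε) z r := by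
    rw [Real.circleAverage_def, Real.circleAverage_def]
    congr 1
    apply intervalIntegral.integral_congr
    intro θ _
    have : circleMap z' r θ + (z - z') = circleMap z r θ := by
      unfold circleMap; ring
    show G (circleMap z' r θ + (z - z')) + ε = G (circleMap z r θ) + ε
    rw [this]
  rw [h7, Real.circleAverage_fun_add (hG1.continuousOn.circleIntegrable hr0.le)
      (continuousOn_const.circleIntegrable hr0.le), Real.circleAverage_const]

/-- a simple upper bound -/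
theorem vn_up_simple (hv : NV v R C0) (hR : 0 < R) (HW : Win v U β C1 c V) {K : ℝ} (hK : 1 ≤ K) :
    ∀ᶠ n in (U : Filter ℕ), ∀ γ : ℂ, ‖γ‖ ≤ K → vn v c V n γ ≤ C1 * K := by
  filter_upwards [vn_up hv hR HW hK] with n hn γ hγ
  refine (hn γ hγ).trans ?_
  apply mul_le_mul_of_nonneg_left _ (by linarith [HW.C1_one])
  apply max_le hγ
  have h3 : max ‖γ‖ (1 / K) ≤ K := by
    apply max_le hγ
    rw [div_le_iff₀ (by linarith)]
    nlinarith
  calc (max ‖γ‖ (1 / K)) ^ β ≤ K ^ β :=
        Real.rpow_le_rpow (le_max_of_le_left (norm_nonneg _)) h3 HW.β_pos.le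
    _ ≤ K ^ (1:ℝ) := Real.rpow_le_rpow_of_exponent_le hK HW.β_le
    _ = K := Real.rpow_one _

/-- one half disc -/
theorem half_bound {f : ℂ → ℝ} {γ0 : ℝ} {δ A b : ℝ} (hδ : 0 < δ) (hbA : b ≤ A)
    (hf : SubH f (ball (γ0 : ℂ) δ)) (hA : ∀ z ∈ ball (γ0 : ℂ) δ, f z ≤ A)
    (hb : ∀ g : ℝ, |g - γ0| < δ → f g ≤ b) {s : ℂ} (hs : s = I ∨ s = -I) {z : ℂ}
    (hz : z ∈ ball (γ0 : ℂ) δ) (hz2 : 0 < (s⁻¹ * (z - γ0)).re) :
    f z ≤ b + (A - b) * (4 / Real.pi * (δ * (s⁻¹ * (z - γ0)).re / (δ ^ 2 - ‖z - γ0‖ ^ 2))) := by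
  have hs0 : s ≠ 0 := by rcases hs with rfl | rfl <;> simp
  have hsn : ‖s‖ = 1 := by rcases hs with rfl | rfl <;> simp
  have hm : ∀ w : ℂ, ‖w‖ < δ → (γ0 : ℂ) + s * w ∈ ball (γ0 : ℂ) δ := by
    intro w hw
    rw [mem_ball, dist_eq_norm, add_sub_cancel_left, norm_mul, hsn, one_mul]
    exact hw
  have hF : SubH (fun w => f (γ0 + s * w)) (ball 0 δ) := by
    apply SubH.comp (φ := fun w => (γ0 : ℂ) + s * w) (U := ball (γ0 : ℂ) δ) isOpen_ball isOpen_ball
      hf
    · exact fun z _ => analyticAt_const.add (analyticAt_const.mul analyticAt_id)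
    · intro w hw
      exact hm w (mem_ball_zero_iff.1 hw)
  have hsub : RHD δ ⊆ ball 0 δ := fun w hw => mem_ball_zero_iff.2 hw.2
  have hreal : ∀ ζ : ℂ, ζ.re = 0 → ∃ g : ℝ, (γ0 : ℂ) + s * ζ = g ∧ |g - γ0| = ‖ζ‖ := by
    intro ζ hζ
    have h1 : ζ = ζ.im * I := by
      apply Complex.ext <;> simp [hζ]
    have h3 : ‖ζ‖ = |ζ.im| := by
      rw [h1, norm_mul, Complex.norm_I, mul_one, Complex.norm_real, Real.norm_eq_abs]
      simp
    rcases hs with rfl | rfl
    · refine ⟨γ0 - ζ.im, ?_, ?_⟩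
      · apply Complex.ext <;> simp [hζ, sub_eq_add_neg]
      · rw [h3, sub_sub_cancel_left, abs_neg]
    · refine ⟨γ0 + ζ.im, ?_, ?_⟩
      · apply Complex.ext <;> simp [hζ]
      · rw [h3, add_sub_cancel_left]
  have h := SubH.le_halfDisc hδ hbA (hF.mono hsub) (fun w hw => hA _ (hm w hw.2))
    (E := ∅) Set.finite_empty (by
      intro ζ hζ1 hζ2 _ ε hε
      obtain ⟨g, hg1, hg2⟩ := hreal ζ hζ1
      have h1 : f (γ0 + s * ζ) ≤ b := by
        rw [hg1]
        exact hb g (by rw [hg2]; exact hζ2)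
      have h2 := hF.usc ζ (mem_ball_zero_iff.2 hζ2) (f (γ0 + s * ζ) + ε)
        (by show f (γ0 + s * ζ) < f (γ0 + s * ζ) + ε; linarith)
      have h3 : ∀ᶠ w in 𝓝[RHD δ] ζ, f (γ0 + s * w) < f (γ0 + s * ζ) + ε :=
        h2.filter_mono (nhdsWithin_mono _ hsub)
      filter_upwards [h3] with w hw
      show f (γ0 + s * w) ≤ b + ε
      linarith)
  have hn : ‖s⁻¹ * (z - γ0)‖ = ‖z - γ0‖ := by
    rw [norm_mul, norm_inv, hsn, inv_one, one_mul]
  have h4 := h (s⁻¹ * (z - γ0)) ⟨hz2, by
    rw [hn, ← dist_eq_norm]; exact hz⟩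
  have h5 : (γ0 : ℂ) + s * (s⁻¹ * (z - γ0)) = z := by
    rw [← mul_assoc, mul_inv_cancel₀ hs0]; ring
  simp only [h5, hn] at h4
  exact h4

theorem real_contra (hv : NV v R C0) (hR : 0 < R) (HW : Win v U β C1 c V) (γ0 : ℝ) {δ ε : ℝ}
    (hδ : 0 < δ) (hδ1 : δ ≤ 1) (hε : 0 < ε)
    (h : ∀ᶠ n in (U : Filter ℕ), ∀ g : ℝ, |g - γ0| < δ →
      vn v c V n (g : ℂ) ≤ vI v U c V γ0 - ε) : False := by
  set b : ℝ := vI v U c V γ0 - ε with hb
  have hK : (1:ℝ) ≤ ‖(γ0 : ℂ)‖ + 1 := by have := norm_nonneg (γ0 : ℂ); linarith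
  set A : ℝ := max (C1 * (‖(γ0 : ℂ)‖ + 1)) b with hA
  have hbA : b ≤ A := le_max_right _ _
  set ρ : ℝ := min (δ / 2) (ε * δ / (4 * (A - b + 1))) with hρ
  have hρ0 : 0 < ρ := lt_min (half_pos hδ) (by
    have : 0 < A - b + 1 := by linarith
    positivity)
  have hρ1 : ρ ≤ δ / 2 := min_le_left _ _
  have hρ2 : 2 * (A - b) * ρ / δ ≤ ε / 2 := by
    have h1 : ρ ≤ ε * δ / (4 * (A - b + 1)) := min_le_right _ _
    have h2 : 0 < A - b + 1 := by linarith
    rw [le_div_iff₀ (by positivity)] at h1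
    rw [div_le_iff₀ hδ]
    nlinarith
  have hlt : vI v U c V γ0 ≤ b + ε / 2 := by
    apply csInf_le (vI_set hv hR HW γ0).1
    refine ⟨ρ, hρ0, ?_⟩
    filter_upwards [h, vn_up_simple hv hR HW hK, ball_sub_scaled hR HW (‖(γ0 : ℂ)‖ + 1)]
      with n hn1 hn2 hn3 z hz
    have hball : ball (γ0 : ℂ) δ ⊆ closedBall 0 (‖(γ0 : ℂ)‖ + 1) := by
      intro w hw
      rw [mem_closedBall_zero_iff]
      rw [mem_ball, dist_eq_norm] at hw
      have := norm_sub_norm_le w (γ0 : ℂ)
      linarith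
    have hS : SubH (vn v c V n) (ball (γ0 : ℂ) δ) :=
      (vn_subH hv HW n).mono (hball.trans hn3)
    have hAb : ∀ w ∈ ball (γ0 : ℂ) δ, vn v c V n w ≤ A := by
      intro w hw
      exact (hn2 w (mem_closedBall_zero_iff.1 (hball hw))).trans (le_max_left _ _)
    have hz1 : ‖z - γ0‖ < ρ := by rw [← dist_eq_norm]; exact hz
    have hzδ : z ∈ ball (γ0 : ℂ) δ := ball_subset_ball (by linarith) hz
    have hnn := norm_nonneg (z - γ0)
    have hden : 3 * δ ^ 2 / 4 ≤ δ ^ 2 - ‖z - γ0‖ ^ 2 := by nlinarith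
    have hest : ∀ t : ℝ, 0 ≤ t → t ≤ ρ →
        (A - b) * (4 / Real.pi * (δ * t / (δ ^ 2 - ‖z - γ0‖ ^ 2))) ≤ ε / 2 := by
      intro t ht0 ht
      refine le_trans ?_ hρ2
      have h1 : δ * t / (δ ^ 2 - ‖z - γ0‖ ^ 2) ≤ δ * ρ / (3 * δ ^ 2 / 4) :=
        div_le_div₀ (by positivity) (mul_le_mul_of_nonneg_left ht hδ.le) (by positivity) hden
      have h2 : δ * ρ / (3 * δ ^ 2 / 4) = 4 / 3 * (ρ / δ) := by
        field_simp
      have h3 : 4 / Real.pi ≤ 4 / 3 := by
        apply div_le_div_of_nonneg_left (by norm_num) (by norm_num)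
        exact Real.pi_gt_three.le
      have h4 : 0 ≤ δ * t / (δ ^ 2 - ‖z - γ0‖ ^ 2) := by
        apply div_nonneg (by positivity)
        have : 0 < 3 * δ ^ 2 / 4 := by positivity
        linarith
      have h5 : 4 / Real.pi * (δ * t / (δ ^ 2 - ‖z - γ0‖ ^ 2)) ≤ 4 / 3 * (4 / 3 * (ρ / δ)) := by
        rw [h2] at h1
        exact mul_le_mul h3 h1 h4 (by norm_num)
      have h6 : 0 ≤ ρ / δ := by positivity
      calc (A - b) * (4 / Real.pi * (δ * t / (δ ^ 2 - ‖z - γ0‖ ^ 2)))
          ≤ (A - b) * (4 / 3 * (4 / 3 * (ρ / δ))) :=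
            mul_le_mul_of_nonneg_left h5 (by linarith)
        _ ≤ (A - b) * (2 * (ρ / δ)) :=
            mul_le_mul_of_nonneg_left (by linarith) (by linarith)
        _ = 2 * (A - b) * ρ / δ := by ring
    rcases lt_trichotomy z.im 0 with him | him | him
    · have hre : ((-I)⁻¹ * (z - γ0)).re = -z.im := by
        simp [Complex.inv_I]
      have h1 := half_bound hδ hbA hS hAb hn1 (s := -I) (Or.inr rfl) hzδ (by rw [hre]; linarith)
      rw [hre] at h1
      have h2 := hest (-z.im) (by linarith) (by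
        have h3 := Complex.abs_im_le_norm (z - γ0)
        rw [Complex.sub_im, Complex.ofReal_im, sub_zero, abs_of_neg him] at h3
        linarith)
      linarith
    · have h1 : z = (z.re : ℂ) := by
        apply Complex.ext <;> simp [him]
      have h2 : |z.re - γ0| < δ := by
        have h3 := Complex.abs_re_le_norm (z - γ0)
        rw [Complex.sub_re, Complex.ofReal_re] at h3
        linarith
      have h4 := hn1 z.re h2
      rw [← h1] at h4
      linarith
    · have hre : (I⁻¹ * (z - γ0)).re = z.im := by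
        simp [Complex.inv_I]
      have h1 := half_bound hδ hbA hS hAb hn1 (s := I) (Or.inl rfl) hzδ (by rw [hre]; linarith)
      rw [hre] at h1
      have h2 := hest z.im (by linarith) (by
        have h3 := Complex.abs_im_le_norm (z - γ0)
        rw [Complex.sub_im, Complex.ofReal_im, sub_zero, abs_of_pos him] at h3
        linarith)
      linarith
  linarith

/-- On the reals the limit is attained along real points.

Proof. Let `γ0` be real, `ε, δ > 0`, and suppose that for almost all `n` (`U` is an ultrafilter)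
`vn ≤ b := vI γ0 - ε` on the real interval `(γ0 - δ, γ0 + δ)`. Let `A ≥ b` be an upper bound of `vn`
on
`ball γ0 δ` for almost all `n` (`vn_up`). By `SubH.le_halfDisc` (LL/Half) for the two half discs
(the map
`z ↦ γ0 ∓ I z` sends the right half disc `RHD δ` to the upper / lower half disc; `vn` is upper
semicontinuous, so `limsup ≤ b` at the points of the real segment):
`vn z ≤ b + (A - b) (4 / π) δ |Im z| / (δ² - ‖z - γ0‖²)` for `z ∈ ball γ0 δ` not real. So `vn ≤ b +
ε / 2`
on a small ball about `γ0`, for almost all `n`, and `vI γ0 ≤ b + ε / 2 < vI γ0`. Contradiction.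
Hence for every `k` the set `A k` of the `n` for which there is a real `g` with `|g - γ0| < 1 / (k +
1)`
and `vn g > vI γ0 - 1 / (k + 1)` is in `U`; `exists_slow` (with `HW.free`) gives the sequence; the
upper
bound for `vn (g n)` by `ev_of_vI_lt`. -/
theorem vI_real (hv : NV v R C0) (hR : 0 < R) (HW : Win v U β C1 c V) (γ0 : ℝ) :
    ∃ g : ℕ → ℝ, Tendsto g U (𝓝 γ0) ∧
      Tendsto (fun n => vn v c V n (g n : ℂ)) U (𝓝 (vI v U c V γ0)) := by
  classical
  set A : ℕ → Set ℕ := fun k =>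
    {n | ∃ g : ℝ, |g - γ0| < 1 / ((k : ℝ) + 1) ∧
      vI v U c V γ0 - 1 / ((k : ℝ) + 1) < vn v c V n (g : ℂ)}
    with hAdef
  have hA : ∀ k, A k ∈ (U : Filter ℕ) := by
    intro k
    by_contra hk
    have h1 : ∀ᶠ n in (U : Filter ℕ), n ∉ A k := Ultrafilter.eventually_not.2 hk
    have hk0 : (0:ℝ) < 1 / ((k : ℝ) + 1) := by positivity
    have hk1 : 1 / ((k : ℝ) + 1) ≤ 1 := by
      rw [div_le_one (by positivity)]
      have : (0:ℝ) ≤ k := Nat.cast_nonneg k
      linarith
    refine real_contra hv hR HW γ0 hk0 hk1 hk0 ?_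
    filter_upwards [h1] with n hn g hg
    by_contra hcon
    exact hn ⟨g, hg, not_le.1 hcon⟩
  obtain ⟨κ, hκ, hκA⟩ := exists_slow HW.free hA
  set g : ℕ → ℝ := fun n => if h : n ∈ A (κ n) then h.choose else γ0 with hg
  have hgs : ∀ n, n ∈ A (κ n) → |g n - γ0| < 1 / ((κ n : ℝ) + 1) ∧
      vI v U c V γ0 - 1 / ((κ n : ℝ) + 1) < vn v c V n (g n : ℂ) := by
    intro n hn
    simp only [hg, dif_pos hn]
    exact hn.choose_spec
  have hk0 : Tendsto (fun n => 1 / ((κ n : ℝ) + 1)) U (𝓝 0) :=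
    (tendsto_one_div_add_atTop_nhds_zero_nat (𝕜 := ℝ)).comp hκ
  have hgt : Tendsto g U (𝓝 γ0) := by
    rw [Metric.tendsto_nhds]
    intro ε hε
    filter_upwards [hκA, hk0.eventually (gt_mem_nhds hε)] with n hn1 hn2
    rw [Real.dist_eq]
    exact (hgs n hn1).1.trans hn2
  have hgt2 : Tendsto (fun n => (g n : ℂ)) U (𝓝 (γ0 : ℂ)) :=
    (Complex.continuous_ofReal.tendsto γ0).comp hgt
  refine ⟨g, hgt, ?_⟩
  rw [tendsto_order]
  constructor
  · intro a ha
    have h3 : (0:ℝ) < vI v U c V γ0 - a := by linarith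
    filter_upwards [hκA, hk0.eventually (gt_mem_nhds h3)] with n hn1 hn2
    have := (hgs n hn1).2
    linarith
  · intro a ha
    obtain ⟨δ, hδ, hev⟩ := ev_of_vI_lt hv hR HW ha
    filter_upwards [hev, hgt2.eventually (ball_mem_nhds _ hδ)] with n hn1 hn2
    exact hn1 _ hn2

end Pool.Agent.MP_ae5b4e_an_M
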