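import Pool.Agent.Lib.MP_ae5b4e_an_M.QA
import Pool.Agent.Lib.MP_ae5b4e_an_NB5.Wlx

/-! # Section M: the fundamental system in the window -/

noncomputable section

namespace Pool.Agent.MP_ae5b4e_an_M

open Complex Set Filter Topology Metric
open Pool.Agent.MP_ae5b4e_an_NBT (St Mer EqM)
open Pool.Agent.MP_ae5b4e_an_NB2 (Sys)
open Pool.Agent.MP_ae5b4e_an_N5 (NV)
open Pool.Agent.MP_ae5b4e_an_PB
open PorTR (Hm)

private theorem za_sq {a : ℝ} (ha : 0 < a) :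
    (Real.sqrt a : ℂ) ≠ 0 ∧ (Real.sqrt a : ℂ) * (Real.sqrt a : ℂ) = a ∧ (a : ℂ) ≠ 0 := by
  refine ⟨ofReal_ne_zero.2 (Real.sqrt_pos.2 ha).ne', ?_, ofReal_ne_zero.2 ha.ne'⟩
  rw [← ofReal_mul, Real.mul_self_sqrt ha.le]

/-- the kernels of the window system -/
theorem Zn_s {Y : Sys} {h : ℝ} {x V : ℕ → ℝ} {n : ℕ} (hV : 0 < V n) (u w : ℂ) :
    (Zn Y h x V n).s u w = Y.s (pt h x V n u) (pt h x V n w) / V n := by
  obtain ⟨hr, hr2, hV'⟩ := za_sq hV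
  unfold Sys.s Zn
  rw [← hr2]
  field_simp

theorem Zn_c {Y : Sys} {h : ℝ} {x V : ℕ → ℝ} {n : ℕ} (hV : 0 < V n) (u w : ℂ) :
    (Zn Y h x V n).c u w = Y.c (pt h x V n u) (pt h x V n w) := by
  obtain ⟨hr, hr2, hV'⟩ := za_sq hV
  unfold Sys.c Zn
  field_simp

theorem Zn_nodeq {Y : Sys} {h : ℝ} {x V : ℕ → ℝ} {n : ℕ} (hV : 0 < V n) (l u w : ℂ) :
    (Zn Y h x V n).node l u w ↔ Y.node (pt h x V n l) (pt h x V n u) (pt h x V n w) := by
  obtain ⟨hr, hr2, hV'⟩ := za_sq hV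
  unfold Sys.node
  rw [Zn_s hV, Zn_s hV, Zn_c hV, Zn_c hV]
  have h1 : Y.c (pt h x V n u) (pt h x V n l) * (Y.s (pt h x V n w) (pt h x V n l) / V n) +
      Y.c (pt h x V n w) (pt h x V n l) * (Y.s (pt h x V n u) (pt h x V n l) / V n) =
      (Y.c (pt h x V n u) (pt h x V n l) * Y.s (pt h x V n w) (pt h x V n l) +
        Y.c (pt h x V n w) (pt h x V n l) * Y.s (pt h x V n u) (pt h x V n l)) / V n := by ring
  rw [h1, div_eq_zero_iff]
  exact ⟨fun h2 => h2.resolve_right hV', Or.inl⟩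

/-- `pt` maps the strip `- h / V n < Im z < 0` into the strip -/
theorem Zn_on {Y : Sys} {h : ℝ} {x V : ℕ → ℝ} {n : ℕ} (hh : 0 < h) (hV : 0 < V n)
    (hY : Y.On (St (-h) h)) : (Zn Y h x V n).On {z | z.im < 0 ∧ -z.im < h / V n} := by
  obtain ⟨hr, hr2, hV'⟩ := za_sq hV
  have hl : ∀ z : ℂ, HasDerivAt (fun z : ℂ => pt h x V n z) (V n : ℂ) z := by
    intro z
    unfold pt
    have h1 := ((hasDerivAt_id z).const_mul (V n : ℂ)).const_add ((x n : ℂ) + h * I)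
    simpa using h1
  have hm : ∀ z : ℂ, z ∈ {z : ℂ | z.im < 0 ∧ -z.im < h / V n} → pt h x V n z ∈ St (-h) h := by
    rintro z ⟨h1, h2⟩
    have h3 : (pt h x V n z).im = h + V n * z.im := by
      unfold pt
      simp
    rw [lt_div_iff₀ hV] at h2
    refine ⟨?_, ?_⟩
    · rw [h3]
      nlinarith
    · rw [h3]
      nlinarith [mul_pos_of_neg_of_neg (neg_neg_of_pos hV) h1]
  refine ⟨?_, ?_, ?_, ?_, ?_⟩
  · intro z hz
    have h1 := ((hY.d1 _ (hm z hz)).comp z (hl z)).div_const (Real.sqrt (V n) : ℂ)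
    refine h1.congr_deriv ?_
    change Y.y1' (pt h x V n z) * (V n : ℂ) / (Real.sqrt (V n) : ℂ) =
      (Real.sqrt (V n) : ℂ) * Y.y1' (pt h x V n z)
    rw [← hr2]
    field_simp
  · intro z hz
    have h1 := ((hY.d1' _ (hm z hz)).comp z (hl z)).const_mul (Real.sqrt (V n) : ℂ)
    refine h1.congr_deriv ?_
    change (Real.sqrt (V n) : ℂ) * (-(Y.Q (pt h x V n z) * Y.y1 (pt h x V n z)) * (V n : ℂ)) =
      -((V n : ℂ) ^ 2 * Y.Q (pt h x V n z) * (Y.y1 (pt h x V n z) / (Real.sqrt (V n) : ℂ)))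
    rw [← hr2]
    field_simp
  · intro z hz
    have h1 := ((hY.d2 _ (hm z hz)).comp z (hl z)).div_const (Real.sqrt (V n) : ℂ)
    refine h1.congr_deriv ?_
    change Y.y2' (pt h x V n z) * (V n : ℂ) / (Real.sqrt (V n) : ℂ) =
      (Real.sqrt (V n) : ℂ) * Y.y2' (pt h x V n z)
    rw [← hr2]
    field_simp
  · intro z hz
    have h1 := ((hY.d2' _ (hm z hz)).comp z (hl z)).const_mul (Real.sqrt (V n) : ℂ)
    refine h1.congr_deriv ?_
    change (Real.sqrt (V n) : ℂ) * (-(Y.Q (pt h x V n z) * Y.y2 (pt h x V n z)) * (V n : ℂ)) =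
      -((V n : ℂ) ^ 2 * Y.Q (pt h x V n z) * (Y.y2 (pt h x V n z) / (Real.sqrt (V n) : ℂ)))
    rw [← hr2]
    field_simp
  · intro z hz
    have h1 := hY.wr _ (hm z hz)
    change Y.y1 (pt h x V n z) / (Real.sqrt (V n) : ℂ) *
      ((Real.sqrt (V n) : ℂ) * Y.y2' (pt h x V n z)) -
      (Real.sqrt (V n) : ℂ) * Y.y1' (pt h x V n z) *
        (Y.y2 (pt h x V n z) / (Real.sqrt (V n) : ℂ)) = 1
    rw [← h1]
    field_simp

theorem Zn_Q {Y : Sys} {h : ℝ} {x c V : ℕ → ℝ} {n : ℕ} (hV : 0 < V n) (z : ℂ) :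
    ((c n / V n : ℝ) : ℂ) ^ 2 * (Zn Y h x V n).Q z = qn Y h x c V n z := by
  obtain ⟨-, -, hV'⟩ := za_sq hV
  unfold qn Zn
  push_cast
  field_simp

variable {Y : Sys} {h R C0 : ℝ} {v : ℂ → ℝ} {G L : ℂ × ℂ → ℂ} {U : Ultrafilter ℕ} {β C1 : ℝ}
  {c V : ℕ → ℝ}

/-- one step is `τ ↦ τ + (c n / V n) γ` -/
theorem pt_step (h : ℝ) (x c V : ℕ → ℝ) (n : ℕ) (hV : 0 < V n) (τ γ : ℂ) :
    pt h x V n (τ + (c n / V n : ℝ) * γ) = pt h x V n τ + c n * γ := by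
  have hV' : (V n : ℂ) ≠ 0 := ofReal_ne_zero.2 hV.ne'
  unfold pt
  push_cast
  field_simp
  ring

/-- the step tends to zero -/
theorem eps_lim (HW : Win v U β C1 c V) : Tendsto (fun n => c n / V n) U (𝓝 0) := by
  have h1 := tendsto_inv_atTop_zero.comp HW.N_lim
  refine h1.congr fun n => ?_
  rw [Function.comp_apply, inv_div]

/-- NODE RELATION in the window -/
theorem Zn_node (hB : Base Y h R C0 v G L) (HW : Win v U β C1 c V) (n : ℕ) (x : ℕ → ℝ) {τ γ : ℂ}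
    (h0 : (pt h x V n τ, (c n : ℂ) * γ) ∈ DKU v h R)
    (h1 : (pt h x V n (τ + (c n / V n : ℝ) * γ), (c n : ℂ) * γ) ∈ DKU v h R)
    (h2 : (pt h x V n (τ - (c n / V n : ℝ) * γ), (c n : ℂ) * γ) ∈ DKU v h R) :
    (Zn Y h x V n).node (Ln L h x c V n (τ, γ)) (Ln L h x c V n (τ + (c n / V n : ℝ) * γ, γ))
      (Ln L h x c V n (τ - (c n / V n : ℝ) * γ, γ)) := by
  have hV := HW.V_pos n
  have hV' : (V n : ℂ) ≠ 0 := ofReal_ne_zero.2 hV.ne'
  have hpt : ∀ p : ℂ × ℂ, pt h x V n (Ln L h x c V n p) = L (pt h x V n p.1, c n * p.2) := by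
    intro p
    unfold Ln
    rw [pt]
    field_simp
    ring
  have hm : pt h x V n (τ - (c n / V n : ℝ) * γ) = pt h x V n τ - c n * γ := by
    have h3 := pt_step h x c V n hV τ (-γ)
    rw [mul_neg, mul_neg, ← sub_eq_add_neg, ← sub_eq_add_neg] at h3
    exact h3
  rw [Zn_nodeq hV, hpt, hpt, hpt]
  rw [pt_step h x c V n hV] at h1
  rw [hm] at h2
  simp only [pt_step h x c V n hV, hm]
  exact hB.node _ _ h0 h1 h2

/-- the same as an equation for `Pn` (NB5): `Pn Z l m x = 0` for `l = Ln τ`, `m = Ln (τ - ε γ)`,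
`x = Ln (τ + ε γ) - Ln τ` -/
theorem Zn_Pn (hB : Base Y h R C0 v G L) (HW : Win v U β C1 c V) (n : ℕ) (x : ℕ → ℝ) {τ γ : ℂ}
    (h0 : (pt h x V n τ, (c n : ℂ) * γ) ∈ DKU v h R)
    (h1 : (pt h x V n (τ + (c n / V n : ℝ) * γ), (c n : ℂ) * γ) ∈ DKU v h R)
    (h2 : (pt h x V n (τ - (c n / V n : ℝ) * γ), (c n : ℂ) * γ) ∈ DKU v h R) :
    Pool.Agent.MP_ae5b4e_an_NB5.Pn (Zn Y h x V n) (Ln L h x c V n (τ, γ))
      (Ln L h x c V n (τ - (c n / V n : ℝ) * γ, γ))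
      (Ln L h x c V n (τ + (c n / V n : ℝ) * γ, γ) - Ln L h x c V n (τ, γ)) = 0 := by
  have h3 := Zn_node hB HW n x h0 h1 h2
  unfold Sys.node at h3
  unfold Pool.Agent.MP_ae5b4e_an_NB5.Pn
  rw [add_sub_cancel]
  exact h3

/-- on compact subsets of the lower half plane: the system exists and `(c / V)² Z.Q → qI`
uniformly -/
theorem Zn_lim (hB : Base Y h R C0 v G L) (HW : Win v U β C1 c V) (x : ℕ → ℝ) {K : Set ℂ}
    (hK : IsCompact K) (hKH : K ⊆ Hm) {δ : ℝ} (hδ : 0 < δ) :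
    ∀ᶠ n in (U : Filter ℕ), (∀ z ∈ K, -z.im < h / V n) ∧
      ∀ z ∈ K, ‖((c n / V n : ℝ) : ℂ) ^ 2 * (Zn Y h x V n).Q z - qI Y h U x c V z‖ < δ := by
  obtain ⟨B, hB0, hB1⟩ : ∃ B : ℝ, 0 < B ∧ ∀ z ∈ K, -z.im ≤ B := by
    obtain ⟨B, hB⟩ := hK.isBounded.exists_norm_le
    refine ⟨|B| + 1, by positivity, fun z hz => ?_⟩
    have h1 := hB z hz
    have h2 := neg_le_abs z.im
    have h3 := Complex.abs_im_le_norm z
    have h4 := le_abs_self B
    linarith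
  have hh := hB.h_pos
  have h1 : ∀ᶠ n in (U : Filter ℕ), V n < h / B :=
    HW.V_lim.eventually (gt_mem_nhds (div_pos hh hB0))
  have h2 : TendstoUniformlyOn (fun n => qn Y h x c V n) (qI Y h U x c V) U K :=
    (tendstoLocallyUniformlyOn_iff_tendstoUniformlyOn_of_compact hK).1
      ((qI_unif hB HW x).mono hKH)
  rw [Metric.tendstoUniformlyOn_iff] at h2
  filter_upwards [h1, h2 δ hδ] with n h3 h4
  have hV := HW.V_pos n
  refine ⟨fun z hz => ?_, fun z hz => ?_⟩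
  · rw [lt_div_iff₀ hV]
    rw [lt_div_iff₀ hB0] at h3
    nlinarith [mul_le_mul_of_nonneg_right (hB1 z hz) hV.le]
  · rw [Zn_Q hV]
    have h5 := h4 z hz
    rw [dist_comm, dist_eq_norm] at h5
    exact h5

/-- uniform bound of the potential, uniform in the place -/
theorem Zn_bdd (hB : Base Y h R C0 v G L) (HW : Win v U β C1 c V) {K : ℝ} (hK : 1 ≤ K) :
    ∀ᶠ n in (U : Filter ℕ), ∀ x : ℕ → ℝ, ∀ z : ℂ, 1 / K ≤ -z.im → -z.im ≤ K →
      -z.im < h / V n ∧ (c n / V n) ^ 2 * ‖(Zn Y h x V n).Q z‖ ≤ gr β (C3f β C1) (-z.im) := by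
  have hK0 : 0 < K := by linarith
  have hh := hB.h_pos
  have h1 : ∀ᶠ n in (U : Filter ℕ), V n < h / K :=
    HW.V_lim.eventually (gt_mem_nhds (div_pos hh hK0))
  filter_upwards [h1, qn_bdd hB HW hK] with n h3 h4 x z hz1 hz2
  have hV := HW.V_pos n
  refine ⟨?_, ?_⟩
  · rw [lt_div_iff₀ hV]
    rw [lt_div_iff₀ hK0] at h3
    nlinarith [mul_le_mul_of_nonneg_right hz2 hV.le]
  · have h5 := h4 x z hz1 hz2
    rw [← Zn_Q hV, norm_mul, norm_pow, Complex.norm_real, Real.norm_eq_abs, sq_abs] at h5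
    exact h5

end Pool.Agent.MP_ae5b4e_an_M
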