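import Pool.Agent.Lib.MP_ae5b4e_an_M.Defs

/-! # Section M: the entire functions `sin √x / √x`, `cos √x`, `(x - sin² √x) / x²` -/

noncomputable section

namespace Pool.Agent.MP_ae5b4e_an_M

open Complex Set Filter Topology Metric

/-- `S1 (w²) w = sin w`. Proof. The power series of `sin` (`Complex.hasSum_sin` / `Complex.sin_eq`),
multiplied by `w` termwise. -/
theorem S1_sq (w : ℂ) : w * S1 (w ^ 2) = sin w := by
  unfold S1
  rw [← tsum_mul_left, ← (Complex.hasSum_sin w).tsum_eq]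
  refine tsum_congr fun k => ?_
  rw [← pow_mul]
  ring

/-- `C1f (w²) = cos w` (power series of `cos`). -/
theorem C1f_sq (w : ℂ) : C1f (w ^ 2) = cos w := by
  unfold C1f
  rw [← (Complex.hasSum_cos w).tsum_eq]
  refine tsum_congr fun k => ?_
  rw [← pow_mul]

/-- `w⁴ E2 (w²) = w² - sin² w`. Proof. `sin² w = (1 - cos (2 w)) / 2 =
∑_{j ≥ 1} (-1)^(j+1) 2^(2j-1) w^(2j) / (2j)!`; the term `j = 1` is `w²`; shift the index by two. -/
theorem E2_sq (w : ℂ) : w ^ 4 * E2 (w ^ 2) = w ^ 2 - sin w ^ 2 := by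
  have h1 : HasSum (fun n : ℕ => (-1) ^ (n + 2) * (2 * w) ^ (2 * (n + 2)) /
      ((2 * (n + 2)).factorial : ℂ)) (cos (2 * w) - (1 - 2 * w ^ 2)) := by
    have h2 := (hasSum_nat_add_iff' 2).2 (Complex.hasSum_cos (2 * w))
    have h3 : ∑ i ∈ Finset.range 2, (-1) ^ i * (2 * w) ^ (2 * i) / ((2 * i).factorial : ℂ) =
        1 - 2 * w ^ 2 := by
      rw [Finset.sum_range_succ, Finset.sum_range_one]
      norm_num [Nat.factorial]
      ring
    rw [h3] at h2
    exact h2
  have h2 : w ^ 4 * E2 (w ^ 2) = (cos (2 * w) - (1 - 2 * w ^ 2)) / 2 := by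
    unfold E2
    rw [← tsum_mul_left, ← (h1.div_const 2).tsum_eq]
    refine tsum_congr fun k => ?_
    have h3 : 2 * (k + 2) = 2 * k + 4 := by ring
    rw [h3, ← pow_mul, mul_pow]
    have h4 : (2 : ℂ) ^ (2 * k + 4) = 2 * 2 ^ (2 * k + 3) := by ring
    have h5 : w ^ (2 * k + 4) = w ^ 4 * w ^ (2 * k) := by ring
    have h6 : (-1 : ℂ) ^ (k + 2) = (-1) ^ k := by ring
    rw [h4, h5, h6]
    ring
  rw [h2, Complex.cos_two_mul, Complex.cos_sq' w]
  ring

theorem S1_zero : S1 0 = 1 := by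
  unfold S1
  rw [tsum_eq_single 0]
  · simp
  · intro k hk
    rw [zero_pow hk, mul_zero, zero_div]

theorem C1f_zero : C1f 0 = 1 := by
  unfold C1f
  rw [tsum_eq_single 0]
  · simp
  · intro k hk
    rw [zero_pow hk, mul_zero, zero_div]

private lemma FnA_diff {a : ℕ → ℂ} {A B : ℝ} (hA : 0 ≤ A) (hB : 0 ≤ B)
    (ha : ∀ k, ‖a k‖ ≤ A * (B ^ k / (k.factorial : ℝ))) :
    Differentiable ℂ fun x : ℂ => ∑' k : ℕ, a k * x ^ k := by
  intro x
  have h1 : DifferentiableOn ℂ (fun x : ℂ => ∑' k : ℕ, a k * x ^ k) (ball 0 (‖x‖ + 1)) := by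
    refine differentiableOn_tsum_of_summable_norm
      (u := fun k => A * ((B * (‖x‖ + 1)) ^ k / (k.factorial : ℝ)))
      ((Real.summable_pow_div_factorial _).mul_left A) (fun k => ?_) isOpen_ball
      fun k z hz => ?_
    · exact ((differentiable_id.pow k).const_mul _).differentiableOn
    · rw [norm_mul, norm_pow, mul_pow]
      have hz' : ‖z‖ ≤ ‖x‖ + 1 := by
        rw [mem_ball_zero_iff] at hz
        exact hz.le
      have h2 : ‖z‖ ^ k ≤ (‖x‖ + 1) ^ k := pow_le_pow_left₀ (norm_nonneg _) hz' k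
      calc ‖a k‖ * ‖z‖ ^ k ≤ A * (B ^ k / (k.factorial : ℝ)) * (‖x‖ + 1) ^ k :=
            mul_le_mul (ha k) h2 (by positivity) (by positivity)
        _ = A * (B ^ k * (‖x‖ + 1) ^ k / (k.factorial : ℝ)) := by ring
  exact (h1 x (mem_ball_zero_iff.2 (by linarith))).differentiableAt
    (isOpen_ball.mem_nhds (mem_ball_zero_iff.2 (by linarith)))

private lemma FnA_fact {k m : ℕ} (h : k ≤ m) : (1 : ℝ) / (m.factorial : ℝ) ≤ 1 / (k.factorial : ℝ) :=
  one_div_le_one_div_of_le (by exact_mod_cast Nat.factorial_pos k)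
    (by exact_mod_cast Nat.factorial_le h)

/-- The three functions are entire. Proof. Uniform convergence of the power series on bounded sets
(`differentiableOn_tsum_of_summable_norm` with the majorant `R ^ k / k !` times a constant), or
`FormalMultilinearSeries`. -/
theorem S1_diff : Differentiable ℂ S1 := by
  have h : S1 = fun x : ℂ => ∑' k : ℕ, ((-1) ^ k / ((2 * k + 1).factorial : ℂ)) * x ^ k := by
    funext x
    unfold S1
    refine tsum_congr fun k => ?_
    ring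
  rw [h]
  refine FnA_diff (A := 1) (B := 1) zero_le_one zero_le_one fun k => ?_
  rw [norm_div, norm_pow, norm_neg, norm_one, one_pow, one_mul, Complex.norm_natCast]
  exact FnA_fact (by omega)

theorem C1f_diff : Differentiable ℂ C1f := by
  have h : C1f = fun x : ℂ => ∑' k : ℕ, ((-1) ^ k / ((2 * k).factorial : ℂ)) * x ^ k := by
    funext x
    unfold C1f
    refine tsum_congr fun k => ?_
    ring
  rw [h]
  refine FnA_diff (A := 1) (B := 1) zero_le_one zero_le_one fun k => ?_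
  rw [norm_div, norm_pow, norm_neg, norm_one, one_pow, one_mul, Complex.norm_natCast]
  exact FnA_fact (by omega)

theorem E2_diff : Differentiable ℂ E2 := by
  have h : E2 = fun x : ℂ => ∑' k : ℕ,
      ((-1) ^ k * 2 ^ (2 * k + 3) / ((2 * k + 4).factorial : ℂ)) * x ^ k := by
    funext x
    unfold E2
    refine tsum_congr fun k => ?_
    ring
  rw [h]
  refine FnA_diff (A := 8) (B := 4) (by norm_num) (by norm_num) fun k => ?_
  rw [norm_div, norm_mul, norm_pow, norm_neg, norm_one, one_pow, one_mul, norm_pow,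
    Complex.norm_natCast]
  have h1 : ‖(2 : ℂ)‖ ^ (2 * k + 3) = 8 * 4 ^ k := by
    have : ‖(2 : ℂ)‖ = 2 := by simp
    rw [this, pow_add, pow_mul]
    norm_num
    ring
  rw [h1, mul_div_assoc]
  have h2 := FnA_fact (k := k) (m := 2 * k + 4) (by omega)
  rw [div_eq_mul_one_div ((4 : ℝ) ^ k), div_eq_mul_one_div ((4 : ℝ) ^ k) (k.factorial : ℝ)]
  exact mul_le_mul_of_nonneg_left (mul_le_mul_of_nonneg_left h2 (by positivity)) (by norm_num)

/-- `cos² + sin² = 1`. Every `x` is a square. -/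
theorem C1f_S1 (x : ℂ) : C1f x ^ 2 + x * S1 x ^ 2 = 1 := by
  rcases IsAlgClosed.exists_pow_nat_eq x (n := 2) (by norm_num) with ⟨w, rfl⟩
  have h1 := C1f_sq w
  have h2 := S1_sq w
  rw [h1]
  linear_combination (w * S1 (w ^ 2) + sin w) * h2 + Complex.sin_sq_add_cos_sq w

private lemma FnA_cont_deriv {f : ℂ → ℂ} (hf : Differentiable ℂ f) : Continuous (deriv f) :=
  (hf.contDiff (n := 1)).continuous_deriv le_rfl

private lemma FnA_C (w : ℂ) : deriv C1f (w ^ 2) * (2 * w) = - sin w := by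
  have h1 : HasDerivAt (fun w => C1f (w ^ 2)) (deriv C1f (w ^ 2) * (2 * w)) w := by
    have h0 : HasDerivAt C1f (deriv C1f (w ^ 2)) (w ^ 2) := (C1f_diff (w ^ 2)).hasDerivAt
    have h2 : HasDerivAt (C1f ∘ fun w : ℂ => w ^ 2)
        (deriv C1f (w ^ 2) * (((2 : ℕ) : ℂ) * w ^ (2 - 1))) w :=
      HasDerivAt.comp w h0 (hasDerivAt_pow 2 w)
    have h3 : ((2 : ℕ) : ℂ) * w ^ (2 - 1) = 2 * w := by norm_num
    rw [h3] at h2
    exact h2
  have h2 : (fun w => C1f (w ^ 2)) = fun w => cos w := funext C1f_sq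
  rw [h2] at h1
  exact h1.unique (Complex.hasDerivAt_cos w)

private lemma FnA_S (w : ℂ) : S1 (w ^ 2) + w * (deriv S1 (w ^ 2) * (2 * w)) = cos w := by
  have h1 : HasDerivAt (fun w => S1 (w ^ 2)) (deriv S1 (w ^ 2) * (2 * w)) w := by
    have h0 : HasDerivAt S1 (deriv S1 (w ^ 2)) (w ^ 2) := (S1_diff (w ^ 2)).hasDerivAt
    have h2 : HasDerivAt (S1 ∘ fun w : ℂ => w ^ 2)
        (deriv S1 (w ^ 2) * (((2 : ℕ) : ℂ) * w ^ (2 - 1))) w :=
      HasDerivAt.comp w h0 (hasDerivAt_pow 2 w)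
    have h3 : ((2 : ℕ) : ℂ) * w ^ (2 - 1) = 2 * w := by norm_num
    rw [h3] at h2
    exact h2
  have h3 : HasDerivAt (fun w => w * S1 (w ^ 2))
      (1 * S1 (w ^ 2) + w * (deriv S1 (w ^ 2) * (2 * w))) w := (hasDerivAt_id w).mul h1
  have h2 : (fun w => w * S1 (w ^ 2)) = fun w => sin w := funext S1_sq
  rw [h2, one_mul] at h3
  exact h3.unique (Complex.hasDerivAt_sin w)

/-- Derivatives. Proof. For `x = w² ≠ 0` differentiate `C1f (w²) = cos w` and `w S1 (w²) = sin w`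
(`2 w C1f' = - sin w = - w S1`, `S1 + 2 w² S1' = cos w`); at `x = 0` by continuity (both sides are
entire), or termwise. -/
theorem C1f_hasDerivAt (x : ℂ) : HasDerivAt C1f (-(S1 x) / 2) x := by
  have h1 : deriv C1f = fun x => -(S1 x) / 2 := by
    refine Continuous.ext_on (dense_compl_singleton (0 : ℂ)) (FnA_cont_deriv C1f_diff)
      (S1_diff.continuous.neg.div_const 2) fun x hx => ?_
    rcases IsAlgClosed.exists_pow_nat_eq x (n := 2) (by norm_num) with ⟨w, rfl⟩
    have hw : w ≠ 0 := by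
      rintro rfl
      exact hx (by simp)
    have h2 := FnA_C w
    rw [← S1_sq w] at h2
    have h3 : w * (2 * deriv C1f (w ^ 2) + S1 (w ^ 2)) = 0 := by linear_combination h2
    rcases mul_eq_zero.1 h3 with h4 | h4
    · exact absurd h4 hw
    · linear_combination h4 / 2
  have h2 := (C1f_diff x).hasDerivAt
  rw [h1] at h2
  exact h2

theorem S1_hasDerivAt (x : ℂ) : ∃ s : ℂ, HasDerivAt S1 s x ∧ 2 * x * s = C1f x - S1 x := by
  refine ⟨deriv S1 x, (S1_diff x).hasDerivAt, ?_⟩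
  rcases IsAlgClosed.exists_pow_nat_eq x (n := 2) (by norm_num) with ⟨w, rfl⟩
  have h1 := FnA_S w
  rw [← C1f_sq w] at h1
  linear_combination h1

/-- Zeros of `S1`: exactly the points `k² π²`, `k ≥ 1`; they are isolated. -/
theorem S1_eq_zero {x : ℂ} : S1 x = 0 ↔ ∃ k : ℕ, 1 ≤ k ∧ x = (k * Real.pi : ℂ) ^ 2 := by
  constructor
  · intro h
    rcases IsAlgClosed.exists_pow_nat_eq x (n := 2) (by norm_num) with ⟨w, rfl⟩
    have hw : w ≠ 0 := by
      rintro rfl
      rw [zero_pow (by norm_num), S1_zero] at h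
      exact one_ne_zero h
    have h1 := S1_sq w
    rw [h, mul_zero] at h1
    rcases Complex.sin_eq_zero_iff.1 h1.symm with ⟨n, hn⟩
    refine ⟨n.natAbs, ?_, ?_⟩
    · rw [Nat.one_le_iff_ne_zero, Int.natAbs_ne_zero]
      rintro rfl
      rw [Int.cast_zero, zero_mul] at hn
      exact hw hn
    · rw [hn, mul_pow, mul_pow]
      congr 1
      have h2 : ((n.natAbs : ℤ) : ℂ) ^ 2 = (n : ℂ) ^ 2 := by
        have h3 : ((n.natAbs : ℤ)) ^ 2 = n ^ 2 := Int.natAbs_sq n
        exact_mod_cast h3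
      rw [← h2]
      norm_cast
  · rintro ⟨k, hk, rfl⟩
    have hw : ((k : ℂ) * Real.pi) ≠ 0 := by
      refine mul_ne_zero ?_ ?_
      · exact_mod_cast (by omega : k ≠ 0)
      · exact_mod_cast Real.pi_ne_zero
    have h1 := S1_sq ((k : ℂ) * Real.pi)
    have h2 : sin ((k : ℂ) * Real.pi) = 0 := Complex.sin_eq_zero_iff.2 ⟨k, by push_cast; rfl⟩
    rw [h2] at h1
    exact (mul_eq_zero.1 h1).resolve_left hw

/-- Near a zero `x0` of `S1` the function `S1 x * exp (1 - C1f x / S1 x)` is unbounded in every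
punctured neighbourhood: for every `M` and every neighbourhood there is a point with modulus `> M`.

Proof. `x0 = (k π)²`, `C1f x0 = (-1)^k ≠ 0`, `S1` has a simple zero at `x0`
(`2 x0 S1' (x0) = C1f x0 ≠ 0`). So `C1f x / S1 x = a / (x - x0) + O(1)` with `a = C1f x0 / S1' (x0) =
2 x0 > 0`. Along `x = x0 - s`, `s → 0+`: `- C1f x / S1 x = a / s + O(1) → +∞` and `|S1 x| ≥ c s`, so
`|S1 x| exp (a / s - C) → ∞`. -/
theorem exists_big {x0 : ℂ} (h : S1 x0 = 0) (M : ℝ) {N : Set ℂ} (hN : N ∈ 𝓝 x0) :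
    ∃ x ∈ N, S1 x ≠ 0 ∧ M < ‖S1 x * cexp (1 - C1f x / S1 x)‖ := by
  rcases S1_eq_zero.1 h with ⟨k, hk, rfl⟩
  have hpi := Real.pi_pos
  have hpi3 := Real.pi_gt_three
  have hk1 : (1 : ℝ) ≤ k := by exact_mod_cast hk
  have hkpi : 3 < k * Real.pi := by nlinarith
  -- choice of `s`
  have e1 : ∀ᶠ s in 𝓝[>] (0 : ℝ), (((k * Real.pi - s : ℝ) : ℂ)) ^ 2 ∈ N := by
    have hc : Continuous fun s : ℝ => (((k * Real.pi - s : ℝ) : ℂ)) ^ 2 := by fun_prop
    have h0 : (((k * Real.pi - 0 : ℝ) : ℂ)) ^ 2 = ((k : ℂ) * Real.pi) ^ 2 := by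
      rw [sub_zero]
      push_cast
      rfl
    have h1 : Tendsto (fun s : ℝ => (((k * Real.pi - s : ℝ) : ℂ)) ^ 2) (𝓝 0)
        (𝓝 (((k : ℂ) * Real.pi) ^ 2)) := by
      rw [← h0]
      exact hc.tendsto 0
    exact (h1.mono_left nhdsWithin_le_nhds) hN
  have e2 : ∀ᶠ s in 𝓝[>] (0 : ℝ), s ∈ Ioo (0 : ℝ) (1 / 2) := Ioo_mem_nhdsGT (by norm_num)
  have e3 : ∀ᶠ s in 𝓝[>] (0 : ℝ), |M| * (4 * (k * Real.pi)) < s⁻¹ :=
    tendsto_inv_nhdsGT_zero.eventually_gt_atTop _
  rcases (e1.and (e2.and e3)).exists with ⟨s, hs1, ⟨hs0, hs2⟩, hs3⟩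
  set y : ℝ := k * Real.pi - s with hy
  have hy2 : 2 < y := by rw [hy]; linarith
  have hyk : y ≤ k * Real.pi := by rw [hy]; linarith
  have hsin : Real.sin y = -((-1) ^ k * Real.sin s) := Real.sin_nat_mul_pi_sub s k
  have hcos : Real.cos y = (-1) ^ k * Real.cos s := Real.cos_nat_mul_pi_sub s k
  have hss : s / 2 < Real.sin s := by
    have := Real.sin_gt_sub_cube hs0
    nlinarith [sq_nonneg s, mul_pos hs0 hs0]
  have hss0 : 0 < Real.sin s := by linarith
  have hss1 : Real.sin s < s := Real.sin_lt hs0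
  have hcs : 1 / 2 < Real.cos s := by
    have := Real.one_sub_sq_div_two_le_cos (x := s)
    nlinarith
  have hpm : ((-1 : ℝ) ^ k) * ((-1) ^ k) = 1 := by
    rw [← mul_pow]
    norm_num
  have hpm0 : ((-1 : ℝ) ^ k) ≠ 0 := pow_ne_zero _ (by norm_num)
  have hsy : Real.sin y ≠ 0 := by
    rw [hsin]
    exact neg_ne_zero.2 (mul_ne_zero hpm0 hss0.ne')
  have hy0 : y ≠ 0 := by linarith
  have hyC : (y : ℂ) ≠ 0 := by exact_mod_cast hy0
  have hS : S1 ((y : ℂ) ^ 2) = ((Real.sin y / y : ℝ) : ℂ) := by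
    have h1 := S1_sq (y : ℂ)
    rw [Complex.ofReal_div, Complex.ofReal_sin, ← h1, mul_div_cancel_left₀ _ hyC]
  have hC : C1f ((y : ℂ) ^ 2) = ((Real.cos y : ℝ) : ℂ) := by
    rw [C1f_sq, Complex.ofReal_cos]
  refine ⟨(y : ℂ) ^ 2, hs1, ?_, ?_⟩
  · rw [hS]
    exact_mod_cast div_ne_zero hsy hy0
  · have h1 : S1 ((y : ℂ) ^ 2) * cexp (1 - C1f ((y : ℂ) ^ 2) / S1 ((y : ℂ) ^ 2)) =
        ((Real.sin y / y * Real.exp (1 - Real.cos y / (Real.sin y / y)) : ℝ) : ℂ) := by
      rw [hS, hC]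
      push_cast
      rfl
    rw [h1, Complex.norm_real, Real.norm_eq_abs, abs_mul, abs_of_pos (Real.exp_pos _), abs_div,
      abs_of_pos (by linarith : 0 < y)]
    have h2 : |Real.sin y| = Real.sin s := by
      rw [hsin, abs_neg, abs_mul, abs_pow, abs_neg, abs_one, one_pow, one_mul, abs_of_pos hss0]
    have h3 : Real.cos y / (Real.sin y / y) = -(y * (Real.cos s / Real.sin s)) := by
      rw [hsin, hcos]
      field_simp
    rw [h2, h3, sub_neg_eq_add]
    have h4 : 1 / s ≤ y * (Real.cos s / Real.sin s) := by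
      have h5 : 1 / (2 * s) ≤ Real.cos s / Real.sin s := by
        rw [div_le_div_iff₀ (by positivity) hss0]
        nlinarith
      have h6 : 1 / s = 2 * (1 / (2 * s)) := by
        field_simp
      rw [h6]
      refine mul_le_mul hy2.le h5 (by positivity) (by linarith)
    have h5 : (1 / s) ^ 2 / 2 ≤ Real.exp (1 + y * (Real.cos s / Real.sin s)) := by
      refine le_trans ?_ (Real.exp_le_exp.2 (show 1 / s ≤ 1 + y * (Real.cos s / Real.sin s) by
        linarith))
      have h6 := Real.quadratic_le_exp_of_nonneg (x := 1 / s) (by positivity)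
      have h7 : 0 < 1 / s := by positivity
      linarith
    have h6 : s / (2 * (k * Real.pi)) ≤ Real.sin s / y := by
      rw [div_le_div_iff₀ (by positivity) (by linarith)]
      nlinarith
    have h7 : s / (2 * (k * Real.pi)) * ((1 / s) ^ 2 / 2) = s⁻¹ / (4 * (k * Real.pi)) := by
      field_simp
      ring
    calc M ≤ |M| := le_abs_self M
      _ < s⁻¹ / (4 * (k * Real.pi)) := (lt_div_iff₀ (by positivity)).2 hs3
      _ = s / (2 * (k * Real.pi)) * ((1 / s) ^ 2 / 2) := h7.symm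
      _ ≤ Real.sin s / y * Real.exp (1 + y * (Real.cos s / Real.sin s)) := by
        refine mul_le_mul h6 h5 (by positivity) ?_
        exact div_nonneg hss0.le (by linarith)

end Pool.Agent.MP_ae5b4e_an_M
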