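import Pool.Agent.Lib.MP_ae5b4e_an_M.Defs
import Pool.Agent.Lib.MP_ae5b4e_an_M.Mont
import Pool.Agent.Lib.MP_ae5b4e_an_LL.Max
import Pool.Agent.Lib.MP_ae5b4e_an_LL.Lim

/-! # Section M: the limit of `v_n` -/

noncomputable section

namespace Pool.Agent.MP_ae5b4e_an_M

open Complex Set Filter Topology Metric
open Pool.Agent.MP_ae5b4e_an_N5 (NV)
open Pool.Agent.Lib.MP_ae5b4e_an_LL (SubH)

variable {v : ℂ → ℝ} {R C0 : ℝ} {U : Ultrafilter ℕ} {β C1 : ℝ} {c V : ℕ → ℝ}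

/-- the ultrafilter is free: otherwise `c n` would be constant along `U`, `c_lim` and `c_pos` -/
theorem Win.free (HW : Win v U β C1 c V) : Tendsto (fun n : ℕ => n) U atTop := by
  rw [Filter.tendsto_atTop]
  intro k
  by_contra hk
  have h1 : ∀ᶠ n in (U : Filter ℕ), ¬ k ≤ n := Ultrafilter.eventually_not.2 hk
  have h2 : Set.Iio k ∈ U := by
    filter_upwards [h1] with n hn
    exact not_le.1 hn
  obtain ⟨x, -, hx⟩ := Ultrafilter.eq_pure_of_finite_mem (Set.finite_Iio k) h2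
  have h3 : ∀ᶠ n in (U : Filter ℕ), c n < c x := HW.c_lim.eventually (gt_mem_nhds (HW.c_pos x))
  rw [hx] at h3
  have h4 : c x < c x := h3
  exact lt_irrefl _ h4

theorem mem_scaled (HW : Win v U β C1 c V) (n : ℕ) {γ : ℂ} (h : c n * ‖γ‖ < R) :
    ((c n : ℂ) * γ) ∈ ball (0:ℂ) R := by
  rw [mem_ball_zero_iff, norm_mul, Complex.norm_real, Real.norm_eq_abs, abs_of_pos (HW.c_pos n)]
  exact h

/-- Lower bound. `v (c n γ) ≥ - |Im (c n γ)|` as soon as `c n K < R`. -/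
theorem vn_low (hv : NV v R C0) (hR : 0 < R) (HW : Win v U β C1 c V) (K : ℝ) :
    ∀ᶠ n in (U : Filter ℕ), ∀ γ : ℂ, ‖γ‖ ≤ K →
      c n * ‖γ‖ < R ∧ -(|γ.im| * (c n / V n)) ≤ vn v c V n γ := by
  have h1 : Tendsto (fun n => c n * (|K| + 1)) U (𝓝 (0 * (|K| + 1))) :=
    HW.c_lim.mul_const _
  rw [zero_mul] at h1
  filter_upwards [h1.eventually (gt_mem_nhds hR)] with n hn γ hγ
  have h2 : c n * ‖γ‖ < R := by
    refine lt_of_le_of_lt ?_ hn
    apply mul_le_mul_of_nonneg_left _ (HW.c_pos n).le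
    have := le_abs_self K
    linarith
  refine ⟨h2, ?_⟩
  have h3 : ((c n : ℂ) * γ) ∈ ball (0:ℂ) R := mem_scaled HW n h2
  have h4 := hv.low _ h3
  have h5 : ((c n : ℂ) * γ).im = c n * γ.im := by simp
  rw [h5, abs_mul, abs_of_pos (HW.c_pos n)] at h4
  unfold vn
  rw [le_div_iff₀ (HW.V_pos n)]
  have h6 : -(|γ.im| * (c n / V n)) * V n = -(c n * |γ.im|) := by
    have := (HW.V_pos n).ne'
    field_simp
  rw [h6]
  exact h4

/-- Upper bound. For `1 / K ≤ ‖γ‖` this is `adm`; for `‖γ‖ ≤ 1 / K` the maximum principle on the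
disc
of radius `c n / K` (`v` is subharmonic on `ball 0 R`, `v ≤ C1 (1 / K) ^ β V n` on the circle; here
`K ≥ 1` and `β ≤ 1` give `max (1 / K) ((1 / K) ^ β) = (1 / K) ^ β`). Maximum principle:
`SubH.le_of_frontier_diff`
of LL/Max with upper semicontinuity on the closed disc. -/
theorem vn_up (hv : NV v R C0) (hR : 0 < R) (HW : Win v U β C1 c V) {K : ℝ} (hK : 1 ≤ K) :
    ∀ᶠ n in (U : Filter ℕ), ∀ γ : ℂ, ‖γ‖ ≤ K →
      vn v c V n γ ≤ C1 * max ‖γ‖ (max ‖γ‖ (1 / K) ^ β) := by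
  have hK0 : 0 < K := by linarith
  have hK1 : 0 < 1 / K := by positivity
  have hK2 : 1 / K ≤ 1 := by rw [div_le_one hK0]; exact hK
  filter_upwards [HW.adm K hK0, vn_low hv hR HW K] with n hn hlow γ hγ
  rcases le_or_gt (1 / K) ‖γ‖ with h1 | h1
  · rw [max_eq_left h1]
    unfold vn
    rw [div_le_iff₀ (HW.V_pos n)]
    exact hn γ h1 hγ
  · rw [max_eq_right h1.le]
    unfold vn
    rw [div_le_iff₀ (HW.V_pos n)]
    have hc := HW.c_pos n
    have hcK : 0 < c n / K := by positivity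
    have hcR : c n / K < R := by
      have h2 := (hlow (1 / K : ℝ) (by
        rw [Complex.norm_real, Real.norm_eq_abs, abs_of_pos hK1]; linarith)).1
      rw [Complex.norm_real, Real.norm_eq_abs, abs_of_pos hK1] at h2
      calc c n / K = c n * (1 / K) := by ring
        _ < R := h2
    have hsub : closedBall (0:ℂ) (c n / K) ⊆ ball 0 R := closedBall_subset_ball hcR
    have hM : ∀ ζ ∈ sphere (0:ℂ) (c n / K), v ζ ≤ C1 * (1 / K) ^ β * V n := by
      intro ζ hζ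
      rw [mem_sphere_zero_iff_norm] at hζ
      have h2 : ‖ζ / c n‖ = 1 / K := by
        rw [norm_div, hζ, Complex.norm_real, Real.norm_eq_abs, abs_of_pos hc]
        field_simp
      have h3 := hn (ζ / c n) h2.ge (by rw [h2]; linarith)
      have h4 : (c n : ℂ) * (ζ / c n) = ζ := by
        have : (c n : ℂ) ≠ 0 := by exact_mod_cast hc.ne'
        field_simp
      rw [h4, h2] at h3
      have h5 : 1 / K ≤ (1 / K) ^ β := by
        have := Real.rpow_le_rpow_of_exponent_ge hK1 hK2 HW.β_le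
        rwa [Real.rpow_one] at this
      rw [max_eq_right h5] at h3
      exact h3
    have hmax := SubH.le_of_frontier_diff (f := v) (isOpen_ball (x := (0:ℂ)) (ε := c n / K))
      isBounded_ball (hv.sub.mono (ball_subset_closedBall.trans hsub)) (B := C0)
      (fun z hz => hv.up z (hsub (ball_subset_closedBall hz))) (E := ∅) Set.finite_empty
      (M := C1 * (1 / K) ^ β * V n) (by
        intro ζ hζ _ ε hε
        rw [frontier_ball _ hcK.ne'] at hζ
        have h2 := hv.sub.usc ζ (hsub (sphere_subset_closedBall hζ)) (v ζ + ε) (by linarith)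
        have h3 : ∀ᶠ z in 𝓝[ball 0 (c n / K)] ζ, v z < v ζ + ε :=
          h2.filter_mono (nhdsWithin_mono _ (ball_subset_closedBall.trans hsub))
        filter_upwards [h3] with z hz
        have := hM ζ hζ
        linarith)
    have h6 : ((c n : ℂ) * γ) ∈ ball (0:ℂ) (c n / K) := by
      rw [mem_ball_zero_iff, norm_mul, Complex.norm_real, Real.norm_eq_abs, abs_of_pos hc]
      calc c n * ‖γ‖ < c n * (1 / K) := mul_lt_mul_of_pos_left h1 hc
        _ = c n / K := by ring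
    refine (hmax _ h6).trans ?_
    apply mul_le_mul_of_nonneg_right _ (HW.V_pos n).le
    exact mul_le_mul_of_nonneg_left (le_max_right _ _) (by linarith [HW.C1_one])

theorem cV_lim (HW : Win v U β C1 c V) : Tendsto (fun n => c n / V n) U (𝓝 0) := by
  have h1 := HW.N_lim.inv_tendsto_atTop
  refine h1.congr fun n => ?_
  simp only [Pi.inv_apply, inv_div]

theorem vI_mem_nonneg (hv : NV v R C0) (hR : 0 < R) (HW : Win v U β C1 c V) {γ : ℂ} {b : ℝ}
    (hb : b ∈ {b : ℝ | ∃ δ > 0, ∀ᶠ n in (U : Filter ℕ), ∀ γ' ∈ ball γ δ, vn v c V n γ' ≤ b}) :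
    0 ≤ b := by
  obtain ⟨δ, hδ, hb⟩ := hb
  have h1 : Tendsto (fun n => -(|γ.im| * (c n / V n))) U (𝓝 (-(|γ.im| * 0))) :=
    ((cV_lim HW).const_mul _).neg
  rw [mul_zero, neg_zero] at h1
  refine le_of_tendsto h1 ?_
  filter_upwards [hb, vn_low hv hR HW ‖γ‖] with n hn1 hn2
  exact (hn2 γ le_rfl).2.trans (hn1 γ (mem_ball_self hδ))

/-- the defining set of `vI` is bounded below (by `0 - anything`) and nonempty -/
theorem vI_set (hv : NV v R C0) (hR : 0 < R) (HW : Win v U β C1 c V) (γ : ℂ) :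
    BddBelow {b : ℝ | ∃ δ > 0, ∀ᶠ n in (U : Filter ℕ), ∀ γ' ∈ ball γ δ, vn v c V n γ' ≤ b} ∧
    {b : ℝ | ∃ δ > 0, ∀ᶠ n in (U : Filter ℕ), ∀ γ' ∈ ball γ δ, vn v c V n γ' ≤ b}.Nonempty := by
  refine ⟨⟨0, fun b hb => vI_mem_nonneg hv hR HW hb⟩, ?_⟩
  have hK : (1:ℝ) ≤ ‖γ‖ + 2 := by have := norm_nonneg γ; linarith
  refine ⟨C1 * (‖γ‖ + 2), 1, one_pos, ?_⟩
  filter_upwards [vn_up hv hR HW hK] with n hn γ' hγ'
  have h1 : ‖γ'‖ ≤ ‖γ‖ + 1 := by
    rw [mem_ball, dist_eq_norm] at hγ'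
    have := norm_le_norm_add_norm_sub' γ' γ
    rw [norm_sub_rev] at this
    have h2 := norm_sub_norm_le γ' γ
    linarith
  refine (hn γ' (by linarith)).trans ?_
  apply mul_le_mul_of_nonneg_left _ (by linarith [HW.C1_one])
  apply max_le (by linarith)
  have h3 : max ‖γ'‖ (1 / (‖γ‖ + 2)) ≤ ‖γ‖ + 2 := by
    apply max_le (by linarith)
    rw [div_le_iff₀ (by linarith)]
    nlinarith
  calc (max ‖γ'‖ (1 / (‖γ‖ + 2))) ^ β ≤ (‖γ‖ + 2) ^ β :=
        Real.rpow_le_rpow (le_max_of_le_left (norm_nonneg _)) h3 HW.β_pos.le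
    _ ≤ (‖γ‖ + 2) ^ (1:ℝ) := Real.rpow_le_rpow_of_exponent_le hK HW.β_le
    _ = ‖γ‖ + 2 := Real.rpow_one _

theorem vI_nonneg (hv : NV v R C0) (hR : 0 < R) (HW : Win v U β C1 c V) (γ : ℂ) :
    0 ≤ vI v U c V γ := by
  exact le_csInf (vI_set hv hR HW γ).2 fun b hb => vI_mem_nonneg hv hR HW hb

/-- Proof. On `ball γ δ`, by `vn_up` with `K → ∞`: `vn ≤ C1 max (‖γ‖ + δ) (max (‖γ‖ + δ) (1/K) ^
β)`;
let `K → ∞`, `δ → 0` (continuity of `x ^ β` at `x ≥ 0`, `β > 0`). -/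
theorem vI_le (hv : NV v R C0) (hR : 0 < R) (HW : Win v U β C1 c V) (γ : ℂ) :
    vI v U c V γ ≤ C1 * max ‖γ‖ (‖γ‖ ^ β) := by
  have hcont : Tendsto (fun δ : ℝ => C1 * max (‖γ‖ + δ) ((‖γ‖ + δ) ^ β)) (𝓝[>] 0)
      (𝓝 (C1 * max (‖γ‖ + 0) ((‖γ‖ + 0) ^ β))) := by
    have h1 : Continuous fun δ : ℝ => C1 * max (‖γ‖ + δ) ((‖γ‖ + δ) ^ β) :=
      continuous_const.mul ((continuous_const.add continuous_id).max
        ((continuous_const.add continuous_id).rpow_const fun _ => Or.inr HW.β_pos.le))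
    exact (h1.tendsto 0).mono_left nhdsWithin_le_nhds
  simp only [add_zero] at hcont
  refine ge_of_tendsto hcont ?_
  have h01 : ∀ᶠ δ : ℝ in 𝓝[>] 0, δ ∈ Ioo (0:ℝ) 1 := Ioo_mem_nhdsGT one_pos
  filter_upwards [h01] with δ hδ
  apply csInf_le (vI_set hv hR HW γ).1
  refine ⟨δ, hδ.1, ?_⟩
  have hγ0 := norm_nonneg γ
  have hK : (1:ℝ) ≤ max (1 / δ) (‖γ‖ + 1) := le_max_of_le_right (by linarith)
  filter_upwards [vn_up hv hR HW hK] with n hn γ' hγ'
  have h1 : ‖γ'‖ ≤ ‖γ‖ + δ := by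
    rw [mem_ball, dist_eq_norm] at hγ'
    have h2 := norm_sub_norm_le γ' γ
    linarith
  refine (hn γ' (h1.trans (le_max_of_le_right (by linarith [hδ.2])))).trans ?_
  apply mul_le_mul_of_nonneg_left _ (by linarith [HW.C1_one])
  apply max_le_max h1
  apply Real.rpow_le_rpow (le_max_of_le_left (norm_nonneg _)) _ HW.β_pos.le
  apply max_le h1
  have h3 : 1 / max (1 / δ) (‖γ‖ + 1) ≤ 1 / (1 / δ) :=
    one_div_le_one_div_of_le (by have := hδ.1; positivity) (le_max_left _ _)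
  rw [one_div_one_div] at h3
  linarith

theorem vI_zero (hv : NV v R C0) (hR : 0 < R) (HW : Win v U β C1 c V) : vI v U c V 0 = 0 := by
  apply le_antisymm _ (vI_nonneg hv hR HW 0)
  have h := vI_le hv hR HW 0
  rw [norm_zero, Real.zero_rpow HW.β_pos.ne', max_self, mul_zero] at h
  exact h

/-- If `b > vI γ` then `vn ≤ b` near `γ` for almost all `n`. -/
theorem ev_of_vI_lt (hv : NV v R C0) (hR : 0 < R) (HW : Win v U β C1 c V) {γ : ℂ} {b : ℝ}
    (h : vI v U c V γ < b) :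
    ∃ δ > 0, ∀ᶠ n in (U : Filter ℕ), ∀ γ' ∈ ball γ δ, vn v c V n γ' < b := by
  obtain ⟨b', ⟨δ, hδ, hb'⟩, hlt⟩ := exists_lt_of_csInf_lt (vI_set hv hR HW γ).2 h
  refine ⟨δ, hδ, ?_⟩
  filter_upwards [hb'] with n hn γ' hγ'
  exact (hn γ' hγ').trans_lt hlt

theorem vI_usc (hv : NV v R C0) (hR : 0 < R) (HW : Win v U β C1 c V) :
    UpperSemicontinuous (vI v U c V) := by
  intro γ b hb
  obtain ⟨b1, hb1, hb2⟩ := exists_between hb
  obtain ⟨δ, hδ, hev⟩ := ev_of_vI_lt hv hR HW hb1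
  filter_upwards [ball_mem_nhds γ (half_pos hδ)] with γ1 hγ1
  refine lt_of_le_of_lt ?_ hb2
  apply csInf_le (vI_set hv hR HW γ1).1
  refine ⟨δ / 2, half_pos hδ, ?_⟩
  filter_upwards [hev] with n hn γ' hγ'
  apply (hn γ' _).le
  rw [mem_ball] at hγ' hγ1 ⊢
  have := dist_triangle γ' γ1 γ
  linarith

theorem vI_even (hv : NV v R C0) (hR : 0 < R) (HW : Win v U β C1 c V) (γ : ℂ) :
    vI v U c V (-γ) = vI v U c V γ := by
  have key : ∀ γ : ℂ, vI v U c V (-γ) ≤ vI v U c V γ := by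
    intro γ
    apply le_of_forall_gt_imp_ge_of_dense
    intro b hb
    obtain ⟨δ, hδ, hev⟩ := ev_of_vI_lt hv hR HW hb
    apply csInf_le (vI_set hv hR HW (-γ)).1
    refine ⟨min δ 1, lt_min hδ one_pos, ?_⟩
    filter_upwards [hev, vn_low hv hR HW (‖γ‖ + 1)] with n hn hlow γ' hγ'
    rw [mem_ball, dist_eq_norm, lt_min_iff] at hγ'
    have h1 : ‖γ'‖ ≤ ‖γ‖ + 1 := by
      have h2 := norm_sub_norm_le γ' (-γ)
      rw [norm_neg] at h2
      linarith [hγ'.2]
    have h3 : -γ' ∈ ball γ δ := by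
      rw [mem_ball, dist_eq_norm]
      have h4 : -γ' - γ = -(γ' - -γ) := by ring
      rw [h4, norm_neg]
      exact hγ'.1
    have h5 := (hn _ h3).le
    unfold vn at h5 ⊢
    have h6 : ((c n : ℂ) * γ') ∈ ball (0:ℂ) R := mem_scaled HW n (hlow γ' h1).1
    have h7 := hv.even _ h6
    rw [← mul_neg] at h7
    rwa [h7] at h5
  apply le_antisymm (key γ)
  have h := key (-γ)
  rwa [neg_neg] at h

/-- If `g n → γ` along `U` and `b ≤ vn (g n)` for almost all `n` then `b ≤ vI γ`. -/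
theorem le_vI (hv : NV v R C0) (hR : 0 < R) (HW : Win v U β C1 c V) {g : ℕ → ℂ} {γ : ℂ}
    (hg : Tendsto g U (𝓝 γ)) {b : ℝ} (h : ∀ᶠ n in (U : Filter ℕ), b ≤ vn v c V n (g n)) :
    b ≤ vI v U c V γ := by
  apply le_csInf (vI_set hv hR HW γ).2
  rintro b' ⟨δ, hδ, hb'⟩
  obtain ⟨n, hn1, hn2, hn3⟩ := (h.and (hb'.and (hg.eventually (ball_mem_nhds γ hδ)))).exists
  exact hn1.trans (hn2 _ hn3)

/-- The limit is attained along a sequence. Proof. For every `k` the set `A k` of the `n` such that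
some `γ' ∈ ball γ (1 / (k + 1))` has `vn (γ') > vI γ - 1 / (k + 1)` is in `U` (otherwise, `U` being
an
ultrafilter, `vn ≤ vI γ - 1 / (k + 1)` on the ball for almost all `n`, contradiction to the
definition of
`vI`). `exists_slow`; upper bound by `ev_of_vI_lt`. -/
theorem vI_att (hv : NV v R C0) (hR : 0 < R) (HW : Win v U β C1 c V) (γ : ℂ) :
    ∃ g : ℕ → ℂ, Tendsto g U (𝓝 γ) ∧ Tendsto (fun n => vn v c V n (g n)) U (𝓝 (vI v U c V γ)) := by
  classical
  set A : ℕ → Set ℕ := fun k =>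
    {n | ∃ γ' ∈ ball γ (1 / ((k : ℝ) + 1)), vI v U c V γ - 1 / ((k : ℝ) + 1) < vn v c V n γ'}
    with hAdef
  have hA : ∀ k, A k ∈ (U : Filter ℕ) := by
    intro k
    by_contra hk
    have h1 : ∀ᶠ n in (U : Filter ℕ), n ∉ A k := Ultrafilter.eventually_not.2 hk
    have hk0 : (0:ℝ) < 1 / ((k : ℝ) + 1) := by positivity
    have h2 : vI v U c V γ ≤ vI v U c V γ - 1 / ((k : ℝ) + 1) := by
      apply csInf_le (vI_set hv hR HW γ).1
      refine ⟨1 / ((k : ℝ) + 1), hk0, ?_⟩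
      filter_upwards [h1] with n hn γ' hγ'
      by_contra hcon
      exact hn ⟨γ', hγ', not_le.1 hcon⟩
    linarith
  obtain ⟨κ, hκ, hκA⟩ := exists_slow HW.free hA
  set g : ℕ → ℂ := fun n => if h : n ∈ A (κ n) then h.choose else γ with hg
  have hgs : ∀ n, n ∈ A (κ n) → g n ∈ ball γ (1 / ((κ n : ℝ) + 1)) ∧
      vI v U c V γ - 1 / ((κ n : ℝ) + 1) < vn v c V n (g n) := by
    intro n hn
    simp only [hg, dif_pos hn]
    exact hn.choose_spec
  have hk0 : Tendsto (fun n => 1 / ((κ n : ℝ) + 1)) U (𝓝 0) :=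
    (tendsto_one_div_add_atTop_nhds_zero_nat (𝕜 := ℝ)).comp hκ
  have hgt : Tendsto g U (𝓝 γ) := by
    rw [Metric.tendsto_nhds]
    intro ε hε
    filter_upwards [hκA, hk0.eventually (gt_mem_nhds hε)] with n hn1 hn2
    exact (mem_ball.1 (hgs n hn1).1).trans hn2
  refine ⟨g, hgt, ?_⟩
  rw [tendsto_order]
  constructor
  · intro a ha
    have h3 : (0:ℝ) < vI v U c V γ - a := by linarith
    filter_upwards [hκA, hk0.eventually (gt_mem_nhds h3)] with n hn1 hn2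
    have := (hgs n hn1).2
    linarith
  · intro a ha
    obtain ⟨δ, hδ, hev⟩ := ev_of_vI_lt hv hR HW ha
    filter_upwards [hev, hgt.eventually (ball_mem_nhds γ hδ)] with n hn1 hn2
    exact hn1 _ hn2

/-- Compact sets. Let `K` be compact, `f` continuous on `K` and `vI < f` on `K`. Then there is `ε >
0`
such that for almost all `n`: `vn (γ') < f γ - ε` for `γ ∈ K`, `dist γ' γ < ε`. -/
theorem ev_compact (hv : NV v R C0) (hR : 0 < R) (HW : Win v U β C1 c V) {K : Set ℂ}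
    (hK : IsCompact K) {f : ℂ → ℝ} (hf : ContinuousOn f K) (h : ∀ γ ∈ K, vI v U c V γ < f γ) :
    ∃ ε > 0, ∀ᶠ n in (U : Filter ℕ), ∀ γ ∈ K, ∀ γ' ∈ ball γ ε, vn v c V n γ' < f γ - ε := by
  refine hK.induction_on (p := fun s => ∃ ε > 0, ∀ᶠ n in (U : Filter ℕ), ∀ γ ∈ s,
    ∀ γ' ∈ ball γ ε, vn v c V n γ' < f γ - ε) ?_ ?_ ?_ ?_
  · exact ⟨1, one_pos, Filter.Eventually.of_forall fun n p hp => absurd hp (notMem_empty p)⟩
  · rintro s t hst ⟨ε, hε, ht⟩
    refine ⟨ε, hε, ?_⟩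
    filter_upwards [ht] with n hn p hp
    exact hn p (hst hp)
  · rintro s t ⟨ε1, hε1, hs⟩ ⟨ε2, hε2, ht⟩
    refine ⟨min ε1 ε2, lt_min hε1 hε2, ?_⟩
    filter_upwards [hs, ht] with n hn1 hn2 p hp γ' hγ'
    rcases hp with hp | hp
    · have h1 := hn1 p hp γ' (ball_subset_ball (min_le_left _ _) hγ')
      have h2 := min_le_left ε1 ε2
      linarith
    · have h1 := hn2 p hp γ' (ball_subset_ball (min_le_right _ _) hγ')
      have h2 := min_le_right ε1 ε2
      linarith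
  · intro γ hγ
    obtain ⟨b, hb1, hb2⟩ := exists_between (h γ hγ)
    obtain ⟨δ, hδ, hev⟩ := ev_of_vI_lt hv hR HW hb1
    set s : ℝ := (f γ - b) / 2 with hs
    have hs0 : 0 < s := by rw [hs]; linarith
    have h1 : ∀ᶠ z in 𝓝[K] γ, b + s < f z := by
      apply (hf γ hγ).eventually
      apply lt_mem_nhds
      rw [hs]; linarith
    refine ⟨ball γ (δ / 2) ∩ {z | b + s < f z}, inter_mem
      (mem_nhdsWithin_of_mem_nhds (ball_mem_nhds γ (half_pos hδ))) h1, min (δ / 2) s,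
      lt_min (half_pos hδ) hs0, ?_⟩
    filter_upwards [hev] with n hn γ1 hγ1 γ' hγ'
    have h2 : γ' ∈ ball γ δ := by
      have h3 := mem_ball.1 hγ1.1
      have h4 := mem_ball.1 (ball_subset_ball (min_le_left _ _) hγ')
      rw [mem_ball]
      have := dist_triangle γ' γ1 γ
      linarith
    have h5 := hn γ' h2
    have h6 : b + s < f γ1 := hγ1.2
    have h7 := min_le_right (δ / 2) s
    linarith

end Pool.Agent.MP_ae5b4e_an_M
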