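import Pool.Agent.Lib.MP_ae5b4e_an_M.Mont

/-! # Section M: an exhaustion of the lower half plane -/

noncomputable section

namespace Pool.Agent.MP_ae5b4e_an_M

open Complex Set Filter Topology Metric
open PorTR (Hm)

/-- an exhaustion of the lower half plane by compact sets -/
def KK (k : ℕ) : Set ℂ := {z | 1 / ((k : ℝ) + 1) ≤ -z.im ∧ ‖z‖ ≤ (k : ℝ) + 1}

theorem isOpen_Hm : IsOpen Hm := isOpen_lt continuous_im continuous_const

theorem isCompact_KK (k : ℕ) : IsCompact (KK k) := by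
  apply (isCompact_closedBall (0:ℂ) ((k : ℝ) + 1)).of_isClosed_subset
  · exact (isClosed_le continuous_const continuous_im.neg).inter
      (isClosed_le continuous_norm continuous_const)
  · intro z hz
    exact mem_closedBall_zero_iff.2 hz.2

theorem KK_sub (k : ℕ) : KK k ⊆ Hm := by
  intro z hz
  have h1 : (0:ℝ) < 1 / ((k : ℝ) + 1) := by positivity
  show z.im < 0
  linarith [hz.1]

theorem KK_mono {j k : ℕ} (h : j ≤ k) : KK j ⊆ KK k := by
  intro z hz
  have h1 : (j : ℝ) ≤ k := by exact_mod_cast h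
  refine ⟨le_trans ?_ hz.1, by linarith [hz.2]⟩
  exact one_div_le_one_div_of_le (by positivity) (by linarith)

/-- every point is in almost all sets of the exhaustion -/
theorem exists_KK {z : ℂ} (hz : z ∈ Hm) : ∃ k₀ : ℕ, ∀ k, k₀ ≤ k → z ∈ KK k := by
  have hz' : 0 < -z.im := by
    have : z.im < 0 := hz
    linarith
  obtain ⟨k₀, hk₀⟩ := exists_nat_ge (max (1 / (-z.im)) ‖z‖)
  refine ⟨k₀, fun k hk => KK_mono hk ⟨?_, ?_⟩⟩
  · have h1 : 1 / (-z.im) ≤ (k₀ : ℝ) + 1 := by
      have := (le_max_left (1 / (-z.im)) ‖z‖).trans hk₀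
      linarith
    rw [div_le_iff₀ hz'] at h1
    rw [div_le_iff₀ (by positivity)]
    linarith
  · have := (le_max_right (1 / (-z.im)) ‖z‖).trans hk₀
    linarith

/-- every compact set is in almost all sets of the exhaustion -/
theorem exists_KK_compact {K : Set ℂ} (hK : IsCompact K) (hKH : K ⊆ Hm) :
    ∃ k₀ : ℕ, ∀ k, k₀ ≤ k → K ⊆ KK k := by
  rcases K.eq_empty_or_nonempty with rfl | hne
  · exact ⟨0, fun k _ => empty_subset _⟩
  obtain ⟨w, hw, hwm⟩ := hK.exists_isMinOn hne (f := fun z => -z.im)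
    continuous_im.neg.continuousOn
  obtain ⟨B, hB⟩ := hK.isBounded.exists_norm_le
  have hw' : 0 < -w.im := by
    have : w.im < 0 := hKH hw
    linarith
  obtain ⟨k₀, hk₀⟩ := exists_nat_ge (max (1 / (-w.im)) B)
  refine ⟨k₀, fun k hk z hz => KK_mono hk ⟨?_, ?_⟩⟩
  · have h1 : 1 / (-w.im) ≤ (k₀ : ℝ) + 1 := by
      have := (le_max_left (1 / (-w.im)) B).trans hk₀
      linarith
    have h2 : -w.im ≤ -z.im := hwm hz
    rw [div_le_iff₀ hw'] at h1
    rw [div_le_iff₀ (by positivity)]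
    nlinarith
  · have := (le_max_right (1 / (-w.im)) B).trans hk₀
    have := hB z hz
    linarith

end Pool.Agent.MP_ae5b4e_an_M
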