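import Pool.Agent.Lib.MP_ae5b4e_an_M.QA
import Pool.Agent.Lib.MP_ae5b4e_an_M.Exh
import Pool.Agent.Lib.MP_099f24_an.TP.Compact

/-! # Section M: the family of window limits is compact -/

noncomputable section

namespace Pool.Agent.MP_ae5b4e_an_M

open Complex Set Filter Topology Metric
open Pool.Agent.MP_ae5b4e_an_NBT (St Mer EqM)
open Pool.Agent.MP_ae5b4e_an_NB2 (Sys)
open Pool.Agent.MP_ae5b4e_an_N5 (NV)
open Pool.Agent.MP_ae5b4e_an_PB
open PorTR (Hm)

/-- MONTEL for sequences. A sequence of holomorphic functions on the lower half plane which is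
bounded on every compact set has a locally uniformly convergent subsequence.

Proof. In the library (search for a Montel theorem in `Pool.Agent.Lib`), or: take a free ultrafilter
`U`
on `ℕ` (`hyperfilter`), the limit `g` along `U` exists by `montel1`; for an exhaustion by compact
sets
`K k` choose `φ (k + 1) > φ k` with `sup_{K k} ‖f (φ (k + 1)) - g‖ < 1 / (k + 1)` (the set of such
indices
is in `U`, so it is infinite). -/
theorem montel_seq {f : ℕ → ℂ → ℂ} (hf : ∀ k, DifferentiableOn ℂ (f k) Hm)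
    (hb : ∀ K : Set ℂ, IsCompact K → K ⊆ Hm → ∃ M : ℝ, ∀ k, ∀ z ∈ K, ‖f k z‖ ≤ M) :
    ∃ g : ℂ → ℂ, ∃ φ : ℕ → ℕ, StrictMono φ ∧
      TendstoLocallyUniformlyOn (fun k => f (φ k)) g atTop Hm := by
  obtain ⟨φ, g, h1, -, h2⟩ := Pool.Agent.MP099f24.tp_montel isOpen_Hm (f := f) (by
    intro x hx
    obtain ⟨r, hr, hrs⟩ := Metric.nhds_basis_closedBall.mem_iff.1 (isOpen_Hm.mem_nhds hx)
    obtain ⟨M, hM⟩ := hb _ (isCompact_closedBall x r) hrs
    refine ⟨r, hr, M, Eventually.of_forall fun k => ⟨(hf k).mono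
      (ball_subset_closedBall.trans hrs), fun y hy => hM k y (ball_subset_closedBall hy)⟩⟩)
  exact ⟨g, φ, h1, h2⟩

variable {Y : Sys} {h R C0 : ℝ} {v : ℂ → ℝ} {G L : ℂ × ℂ → ℂ} {U : Ultrafilter ℕ} {β C1 : ℝ}
  {c V : ℕ → ℝ}

/-- DIAGONAL SEQUENCE OF PLACES. Let `g` be the locally uniform limit on `Hm` of the limits
`qI` at the places `X k`, `k → ∞`. Then `g` is (on `Hm`) the limit at a diagonal sequence of
places.

Proof. `K k` an exhaustion of `Hm` by compact sets. `A k` := the set of the `n` with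
`sup_{K k} ‖qn n - qI‖ < 1 / (k + 1)` at the places `X k`: in `U` by `qI_unif`, `unif_compact`. Slow
index
`κ` (`exists_slow`, `HW.free`); `x n := X (κ n) n`. Then on every compact set, for almost all `n`,
`‖qn n (at x) - g‖ ≤ 1 / (κ n + 1) + sup ‖qI (X (κ n)) - g‖ → 0`. -/
theorem diag_place (hB : Base Y h R C0 v G L) (HW : Win v U β C1 c V) {X : ℕ → ℕ → ℝ}
    {g : ℂ → ℂ} (hg : TendstoLocallyUniformlyOn (fun k => qI Y h U (X k) c V) g atTop Hm) :
    ∃ x : ℕ → ℝ, ∀ z ∈ Hm, qI Y h U x c V z = g z := by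
  set A : ℕ → Set ℕ := fun k => {n | ∀ z ∈ KK k,
    ‖qn Y h (X k) c V n z - qI Y h U (X k) c V z‖ < 1 / ((k : ℝ) + 1)} with hAd
  have hA : ∀ k, A k ∈ (U : Filter ℕ) := fun k =>
    unif_compact (qI_unif hB HW (X k)) (isCompact_KK k) (KK_sub k) (by positivity)
  obtain ⟨κ, hκ, hκA⟩ := exists_slow HW.free hA
  refine ⟨fun n => X (κ n) n, fun z hz => ?_⟩
  have h1 : Tendsto (fun n => qn Y h (fun n => X (κ n) n) c V n z) U (𝓝 (g z)) := by
    have h2 : Tendsto (fun k => qI Y h U (X k) c V z) atTop (𝓝 (g z)) := hg.tendsto_at hz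
    have h3 : Tendsto (fun n => qI Y h U (X (κ n)) c V z) U (𝓝 (g z)) := h2.comp hκ
    have h4 : Tendsto (fun n => 1 / ((κ n : ℝ) + 1)) U (𝓝 0) :=
      (tendsto_one_div_add_atTop_nhds_zero_nat (𝕜 := ℝ)).comp hκ
    obtain ⟨k₀, hk₀⟩ := exists_KK hz
    have h5 : Tendsto (fun n => qn Y h (fun n => X (κ n) n) c V n z -
        qI Y h U (X (κ n)) c V z) U (𝓝 0) := by
      apply squeeze_zero_norm' _ h4
      filter_upwards [hκA, hκ.eventually_ge_atTop k₀] with n hn1 hn2
      exact (hn1 z (hk₀ _ hn2)).le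
    have h6 := h5.add h3
    simp only [sub_add_cancel, zero_add] at h6
    exact h6
  have h7 : z.im < 0 := hz
  unfold qI
  rw [if_pos h7]
  exact ulimC_eq h1

/-- the family of window limits is sequentially compact -/
theorem WL_cpt (hB : Base Y h R C0 v G L) (HW : Win v U β C1 c V) {f : ℕ → ℂ → ℂ}
    (hf : ∀ k, f k ∈ WL Y h U c V) :
    ∃ q ∈ WL Y h U c V, ∃ φ : ℕ → ℕ, StrictMono φ ∧
      TendstoLocallyUniformlyOn (fun k => f (φ k)) q atTop Hm := by
  choose X hX using hf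
  obtain ⟨g, φ, hφ, hg⟩ := montel_seq (f := f) (fun k => by
      rw [hX k]; exact qI_hol hB HW (X k)) (by
    intro K hK hKH
    have hc : ContinuousOn (fun z : ℂ => gr β (C3f β C1) (-z.im)) K := by
      unfold gr
      apply ContinuousOn.mul continuousOn_const
      have hne : ∀ z ∈ K, -z.im ≠ 0 := by
        intro z hz
        have : z.im < 0 := hKH hz
        linarith
      apply ContinuousOn.sup
      · exact (continuous_im.neg.continuousOn).rpow_const fun z hz => Or.inl (hne z hz)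
      · exact (continuous_im.neg.continuousOn).rpow_const fun z hz => Or.inl (hne z hz)
    obtain ⟨M, hM⟩ := hK.exists_bound_of_continuousOn hc
    refine ⟨M, fun k z hz => ?_⟩
    rw [hX k]
    exact (qI_bound hB HW (X k) (hKH hz)).trans ((le_abs_self _).trans (hM z hz)))
  obtain ⟨x, hx⟩ := diag_place hB HW (X := fun k => X (φ k)) (g := g)
    (hg.congr fun k z _ => by
      show f (φ k) z = qI Y h U (X (φ k)) c V z
      rw [hX (φ k)])
  refine ⟨qI Y h U x c V, ⟨x, rfl⟩, φ, hφ, ?_⟩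
  exact hg.congr_right fun z hz => (hx z hz).symm

/-- the family of the functions `q (z - i e)` -/
def Wdn (W : Set (ℂ → ℂ)) (e : ℝ) : Set (ℂ → ℂ) := {f | ∃ q ∈ W, f = fun z => q (z - e * I)}

/-- `gr β C (y + e) ≤ C (max 1 (e ^ (2 - 2 / β))) / y ^ 2` -/
theorem gr_down {β C : ℝ} (hβ : 0 < β) (hβ1 : β ≤ 1) (hC : 0 ≤ C) {e y : ℝ} (he : 0 < e)
    (hy : 0 < y) : gr β C (y + e) ≤ C * max 1 (e ^ (2 - 2 / β)) / y ^ 2 := by
  unfold gr
  have hye : 0 < y + e := by linarith
  have h1 : (y + e) ^ (-(2:ℝ)) ≤ y ^ (-(2:ℝ)) :=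
    Real.rpow_le_rpow_of_nonpos hy (by linarith) (by norm_num)
  have h2 : y ^ (-(2:ℝ)) = 1 / y ^ 2 := by
    rw [Real.rpow_neg hy.le, one_div]
    norm_cast
  have hexp : 2 - 2 / β ≤ 0 := by
    have : 2 ≤ 2 / β := by
      rw [le_div_iff₀ hβ]
      linarith
    linarith
  have h3 : (y + e) ^ (-(2:ℝ) / β) ≤ e ^ (2 - 2 / β) * y ^ (-(2:ℝ)) := by
    have h4 : (y + e) ^ (-(2:ℝ) / β) = (y + e) ^ (2 - 2 / β) * (y + e) ^ (-(2:ℝ)) := by
      rw [← Real.rpow_add hye]
      congr 1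
      ring
    rw [h4]
    have h5 : (y + e) ^ (2 - 2 / β) ≤ e ^ (2 - 2 / β) :=
      Real.rpow_le_rpow_of_nonpos he (by linarith) hexp
    exact mul_le_mul h5 h1 (Real.rpow_nonneg hye.le _) (Real.rpow_nonneg he.le _)
  have h6 : 0 ≤ y ^ (-(2:ℝ)) := Real.rpow_nonneg hy.le _
  have h7 : max ((y + e) ^ (-(2:ℝ))) ((y + e) ^ (-(2:ℝ) / β)) ≤
      max 1 (e ^ (2 - 2 / β)) * y ^ (-(2:ℝ)) := by
    apply max_le
    · refine h1.trans ?_
      have := mul_le_mul_of_nonneg_right (le_max_left 1 (e ^ (2 - 2 / β))) h6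
      rwa [one_mul] at this
    · refine h3.trans ?_
      exact mul_le_mul_of_nonneg_right (le_max_right _ _) h6
  calc C * max ((y + e) ^ (-(2:ℝ))) ((y + e) ^ (-(2:ℝ) / β))
      ≤ C * (max 1 (e ^ (2 - 2 / β)) * y ^ (-(2:ℝ))) := mul_le_mul_of_nonneg_left h7 hC
    _ = C * max 1 (e ^ (2 - 2 / β)) / y ^ 2 := by rw [h2]; ring

theorem C3f_pos (HW : Win v U β C1 c V) : 0 < C3f β C1 := by
  have := HW.C1_one
  unfold C3f
  positivity

theorem isPreconnected_Hm : IsPreconnected Hm := by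
  have h1 : Convex ℝ Hm := convex_halfSpace_im_lt 0
  exact h1.isPreconnected

/-- THE FAMILY TRANSLATED DOWN satisfies the hypotheses of the section TR, if no limit is zero.
The identity theorem gives that no translate is zero. -/
theorem lims_down (hB : Base Y h R C0 v G L) (HW : Win v U β C1 c V)
    (hne : ∀ q ∈ WL Y h U c V, ∃ z ∈ Hm, q z ≠ 0) {e : ℝ} (he : 0 < e) :
    PorTR.Lims (Wdn (WL Y h U c V) e) (C3f β C1 * max 1 (e ^ (2 - 2 / β))) := by
  have hC3 := C3f_pos HW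
  have hm : ∀ z ∈ Hm, z - e * I ∈ Hm := by
    intro z hz
    have h1 : z.im < 0 := hz
    show (z - e * I).im < 0
    simp only [sub_im, mul_im, ofReal_re, I_im, ofReal_im, I_re, mul_one, mul_zero, add_zero]
    linarith
  refine ⟨?_, ?_, ?_, ?_, ?_, ?_⟩
  · exact mul_pos hC3 (lt_max_of_lt_left one_pos)
  · rintro _ ⟨q, ⟨x, rfl⟩, rfl⟩
    exact (qI_hol hB HW x).comp (by fun_prop) hm
  · rintro _ ⟨q, hq, rfl⟩ s
    refine ⟨fun z => q (z + s), WL_trans hB HW hq s, ?_⟩
    funext z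
    show q (z + s - e * I) = q (z - e * I + s)
    congr 1
    ring
  · rintro _ ⟨q, ⟨x, rfl⟩, rfl⟩ z hz
    have h1 : 0 < -z.im := by
      have : z.im < 0 := hz
      linarith
    have h2 := qI_bound hB HW x (hm z hz)
    have h3 : -(z - e * I).im = -z.im + e := by
      simp only [sub_im, mul_im, ofReal_re, I_im, ofReal_im, I_re, mul_one, mul_zero, add_zero]
      ring
    rw [h3] at h2
    have h4 := gr_down HW.β_pos HW.β_le hC3.le he h1
    rw [neg_sq] at h4
    exact h2.trans h4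
  · rintro _ ⟨q, ⟨x, rfl⟩, rfl⟩
    by_contra hcon
    push Not at hcon
    obtain ⟨z, hz, hqz⟩ := hne _ ⟨x, rfl⟩
    apply hqz
    have han : AnalyticOnNhd ℂ (qI Y h U x c V) Hm :=
      (qI_hol hB HW x).analyticOnNhd isOpen_Hm
    have hz0 : -(((e + 1 : ℝ) : ℂ) * I) ∈ Hm := by
      show (-(((e + 1 : ℝ) : ℂ) * I)).im < 0
      simp only [neg_im, mul_im, ofReal_re, I_im, ofReal_im, I_re, mul_one, mul_zero, add_zero]
      linarith
    have hev : qI Y h U x c V =ᶠ[𝓝 (-(((e + 1 : ℝ) : ℂ) * I))] 0 := by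
      have h5 : ∀ᶠ w : ℂ in 𝓝 (-(((e + 1 : ℝ) : ℂ) * I)), w.im < -e := by
        apply continuous_im.continuousAt.eventually (gt_mem_nhds _)
        simp only [neg_im, mul_im, ofReal_re, I_im, ofReal_im, I_re, mul_one, mul_zero, add_zero]
        linarith
      filter_upwards [h5] with w hw
      have h6 := hcon (w + e * I) (by
        show (w + e * I).im < 0
        simp only [add_im, mul_im, ofReal_re, I_im, ofReal_im, I_re, mul_one, mul_zero, add_zero]
        linarith)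
      have h7 : w + e * I - e * I = w := by ring
      rw [h7] at h6
      exact h6
    exact han.eqOn_zero_of_preconnected_of_eventuallyEq_zero isPreconnected_Hm hz0 hev hz
  · intro f hf
    choose Q hQ hfQ using hf
    obtain ⟨q, hq, φ, hφ, hlim⟩ := WL_cpt hB HW hQ
    refine ⟨fun z => q (z - e * I), ⟨q, hq, rfl⟩, φ, hφ, ?_⟩
    have h1 := hlim.comp (fun z : ℂ => z - e * I) hm (by fun_prop)
    refine h1.congr fun k z _ => ?_
    rw [hfQ (φ k)]
    rfl

/-- for `β = 1` no translation is needed -/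
theorem lims_one (hB : Base Y h R C0 v G L) (HW : Win v U 1 C1 c V)
    (hne : ∀ q ∈ WL Y h U c V, ∃ z ∈ Hm, q z ≠ 0) : PorTR.Lims (WL Y h U c V) (C3f 1 C1) := by
  have hC3 := C3f_pos HW
  refine ⟨hC3, ?_, ?_, ?_, hne, ?_⟩
  · rintro _ ⟨x, rfl⟩
    exact qI_hol hB HW x
  · intro q hq s
    exact WL_trans hB HW hq s
  · rintro _ ⟨x, rfl⟩ z hz
    have h1 : 0 < -z.im := by
      have : z.im < 0 := hz
      linarith
    have h2 := qI_bound hB HW x hz
    unfold gr at h2
    rw [div_one, max_self, Real.rpow_neg h1.le, ← div_eq_mul_inv] at h2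
    have h3 : (-z.im) ^ (2:ℝ) = z.im ^ 2 := by
      rw [← neg_sq z.im]
      norm_cast
    rwa [h3] at h2
  · intro f hf
    exact WL_cpt hB HW hf

end Pool.Agent.MP_ae5b4e_an_M
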