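import Pool.Agent.Lib.MP_ae5b4e_an_M.QA
import Pool.Agent.Lib.MP_ae5b4e_an_M.Exh

/-! # Section M: change of scale, unit and place (M12) -/

noncomputable section

namespace Pool.Agent.MP_ae5b4e_an_M

open Complex Set Filter Topology Metric
open Pool.Agent.MP_ae5b4e_an_NBT (St Mer EqM)
open Pool.Agent.MP_ae5b4e_an_NB2 (Sys)
open Pool.Agent.MP_ae5b4e_an_N5 (NV)
open Pool.Agent.MP_ae5b4e_an_PB
open PorTR (Hm)

section gen

variable {v : ℂ → ℝ} {U : Ultrafilter ℕ} {β C1 : ℝ} {c V : ℕ → ℝ}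

/-- scale `s c n`, unit `t V n` -/
theorem Win.scale (HW : Win v U β C1 c V) {s t : ℝ} (hs : 0 < s) (ht : 0 < t) :
    Win v U β (max 1 (C1 * max s (s ^ β) / t)) (fun n => s * c n) (fun n => t * V n) := by
  have hC : 0 < C1 := by linarith [HW.C1_one]
  refine ⟨HW.β_pos, HW.β_le, le_max_left _ _, fun n => mul_pos hs (HW.c_pos n),
    fun n => mul_pos ht (HW.V_pos n), ?_, ?_, ?_, ?_⟩
  · have := HW.c_lim.const_mul s
    rwa [mul_zero] at this
  · have := HW.V_lim.const_mul t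
    rwa [mul_zero] at this
  · have h1 : (fun n => t * V n / (s * c n)) = fun n => (t / s) * (V n / c n) := by
      funext n
      rw [mul_div_mul_comm]
    rw [h1]
    exact HW.N_lim.const_mul_atTop (by positivity)
  · intro K hK
    have hK' : 0 < max (K * s) (K / s) := lt_max_of_lt_left (by positivity)
    filter_upwards [HW.adm _ hK'] with n hn γ h1 h2
    have hV := HW.V_pos n
    have hγ0 := norm_nonneg γ
    have h3 : ‖(s : ℂ) * γ‖ = s * ‖γ‖ := by
      rw [norm_mul, Complex.norm_real, Real.norm_eq_abs, abs_of_pos hs]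
    have h4 := hn ((s : ℂ) * γ) (by
      rw [h3]
      have h5 : 1 / max (K * s) (K / s) ≤ 1 / (K / s) :=
        one_div_le_one_div_of_le (by positivity) (le_max_right _ _)
      have h6 : 1 / (K / s) = s * (1 / K) := by field_simp
      rw [h6] at h5
      exact h5.trans (mul_le_mul_of_nonneg_left h1 hs.le)) (by
      rw [h3]
      refine le_trans ?_ (le_max_left _ _)
      rw [mul_comm K s]
      exact mul_le_mul_of_nonneg_left h2 hs.le)
    rw [h3] at h4
    have h5 : ((s * c n : ℝ) : ℂ) * γ = (c n : ℂ) * ((s : ℂ) * γ) := by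
      push_cast
      ring
    rw [h5]
    refine h4.trans ?_
    have hm0 : 0 ≤ max ‖γ‖ (‖γ‖ ^ β) := le_max_of_le_left hγ0
    have hM0 : 0 ≤ max s (s ^ β) := le_max_of_le_left hs.le
    have h6 : max (s * ‖γ‖) ((s * ‖γ‖) ^ β) ≤ max s (s ^ β) * max ‖γ‖ (‖γ‖ ^ β) := by
      apply max_le
      · exact mul_le_mul (le_max_left _ _) (le_max_left _ _) hγ0 hM0
      · rw [Real.mul_rpow hs.le hγ0]
        exact mul_le_mul (le_max_right _ _) (le_max_right _ _) (Real.rpow_nonneg hγ0 _) hM0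
    calc C1 * max (s * ‖γ‖) ((s * ‖γ‖) ^ β) * V n
        ≤ C1 * (max s (s ^ β) * max ‖γ‖ (‖γ‖ ^ β)) * V n :=
          mul_le_mul_of_nonneg_right (mul_le_mul_of_nonneg_left h6 hC.le) hV.le
      _ = (C1 * max s (s ^ β) / t) * max ‖γ‖ (‖γ‖ ^ β) * (t * V n) := by field_simp
      _ ≤ max 1 (C1 * max s (s ^ β) / t) * max ‖γ‖ (‖γ‖ ^ β) * (t * V n) :=
          mul_le_mul_of_nonneg_right (mul_le_mul_of_nonneg_right (le_max_right _ _) hm0)
            (by positivity)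

/-- for `β = 1` and `t = s` the constant does not change -/
theorem Win.scale_one (HW : Win v U 1 C1 c V) {s : ℝ} (hs : 0 < s) :
    Win v U 1 C1 (fun n => s * c n) (fun n => s * V n) := by
  have h0 := HW.scale hs hs
  refine ⟨HW.β_pos, HW.β_le, HW.C1_one, h0.c_pos, h0.V_pos, h0.c_lim, h0.V_lim, h0.N_lim, ?_⟩
  intro K hK
  have hK' : 0 < max (K * s) (K / s) := lt_max_of_lt_left (by positivity)
  filter_upwards [HW.adm _ hK'] with n hn γ h1 h2
  have hγ0 := norm_nonneg γ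
  have h3 : ‖(s : ℂ) * γ‖ = s * ‖γ‖ := by
    rw [norm_mul, Complex.norm_real, Real.norm_eq_abs, abs_of_pos hs]
  have h4 := hn ((s : ℂ) * γ) (by
    rw [h3]
    have h5 : 1 / max (K * s) (K / s) ≤ 1 / (K / s) :=
      one_div_le_one_div_of_le (by positivity) (le_max_right _ _)
    have h6 : 1 / (K / s) = s * (1 / K) := by field_simp
    rw [h6] at h5
    exact h5.trans (mul_le_mul_of_nonneg_left h1 hs.le)) (by
    rw [h3]
    refine le_trans ?_ (le_max_left _ _)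
    rw [mul_comm K s]
    exact mul_le_mul_of_nonneg_left h2 hs.le)
  rw [h3, Real.rpow_one, max_self] at h4
  have h5 : ((s * c n : ℝ) : ℂ) * γ = (c n : ℂ) * ((s : ℂ) * γ) := by
    push_cast
    ring
  rw [h5, Real.rpow_one, max_self]
  refine h4.trans (le_of_eq ?_)
  ring

theorem vn_scale {s t : ℝ} (n : ℕ) (γ : ℂ) :
    vn v (fun n => s * c n) (fun n => t * V n) n γ = vn v c V n (s * γ) / t := by
  unfold vn
  have h5 : ((s * c n : ℝ) : ℂ) * γ = (c n : ℂ) * ((s : ℂ) * γ) := by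
    push_cast
    ring
  show v (((s * c n : ℝ) : ℂ) * γ) / (t * V n) = v ((c n : ℂ) * ((s : ℂ) * γ)) / V n / t
  rw [h5, div_div, mul_comm t]

end gen

variable {Y : Sys} {h R C0 : ℝ} {v : ℂ → ℝ} {G L : ℂ × ℂ → ℂ} {U : Ultrafilter ℕ} {β C1 : ℝ}
  {c V : ℕ → ℝ}

theorem vI_scale_le (hv : NV v R C0) (hR : 0 < R) (HW : Win v U β C1 c V) {s t : ℝ} (hs : 0 < s)
    (ht : 0 < t) (γ : ℂ) :
    vI v U (fun n => s * c n) (fun n => t * V n) γ ≤ vI v U c V (s * γ) / t := by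
  apply le_of_forall_gt_imp_ge_of_dense
  intro b hb
  rw [div_lt_iff₀ ht] at hb
  obtain ⟨δ, hδ, hev⟩ := ev_of_vI_lt hv hR HW hb
  apply csInf_le (vI_set hv hR (HW.scale hs ht) γ).1
  refine ⟨δ / s, by positivity, ?_⟩
  filter_upwards [hev] with n hn γ' hγ'
  rw [vn_scale, div_le_iff₀ ht]
  apply (hn _ _).le
  rw [mem_ball, dist_eq_norm] at hγ' ⊢
  rw [← mul_sub, norm_mul, Complex.norm_real, Real.norm_eq_abs, abs_of_pos hs]
  rw [lt_div_iff₀ hs] at hγ'
  linarith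

theorem qn_scale {s t : ℝ} (x : ℕ → ℝ) (n : ℕ) (l : ℂ) :
    qn Y h x (fun n => s * c n) (fun n => t * V n) n l =
      (s : ℂ) ^ 2 * qn Y h x c V n ((t : ℂ) * l) := by
  have h1 : pt h x (fun n => t * V n) n l = pt h x V n ((t:ℂ) * l) := by
    unfold pt
    push_cast
    ring
  unfold qn
  rw [h1]
  push_cast
  ring

theorem vI_scale (hv : NV v R C0) (hR : 0 < R) (HW : Win v U β C1 c V) {s t : ℝ} (hs : 0 < s)
    (ht : 0 < t) (γ : ℂ) :
    vI v U (fun n => s * c n) (fun n => t * V n) γ = vI v U c V (s * γ) / t := by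
  apply le_antisymm (vI_scale_le hv hR HW hs ht γ)
  have h1 := vI_scale_le hv hR (HW.scale hs ht) (s := s⁻¹) (t := t⁻¹) (inv_pos.2 hs)
    (inv_pos.2 ht) ((s : ℂ) * γ)
  have h2 : (fun n => s⁻¹ * (s * c n)) = c := by
    funext n
    field_simp
  have h3 : (fun n => t⁻¹ * (t * V n)) = V := by
    funext n
    field_simp
  have h4 : ((s⁻¹ : ℝ) : ℂ) * ((s : ℂ) * γ) = γ := by
    have : (s : ℂ) ≠ 0 := by exact_mod_cast hs.ne'
    push_cast
    field_simp
  rw [h2, h3, h4, div_inv_eq_mul] at h1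
  rw [div_le_iff₀ ht]
  exact h1

theorem DI_scale (hv : NV v R C0) (hR : 0 < R) (HW : Win v U β C1 c V) {s t : ℝ} (hs : 0 < s)
    (ht : 0 < t) (p : ℂ × ℂ) :
    p ∈ DI v U (fun n => s * c n) (fun n => t * V n) ↔ ((t:ℂ) * p.1, (s:ℂ) * p.2) ∈ DI v U c V := by
  have h1 := vI_scale hv hR HW hs ht p.2
  have h2 : ((t : ℂ) * p.1).im = t * p.1.im := by simp
  constructor
  · intro h
    have h3 : p.1.im < -vI v U (fun n => s * c n) (fun n => t * V n) p.2 := h
    show ((t : ℂ) * p.1).im < -vI v U c V ((s : ℂ) * p.2)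
    rw [h2]
    rw [h1, ← neg_div, lt_div_iff₀ ht] at h3
    linarith
  · intro h
    have h3 : ((t : ℂ) * p.1).im < -vI v U c V ((s : ℂ) * p.2) := h
    show p.1.im < -vI v U (fun n => s * c n) (fun n => t * V n) p.2
    rw [h1, ← neg_div, lt_div_iff₀ ht]
    rw [h2] at h3
    linarith

theorem Ln_scale {s t : ℝ} (hs : 0 < s) (ht : 0 < t) (x : ℕ → ℝ) (n : ℕ) (hV : 0 < V n)
    (p : ℂ × ℂ) :
    Ln L h x (fun n => s * c n) (fun n => t * V n) n p =
      Ln L h x c V n ((t:ℂ) * p.1, (s:ℂ) * p.2) / t := by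
  have hV2 : (V n : ℂ) ≠ 0 := by exact_mod_cast hV.ne'
  have ht2 : (t : ℂ) ≠ 0 := by exact_mod_cast ht.ne'
  have h1 : pt h x (fun n => t * V n) n p.1 = pt h x V n ((t:ℂ) * p.1) := by
    unfold pt
    push_cast
    ring
  have h5 : ((s * c n : ℝ) : ℂ) * p.2 = (c n : ℂ) * ((s : ℂ) * p.2) := by
    push_cast
    ring
  unfold Ln
  dsimp only
  rw [h1, h5]
  push_cast
  rw [div_div, mul_comm (V n : ℂ)]

theorem LI_scale (hB : Base Y h R C0 v G L) (HW : Win v U β C1 c V) {s t : ℝ} (hs : 0 < s)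
    (ht : 0 < t) (x : ℕ → ℝ) {p : ℂ × ℂ} (hp : ((t:ℂ) * p.1, (s:ℂ) * p.2) ∈ DI v U c V) :
    LI L h U x (fun n => s * c n) (fun n => t * V n) p =
      LI L h U x c V ((t:ℂ) * p.1, (s:ℂ) * p.2) / t := by
  apply ulimC_eq
  refine Tendsto.congr ?_ ((LI_tendsto hB HW x hp).div_const (t : ℂ))
  intro n
  exact (Ln_scale hs ht x n (HW.V_pos n) p).symm

theorem qI_scale (hB : Base Y h R C0 v G L) (HW : Win v U β C1 c V) {s t : ℝ} (hs : 0 < s)
    (ht : 0 < t) (x : ℕ → ℝ) (l : ℂ) :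
    qI Y h U x (fun n => s * c n) (fun n => t * V n) l = (s:ℂ) ^ 2 * qI Y h U x c V (t * l) := by
  have ht2 : ((t : ℂ) * l).im = t * l.im := by simp
  unfold qI
  by_cases hl : l.im < 0
  · have h1 : ((t : ℂ) * l).im < 0 := by rw [ht2]; exact mul_neg_of_pos_of_neg ht hl
    rw [if_pos hl, if_pos h1]
    apply ulimC_eq
    have h2 := ((qI_unif hB HW x).tendsto_at (a := (t : ℂ) * l) h1).const_mul ((s : ℂ) ^ 2)
    have h3 : qI Y h U x c V ((t : ℂ) * l) = ulimC U fun n => qn Y h x c V n ((t : ℂ) * l) := by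
      unfold qI
      rw [if_pos h1]
    rw [h3] at h2
    refine h2.congr fun n => ?_
    rw [qn_scale]
  · have h1 : ¬ ((t : ℂ) * l).im < 0 := by
      rw [ht2]
      push Not at hl ⊢
      positivity
    rw [if_neg hl, if_neg h1, mul_zero]

/-- ZOOM IN OR OUT (M12), `β = 1`. Let `HW` be a window sequence with `β = 1`, `s k > 0` with
`s k → 0` or `∞`, and suppose the limits of the scaled windows converge: `s k ^ 2 qI (s k z) → g z`
locally uniformly on `Hm`. Then there are an index `κ → ∞` along `U` such that the windows with the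
scales `s (κ n) c n`, `s (κ n) V n` satisfy `Win`, and have the limit `g` at the same places.
The index may be chosen as slow as one likes: for given sets `A k ∈ U` one can have
`n ∈ A (κ n)` for almost all `n`.

Proof. `B k` := the set of the `n` with: `n ∈ A k`; `s k c n < 1 / (k + 1)`, `s k V n < 1 / (k +
1)`,
`V n / c n > k`; the bound `adm` of `Win.scale_one (s k)` for the annulus `1 / (k + 1) ≤ ‖γ‖ ≤ k +
1`; and
`‖qn n (at the scale s k) - s k ^ 2 qI (s k ·)‖ < 1 / (k + 1)` on the `k`-th set of an exhaustion of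
`Hm` by compact sets. All are in `U`. `exists_slow` for `B`; `Ln_scale`, and the pointwise formula
`qn (s c) (s V) l = s² qn c V (s l)`. -/
theorem zoom (hB : Base Y h R C0 v G L) (HW : Win v U 1 C1 c V) (x : ℕ → ℝ) {s : ℕ → ℝ}
    (hs : ∀ k, 0 < s k) {g : ℂ → ℂ}
    (hg : TendstoLocallyUniformlyOn (fun k z => (s k : ℂ) ^ 2 * qI Y h U x c V (s k * z)) g
      atTop Hm) {A : ℕ → Set ℕ} (hA : ∀ k, A k ∈ (U : Filter ℕ)) :
    ∃ κ : ℕ → ℕ, Tendsto κ U atTop ∧ (∀ᶠ n in (U : Filter ℕ), n ∈ A (κ n)) ∧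
      Win v U 1 C1 (fun n => s (κ n) * c n) (fun n => s (κ n) * V n) ∧
      ∀ z ∈ Hm, qI Y h U x (fun n => s (κ n) * c n) (fun n => s (κ n) * V n) z = g z := by
  have hwin : ∀ k, Win v U 1 C1 (fun n => s k * c n) (fun n => s k * V n) :=
    fun k => HW.scale_one (hs k)
  set B : ℕ → Set ℕ := fun k => {n | n ∈ A k ∧ s k * c n < 1 / ((k : ℝ) + 1) ∧
    s k * V n < 1 / ((k : ℝ) + 1) ∧
    (∀ γ : ℂ, 1 / ((k : ℝ) + 1) ≤ ‖γ‖ → ‖γ‖ ≤ (k : ℝ) + 1 →
      v (((s k * c n : ℝ) : ℂ) * γ) ≤ C1 * max ‖γ‖ (‖γ‖ ^ (1:ℝ)) * (s k * V n)) ∧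
    ∀ z ∈ KK k, ‖qn Y h x (fun n => s k * c n) (fun n => s k * V n) n z -
      qI Y h U x (fun n => s k * c n) (fun n => s k * V n) z‖ < 1 / ((k : ℝ) + 1)} with hBd
  have hBU : ∀ k, B k ∈ (U : Filter ℕ) := by
    intro k
    have hk : (0:ℝ) < 1 / ((k : ℝ) + 1) := by positivity
    have h1 : ∀ᶠ n in (U : Filter ℕ), s k * c n < 1 / ((k : ℝ) + 1) :=
      (hwin k).c_lim.eventually (gt_mem_nhds hk)
    have h2 : ∀ᶠ n in (U : Filter ℕ), s k * V n < 1 / ((k : ℝ) + 1) :=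
      (hwin k).V_lim.eventually (gt_mem_nhds hk)
    have h3 := (hwin k).adm ((k : ℝ) + 1) (by positivity)
    have h4 := unif_compact (qI_unif hB (hwin k) x) (isCompact_KK k) (KK_sub k) hk
    filter_upwards [hA k, h1, h2, h3, h4] with n hn1 hn2 hn3 hn4 hn5
    exact ⟨hn1, hn2, hn3, hn4, hn5⟩
  obtain ⟨κ, hκ, hκB⟩ := exists_slow HW.free hBU
  have hk0 : Tendsto (fun n => 1 / ((κ n : ℝ) + 1)) U (𝓝 0) :=
    (tendsto_one_div_add_atTop_nhds_zero_nat (𝕜 := ℝ)).comp hκ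
  refine ⟨κ, hκ, hκB.mono fun n hn => hn.1, ?_, ?_⟩
  · refine ⟨HW.β_pos, HW.β_le, HW.C1_one, fun n => mul_pos (hs _) (HW.c_pos n),
      fun n => mul_pos (hs _) (HW.V_pos n), ?_, ?_, ?_, ?_⟩
    · apply squeeze_zero' (Eventually.of_forall fun n => (mul_pos (hs _) (HW.c_pos n)).le) _ hk0
      exact hκB.mono fun n hn => hn.2.1.le
    · apply squeeze_zero' (Eventually.of_forall fun n => (mul_pos (hs _) (HW.V_pos n)).le) _ hk0
      exact hκB.mono fun n hn => hn.2.2.1.le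
    · refine HW.N_lim.congr fun n => ?_
      rw [mul_div_mul_left _ _ (hs _).ne']
    · intro K hK
      obtain ⟨k₀, hk₀⟩ := exists_nat_ge K
      filter_upwards [hκB, hκ.eventually_ge_atTop k₀] with n hn1 hn2 γ h1 h2
      have h3 : (k₀ : ℝ) ≤ κ n := by exact_mod_cast hn2
      refine hn1.2.2.2.1 γ (le_trans ?_ h1) (by linarith)
      exact one_div_le_one_div_of_le hK (by linarith)
  · intro z hz
    have hz' : z.im < 0 := hz
    have h2 : Tendsto (fun k => (s k : ℂ) ^ 2 * qI Y h U x c V (s k * z)) atTop (𝓝 (g z)) :=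
      hg.tendsto_at hz
    have h3 : Tendsto (fun n => (s (κ n) : ℂ) ^ 2 * qI Y h U x c V (s (κ n) * z)) U (𝓝 (g z)) :=
      h2.comp hκ
    obtain ⟨k₀, hk₀⟩ := exists_KK hz
    have h5 : Tendsto (fun n => qn Y h x (fun n => s (κ n) * c n) (fun n => s (κ n) * V n) n z -
        (s (κ n) : ℂ) ^ 2 * qI Y h U x c V (s (κ n) * z)) U (𝓝 0) := by
      apply squeeze_zero_norm' _ hk0
      filter_upwards [hκB, hκ.eventually_ge_atTop k₀] with n hn1 hn2
      have h6 := hn1.2.2.2.2 z (hk₀ _ hn2)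
      rw [qI_scale hB HW (hs (κ n)) (hs (κ n))] at h6
      exact h6.le
    have h6 := h5.add h3
    simp only [sub_add_cancel, zero_add] at h6
    unfold qI
    rw [if_pos hz']
    exact ulimC_eq h6

end Pool.Agent.MP_ae5b4e_an_M
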