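import Pool.Agent.Lib.MP_ae5b4e_an_M.CoA
import Pool.Agent.Lib.MP_ae5b4e_an_M.EqA
import Pool.Agent.Lib.MP_ae5b4e_an_M.Sc

/-! # Section M: window limits which are exact cones (M13) -/

noncomputable section

namespace Pool.Agent.MP_ae5b4e_an_M

open Complex Set Filter Topology Metric
open Pool.Agent.MP_ae5b4e_an_NBT (St Mer EqM)
open Pool.Agent.MP_ae5b4e_an_NB2 (Sys)
open Pool.Agent.MP_ae5b4e_an_N5 (NV)
open Pool.Agent.MP_ae5b4e_an_PB
open PorTR (Hm)

variable {Y : Sys} {h R C0 : ℝ} {v : ℂ → ℝ} {G L : ℂ × ℂ → ℂ} {U : Ultrafilter ℕ} {β C1 : ℝ}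
  {c V : ℕ → ℝ}

private theorem CoB_im_mul (κ : ℝ) (γ : ℂ) : ((κ:ℂ) * γ).im = κ * γ.im := by simp

private theorem CoB_Hm {κ : ℝ} (hκ : 0 < κ) {γ τ : ℂ} (h : τ.im < -(κ * |γ.im|)) :
    τ + κ * γ ∈ Hm ∧ τ - κ * γ ∈ Hm := by
  have h1 : κ * γ.im ≤ κ * |γ.im| := mul_le_mul_of_nonneg_left (le_abs_self _) hκ.le
  have h2 : -(κ * |γ.im|) ≤ κ * γ.im := by
    have := mul_le_mul_of_nonneg_left (neg_abs_le γ.im) hκ.le
    linarith
  refine ⟨?_, ?_⟩
  · show (τ + κ * γ).im < 0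
    rw [add_im, CoB_im_mul]
    linarith
  · show (τ - κ * γ).im < 0
    rw [sub_im, CoB_im_mul]
    linarith

private theorem CoB_open (M : ℝ) : IsOpen {z : ℂ | z.im < -M} :=
  isOpen_lt Complex.continuous_im continuous_const

private theorem CoB_conn (M : ℝ) : IsPreconnected {z : ℂ | z.im < -M} :=
  (convex_halfSpace_im_lt (-M)).isPreconnected

private theorem CoB_HmOpen : IsOpen Hm := isOpen_lt Complex.continuous_im continuous_const

/-- If `qI l = - κ² / l²`, `κ > 0`, then the limit label is the identric mean.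

Proof. For `γ = 0`: `LI_zero`, `Idm_self`. For `γ ≠ 0`: `LI_unique` for
`S = {τ | Im τ < - vI γ, Im τ < - κ |Im γ|}`, an open half plane, with `Idm_bb` (and `bb_congr`: `qI` and
`- κ² / l²` agree near every point of `Hm`), `Idm_asym`, `Idm_Hm`, `Idm_an`. -/
theorem LI_cone (hB : Base Y h R C0 v G L) (HW : Win v U β C1 c V) (x : ℕ → ℝ) {κ : ℝ}
    (hκ : 0 < κ) (hq : ∀ l ∈ Hm, qI Y h U x c V l = -(κ:ℂ) ^ 2 / l ^ 2) {p : ℂ × ℂ}
    (hp : p ∈ DI v U c V) (h1 : p.1.im < -(κ * |p.2.im|)) :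
    LI L h U x c V p = Idm (p.1 + κ * p.2) (p.1 - κ * p.2) := by
  obtain ⟨τ, γ⟩ := p
  simp only at h1
  have hp' : τ.im < -vI v U c V γ := hp
  by_cases hγ : γ = 0
  · subst hγ
    have hτ : τ.im < 0 := DI_im hB.nv hB.R_pos HW hp
    rw [LI_zero hB HW x hτ]
    simp only [mul_zero, add_zero, sub_zero]
    exact (Idm_self hτ).symm
  · set M : ℝ := max (vI v U c V γ) (κ * |γ.im|) with hM
    have hS1 : ∀ s ∈ {z : ℂ | z.im < -M}, s.im < -(κ * |γ.im|) := by
      intro s hs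
      have : s.im < -M := hs
      linarith [le_max_right (vI v U c V γ) (κ * |γ.im|)]
    have hS2 : ∀ s ∈ {z : ℂ | z.im < -M}, (s, γ) ∈ DI v U c V := by
      intro s hs
      show s.im < -vI v U c V γ
      have : s.im < -M := hs
      linarith [le_max_left (vI v U c V γ) (κ * |γ.im|)]
    have hτM : τ ∈ {z : ℂ | z.im < -M} := by
      show τ.im < -M
      rw [hM, lt_neg]
      exact max_lt (by linarith) (by linarith)
    have hl : AnalyticOnNhd ℂ (fun s => Idm (s + κ * γ) (s - κ * γ)) {z : ℂ | z.im < -M} := by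
      intro s hs
      obtain ⟨h3, h4⟩ := CoB_Hm hκ (hS1 s hs)
      have h5 := Idm_an (s + κ * γ, s - κ * γ) ⟨h3, h4⟩
      have h6 : AnalyticAt ℂ (fun s : ℂ => (s + (κ:ℂ) * γ, s - (κ:ℂ) * γ)) s :=
        (analyticAt_id.add analyticAt_const).prod (analyticAt_id.sub analyticAt_const)
      exact AnalyticAt.comp (g := fun p : ℂ × ℂ => Idm p.1 p.2)
        (f := fun s : ℂ => (s + (κ:ℂ) * γ, s - (κ:ℂ) * γ)) h5 h6
    have key := LI_unique hB HW x hγ (CoB_open M) (CoB_conn M) (M := M) Subset.rfl hS2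
      (l := fun s => Idm (s + κ * γ) (s - κ * γ)) hl
      (fun s hs => Idm_Hm (CoB_Hm hκ (hS1 s hs)).1 (CoB_Hm hκ (hS1 s hs)).2)
      (fun s hs => by
        obtain ⟨h3, h4⟩ := CoB_Hm hκ (hS1 s hs)
        rw [Idm_bb hκ hγ h3 h4]
        apply bb_congr
        have h5 : Idm (s + κ * γ) (s - κ * γ) ∈ Hm := Idm_Hm h3 h4
        filter_upwards [CoB_HmOpen.mem_nhds h5] with z hz
        exact (hq z hz).symm)
      (Idm_asym (κ * γ)).1 (Idm_asym (κ * γ)).2
    exact (key τ hτM).symm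

private theorem CoB_le (hB : Base Y h R C0 v G L) (HW : Win v U β C1 c V) (x : ℕ → ℝ) {κ : ℝ}
    (hκ : 0 < κ) (hq : ∀ l ∈ Hm, qI Y h U x c V l = -(κ:ℂ) ^ 2 / l ^ 2) (γ : ℂ)
    (hγ : 0 < γ.im) : κ * γ.im ≤ vI v U c V γ := by
  by_contra hcon
  rw [not_le] at hcon
  have habs : |γ.im| = γ.im := abs_of_pos hγ
  have him : (-((κ:ℂ) * γ)).im = -(κ * γ.im) := by rw [neg_im, CoB_im_mul]
  have hmem : (-((κ:ℂ) * γ), γ) ∈ DI v U c V := by
    show (-((κ:ℂ) * γ)).im < -vI v U c V γ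
    rw [him]
    linarith
  have hf : DifferentiableAt ℂ (fun s => LI L h U x c V (s, γ)) (-((κ:ℂ) * γ)) := by
    have h1 := LI_an hB HW x _ hmem
    have h2 : AnalyticAt ℂ (fun s : ℂ => (s, γ)) (-((κ:ℂ) * γ)) :=
      analyticAt_id.prod analyticAt_const
    exact (AnalyticAt.comp (g := LI L h U x c V) (f := fun s : ℂ => (s, γ)) h1 h2).differentiableAt
  refine Idm_sing (a := (κ:ℂ) * γ) (τ₀ := -((κ:ℂ) * γ)) (neg_add_cancel _) ?_ hf ?_
  · show (-((κ:ℂ) * γ) - (κ:ℂ) * γ).im < 0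
    rw [sub_im, him, CoB_im_mul]
    have := mul_pos hκ hγ
    linarith
  · filter_upwards [self_mem_nhdsWithin] with s hs
    have hs' : (0:ℝ) < s := hs
    have him2 : (-((s:ℂ) * I)).im = -s := by simp
    have hm2 : (-((κ:ℂ) * γ) - s * I, γ) ∈ DI v U c V := by
      rw [sub_eq_add_neg]
      exact DI_down hmem (by rw [him2]; linarith)
    refine LI_cone hB HW x hκ hq hm2 ?_
    show (-((κ:ℂ) * γ) - s * I).im < -(κ * |γ.im|)
    rw [sub_eq_add_neg, add_im, him, him2, habs]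
    linarith

/-- If `qI l = - κ² / l²` then the limit domain is contained in the cone `Im τ ≤ - κ |Im γ|`.

Proof. Suppose `vI γ < κ |Im γ|`; then `Im γ ≠ 0`; by evenness (`DI_even`, `vI_even`) let `Im γ > 0`. Put
`τ₀ = - κ γ`: `Im τ₀ = - κ Im γ < - vI γ`, so `(τ₀, γ) ∈ DI`, and `LI (·, γ)` is differentiable at `τ₀`;
`τ₀ + κ γ = 0`, `τ₀ - κ γ = - 2 κ γ ∈ Hm`. By `LI_cone`, `LI (τ₀ - i s, γ)` is the identric mean for
`s > 0`. `Idm_sing`. -/
theorem cone_le (hB : Base Y h R C0 v G L) (HW : Win v U β C1 c V) (x : ℕ → ℝ) {κ : ℝ}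
    (hκ : 0 < κ) (hq : ∀ l ∈ Hm, qI Y h U x c V l = -(κ:ℂ) ^ 2 / l ^ 2) (γ : ℂ) :
    κ * |γ.im| ≤ vI v U c V γ := by
  rcases lt_trichotomy γ.im 0 with h1 | h1 | h1
  · have h2 : 0 < (-γ).im := by rw [neg_im]; linarith
    have h3 := CoB_le hB HW x hκ hq (-γ) h2
    rw [vI_even hB.nv hB.R_pos HW γ, neg_im] at h3
    rwa [abs_of_neg h1]
  · rw [h1, abs_zero, mul_zero]
    exact vI_nonneg hB.nv hB.R_pos HW γ
  · rw [abs_of_pos h1]
    exact CoB_le hB HW x hκ hq γ h1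

/-- the same for a cone with centre `b` (change of place) -/
theorem cone_le' (hB : Base Y h R C0 v G L) (HW : Win v U β C1 c V) (x : ℕ → ℝ) {κ b : ℝ}
    (hκ : 0 < κ) (hq : ∀ l ∈ Hm, qI Y h U x c V l = -(κ:ℂ) ^ 2 / (l - b) ^ 2) (γ : ℂ) :
    κ * |γ.im| ≤ vI v U c V γ := by
  refine cone_le hB HW (fun n => x n + V n * b) hκ ?_ γ
  intro l hl
  rw [qI_shift hB HW x b]
  have hl2 : l + (b:ℂ) ∈ Hm := by
    show (l + (b:ℂ)).im < 0
    have : l.im < 0 := hl
    simpa using this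
  show qI Y h U x c V (l + b) = -(κ:ℂ) ^ 2 / l ^ 2
  rw [hq _ hl2, add_sub_cancel_right]

/-- if the limit potential is zero, the limit label is `τ`.

Proof. `bb 0 = 0`: `LI_unique` with `l τ = τ`, `S = {τ | (τ, γ) ∈ DI}`. -/
theorem LI_zero_pot (hB : Base Y h R C0 v G L) (HW : Win v U β C1 c V) (x : ℕ → ℝ)
    (hq : ∀ l ∈ Hm, qI Y h U x c V l = 0) {p : ℂ × ℂ} (hp : p ∈ DI v U c V) :
    LI L h U x c V p = p.1 := by
  obtain ⟨τ, γ⟩ := p
  have hp' : τ.im < -vI v U c V γ := hp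
  by_cases hγ : γ = 0
  · subst hγ
    exact LI_zero hB HW x (DI_im hB.nv hB.R_pos HW hp)
  · have hSH : ∀ s ∈ {z : ℂ | z.im < -vI v U c V γ}, s ∈ Hm := fun s hs =>
      DI_im hB.nv hB.R_pos HW (show (s, γ) ∈ DI v U c V from hs)
    have key := LI_unique hB HW x hγ (CoB_open (vI v U c V γ)) (CoB_conn (vI v U c V γ))
      (M := vI v U c V γ) Subset.rfl (fun s hs => hs)
      (l := fun s => s) (fun s _ => analyticAt_id) hSH
      (fun s hs => by
        have h1 : bb (qI Y h U x c V) s (γ * deriv (fun s : ℂ => s) s) =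
            bb (fun _ => 0) s (γ * deriv (fun s : ℂ => s) s) := by
          apply bb_congr
          filter_upwards [CoB_HmOpen.mem_nhds (hSH s hs)] with z hz
          exact hq z hz
        rw [h1]
        have h2 : deriv (fun s : ℂ => s) = fun _ => 1 := by
          funext z
          exact deriv_id z
        rw [h2]
        unfold bb
        simp)
      (by
        have : (fun y : ℝ => -((y:ℂ) * I) + y * I) = fun _ => 0 := by
          funext y
          ring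
        show Tendsto (fun y : ℝ => -((y:ℂ) * I) + y * I) atTop (𝓝 0)
        rw [this]
        exact tendsto_const_nhds)
      (by
        have : (fun y : ℝ => deriv (fun s : ℂ => s) (-((y:ℂ) * I))) = fun _ => 1 := by
          funext y
          exact deriv_id _
        rw [this]
        exact tendsto_const_nhds)
    exact (key τ hp').symm

end Pool.Agent.MP_ae5b4e_an_M
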