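import Pool.Agent.Lib.MP_ae5b4e_an_M.FnB

/-! # Section M: the identric mean (exact cone) -/

noncomputable section

namespace Pool.Agent.MP_ae5b4e_an_M

open Complex Set Filter Topology Metric
open PorTR (Hm)

/-- the identric mean of two points of the lower half plane:
`exp` of the mean of `log` over the segment -/
def Idm (u w : ℂ) : ℂ := cexp (∫ s in (0:ℝ)..1, Complex.log (w + s * (u - w)))

private theorem CoA_open : IsOpen Hm := isOpen_lt Complex.continuous_im continuous_const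

private theorem CoA_slit {z : ℂ} (hz : z ∈ Hm) : z ∈ slitPlane :=
  Or.inr (ne_of_lt hz)

private theorem CoA_ne {z : ℂ} (hz : z ∈ Hm) : z ≠ 0 := by
  rintro rfl
  exact lt_irrefl _ (show (0:ℂ).im < 0 from hz)

private theorem CoA_seg {u w : ℂ} (hu : u ∈ Hm) (hw : w ∈ Hm) {s : ℝ} (hs : s ∈ Icc (0:ℝ) 1) :
    w + s * (u - w) ∈ Hm := by
  have h1 : u.im < 0 := hu
  have h2 : w.im < 0 := hw
  change (w + s * (u - w)).im < 0
  have h3 : (w + s * (u - w)).im = (1 - s) * w.im + s * u.im := by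
    simp; ring
  rw [h3]
  rcases hs.1.eq_or_lt with h | h
  · rw [← h]; simpa using h2
  · have := mul_neg_of_pos_of_neg h h1
    have := mul_nonpos_of_nonneg_of_nonpos (sub_nonneg.2 hs.2) h2.le
    linarith

private theorem CoA_deriv_seg (u w : ℂ) (s : ℝ) :
    HasDerivAt (fun s : ℝ => w + s * (u - w)) (u - w) s := by
  have h1 : HasDerivAt (fun s : ℝ => (s : ℂ)) 1 s := Complex.ofRealCLM.hasDerivAt
  have := (h1.mul_const (u - w)).const_add w
  simpa using this

private theorem CoA_cont {u w : ℂ} (hu : u ∈ Hm) (hw : w ∈ Hm) :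
    ContinuousOn (fun s : ℝ => Complex.log (w + s * (u - w))) (uIcc 0 1) := by
  intro s hs
  rw [uIcc_of_le zero_le_one] at hs
  exact (((CoA_deriv_seg u w s).continuousAt).clog (CoA_slit (CoA_seg hu hw hs))).continuousWithinAt

/-- Proof. `z ↦ z log z - z` is a primitive of `log` on `Hm` (a convex set on which the principal
logarithm is holomorphic). -/
theorem Idm_eq {u w : ℂ} (hu : u ∈ Hm) (hw : w ∈ Hm) (hne : u ≠ w) :
    Idm u w = cexp ((u * Complex.log u - w * Complex.log w) / (u - w) - 1) := by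
  have h0 : u - w ≠ 0 := sub_ne_zero.2 hne
  have h1 : ∀ s ∈ uIcc (0:ℝ) 1, HasDerivAt
      (fun s : ℝ => ((w + s * (u - w)) * Complex.log (w + s * (u - w)) - (w + s * (u - w))) /
        (u - w)) (Complex.log (w + s * (u - w))) s := by
    intro s hs
    rw [uIcc_of_le zero_le_one] at hs
    have hm := CoA_seg hu hw hs
    have hn := CoA_ne hm
    have d1 := CoA_deriv_seg u w s
    have d2 := d1.clog_real (CoA_slit hm)
    have d3 := ((d1.mul d2).sub d1).div_const (u - w)
    refine d3.congr_deriv ?_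
    rw [mul_div_cancel₀ _ hn, add_sub_cancel_right, mul_div_cancel_left₀ _ h0]
  have h2 := intervalIntegral.integral_eq_sub_of_hasDerivAt h1 (CoA_cont hu hw).intervalIntegrable
  unfold Idm
  rw [h2]
  congr 1
  simp only [ofReal_one, ofReal_zero, one_mul, zero_mul, add_zero]
  have h3 : w + (u - w) = u := by ring
  rw [h3]
  field_simp
  ring

theorem Idm_self {u : ℂ} (hu : u ∈ Hm) : Idm u u = u := by
  unfold Idm
  simp only [sub_self, mul_zero, add_zero, intervalIntegral.integral_const, sub_zero, one_smul]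
  exact Complex.exp_log (CoA_ne hu)

/-- values in the lower half plane: the mean of `arg` over the segment is in `(-π, 0)` -/
theorem Idm_Hm {u w : ℂ} (hu : u ∈ Hm) (hw : w ∈ Hm) : Idm u w ∈ Hm := by
  have hc := CoA_cont hu hw
  have hi := hc.intervalIntegrable (μ := MeasureTheory.volume)
  have h1 : (∫ s in (0:ℝ)..1, Complex.log (w + s * (u - w))).im =
      ∫ s in (0:ℝ)..1, (Complex.log (w + s * (u - w))).im := by
    have := Complex.imCLM.intervalIntegral_comp_comm hi
    simpa using this.symm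
  have hc2 : ContinuousOn (fun s : ℝ => (Complex.log (w + s * (u - w))).im) (Icc 0 1) := by
    rw [uIcc_of_le zero_le_one] at hc
    exact Complex.continuous_im.comp_continuousOn hc
  obtain ⟨s1, hs1, hm1⟩ := isCompact_Icc.exists_isMinOn (nonempty_Icc.2 (zero_le_one (α := ℝ))) hc2
  obtain ⟨s2, hs2, hm2⟩ := isCompact_Icc.exists_isMaxOn (nonempty_Icc.2 (zero_le_one (α := ℝ))) hc2
  have hi2 : IntervalIntegrable (fun s : ℝ => (Complex.log (w + s * (u - w))).im)
      MeasureTheory.volume 0 1 := by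
    apply ContinuousOn.intervalIntegrable
    rwa [uIcc_of_le zero_le_one]
  have k1 : (Complex.log (w + s1 * (u - w))).im ≤
      ∫ s in (0:ℝ)..1, (Complex.log (w + s * (u - w))).im := by
    have := intervalIntegral.integral_mono_on (zero_le_one (α := ℝ))
      (intervalIntegrable_const (c := (Complex.log (w + s1 * (u - w))).im)) hi2
      (fun s hs => hm1 hs)
    simpa using this
  have k2 : ∫ s in (0:ℝ)..1, (Complex.log (w + s * (u - w))).im ≤
      (Complex.log (w + s2 * (u - w))).im := by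
    have := intervalIntegral.integral_mono_on (zero_le_one (α := ℝ)) hi2
      (intervalIntegrable_const (c := (Complex.log (w + s2 * (u - w))).im))
      (fun s hs => hm2 hs)
    simpa using this
  have k3 : -Real.pi < (Complex.log (w + s1 * (u - w))).im := by
    rw [Complex.log_im]; exact Complex.neg_pi_lt_arg _
  have k4 : (Complex.log (w + s2 * (u - w))).im < 0 := by
    rw [Complex.log_im]; exact Complex.arg_neg_iff.2 (CoA_seg hu hw hs2)
  change (cexp _).im < 0
  rw [Complex.exp_im, h1]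
  exact mul_neg_of_pos_of_neg (Real.exp_pos _)
    (Real.sin_neg_of_neg_of_neg_pi_lt (lt_of_le_of_lt k2 k4) (lt_of_lt_of_le k3 k1))

private theorem CoA_logdiv {u w : ℂ} (hu : u ∈ Hm) (hw : w ∈ Hm) :
    Complex.log u = Complex.log (u / w) + Complex.log w ∧ u / w ∈ slitPlane := by
  have hu0 := CoA_ne hu
  have hw0 := CoA_ne hw
  have a1 := Complex.neg_pi_lt_arg u
  have a2 := Complex.neg_pi_lt_arg w
  have a3 : arg u < 0 := Complex.arg_neg_iff.2 hu
  have a4 : arg w < 0 := Complex.arg_neg_iff.2 hw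
  have h0 : u / w ≠ 0 := div_ne_zero hu0 hw0
  have h1 : cexp (Complex.log u - Complex.log w) = u / w := by
    rw [Complex.exp_sub, Complex.exp_log hu0, Complex.exp_log hw0]
  have h2 : Complex.log (u / w) = Complex.log u - Complex.log w := by
    rw [← h1, Complex.log_exp]
    · rw [Complex.sub_im, Complex.log_im, Complex.log_im]; linarith
    · rw [Complex.sub_im, Complex.log_im, Complex.log_im]; linarith
  refine ⟨by rw [h2]; ring, ?_⟩
  rw [Complex.mem_slitPlane_iff_arg]
  refine ⟨?_, h0⟩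
  rw [← Complex.log_im, h2, Complex.sub_im, Complex.log_im, Complex.log_im]
  linarith

/-- `x log x / (x - 1) - 1` -/
private def CoA_ph (x : ℂ) : ℂ := dslope (fun x : ℂ => x * Complex.log x) 1 x - 1

private theorem CoA_ph_diff : DifferentiableOn ℂ CoA_ph slitPlane := by
  have h1 : slitPlane ∈ 𝓝 (1:ℂ) := isOpen_slitPlane.mem_nhds (by simp)
  have h2 : DifferentiableOn ℂ (fun x : ℂ => x * Complex.log x) slitPlane := by
    intro x hx
    exact (differentiableAt_id.mul (Complex.differentiableAt_log hx)).differentiableWithinAt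
  exact ((Complex.differentiableOn_dslope h1).2 h2).sub_const 1

private theorem CoA_ph_an {x : ℂ} (hx : x ∈ slitPlane) : AnalyticAt ℂ CoA_ph x :=
  CoA_ph_diff.analyticAt (isOpen_slitPlane.mem_nhds hx)

private theorem CoA_ph_of_ne {x : ℂ} (hx : x ≠ 1) :
    CoA_ph x = x * Complex.log x / (x - 1) - 1 := by
  unfold CoA_ph
  rw [dslope_of_ne _ hx, slope_def_field]
  simp

private theorem CoA_ph_one : CoA_ph 1 = 0 := by
  unfold CoA_ph
  rw [dslope_same]
  have h1 : HasDerivAt (fun x : ℂ => x * Complex.log x) (1 * Complex.log 1 + 1 * (1:ℂ)⁻¹) 1 :=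
    (hasDerivAt_id (1:ℂ)).mul (Complex.hasDerivAt_log (by simp))
  rw [h1.deriv]
  simp

private theorem CoA_Idm_ph {u w : ℂ} (hu : u ∈ Hm) (hw : w ∈ Hm) :
    Idm u w = w * cexp (CoA_ph (u / w)) := by
  have hw0 := CoA_ne hw
  by_cases hne : u = w
  · subst hne
    rw [Idm_self hu, div_self hw0, CoA_ph_one]
    simp
  · have h0 : u - w ≠ 0 := sub_ne_zero.2 hne
    have hx : u / w ≠ 1 := fun h => hne ((div_eq_one_iff_eq hw0).1 h)
    rw [Idm_eq hu hw hne, CoA_ph_of_ne hx, (CoA_logdiv hu hw).1]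
    have h1 : (u * (Complex.log (u / w) + Complex.log w) - w * Complex.log w) / (u - w) - 1 =
        Complex.log w + (u / w * Complex.log (u / w) / (u / w - 1) - 1) := by
      have h2 : u / w - 1 = (u - w) / w := by field_simp
      rw [h2]
      field_simp
      ring
    rw [h1, Complex.exp_add, Complex.exp_log hw0]


/-- For fixed `a` the function `l τ = Idm (τ + a) (τ - a)` is holomorphic where both arguments are in
`Hm`, and `l' = l Λ / (2 a)`, `Λ = log (τ + a) - log (τ - a)` (for `a ≠ 0`).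

Proof. By `Idm_eq`, `log l = (u log u - w log w) / (2 a) - 1` with `u = τ + a`, `w = τ - a`. -/
theorem Idm_deriv {a τ : ℂ} (ha : a ≠ 0) (hu : τ + a ∈ Hm) (hw : τ - a ∈ Hm) :
    HasDerivAt (fun τ => Idm (τ + a) (τ - a))
      (Idm (τ + a) (τ - a) * (Complex.log (τ + a) - Complex.log (τ - a)) / (2 * a)) τ := by
  have hu0 := CoA_ne hu
  have hw0 := CoA_ne hw
  have d1 : HasDerivAt (fun τ : ℂ => τ + a) 1 τ := (hasDerivAt_id τ).add_const a
  have d2 : HasDerivAt (fun τ : ℂ => τ - a) 1 τ := (hasDerivAt_id τ).sub_const a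
  have d3 := d1.mul (d1.clog (CoA_slit hu))
  have d4 := d2.mul (d2.clog (CoA_slit hw))
  have d5 := (((d3.sub d4).div_const (2 * a)).sub_const 1).cexp
  have ev : (fun τ => Idm (τ + a) (τ - a)) =ᶠ[𝓝 τ] fun τ : ℂ =>
      cexp (((τ + a) * Complex.log (τ + a) - (τ - a) * Complex.log (τ - a)) / (2 * a) - 1) := by
    have e1 : ∀ᶠ σ in 𝓝 τ, σ + a ∈ Hm :=
      (continuous_id.add continuous_const).continuousAt.eventually (CoA_open.mem_nhds hu)
    have e2 : ∀ᶠ σ in 𝓝 τ, σ - a ∈ Hm :=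
      (continuous_id.sub continuous_const).continuousAt.eventually (CoA_open.mem_nhds hw)
    filter_upwards [e1, e2] with σ s1 s2
    have hne : σ + a ≠ σ - a := by
      intro h
      apply ha
      linear_combination h / 2
    rw [Idm_eq s1 s2 hne]
    congr 3
    ring
  have d6 : HasDerivAt (fun τ => Idm (τ + a) (τ - a)) _ τ := d5.congr_of_eventuallyEq ev
  refine d6.congr_deriv ?_
  have ev0 := ev.self_of_nhds
  have ev1 : cexp (((τ + a) * Complex.log (τ + a) - (τ - a) * Complex.log (τ - a)) / (2 * a) - 1) =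
    Idm (τ + a) (τ - a) := ev0.symm
  simp only [Pi.sub_apply, Pi.mul_apply]
  rw [ev1]
  rw [mul_one_div_cancel hu0, mul_one_div_cancel hw0]
  ring

/-- the right side `bb` depends only on the germ of `q` -/
theorem bb_congr {q q' : ℂ → ℂ} {l α : ℂ} (h : q =ᶠ[𝓝 l] q') : bb q l α = bb q' l α := by
  unfold bb
  rw [h.deriv_eq, h.self_of_nhds]

/-- THE EXACT CONE solves the limit equation with `q l = - κ² / l²`.

Proof. `a = κ γ`, `Λ = log u - log w`. `α = γ l' = l Λ / (2 κ)`, `q α² = - Λ² / 4`. With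
`w₀ = i κ / l` (`w₀² = q l`), `w₀ α = i Λ / 2`, `bb_eq`: `bb = - (q' / (2 q)) (α² - sin² (w₀ α) / w₀²) =
(1 / l) (l² / κ²) (Λ² / 4 - sinh² (Λ / 2)) = (l / κ²) (Λ² / 4 - sinh² (Λ / 2))`
(`sin (i z) = i sinh z`). `sinh² (Λ / 2) = (exp Λ + exp (-Λ) - 2) / 4 = (u / w + w / u - 2) / 4 =
(u - w)² / (4 u w) = a² / (u w)`. On the other side `l'' = l Λ² / (4 a²) + l (1 / u - 1 / w) / (2 a) =
l Λ² / (4 a²) - l / (u w)`, so `γ² l'' = l Λ² / (4 κ²) - l γ² / (u w) = bb`. -/
theorem Idm_bb {κ : ℝ} (hκ : 0 < κ) {γ τ : ℂ} (hγ : γ ≠ 0) (hu : τ + κ * γ ∈ Hm)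
    (hw : τ - κ * γ ∈ Hm) :
    γ ^ 2 * deriv (deriv fun τ => Idm (τ + κ * γ) (τ - κ * γ)) τ =
      bb (fun l => -(κ:ℂ) ^ 2 / l ^ 2) (Idm (τ + κ * γ) (τ - κ * γ))
        (γ * deriv (fun τ => Idm (τ + κ * γ) (τ - κ * γ)) τ) := by
  have hκ0 : (κ:ℂ) ≠ 0 := by exact_mod_cast hκ.ne'
  obtain ⟨a, ha⟩ : ∃ a : ℂ, a = κ * γ := ⟨_, rfl⟩
  have ha0 : a ≠ 0 := by rw [ha]; exact mul_ne_zero hκ0 hγ
  rw [← ha] at hu hw ⊢
  have hu0 := CoA_ne hu
  have hw0 := CoA_ne hw
  obtain ⟨l, hl⟩ : ∃ l : ℂ, l = Idm (τ + a) (τ - a) := ⟨_, rfl⟩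
  have hl0 : l ≠ 0 := by rw [hl]; exact CoA_ne (Idm_Hm hu hw)
  obtain ⟨Λ, hΛ⟩ : ∃ Λ : ℂ, Λ = Complex.log (τ + a) - Complex.log (τ - a) := ⟨_, rfl⟩
  have e1 : ∀ᶠ σ in 𝓝 τ, σ + a ∈ Hm :=
    (continuous_id.add continuous_const).continuousAt.eventually (CoA_open.mem_nhds hu)
  have e2 : ∀ᶠ σ in 𝓝 τ, σ - a ∈ Hm :=
    (continuous_id.sub continuous_const).continuousAt.eventually (CoA_open.mem_nhds hw)
  have d0 := Idm_deriv ha0 hu hw
  have ev : deriv (fun τ => Idm (τ + a) (τ - a)) =ᶠ[𝓝 τ] fun τ : ℂ =>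
      Idm (τ + a) (τ - a) * (Complex.log (τ + a) - Complex.log (τ - a)) / (2 * a) := by
    filter_upwards [e1, e2] with σ s1 s2
    exact (Idm_deriv ha0 s1 s2).deriv
  have d1 : HasDerivAt (fun τ : ℂ => τ + a) 1 τ := (hasDerivAt_id τ).add_const a
  have d2 : HasDerivAt (fun τ : ℂ => τ - a) 1 τ := (hasDerivAt_id τ).sub_const a
  have d3 := (d1.clog (CoA_slit hu)).sub (d2.clog (CoA_slit hw))
  have d4 := (d0.mul d3).div_const (2 * a)
  have d5 : HasDerivAt (deriv (fun τ => Idm (τ + a) (τ - a))) _ τ := d4.congr_of_eventuallyEq ev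
  rw [d5.deriv, d0.deriv]
  simp only [Pi.sub_apply]
  rw [← hl, ← hΛ]
  -- the potential
  have q1 : HasDerivAt (fun l : ℂ => -(κ:ℂ) ^ 2 / l ^ 2) (2 * (κ:ℂ) ^ 2 / l ^ 3) l := by
    have h1 := (hasDerivAt_pow 2 l).inv (pow_ne_zero 2 hl0)
    have h2 := h1.const_mul (-(κ:ℂ) ^ 2)
    have h3 : HasDerivAt (fun l : ℂ => -(κ:ℂ) ^ 2 / l ^ 2) _ l := h2
    refine h3.congr_deriv ?_
    field_simp
    simp
    ring
  have h0 : I * κ / l ≠ 0 := div_ne_zero (mul_ne_zero I_ne_zero hκ0) hl0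
  have hsq : (I * κ / l) ^ 2 = (fun l : ℂ => -(κ:ℂ) ^ 2 / l ^ 2) l := by
    simp only [div_pow, mul_pow, I_sq]
    ring
  rw [bb_eq (q := fun l : ℂ => -(κ:ℂ) ^ 2 / l ^ 2) hsq h0, q1.deriv]
  have hs : sin (I * κ / l * (γ * (l * Λ / (2 * a)))) ^ 2 = -(a ^ 2 / ((τ + a) * (τ - a))) := by
    have h1 : I * κ / l * (γ * (l * Λ / (2 * a))) = (Λ / 2) * I := by
      rw [ha]; field_simp
    rw [h1, Complex.sin_mul_I, mul_pow, I_sq]
    have h2 : sinh (Λ / 2) ^ 2 = (cexp Λ + cexp (-Λ) - 2) / 4 := by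
      have h3 : Complex.cosh (2 * (Λ / 2)) = Complex.cosh (Λ / 2) ^ 2 + Complex.sinh (Λ / 2) ^ 2 :=
        Complex.cosh_two_mul _
      have h4 := Complex.cosh_sq (Λ / 2)
      have h5 : 2 * (Λ / 2) = Λ := by ring
      rw [h5, h4, Complex.cosh] at h3
      linear_combination (-1/2 : ℂ) * h3
    have h6 : cexp Λ = (τ + a) / (τ - a) := by
      rw [hΛ, Complex.exp_sub, Complex.exp_log hu0, Complex.exp_log hw0]
    rw [h2, Complex.exp_neg, h6]
    field_simp
    ring
  rw [hs]
  have hγ2 : γ = a / κ := by rw [ha]; field_simp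
  rw [hγ2]
  have hI4 : I ^ 4 = 1 := by
    rw [show I ^ 4 = (I ^ 2) ^ 2 by ring, I_sq]
    norm_num
  field_simp
  linear_combination (Λ ^ 2 * τ ^ 2 - Λ ^ 2 * a ^ 2 - a ^ 2 * 4) * hI4 +
    (Λ ^ 2 * τ ^ 2 - Λ ^ 2 * a ^ 2) * I_sq


/-- `(cexp (ph x) - 1) / (x - 1) → 1 / 2` as `x → 1` -/
private theorem CoA_ph_lim :
    Tendsto (fun x : ℂ => (cexp (CoA_ph x) - 1) / (x - 1)) (𝓝[≠] 1) (𝓝 (1 / 2)) := by
  have h1 : (1:ℂ) ∈ slitPlane := by simp
  have ha : AnalyticAt ℂ CoA_ph 1 := CoA_ph_an h1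
  have hd : HasDerivAt CoA_ph (deriv CoA_ph 1) 1 := ha.differentiableAt.hasDerivAt
  -- `(x - 1) (ph x + 1) = x log x`
  have e0 : ∀ x : ℂ, (x - 1) * (CoA_ph x + 1) = x * Complex.log x := by
    intro x
    by_cases hx : x = 1
    · subst hx; simp
    · rw [CoA_ph_of_ne hx]
      have : x - 1 ≠ 0 := sub_ne_zero.2 hx
      field_simp
      ring
  have e1 : ∀ᶠ x in 𝓝 (1:ℂ), (CoA_ph x + 1) + (x - 1) * deriv CoA_ph x = Complex.log x + 1 := by
    filter_upwards [isOpen_slitPlane.mem_nhds h1] with x hx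
    have d1 := ((hasDerivAt_id x).sub_const 1).mul
      ((CoA_ph_an hx).differentiableAt.hasDerivAt.add_const 1)
    have d2 := (hasDerivAt_id x).mul (Complex.hasDerivAt_log hx)
    have e2 : ((fun x : ℂ => x - 1) * fun x => CoA_ph x + 1) = (id * Complex.log) := by
      funext y
      exact e0 y
    have d3 : HasDerivAt (id * Complex.log) _ x := e2 ▸ d1
    have := d3.unique d2
    have hx0 : x ≠ 0 := slitPlane_ne_zero hx
    simp only [id] at this
    rw [mul_inv_cancel₀ hx0] at this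
    linear_combination this
  have d1 := (hd.add_const 1).add
    (((hasDerivAt_id (1:ℂ)).sub_const 1).mul ha.deriv.differentiableAt.hasDerivAt)
  have d2 := (Complex.hasDerivAt_log h1).add_const 1
  have d3 : HasDerivAt (fun x : ℂ => Complex.log x + 1) _ 1 :=
    d1.congr_of_eventuallyEq (by
      filter_upwards [e1] with x hx
      exact hx.symm)
  have h2 := d3.unique d2
  have h3 : deriv CoA_ph 1 = 1 / 2 := by
    simp only [id, sub_self, zero_mul, add_zero, inv_one] at h2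
    linear_combination h2 / 2
  have h4 : HasDerivAt (fun x => cexp (CoA_ph x)) (1 / 2) 1 := by
    have := hd.cexp
    rw [CoA_ph_one, h3, Complex.exp_zero, one_mul] at this
    exact this
  have h5 := h4.tendsto_slope
  refine h5.congr' ?_
  filter_upwards with x
  rw [slope_def_field, CoA_ph_one, Complex.exp_zero]

private theorem CoA_path (a : ℂ) (ha : a ≠ 0) :
    (∀ᶠ y : ℝ in atTop, (-(y * I) + a) ∈ Hm ∧ (-(y * I) - a) ∈ Hm) ∧
    Tendsto (fun y : ℝ => (-(y * I) + a) / (-(y * I) - a)) atTop (𝓝[≠] 1) := by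
  have hev : ∀ᶠ y : ℝ in atTop, (-(y * I) + a) ∈ Hm ∧ (-(y * I) - a) ∈ Hm := by
    filter_upwards [eventually_gt_atTop |a.im|] with y hy
    have h1 := abs_lt.1 hy
    constructor
    · change (-((y:ℂ) * I) + a).im < 0
      simp; linarith
    · change (-((y:ℂ) * I) - a).im < 0
      simp; linarith
  refine ⟨hev, ?_⟩
  refine tendsto_nhdsWithin_of_tendsto_nhds_of_eventually_within _ ?_ ?_
  · have h1 : Tendsto (fun y : ℝ => -((y:ℂ) * I) - a) atTop (Bornology.cobounded ℂ) := by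
      rw [← tendsto_norm_atTop_iff_cobounded]
      refine tendsto_atTop_mono' _ ?_ (tendsto_atTop_add_const_right atTop (-‖a‖) tendsto_id)
      filter_upwards [eventually_ge_atTop 0] with y hy
      have h2 : ‖-((y:ℂ) * I)‖ = y := by
        rw [norm_neg, norm_mul, Complex.norm_I, mul_one, Complex.norm_real, Real.norm_eq_abs,
          abs_of_nonneg hy]
      have h3 := norm_sub_norm_le (-((y:ℂ) * I)) a
      rw [h2] at h3
      simpa [sub_eq_add_neg] using h3
    have h2 : Tendsto (fun y : ℝ => 1 + 2 * a * (-((y:ℂ) * I) - a)⁻¹) atTop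
        (𝓝 (1 + 2 * a * 0)) :=
      ((Filter.tendsto_inv₀_cobounded.comp h1).const_mul (2 * a)).const_add 1
    rw [mul_zero, add_zero] at h2
    refine h2.congr' ?_
    filter_upwards [hev] with y hy
    have h0 := CoA_ne hy.2
    field_simp
    ring
  · filter_upwards [hev] with y hy
    have h0 := CoA_ne hy.2
    intro h
    rw [mem_singleton_iff, div_eq_one_iff_eq h0] at h
    apply ha
    linear_combination h / 2


/-- asymptotics of the exact cone.

Proof. For `τ = - i y`, `y → ∞`: `log (τ + s a) - log τ = s a / τ + O (y ^ (-2))`, so the mean over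
`s ∈ [-1, 1]` of `log (τ + s a)` is `log τ + O (y ^ (-2))` and `Idm = τ (1 + O (y ^ (-2)))`;
`Λ / (2 a) = 1 / τ + O (y ^ (-3))`, so `l' → 1`. -/
theorem Idm_asym (a : ℂ) :
    Tendsto (fun y : ℝ => Idm (-(y * I) + a) (-(y * I) - a) + y * I) atTop (𝓝 0) ∧
    Tendsto (fun y : ℝ => deriv (fun τ => Idm (τ + a) (τ - a)) (-(y * I))) atTop (𝓝 1) := by
  by_cases ha : a = 0
  · subst ha
    have h1 : ∀ y : ℝ, 0 < y → (-((y:ℂ) * I)) ∈ Hm := by
      intro y hy
      change (-((y:ℂ) * I)).im < 0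
      simpa using hy
    constructor
    · refine tendsto_const_nhds.congr' ?_
      filter_upwards [eventually_gt_atTop 0] with y hy
      rw [add_zero, sub_zero, Idm_self (h1 y hy)]
      ring
    · refine tendsto_const_nhds.congr' ?_
      filter_upwards [eventually_gt_atTop 0] with y hy
      have h2 : (fun τ => Idm (τ + 0) (τ - 0)) =ᶠ[𝓝 (-((y:ℂ) * I))] id := by
        filter_upwards [CoA_open.mem_nhds (h1 y hy)] with τ hτ
        rw [add_zero, sub_zero, Idm_self hτ]
        rfl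
      rw [h2.deriv_eq]
      simp
  · obtain ⟨hev, hlim⟩ := CoA_path a ha
    have hl1 := CoA_ph_lim.comp hlim
    have hslit : (1:ℂ) ∈ slitPlane := by simp
    have hc : Tendsto (fun y : ℝ => (-((y:ℂ) * I) + a) / (-(y * I) - a)) atTop (𝓝 1) :=
      hlim.mono_right nhdsWithin_le_nhds
    have hx1 : ∀ y : ℝ, (-((y:ℂ) * I) - a) ≠ 0 →
        (-((y:ℂ) * I) + a) / (-(y * I) - a) - 1 = 2 * a / (-(y * I) - a) := by
      intro y hy
      field_simp
      ring
    constructor
    · have h1 : Tendsto (fun y : ℝ => 2 * a * ((fun x : ℂ => (cexp (CoA_ph x) - 1) / (x - 1)) ∘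
          (fun y : ℝ => (-((y:ℂ) * I) + a) / (-(y * I) - a))) y - a) atTop
          (𝓝 (2 * a * (1 / 2) - a)) := (hl1.const_mul (2 * a)).sub_const a
      have h2 : 2 * a * (1 / 2) - a = 0 := by ring
      rw [h2] at h1
      refine h1.congr' ?_
      filter_upwards [hev] with y hy
      have h0 := CoA_ne hy.2
      simp only [Function.comp]
      rw [hx1 y h0, CoA_Idm_ph hy.1 hy.2]
      field_simp
      ring
    · have h3 : Tendsto (fun x : ℂ => cexp (CoA_ph x) * (Complex.log x / (x - 1))) (𝓝[≠] 1)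
          (𝓝 (1 * 1)) := by
        refine Tendsto.mul ?_ ?_
        · have h4 : ContinuousAt (fun x => cexp (CoA_ph x)) 1 :=
            (CoA_ph_an hslit).continuousAt.cexp
          have h5 := h4.tendsto
          rw [CoA_ph_one, Complex.exp_zero] at h5
          exact h5.mono_left nhdsWithin_le_nhds
        · have h4 := (Complex.hasDerivAt_log hslit).tendsto_slope
          rw [inv_one] at h4
          refine h4.congr' ?_
          filter_upwards with x
          rw [slope_def_field, Complex.log_one, sub_zero]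
      rw [one_mul] at h3
      refine (h3.comp hlim).congr' ?_
      filter_upwards [hev] with y hy
      have h0 := CoA_ne hy.2
      simp only [Function.comp]
      rw [(Idm_deriv ha hy.1 hy.2).deriv, hx1 y h0, CoA_Idm_ph hy.1 hy.2, (CoA_logdiv hy.1 hy.2).1]
      field_simp
      ring

/-- THE EXACT CONE IS SINGULAR where one argument is zero: for `w ∈ Hm` there is no function which
is differentiable at `τ₀`, where `τ₀ + a = 0` and `τ₀ - a ∈ Hm`, and agrees with
`Idm (τ + a) (τ - a)` for the `τ` near `τ₀` with `Im τ < Im τ₀`.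

Proof. Let `f` be such a function, `l τ = Idm (τ + a) (τ - a)`, `τ = τ₀ - i s`, `s → 0+`. As `u = τ + a =
- i s → 0`: `l τ → exp (- w log w / (- w) - 1) = w₀ / e ≠ 0` where `w₀ = τ₀ - a = 2 τ₀`
(`u log u → 0`). The derivative `l' = l Λ / (2 a)` has `‖Λ‖ ≥ |log s| - C → ∞`; by the mean value theorem /
integration `‖l (τ₀ - i s) - l (τ₀ - 2 i s)‖ / s → ∞`, since `l' ≈ (w₀ / e) log s / (2 a)` has almost
constant argument. This contradicts the differentiability of `f` at `τ₀`: the difference quotients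
`(f (τ₀ - i s) - f (τ₀ - 2 i s)) / s` are bounded. -/
theorem Idm_sing {a τ₀ : ℂ} (ha : τ₀ + a = 0) (hw : τ₀ - a ∈ Hm) {f : ℂ → ℂ}
    (hf : DifferentiableAt ℂ f τ₀)
    (he : ∀ᶠ s : ℝ in 𝓝[>] 0, f (τ₀ - s * I) = Idm (τ₀ - s * I + a) (τ₀ - s * I - a)) : False := by
  obtain ⟨w, hw'⟩ : ∃ w : ℂ, w = τ₀ - a := ⟨_, rfl⟩
  rw [← hw'] at hw
  have hw0 : w ≠ 0 := CoA_ne hw
  -- the three small functions
  have hs : ∀ᶠ s : ℝ in 𝓝[>] 0, 0 < s := self_mem_nhdsWithin
  have c1 : Tendsto (fun s : ℝ => (s:ℂ)) (𝓝[>] 0) (𝓝 0) := by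
    have := Complex.continuous_ofReal.tendsto 0
    simp only [ofReal_zero] at this
    exact this.mono_left nhdsWithin_le_nhds
  have cτ : Tendsto (fun s : ℝ => τ₀ - s * I) (𝓝[>] 0) (𝓝 τ₀) := by
    have := (c1.mul_const I).const_sub τ₀
    simpa using this
  have cw : Tendsto (fun s : ℝ => w - s * I) (𝓝[>] 0) (𝓝 w) := by
    have := (c1.mul_const I).const_sub w
    simpa using this
  have hlog : ∀ s : ℝ, 0 < s → Complex.log (-(s * I)) = Real.log s - Real.pi / 2 * I := by
    intro s hs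
    have h1 : -((s:ℂ) * I) = (s:ℂ) * (-I) := by ring
    rw [h1, Complex.log_ofReal_mul hs (by simp), Complex.log_neg_I]
    ring
  -- `u log u → 0`
  have cu : Tendsto (fun s : ℝ => -(s * I) * Complex.log (-(s * I))) (𝓝[>] 0) (𝓝 0) := by
    have h1 : Tendsto (fun s : ℝ => ((s * Real.log s : ℝ) : ℂ)) (𝓝[>] 0) (𝓝 0) := by
      have h2 := (Complex.continuous_ofReal.comp Real.continuous_mul_log).tendsto 0
      simp only [Function.comp, zero_mul, ofReal_zero] at h2
      exact h2.mono_left nhdsWithin_le_nhds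
    have h3 := (h1.const_mul (-I)).sub (c1.mul_const (Real.pi / 2 : ℂ))
    simp only [mul_zero, zero_mul, sub_zero] at h3
    refine h3.congr' ?_
    filter_upwards [hs] with s hs
    rw [hlog s hs]
    push_cast
    linear_combination (-(s:ℂ) * (Real.pi / 2)) * I_sq
  obtain ⟨g, hg⟩ : ∃ g : ℂ → ℂ, g = fun z => z * Complex.log z := ⟨_, rfl⟩
  have dg : HasDerivAt g (1 * Complex.log w + w * w⁻¹) w := by
    rw [hg]
    exact (hasDerivAt_id w).mul (Complex.hasDerivAt_log (CoA_slit hw))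
  obtain ⟨e, hedef⟩ : ∃ e : ℝ → ℂ, e = fun s : ℝ =>
    (g (w - s * I) - g w) / w - (-(s * I) * Complex.log (-(s * I))) / w := ⟨_, rfl⟩
  have ce : Tendsto e (𝓝[>] 0) (𝓝 0) := by
    have h1 := ((dg.continuousAt.tendsto.comp cw).sub_const (g w)).div_const w
    have h2 := h1.sub (cu.div_const w)
    simp only [sub_self, zero_div] at h2
    rw [hedef]
    exact h2
  have hwm : ∀ᶠ s : ℝ in 𝓝[>] 0, w - s * I ∈ Hm := cw.eventually (CoA_open.mem_nhds hw)
  have hE : ∀ᶠ s : ℝ in 𝓝[>] 0, f (τ₀ - s * I) = cexp (Complex.log w - 1) * cexp (e s) := by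
    filter_upwards [he, hs, hwm] with s h1 h2 h3
    have h4 : τ₀ - s * I + a = -(s * I) := by linear_combination ha
    have h5 : τ₀ - s * I - a = w - s * I := by rw [hw']; ring
    have h6 : (-((s:ℂ) * I)) ∈ Hm := by
      change (-((s:ℂ) * I)).im < 0
      simpa using h2
    rw [h1, h4, h5, Idm_eq h6 h3, ← Complex.exp_add]
    · congr 1
      rw [hedef, hg]
      have h7 : -((s:ℂ) * I) - (w - s * I) = -w := by ring
      simp only
      rw [h7]
      field_simp
      ring
    · intro h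
      apply hw0
      linear_combination -h
  have hf0 : f τ₀ = cexp (Complex.log w - 1) := by
    have h1 := hf.continuousAt.tendsto.comp cτ
    have h2 : Tendsto (fun s : ℝ => cexp (Complex.log w - 1) * cexp (e s)) (𝓝[>] 0)
        (𝓝 (cexp (Complex.log w - 1) * cexp 0)) :=
      ((Complex.continuous_exp.tendsto 0).comp ce).const_mul _
    rw [Complex.exp_zero, mul_one] at h2
    exact tendsto_nhds_unique (h1.congr' hE) h2
  -- `cexp (e s) - 1 = O (s)`
  have o1 : (fun s : ℝ => f (τ₀ - s * I) - f τ₀) =O[𝓝[>] 0] fun s : ℝ => τ₀ - s * I - τ₀ :=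
    hf.hasDerivAt.isBigO_sub.comp_tendsto cτ
  have o0 : (fun s : ℝ => τ₀ - s * I - τ₀) =O[𝓝[>] 0] fun s : ℝ => s := by
    refine Asymptotics.IsBigO.of_bound 1 ?_
    filter_upwards with s
    have : τ₀ - s * I - τ₀ = -(s * I) := by ring
    rw [this, norm_neg, norm_mul, Complex.norm_I, Complex.norm_real, mul_one, one_mul]
  have o2 : (fun s : ℝ => cexp (e s) - 1) =O[𝓝[>] 0] fun s : ℝ => s := by
    have h1 := (o1.trans o0).const_mul_left (cexp (Complex.log w - 1))⁻¹
    refine h1.congr' ?_ EventuallyEq.rfl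
    filter_upwards [hE] with s h2
    have h3 := Complex.exp_ne_zero (Complex.log w - 1)
    rw [h2, hf0]
    field_simp
  have ce1 : Tendsto (fun s : ℝ => cexp (e s)) (𝓝[>] 0) (𝓝 1) := by
    have := (Complex.continuous_exp.tendsto 0).comp ce
    rwa [Complex.exp_zero] at this
  have hslit : (1:ℂ) ∈ slitPlane := by simp
  have o3 : e =O[𝓝[>] 0] fun s : ℝ => s := by
    have h1 := ((Complex.hasDerivAt_log hslit).isBigO_sub.comp_tendsto ce1).trans o2
    refine h1.congr' ?_ EventuallyEq.rfl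
    have h2 : ∀ᶠ s in 𝓝[>] (0:ℝ), e s ∈ ball (0:ℂ) 1 := ce.eventually (ball_mem_nhds 0 one_pos)
    filter_upwards [h2] with s h2
    rw [mem_ball_zero_iff] at h2
    have h3 := (abs_lt.1 (lt_of_le_of_lt (Complex.abs_im_le_norm (e s)) h2))
    have h4 := Real.pi_gt_three
    simp only [Function.comp]
    rw [Complex.log_one, sub_zero, Complex.log_exp] <;> linarith
  have o4 : (fun s : ℝ => g (w - s * I) - g w) =O[𝓝[>] 0] fun s : ℝ => s := by
    have h1 : (fun s : ℝ => g (w - s * I) - g w) =O[𝓝[>] 0] fun s : ℝ => w - s * I - w :=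
      dg.isBigO_sub.comp_tendsto cw
    refine h1.trans ?_
    refine Asymptotics.IsBigO.of_bound 1 ?_
    filter_upwards with s
    have : w - s * I - w = -(s * I) := by ring
    rw [this, norm_neg, norm_mul, Complex.norm_I, Complex.norm_real, mul_one, one_mul]
  have o5 : (fun s : ℝ => -(s * I) * Complex.log (-(s * I))) =O[𝓝[>] 0] fun s : ℝ => s := by
    have h1 := o4.sub (o3.const_mul_left w)
    refine h1.congr' ?_ EventuallyEq.rfl
    filter_upwards with s
    rw [hedef]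
    field_simp
    ring
  obtain ⟨C, hC⟩ := o5.bound
  have h1 : ∀ᶠ s : ℝ in 𝓝[>] 0, Real.log s < -C := Real.tendsto_log_nhdsGT_zero.eventually_lt_atBot _
  obtain ⟨s, h2, h3, h4⟩ := (hC.and (hs.and h1)).exists
  rw [norm_mul, norm_neg, norm_mul, Complex.norm_I, Complex.norm_real, mul_one, hlog s h3,
    Real.norm_eq_abs, abs_of_pos h3] at h2
  have h5 := Complex.abs_re_le_norm ((Real.log s : ℂ) - Real.pi / 2 * I)
  have h6 : ((Real.log s : ℂ) - Real.pi / 2 * I).re = Real.log s := by simp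
  rw [h6] at h5
  have h7 := (neg_le_abs (Real.log s)).trans h5
  have h8 : s * C < s * ‖(Real.log s : ℂ) - Real.pi / 2 * I‖ :=
    mul_lt_mul_of_pos_left (by linarith) h3
  linarith

/-- the identric mean is symmetric -/
theorem Idm_symm {u w : ℂ} : Idm u w = Idm w u := by
  unfold Idm
  have h := intervalIntegral.integral_comp_sub_left (a := 0) (b := 1)
    (fun s : ℝ => Complex.log (u + s * (w - u))) 1
  simp only [sub_self, sub_zero] at h
  rw [← h]
  congr 2
  funext s
  congr 1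
  push_cast
  ring

/-- joint analyticity -/
theorem Idm_an : AnalyticOnNhd ℂ (fun p : ℂ × ℂ => Idm p.1 p.2) (Hm ×ˢ Hm) := by
  intro p hp
  have hw0 := CoA_ne hp.2
  have hs := (CoA_logdiv hp.1 hp.2).2
  have h1 : AnalyticAt ℂ (fun p : ℂ × ℂ => p.1 / p.2) p :=
    analyticAt_fst.div analyticAt_snd hw0
  have h2 : AnalyticAt ℂ (fun p : ℂ × ℂ => CoA_ph (p.1 / p.2)) p :=
    AnalyticAt.fun_comp (CoA_ph_an hs) h1
  have h3 : AnalyticAt ℂ (fun p : ℂ × ℂ => p.2 * cexp (CoA_ph (p.1 / p.2))) p :=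
    analyticAt_snd.mul h2.cexp
  refine h3.congr ?_
  filter_upwards [(CoA_open.prod CoA_open).mem_nhds hp] with x hx
  exact (CoA_Idm_ph hx.1 hx.2).symm

end Pool.Agent.MP_ae5b4e_an_M
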