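import Pool.Agent.Lib.MP_ae5b4e_an_PB.Defs
import Pool.Agent.Lib.MP_ae5b4e_an_TR.Defs

/-!
# MP_ae5b4e_an, section M (macro windows): definitions

Windows are taken along an ultrafilter `U` on `ℕ`.  Scales `c n → 0`, vertical units `V n → 0`,
`N n = V n / c n → ∞`, places `x n` (arbitrary reals):
`t = x n + i h + V n τ`, `l = x n + i h + V n λ`, `ρ = c n γ`; one step `t → t + ρ` is
`τ → τ + γ / N n`.
-/

noncomputable section

namespace Pool.Agent.MP_ae5b4e_an_M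

open Complex Set Filter Topology Metric
open Pool.Agent.MP_ae5b4e_an_NBT (St Mer EqM)
open Pool.Agent.MP_ae5b4e_an_NB2 (Sys)
open Pool.Agent.MP_ae5b4e_an_N5 (NV)
open Pool.Agent.MP_ae5b4e_an_PB
open PorTR (Hm)

/-- The scales of a sequence of windows: linear bound on the coarse side, Hoelder bound on the fine
side, on every annulus `1 / K ≤ ‖γ‖ ≤ K` for almost all `n`. -/
structure Win (v : ℂ → ℝ) (U : Ultrafilter ℕ) (β C1 : ℝ) (c V : ℕ → ℝ) : Prop where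
  β_pos : 0 < β
  β_le : β ≤ 1
  C1_one : 1 ≤ C1
  c_pos : ∀ n, 0 < c n
  V_pos : ∀ n, 0 < V n
  c_lim : Tendsto c U (𝓝 0)
  V_lim : Tendsto V U (𝓝 0)
  N_lim : Tendsto (fun n => V n / c n) U atTop
  adm : ∀ K : ℝ, 0 < K → ∀ᶠ n in U, ∀ γ : ℂ, 1 / K ≤ ‖γ‖ → ‖γ‖ ≤ K →
    v (c n * γ) ≤ C1 * max ‖γ‖ (‖γ‖ ^ β) * V n

/-- `v` in the window -/
def vn (v : ℂ → ℝ) (c V : ℕ → ℝ) (n : ℕ) (γ : ℂ) : ℝ := v (c n * γ) / V n

/-- `w = v + |Im|` in the window: the label is defined for `Im τ < - wn` -/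
def wn (v : ℂ → ℝ) (c V : ℕ → ℝ) (n : ℕ) (γ : ℂ) : ℝ := vn v c V n γ + |γ.im| * (c n / V n)

/-- the point of the strip with window coordinate `τ` -/
def pt (h : ℝ) (x V : ℕ → ℝ) (n : ℕ) (τ : ℂ) : ℂ := x n + h * I + V n * τ

/-- the label in the window -/
def Ln (L : ℂ × ℂ → ℂ) (h : ℝ) (x c V : ℕ → ℝ) (n : ℕ) (p : ℂ × ℂ) : ℂ :=
  (L (pt h x V n p.1, c n * p.2) - (x n + h * I)) / V n

/-- the potential in the window (unit `c n ^ (-2)`) -/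
def qn (Y : Sys) (h : ℝ) (x c V : ℕ → ℝ) (n : ℕ) (l : ℂ) : ℂ :=
  (c n : ℂ) ^ 2 * Y.Q (pt h x V n l)

/-- the fundamental system in the label coordinate of the window; its potential is
`(V n / c n) ^ 2 * qn n` -/
def Zn (Y : Sys) (h : ℝ) (x V : ℕ → ℝ) (n : ℕ) : Sys where
  Q z := (V n : ℂ) ^ 2 * Y.Q (pt h x V n z)
  y1 z := Y.y1 (pt h x V n z) / (Real.sqrt (V n) : ℂ)
  y1' z := (Real.sqrt (V n) : ℂ) * Y.y1' (pt h x V n z)
  y2 z := Y.y2 (pt h x V n z) / (Real.sqrt (V n) : ℂ)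
  y2' z := (Real.sqrt (V n) : ℂ) * Y.y2' (pt h x V n z)

/-- the limit of a complex sequence along the ultrafilter (`0` if it does not converge) -/
def ulimC (U : Ultrafilter ℕ) (f : ℕ → ℂ) : ℂ :=
  open Classical in if h : ∃ z, Tendsto f U (𝓝 z) then h.choose else 0

/-- `v_∞`: the upper Gamma-limit of the functions `vn` along `U` -/
def vI (v : ℂ → ℝ) (U : Ultrafilter ℕ) (c V : ℕ → ℝ) (γ : ℂ) : ℝ :=
  sInf {b : ℝ | ∃ δ > 0, ∀ᶠ n in (U : Filter ℕ), ∀ γ' ∈ ball γ δ, vn v c V n γ' ≤ b}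

/-- the limit domain `Im τ < - v_∞ (γ)` -/
def DI (v : ℂ → ℝ) (U : Ultrafilter ℕ) (c V : ℕ → ℝ) : Set (ℂ × ℂ) :=
  {p | p.1.im < -vI v U c V p.2}

/-- the limit label -/
def LI (L : ℂ × ℂ → ℂ) (h : ℝ) (U : Ultrafilter ℕ) (x c V : ℕ → ℝ) (p : ℂ × ℂ) : ℂ :=
  ulimC U (fun n => Ln L h x c V n p)

/-- the limit potential (`0` outside the lower half plane) -/
def qI (Y : Sys) (h : ℝ) (U : Ultrafilter ℕ) (x c V : ℕ → ℝ) (l : ℂ) : ℂ :=
  if l.im < 0 then ulimC U (fun n => qn Y h x c V n l) else 0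

/-- the family of all window limits (all places) -/
def WL (Y : Sys) (h : ℝ) (U : Ultrafilter ℕ) (c V : ℕ → ℝ) : Set (ℂ → ℂ) :=
  {q | ∃ x : ℕ → ℝ, q = qI Y h U x c V}

/-- the admissible growth of `|q|` at depth `y` -/
def gr (β C : ℝ) (y : ℝ) : ℝ := C * max (y ^ (-(2:ℝ))) (y ^ (-(2:ℝ) / β))

/-! ### Entire functions of `x = q α²`, the right side of the limit equation -/

/-- `sin √x / √x` -/
def S1 (x : ℂ) : ℂ := ∑' k : ℕ, (-1) ^ k * x ^ k / ((2 * k + 1).factorial : ℂ)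

/-- `cos √x` -/
def C1f (x : ℂ) : ℂ := ∑' k : ℕ, (-1) ^ k * x ^ k / ((2 * k).factorial : ℂ)

/-- `(x - sin² √x) / x²` -/
def E2 (x : ℂ) : ℂ := ∑' k : ℕ, (-1) ^ k * 2 ^ (2 * k + 3) * x ^ k / ((2 * k + 4).factorial : ℂ)

/-- the right side of the limit equation `λ'' = bb q λ (λ')`:
`- (q' / (2 q)) (α² - sin² (√q α) / q)` -/
def bb (q : ℂ → ℂ) (l α : ℂ) : ℂ := -(deriv q l / 2) * α ^ 4 * E2 (q l * α ^ 2)

/-- the first integral: `α (sin y / y) exp (1 - y cot y)`, `y² = q α²` -/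
def Gf (q : ℂ → ℂ) (l α : ℂ) : ℂ :=
  α * S1 (q l * α ^ 2) * cexp (1 - C1f (q l * α ^ 2) / S1 (q l * α ^ 2))

end Pool.Agent.MP_ae5b4e_an_M
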