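import Pool.Agent.Lib.MP_ae5b4e_an_M.LA

/-! # Section M: the limit label -/

noncomputable section

namespace Pool.Agent.MP_ae5b4e_an_M

open Complex Set Filter Topology Metric
open Pool.Agent.MP_ae5b4e_an_NBT (St Mer EqM)
open Pool.Agent.MP_ae5b4e_an_NB2 (Sys)
open Pool.Agent.MP_ae5b4e_an_N5 (NV)
open Pool.Agent.MP_ae5b4e_an_PB
open PorTR (Hm)

/-- A function with values in the lower half plane is bounded on the half disc by three times its
value at the centre: `f z - f z₀` has imaginary part `≤ - Im f z₀`; Borel-Caratheodory. -/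
theorem Hm_half {f : ℂ → ℂ} {z₀ : ℂ} {r : ℝ} (hr : 0 < r)
    (hf : DifferentiableOn ℂ f (ball z₀ r)) (hm : MapsTo f (ball z₀ r) Hm) :
    ∀ z ∈ ball z₀ (r / 2), ‖f z‖ ≤ 3 * ‖f z₀‖ := by
  intro z hz
  rw [mem_ball, dist_eq_norm] at hz
  have hnn := norm_nonneg (z - z₀)
  have hin : ∀ ζ ∈ ball (0:ℂ) r, z₀ + ζ ∈ ball z₀ r := by
    intro ζ hζ
    rw [mem_ball, dist_eq_norm, add_sub_cancel_left]
    exact mem_ball_zero_iff.1 hζ
  have hd : DifferentiableOn ℂ (fun ζ => -I * f (z₀ + ζ)) (ball 0 r) := by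
    intro ζ hζ
    have h1 : DifferentiableAt ℂ f (z₀ + ζ) := hf.differentiableAt
      (isOpen_ball.mem_nhds (hin ζ hζ))
    have h2 : DifferentiableAt ℂ (fun ζ => f (z₀ + ζ)) ζ :=
      DifferentiableAt.comp ζ (g := f) (f := fun ζ : ℂ => z₀ + ζ) h1 (by fun_prop)
    exact (h2.const_mul (-I)).differentiableWithinAt
  apply le_of_forall_pos_le_add
  intro ε hε
  have h1 := borelCaratheodory (f := fun ζ => -I * f (z₀ + ζ)) (M := ε / 2) (R := r)
    (z := z - z₀) (by linarith) hd (by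
      intro ζ hζ
      have h2 : (f (z₀ + ζ)).im < 0 := hm (hin ζ hζ)
      show (-I * f (z₀ + ζ)).re ≤ ε / 2
      simp only [neg_mul, neg_re, mul_re, I_re, zero_mul, I_im, one_mul, zero_sub, neg_neg]
      linarith) hr (mem_ball_zero_iff.2 (by linarith))
  simp only [add_sub_cancel, add_zero, norm_mul, norm_neg, norm_I, one_mul] at h1
  refine h1.trans ?_
  have h3 : 0 < r - ‖z - z₀‖ := by linarith
  have h4 : 2 * (ε / 2) * ‖z - z₀‖ / (r - ‖z - z₀‖) ≤ ε := by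
    rw [div_le_iff₀ h3]
    nlinarith
  have h5 : ‖f z₀‖ * (r + ‖z - z₀‖) / (r - ‖z - z₀‖) ≤ 3 * ‖f z₀‖ := by
    rw [div_le_iff₀ h3]
    have := norm_nonneg (f z₀)
    nlinarith
  linarith

/-- Chain of discs down a vertical segment: if `f` is holomorphic with values in the lower half
plane
on the `r`-neighbourhood of the segment from `z₀` to `z₀ - i T`, then `‖f z₀‖ ≤ 3 ^ k ‖f (z₀ - i
T)‖`
with `k = ⌈4 T / r⌉ + 1`. -/
theorem Hm_chain {f : ℂ → ℂ} {z₀ : ℂ} {r T : ℝ} (hr : 0 < r) (hT : 0 ≤ T)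
    (hf : ∀ s ∈ Icc (0:ℝ) T, DifferentiableOn ℂ f (ball (z₀ - s * I) r))
    (hm : ∀ s ∈ Icc (0:ℝ) T, MapsTo f (ball (z₀ - s * I) r) Hm) :
    ‖f z₀‖ ≤ 3 ^ (⌈4 * T / r⌉₊ + 1) * ‖f (z₀ - T * I)‖ := by
  set m : ℕ := ⌈4 * T / r⌉₊ + 1 with hm'
  have hm0 : (0:ℝ) < m := by rw [hm']; positivity
  have hm1 : 4 * T / r ≤ m := by
    rw [hm']
    push_cast
    have := Nat.le_ceil (4 * T / r)
    linarith
  have hstep : T / m < r / 2 := by
    rw [div_lt_iff₀ hm0]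
    rw [div_le_iff₀ hr] at hm1
    nlinarith [mul_pos hm0 hr]
  have key : ∀ j : ℕ, j ≤ m → ‖f z₀‖ ≤ 3 ^ j * ‖f (z₀ - ((j * (T / m) : ℝ) : ℂ) * I)‖ := by
    intro j
    induction j with
    | zero => intro _; simp
    | succ j ih =>
      intro hj
      have h1 := ih (by omega)
      have hjm : ((j + 1 : ℕ) : ℝ) ≤ m := by exact_mod_cast hj
      have hTm : 0 ≤ T / m := by positivity
      have hs : ((j + 1 : ℕ) : ℝ) * (T / m) ∈ Icc (0:ℝ) T := by
        refine ⟨by positivity, ?_⟩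
        calc ((j + 1 : ℕ) : ℝ) * (T / m) ≤ m * (T / m) := mul_le_mul_of_nonneg_right hjm hTm
          _ = T := by field_simp
      have h2 := Hm_half hr (hf _ hs) (hm _ hs) (z₀ - ((j * (T / m) : ℝ) : ℂ) * I) (by
        rw [mem_ball, dist_eq_norm]
        have h3 : z₀ - ((j * (T / m) : ℝ) : ℂ) * I -
            (z₀ - ((((j + 1 : ℕ) : ℝ) * (T / m) : ℝ) : ℂ) * I) = ((T / m : ℝ) : ℂ) * I := by
          push_cast
          ring
        rw [h3, norm_mul, norm_I, mul_one, Complex.norm_real, Real.norm_eq_abs,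
          abs_of_nonneg hTm]
        exact hstep)
      calc ‖f z₀‖ ≤ 3 ^ j * ‖f (z₀ - ((j * (T / m) : ℝ) : ℂ) * I)‖ := h1
        _ ≤ 3 ^ j * (3 * ‖f (z₀ - ((((j + 1 : ℕ) : ℝ) * (T / m) : ℝ) : ℂ) * I)‖) :=
          mul_le_mul_of_nonneg_left h2 (by positivity)
        _ = 3 ^ (j + 1) * ‖f (z₀ - ((((j + 1 : ℕ) : ℝ) * (T / m) : ℝ) : ℂ) * I)‖ := by ring
  have h1 := key m le_rfl
  have h2 : (m : ℝ) * (T / m) = T := by field_simp
  rw [h2] at h1
  exact h1

variable {Y : Sys} {h R C0 : ℝ} {v : ℂ → ℝ} {G L : ℂ × ℂ → ℂ} {U : Ultrafilter ℕ} {β C1 : ℝ}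
  {c V : ℕ → ℝ}

/-- the window label maps the window domain to the lower half plane. Proof. `hB.dep` or `hB.maps`
(`Im L < h`). -/
theorem Ln_Hm (hB : Base Y h R C0 v G L) (HW : Win v U β C1 c V) (n : ℕ) (x : ℕ → ℝ) {p : ℂ × ℂ}
    (hp : (pt h x V n p.1, (c n : ℂ) * p.2) ∈ DKU v h R) : Ln L h x c V n p ∈ Hm := by
  have h1 := (hB.maps _ hp).2
  show (Ln L h x c V n p).im < 0
  rw [Ln_im]
  exact div_neg_of_neg_of_pos (by linarith) (HW.V_pos n)

/-- the window label is analytic at the points of the window domain -/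
theorem Ln_an (hB : Base Y h R C0 v G L) (n : ℕ) (x : ℕ → ℝ) {p : ℂ × ℂ}
    (hp : (pt h x V n p.1, (c n : ℂ) * p.2) ∈ DKU v h R) : AnalyticAt ℂ (Ln L h x c V n) p := by
  unfold Ln
  simp only [div_eq_mul_inv]
  refine AnalyticAt.mul (AnalyticAt.sub ?_ analyticAt_const) analyticAt_const
  have h1 : AnalyticAt ℂ L (pt h x V n p.1, (c n : ℂ) * p.2) := hB.an _ hp
  have h2 : AnalyticAt ℂ (fun p : ℂ × ℂ => (pt h x V n p.1, (c n : ℂ) * p.2)) p := by
    unfold pt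
    exact (analyticAt_const.add (analyticAt_const.mul analyticAt_fst)).prod
      (analyticAt_const.mul analyticAt_snd)
  exact AnalyticAt.fun_comp (g := L) (f := fun p : ℂ × ℂ => (pt h x V n p.1, (c n : ℂ) * p.2))
    h1 h2

theorem Rg_big (HW : Win v U β C1 c V) {B y : ℝ} (hB : 1 ≤ B) (hy : 2 * C1 * B ≤ y) :
    B ≤ Rg β C1 y := by
  have hC : 0 < C1 := by linarith [HW.C1_one]
  have h1 : B ≤ y / (2 * C1) := by
    rw [le_div_iff₀ (by positivity)]
    linarith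
  apply le_min h1
  have h2 : B ≤ B ^ (1 / β) := by
    have h3 : 1 ≤ 1 / β := by
      rw [le_div_iff₀ HW.β_pos, one_mul]
      exact HW.β_le
    have h4 := Real.rpow_le_rpow_of_exponent_le hB h3
    rwa [Real.rpow_one] at h4
  refine h2.trans ?_
  have h5 : 0 ≤ 1 / β := by have := HW.β_pos; positivity
  exact Real.rpow_le_rpow (by linarith) h1 h5

/-- LOCAL BOUND, uniform in the place.

Proof. Let `p = (τ, γ) ∈ DI`. Choose `δ > 0` with `closedBall p (3 δ) ⊆ DI` and let `K` be the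
compact
set of the points `(τ' - s I, γ')`, `0 ≤ s ≤ T`, `(τ', γ') ∈ closedBall p (2 δ)`: it is contained in
`DI`
(`DI_down`). Here `T` is so large that `2 (‖γ‖ + 3 δ) < Rg (- Im τ + T - 3 δ)` (`Rg y → ∞` for
`y → ∞`), so that at the points `(τ' - T I, γ')` the estimate `base_est` (with a suitable `K`)
applies: `‖Ln (τ' - T I, γ') - (τ' - T I)‖ ≤ M₀`. By `mem_DKU` for `K`, `Ln` is defined and in `Hm`
near
the segments; `Hm_chain` with `r = δ` (in the first variable) gives `‖Ln p'‖ ≤ 3 ^ k (M₀ + ..) =: M`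
for
all `p' ∈ ball p δ`. -/
theorem Ln_bdd (hB : Base Y h R C0 v G L) (HW : Win v U β C1 c V) {p : ℂ × ℂ}
    (hp : p ∈ DI v U c V) :
    ∃ δ > 0, ∃ M : ℝ, ∀ᶠ n in (U : Filter ℕ), ∀ x : ℕ → ℝ,
      (∀ q ∈ ball p δ, (pt h x V n q.1, (c n : ℂ) * q.2) ∈ DKU v h R) ∧
      AnalyticOnNhd ℂ (Ln L h x c V n) (ball p δ) ∧ ∀ q ∈ ball p δ,
        ‖Ln L h x c V n q‖ ≤ M := by
  have hC : 1 ≤ C1 := HW.C1_one
  obtain ⟨δ₀, hδ₀, hδ₀'⟩ := Metric.isOpen_iff.1 (DI_open hB.nv hB.R_pos HW) p hp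
  set δ : ℝ := δ₀ / 4 with hδd
  have hδ : 0 < δ := by rw [hδd]; linarith
  have hcl : closedBall p (3 * δ) ⊆ DI v U c V :=
    (closedBall_subset_ball (by rw [hδd]; linarith)).trans hδ₀'
  have hγ0 := norm_nonneg p.2
  have hτ0 := abs_nonneg p.1.im
  set B : ℝ := 2 * (‖p.2‖ + 3 * δ) + 1 with hBd
  have hB1 : 1 ≤ B := by rw [hBd]; linarith
  set T : ℝ := 2 * C1 * B + |p.1.im| + 3 * δ with hTd
  have hCB : 2 ≤ 2 * C1 * B := by nlinarith
  have hT0 : 0 ≤ T := by rw [hTd]; linarith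
  set K₁ : ℝ := |p.1.im| + 3 * δ + T with hK₁d
  have hK₁ : 1 ≤ K₁ := by rw [hK₁d, hTd]; linarith
  -- the compact set
  set K : Set (ℂ × ℂ) := (fun w : (ℂ × ℂ) × ℝ => ((w.1.1 - w.2 * I, w.1.2) : ℂ × ℂ)) ''
    (closedBall p (2 * δ) ×ˢ Icc (0:ℝ) T) with hKd
  have hKc : IsCompact K := by
    apply ((isCompact_closedBall p (2 * δ)).prod isCompact_Icc).image
    fun_prop
  have hKD : K ⊆ DI v U c V := by
    rintro _ ⟨⟨q, s⟩, ⟨hq, hs⟩, rfl⟩
    have h1 : q ∈ DI v U c V := hcl (closedBall_subset_closedBall (by linarith) hq)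
    have h2 := DI_down h1 (s := -(s * I)) (by simp; exact hs.1)
    rw [← sub_eq_add_neg] at h2
    exact h2
  have hseg : ∀ q ∈ ball p δ, ∀ s ∈ Icc (0:ℝ) T, ∀ w ∈ ball (q.1 - s * I) δ, (w, q.2) ∈ K := by
    intro q hq s hs w hw
    refine ⟨((w + s * I, q.2), s), ⟨?_, hs⟩, ?_⟩
    · rw [mem_closedBall, Prod.dist_eq]
      rw [mem_ball, Prod.dist_eq, max_lt_iff] at hq
      apply max_le
      · have h1 : dist (w + s * I) q.1 < δ := by
          rw [mem_ball, dist_eq_norm] at hw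
          rw [dist_eq_norm]
          have : w + s * I - q.1 = w - (q.1 - s * I) := by ring
          rw [this]; exact hw
        have h2 := dist_triangle (w + s * I) q.1 p.1
        show dist (w + s * I) p.1 ≤ 2 * δ
        linarith [hq.1]
      · show dist q.2 p.2 ≤ 2 * δ
        linarith [hq.2]
    · simp
  refine ⟨δ, hδ, 3 ^ (⌈4 * T / δ⌉₊ + 1) * (‖p.1‖ + δ + T + 2 * K₁), ?_⟩
  filter_upwards [mem_DKU hB HW hKc hKD, base_est hB HW hK₁] with n hn1 hn2 x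
  have hqK : ∀ q ∈ ball p δ, q ∈ K := by
    intro q hq
    have h1 := hseg q hq 0 ⟨le_rfl, hT0⟩ q.1 (by
      rw [ofReal_zero, zero_mul, sub_zero]; exact mem_ball_self hδ)
    exact h1
  refine ⟨fun q hq => hn1 x q (hqK q hq), fun q hq => Ln_an hB n x (hn1 x q (hqK q hq)),
    fun q hq => ?_⟩
  have h1 := Hm_chain (f := fun s => Ln L h x c V n (s, q.2)) (z₀ := q.1) (r := δ) (T := T) hδ hT0
    (by
      intro s hs w hw
      have h2 : AnalyticAt ℂ (Ln L h x c V n) (w, q.2) :=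
        Ln_an hB n x (hn1 x _ (hseg q hq s hs w hw))
      exact (DifferentiableAt.comp w (g := Ln L h x c V n) (f := fun w : ℂ => (w, q.2))
        h2.differentiableAt (by fun_prop)).differentiableWithinAt)
    (by
      intro s hs w hw
      exact Ln_Hm hB HW n x (p := (w, q.2)) (hn1 x _ (hseg q hq s hs w hw)))
  refine h1.trans ?_
  apply mul_le_mul_of_nonneg_left _ (by positivity)
  -- the base estimate
  rw [mem_ball, Prod.dist_eq, max_lt_iff] at hq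
  have hq1 : ‖q.1 - p.1‖ < δ := by rw [← dist_eq_norm]; exact hq.1
  have hq2 : ‖q.2 - p.2‖ < δ := by rw [← dist_eq_norm]; exact hq.2
  have him : (q.1 - T * I).im = q.1.im - T := by simp
  have him2 : |q.1.im - p.1.im| < δ := by
    have h3 := abs_im_le_norm (q.1 - p.1)
    rw [sub_im] at h3
    linarith
  have him3 := abs_lt.1 him2
  have h4 := neg_abs_le p.1.im
  have h5 := le_abs_self p.1.im
  have hy1 : 2 * C1 * B ≤ -(q.1 - T * I).im := by
    rw [him, hTd]; linarith [him3.2]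
  have hy2 : -(q.1 - T * I).im ≤ K₁ := by
    rw [him, hK₁d]; linarith [him3.1]
  have hRg : B ≤ Rg β C1 (-(q.1 - T * I).im) := Rg_big HW hB1 hy1
  have hγ' : ‖q.2‖ < Rg β C1 (-(q.1 - T * I).im) / 2 := by
    have h6 := norm_sub_norm_le q.2 p.2
    rw [hBd] at hRg
    linarith
  have h7 := hn2 x (q.1 - T * I) q.2 (by
    have : 1 / K₁ ≤ 1 := by rw [div_le_one (by linarith)]; exact hK₁
    linarith) hy2 hγ'
  have h8 : 8 * (-(q.1 - T * I).im) * ‖q.2‖ ^ 2 / Rg β C1 (-(q.1 - T * I).im) ^ 2 ≤ 2 * K₁ := by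
    have hR0 : 0 < Rg β C1 (-(q.1 - T * I).im) := by linarith
    rw [div_le_iff₀ (by positivity)]
    have h9 : ‖q.2‖ ^ 2 ≤ (Rg β C1 (-(q.1 - T * I).im) / 2) ^ 2 :=
      pow_le_pow_left₀ (norm_nonneg _) hγ'.le 2
    have h10 : 8 * (-(q.1 - T * I).im) * ‖q.2‖ ^ 2 ≤ 8 * K₁ * ‖q.2‖ ^ 2 := by
      apply mul_le_mul_of_nonneg_right _ (by positivity)
      linarith
    have h11 : 8 * K₁ * ‖q.2‖ ^ 2 ≤ 8 * K₁ * (Rg β C1 (-(q.1 - T * I).im) / 2) ^ 2 :=
      mul_le_mul_of_nonneg_left h9 (by linarith)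
    have h12 : 8 * K₁ * (Rg β C1 (-(q.1 - T * I).im) / 2) ^ 2 =
        2 * K₁ * Rg β C1 (-(q.1 - T * I).im) ^ 2 := by ring
    linarith
  have h13 : ‖q.1 - T * I‖ ≤ ‖p.1‖ + δ + T := by
    have h14 := norm_sub_le q.1 (T * I)
    rw [norm_mul, norm_I, mul_one, Complex.norm_real, Real.norm_eq_abs, abs_of_nonneg hT0] at h14
    have h15 := norm_sub_norm_le q.1 p.1
    linarith
  have h16 := norm_sub_norm_le (Ln L h x c V n (q.1 - T * I, q.2)) (q.1 - T * I)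
  linarith

/-- on compact sets (finite cover) -/
theorem Ln_bdd_compact (hB : Base Y h R C0 v G L) (HW : Win v U β C1 c V) {K : Set (ℂ × ℂ)}
    (hK : IsCompact K) (hKD : K ⊆ DI v U c V) :
    ∃ M : ℝ, ∀ᶠ n in (U : Filter ℕ), ∀ x : ℕ → ℝ, ∀ q ∈ K, ‖Ln L h x c V n q‖ ≤ M := by
  refine hK.induction_on (p := fun s => ∃ M : ℝ, ∀ᶠ n in (U : Filter ℕ), ∀ x : ℕ → ℝ,
    ∀ q ∈ s, ‖Ln L h x c V n q‖ ≤ M) ?_ ?_ ?_ ?_
  · exact ⟨0, Filter.Eventually.of_forall fun n x p hp => absurd hp (notMem_empty p)⟩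
  · rintro s t hst ⟨M, ht⟩
    refine ⟨M, ?_⟩
    filter_upwards [ht] with n hn x p hp
    exact hn x p (hst hp)
  · rintro s t ⟨M1, hs⟩ ⟨M2, ht⟩
    refine ⟨max M1 M2, ?_⟩
    filter_upwards [hs, ht] with n hn1 hn2 x p hp
    rcases hp with hp | hp
    · exact (hn1 x p hp).trans (le_max_left _ _)
    · exact (hn2 x p hp).trans (le_max_right _ _)
  · intro p hp
    obtain ⟨δ, hδ, M, hM⟩ := Ln_bdd hB HW (hKD hp)
    refine ⟨ball p δ, mem_nhdsWithin_of_mem_nhds (ball_mem_nhds p hδ), M, ?_⟩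
    filter_upwards [hM] with n hn x
    exact (hn x).2.2

theorem Ln_LB (hB : Base Y h R C0 v G L) (HW : Win v U β C1 c V) (x : ℕ → ℝ) {p : ℂ × ℂ}
    (hp : p ∈ DI v U c V) : LB U (fun n => Ln L h x c V n) p := by
  obtain ⟨δ, hδ, M, hM⟩ := Ln_bdd hB HW hp
  refine ⟨δ, hδ, M, ?_⟩
  filter_upwards [hM] with n hn
  exact (hn x).2

/-- (M5) The limit label is analytic on the limit domain (`montel2`). -/
theorem LI_an (hB : Base Y h R C0 v G L) (HW : Win v U β C1 c V) (x : ℕ → ℝ) :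
    AnalyticOnNhd ℂ (LI L h U x c V) (DI v U c V) := by
  exact (montel2 (DI_open hB.nv hB.R_pos HW) fun p hp => Ln_LB hB HW x hp).1

theorem LI_unif (hB : Base Y h R C0 v G L) (HW : Win v U β C1 c V) (x : ℕ → ℝ) :
    TendstoLocallyUniformlyOn (fun n => Ln L h x c V n) (LI L h U x c V) U (DI v U c V) := by
  exact (montel2 (DI_open hB.nv hB.R_pos HW) fun p hp => Ln_LB hB HW x hp).2

theorem LI_tendsto (hB : Base Y h R C0 v G L) (HW : Win v U β C1 c V) (x : ℕ → ℝ) {p : ℂ × ℂ}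
    (hp : p ∈ DI v U c V) : Tendsto (fun n => Ln L h x c V n p) U (𝓝 (LI L h U x c V p)) := by
  obtain ⟨δ, hδ, M, hM⟩ := Ln_bdd hB HW hp
  apply ulimC_spec (M := M)
  filter_upwards [hM] with n hn
  exact (hn x).2.2 p (mem_ball_self hδ)

/-- depth of the limit label. Proof. `Ln_dep` and `ev_of_vI_lt`. -/
theorem LI_dep (hB : Base Y h R C0 v G L) (HW : Win v U β C1 c V) (x : ℕ → ℝ) {p : ℂ × ℂ}
    (hp : p ∈ DI v U c V) : -vI v U c V p.2 - p.1.im ≤ -(LI L h U x c V p).im := by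
  have key : (LI L h U x c V p).im - p.1.im ≤ vI v U c V p.2 := by
    apply le_of_forall_gt_imp_ge_of_dense
    intro b hb
    obtain ⟨δ, hδ, hev⟩ := ev_of_vI_lt hB.nv hB.R_pos HW hb
    have h1 : Tendsto (fun n => (1 - C0 * (c n * ‖p.2‖) ^ 2) *
        (-b - |p.2.im| * (c n / V n) - p.1.im)) U
        (𝓝 ((1 - C0 * (0 * ‖p.2‖) ^ 2) * (-b - |p.2.im| * 0 - p.1.im))) := by
      apply Tendsto.mul
      · exact tendsto_const_nhds.sub (((HW.c_lim.mul_const _).pow 2).const_mul _)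
      · exact (tendsto_const_nhds.sub ((cV_lim HW).const_mul _)).sub tendsto_const_nhds
    have h2 : Tendsto (fun n => -(Ln L h x c V n p).im) U (𝓝 (-(LI L h U x c V p).im)) :=
      ((continuous_im.tendsto _).comp (LI_tendsto hB HW x hp)).neg
    have h3 : ∀ᶠ n in (U : Filter ℕ), 0 < 1 - C0 * (c n * ‖p.2‖) ^ 2 := by
      have h4 : Tendsto (fun n => 1 - C0 * (c n * ‖p.2‖) ^ 2) U
          (𝓝 (1 - C0 * (0 * ‖p.2‖) ^ 2)) :=
        tendsto_const_nhds.sub (((HW.c_lim.mul_const _).pow 2).const_mul _)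
      apply h4.eventually (lt_mem_nhds _)
      simp
    have h5 := le_of_tendsto_of_tendsto h1 h2 (by
      have hK : IsCompact ({p} : Set (ℂ × ℂ)) := isCompact_singleton
      filter_upwards [hev, h3, mem_DKU hB HW hK (singleton_subset_iff.2 hp)] with n hn1 hn2 hn3
      have h6 := Ln_dep hB HW n x (hn3 x p rfl)
      refine le_trans ?_ h6
      apply mul_le_mul_of_nonneg_left _ hn2.le
      have h7 := hn1 p.2 (mem_ball_self hδ)
      linarith)
    simp only [zero_mul, mul_zero, ne_eq, OfNat.ofNat_ne_zero, not_false_eq_true, zero_pow,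
      sub_zero, one_mul] at h5
    linarith
  linarith

theorem LI_Hm (hB : Base Y h R C0 v G L) (HW : Win v U β C1 c V) (x : ℕ → ℝ) {p : ℂ × ℂ}
    (hp : p ∈ DI v U c V) : LI L h U x c V p ∈ Hm := by
  have h1 := LI_dep hB HW x hp
  have h2 : p.1.im < -vI v U c V p.2 := hp
  show (LI L h U x c V p).im < 0
  linarith

theorem LI_zero (hB : Base Y h R C0 v G L) (HW : Win v U β C1 c V) (x : ℕ → ℝ) {τ : ℂ}
    (hτ : τ.im < 0) : LI L h U x c V (τ, 0) = τ := by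
  apply ulimC_eq
  refine Tendsto.congr' ?_ tendsto_const_nhds
  filter_upwards [lim_lt HW.V_lim (-τ.im) hB.h_pos] with n hn
  exact (Ln_zero_at hB HW (by linarith) (by linarith)).symm

theorem LI_even (hB : Base Y h R C0 v G L) (HW : Win v U β C1 c V) (x : ℕ → ℝ) {p : ℂ × ℂ}
    (hp : p ∈ DI v U c V) : LI L h U x c V (p.1, -p.2) = LI L h U x c V p := by
  apply ulimC_eq
  refine Tendsto.congr' ?_ (LI_tendsto hB HW x hp)
  have hK : IsCompact ({p} : Set (ℂ × ℂ)) := isCompact_singleton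
  filter_upwards [mem_DKU hB HW hK (singleton_subset_iff.2 hp)] with n hn
  have h1 := hB.even _ (hn x p rfl)
  dsimp only at h1
  unfold Ln
  dsimp only
  rw [mul_neg, h1]

theorem LI_est (hB : Base Y h R C0 v G L) (HW : Win v U β C1 c V) (x : ℕ → ℝ) {τ γ : ℂ}
    (hτ : τ.im < 0) (hγ : ‖γ‖ < Rg β C1 (-τ.im) / 2) :
    (τ, γ) ∈ DI v U c V ∧
    ‖LI L h U x c V (τ, γ) - τ‖ ≤ 8 * (-τ.im) * ‖γ‖ ^ 2 / Rg β C1 (-τ.im) ^ 2 := by
  have hy : 0 < -τ.im := by linarith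
  have hR := Rg_pos HW hy
  have hmem : (τ, γ) ∈ DI v U c V := by
    show τ.im < -vI v U c V γ
    have h1 := vI_le hB.nv hB.R_pos HW γ
    have h2 := Rg_spec HW hy (γ := γ) (by linarith)
    linarith
  refine ⟨hmem, ?_⟩
  have h1 : Tendsto (fun n => ‖Ln L h x c V n (τ, γ) - τ‖) U
      (𝓝 ‖LI L h U x c V (τ, γ) - τ‖) := ((LI_tendsto hB HW x hmem).sub_const τ).norm
  have hK : (1:ℝ) ≤ max (-τ.im) (max (1 / (-τ.im)) 1) :=
    le_max_of_le_right (le_max_right _ _)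
  refine le_of_tendsto h1 ?_
  filter_upwards [base_est hB HW hK] with n hn
  refine hn x τ γ ?_ (le_max_left _ _) hγ
  have h2 : 1 / max (-τ.im) (max (1 / (-τ.im)) 1) ≤ 1 / (1 / (-τ.im)) :=
    one_div_le_one_div_of_le (by positivity) (le_max_of_le_right (le_max_left _ _))
  rw [one_div_one_div] at h2
  exact h2

/-- change of place by `V n s` -/
theorem LI_shift (hB : Base Y h R C0 v G L) (HW : Win v U β C1 c V) (x : ℕ → ℝ) (s : ℝ) {p : ℂ × ℂ}
    (hp : p ∈ DI v U c V) :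
    LI L h U (fun n => x n + V n * s) c V p = LI L h U x c V (p.1 + s, p.2) - s := by
  have hp2 : (p.1 + s, p.2) ∈ DI v U c V := DI_down hp (s := (s : ℂ)) (by simp)
  apply ulimC_eq
  refine Tendsto.congr' ?_ ((LI_tendsto hB HW x hp2).sub_const (s : ℂ))
  filter_upwards with n
  have hV2 : (V n : ℂ) ≠ 0 := by exact_mod_cast (HW.V_pos n).ne'
  have h1 : pt h (fun n => x n + V n * s) V n p.1 = pt h x V n (p.1 + s) := by
    unfold pt
    push_cast
    ring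
  unfold Ln
  dsimp only
  rw [h1]
  push_cast
  field_simp
  ring

/-- The derivatives of `Ln` converge locally uniformly (`unif_deriv`). -/
theorem LI_deriv (hB : Base Y h R C0 v G L) (HW : Win v U β C1 c V) (x : ℕ → ℝ) {K : Set (ℂ × ℂ)}
    (hK : IsCompact K) (hKD : K ⊆ DI v U c V) {ε : ℝ} (hε : 0 < ε) :
    ∀ᶠ n in (U : Filter ℕ), ∀ p ∈ K, ‖Ln L h x c V n p - LI L h U x c V p‖ < ε ∧
      ‖deriv (fun s => Ln L h x c V n (s, p.2)) p.1 -
        deriv (fun s => LI L h U x c V (s, p.2)) p.1‖ < ε ∧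
      ‖deriv (deriv fun s => Ln L h x c V n (s, p.2)) p.1 -
        deriv (deriv fun s => LI L h U x c V (s, p.2)) p.1‖ < ε := by
  have h1 := unif_compact (LI_unif hB HW x) hK hKD hε
  have h2 := unif_deriv (DI_open hB.nv hB.R_pos HW) (LI_an hB HW x)
    (fun p hp => Ln_LB hB HW x hp) (LI_unif hB HW x) hK hKD hε
  filter_upwards [h1, h2] with n hn1 hn2 p hp
  exact ⟨hn1 p hp, (hn2 p hp).1, (hn2 p hp).2.1⟩

end Pool.Agent.MP_ae5b4e_an_M
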