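import Pool.Agent.Lib.MP_ae5b4e_an_M.LB
import Pool.Agent.Lib.MP_ae5b4e_an_M0.Jet

/-! # Section M: the limit potential -/

noncomputable section

namespace Pool.Agent.MP_ae5b4e_an_M

open Complex Set Filter Topology Metric
open Pool.Agent.MP_ae5b4e_an_NBT (St Mer EqM)
open Pool.Agent.MP_ae5b4e_an_NB2 (Sys)
open Pool.Agent.MP_ae5b4e_an_N5 (NV)
open Pool.Agent.MP_ae5b4e_an_PB
open PorTR (Hm)

/-! ### auxiliary facts -/

private def QA_D2 (f : ℂ × ℂ → ℂ) (p : ℂ × ℂ) : ℂ := fderiv ℂ f p (0, 1)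

private theorem QA_an_D2 {f : ℂ × ℂ → ℂ} {p : ℂ × ℂ} (hf : AnalyticAt ℂ f p) :
    AnalyticAt ℂ (QA_D2 f) p := by
  have h1 := hf.fderiv
  exact (ContinuousLinearMap.analyticAt (ContinuousLinearMap.apply ℂ ℂ ((0:ℂ), (1:ℂ))) _).comp h1

private theorem QA_has_D2 {f : ℂ × ℂ → ℂ} {s ρ : ℂ} (hf : AnalyticAt ℂ f (s, ρ)) :
    HasDerivAt (fun ρ => f (s, ρ)) (QA_D2 f (s, ρ)) ρ := by
  have h1 : HasDerivAt (fun ρ : ℂ => ((s, ρ) : ℂ × ℂ)) (0, 1) ρ :=
    (hasDerivAt_const ρ s).prodMk (hasDerivAt_id ρ)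
  exact hf.differentiableAt.hasFDerivAt.comp_hasDerivAt ρ h1

private theorem QA_dd {f : ℂ × ℂ → ℂ} {s ρ : ℂ} (hf : AnalyticAt ℂ f (s, ρ)) :
    deriv (deriv fun ρ => f (s, ρ)) ρ = QA_D2 (QA_D2 f) (s, ρ) := by
  have hcont : Tendsto (fun ρ' : ℂ => ((s, ρ') : ℂ × ℂ)) (𝓝 ρ) (𝓝 (s, ρ)) :=
    Continuous.tendsto (by fun_prop) ρ
  have h1 : (deriv fun ρ => f (s, ρ)) =ᶠ[𝓝 ρ] fun ρ' => QA_D2 f (s, ρ') := by
    filter_upwards [hcont.eventually hf.eventually_analyticAt] with ρ' h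
    exact (QA_has_D2 h).deriv
  rw [h1.deriv_eq]
  exact (QA_has_D2 (QA_an_D2 hf)).deriv

private theorem QA_an_dd {f : ℂ × ℂ → ℂ} {s : ℂ} (hf : AnalyticAt ℂ f (s, 0)) :
    AnalyticAt ℂ (fun s => deriv (deriv fun ρ => f (s, ρ)) 0) s := by
  have hcont : Tendsto (fun s' : ℂ => ((s', 0) : ℂ × ℂ)) (𝓝 s) (𝓝 (s, 0)) :=
    Continuous.tendsto (by fun_prop) s
  have h1 : (fun s => QA_D2 (QA_D2 f) (s, 0)) =ᶠ[𝓝 s]
      (fun s => deriv (deriv fun ρ => f (s, ρ)) 0) := by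
    filter_upwards [hcont.eventually hf.eventually_analyticAt] with s' h
    exact (QA_dd h).symm
  have h3 : AnalyticAt ℂ (fun s' : ℂ => ((s', 0) : ℂ × ℂ)) s := by fun_prop
  have h2 : AnalyticAt ℂ (fun s' : ℂ => QA_D2 (QA_D2 f) (s', 0)) s :=
    AnalyticAt.fun_comp (f := fun s' : ℂ => ((s', 0) : ℂ × ℂ)) (QA_an_D2 (QA_an_D2 hf)) h3
  exact h2.congr h1

private theorem QA_jet (L : ℂ × ℂ → ℂ) (h : ℝ) (x c V : ℕ → ℝ) (n : ℕ) (hV : V n ≠ 0) (l : ℂ) :
    deriv (fun s => deriv (deriv fun γ => Ln L h x c V n (s, γ)) 0) l =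
      (c n : ℂ) ^ 2 * deriv (fun s => deriv (deriv fun ρ => L (s, ρ)) 0) (pt h x V n l) := by
  have hVC : (V n : ℂ) ≠ 0 := by exact_mod_cast hV
  have h1 : ∀ s : ℂ, (deriv fun γ => Ln L h x c V n (s, γ)) =
      fun γ => (c n : ℂ) / V n * deriv (fun ρ => L (pt h x V n s, ρ)) (c n * γ) := by
    intro s
    funext γ
    unfold Ln
    have e1 := deriv_comp_mul_left (c n : ℂ) (fun ρ => L (pt h x V n s, ρ)) γ
    rw [smul_eq_mul] at e1
    rw [deriv_div_const, deriv_sub_const, e1]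
    ring
  have h2 : ∀ s : ℂ, deriv (deriv fun γ => Ln L h x c V n (s, γ)) 0 =
      (c n : ℂ) ^ 2 / V n * deriv (deriv fun ρ => L (pt h x V n s, ρ)) 0 := by
    intro s
    have e1 := deriv_comp_mul_left (c n : ℂ) (deriv fun ρ => L (pt h x V n s, ρ)) 0
    rw [smul_eq_mul, mul_zero] at e1
    rw [h1 s, deriv_const_mul_field, e1]
    ring
  have h3 : (fun s => deriv (deriv fun γ => Ln L h x c V n (s, γ)) 0) =
      fun s : ℂ => (c n : ℂ) ^ 2 / V n *
        (fun t => deriv (deriv fun ρ => L (t, ρ)) 0) ((x n + h * I : ℂ) + V n * s) := by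
    funext s
    rw [h2 s]
    rfl
  have h4 := deriv_comp_mul_left (V n : ℂ)
    (fun w => (fun t => deriv (deriv fun ρ => L (t, ρ)) 0) ((x n + h * I : ℂ) + w)) l
  have h5 := deriv_comp_const_add (fun t => deriv (deriv fun ρ => L (t, ρ)) 0)
    (x n + h * I : ℂ) (V n * l : ℂ)
  rw [smul_eq_mul, h5] at h4
  rw [h3, deriv_const_mul_field, h4]
  unfold pt
  field_simp

private theorem QA_pt_im (h : ℝ) (x V : ℕ → ℝ) (n : ℕ) (l : ℂ) :
    (pt h x V n l).im = h + V n * l.im := by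
  unfold pt
  simp

variable {Y : Sys} {h R C0 : ℝ} {v : ℂ → ℝ} {G L : ℂ × ℂ → ℂ} {U : Ultrafilter ℕ} {β C1 : ℝ}
  {c V : ℕ → ℝ}

/-- the constant in the bound of the potential -/
def C3f (β C1 : ℝ) : ℝ := 145 * (4 * C1) ^ (2 / β)

private theorem QA_Rg_mono (HW : Win v U β C1 c V) {y y' : ℝ} (hy : 0 ≤ y) (hyy : y ≤ y') :
    Rg β C1 y ≤ Rg β C1 y' := by
  have hC := HW.C1_one
  have hβ := HW.β_pos
  unfold Rg
  have h1 : y / (2 * C1) ≤ y' / (2 * C1) := div_le_div_of_nonneg_right hyy (by linarith)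
  exact min_le_min h1 (Real.rpow_le_rpow (by positivity) h1 (by positivity))

private theorem QA_gr_anti (HW : Win v U β C1 c V) {C y y' : ℝ} (hC : 0 ≤ C) (hy : 0 < y)
    (hyy : y ≤ y') : gr β C y' ≤ gr β C y := by
  have hβ := HW.β_pos
  unfold gr
  refine mul_le_mul_of_nonneg_left (max_le_max ?_ ?_) hC
  · exact Real.rpow_le_rpow_of_nonpos hy hyy (by norm_num)
  · refine Real.rpow_le_rpow_of_nonpos hy hyy ?_
    rw [neg_div]
    have : 0 < 2 / β := by positivity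
    linarith

private theorem QA_C3_nonneg (HW : Win v U β C1 c V) : 0 ≤ C3f β C1 := by
  have hC := HW.C1_one
  unfold C3f
  positivity

/-- `1 / Rg (y / 2) ^ 2 ≤ (4 C1) ^ (2 / β) max (y ^ (-2)) (y ^ (-2 / β))` -/
theorem Rg_inv (HW : Win v U β C1 c V) {y : ℝ} (hy : 0 < y) :
    145 / Rg β C1 (y / 2) ^ 2 ≤ gr β (C3f β C1) y := by
  have hC := HW.C1_one
  have hβ := HW.β_pos
  have hβ1 := HW.β_le
  have hC4 : (1 : ℝ) ≤ 4 * C1 := by linarith
  have h2b : (2 : ℝ) ≤ 2 / β := by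
    rw [le_div_iff₀ hβ]
    linarith
  have ha : 0 < y / (4 * C1) := by positivity
  have e0 : y / 2 / (2 * C1) = y / (4 * C1) := by
    field_simp
    norm_num
  have hp1 : (0 : ℝ) < y ^ (-(2:ℝ)) := Real.rpow_pos_of_pos hy _
  have hp2 : (0 : ℝ) < y ^ (-(2:ℝ) / β) := Real.rpow_pos_of_pos hy _
  have hp3 : (0 : ℝ) < (4 * C1) ^ (2 / β) := Real.rpow_pos_of_pos (by linarith) _
  unfold Rg gr C3f
  rw [e0]
  rcases min_cases (y / (4 * C1)) ((y / (4 * C1)) ^ (1 / β)) with ⟨h1, -⟩ | ⟨h1, -⟩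
  · rw [h1]
    have e1 : 145 / (y / (4 * C1)) ^ 2 = 145 * (4 * C1) ^ (2 : ℝ) * y ^ (-(2:ℝ)) := by
      rw [Real.rpow_neg hy.le, Real.rpow_two, Real.rpow_two]
      field_simp
    rw [e1]
    have e2 : (4 * C1) ^ (2 : ℝ) ≤ (4 * C1) ^ (2 / β) := Real.rpow_le_rpow_of_exponent_le hC4 h2b
    calc 145 * (4 * C1) ^ (2 : ℝ) * y ^ (-(2:ℝ)) ≤ 145 * (4 * C1) ^ (2 / β) * y ^ (-(2:ℝ)) := by
          gcongr
      _ ≤ 145 * (4 * C1) ^ (2 / β) * max (y ^ (-(2:ℝ))) (y ^ (-(2:ℝ) / β)) :=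
          mul_le_mul_of_nonneg_left (le_max_left _ _) (by positivity)
  · rw [h1]
    have e1 : 145 / ((y / (4 * C1)) ^ (1 / β)) ^ 2 =
        145 * (4 * C1) ^ (2 / β) * y ^ (-(2:ℝ) / β) := by
      have e2 : ((y / (4 * C1)) ^ (1 / β)) ^ 2 = (y / (4 * C1)) ^ (2 / β) := by
        rw [← Real.rpow_natCast, ← Real.rpow_mul ha.le]
        congr 1
        push_cast
        ring
      rw [e2, Real.div_rpow hy.le (by linarith), neg_div, Real.rpow_neg hy.le]
      field_simp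
    rw [e1]
    exact mul_le_mul_of_nonneg_left (le_max_right _ _) (by positivity)

/-- (M6a) THE BOUND OF THE POTENTIAL, uniform in the place.

Proof. `hB.qa` times `c n ^ 2`: `‖qn l‖ ≤ C0 c n ^ 2 + 3 ‖∂ₛ∂²_γ Ln (s, 0)‖` at `s = l` (chain rule:
`Ln (s, γ) = (L (pt s, c γ) - (x + h I)) / V`, so `∂²_γ Ln (s, 0) = c² (∂²_ρ L) (pt s, 0) / V` and
`∂ₛ` of it is `c² (∂ₜ∂²_ρ L) (pt s, 0)`). By `base_est` (with `4 K` instead of `K`) and Cauchy's estimate
for the second derivative at `0` (the function `g γ = Ln (s, γ) - s` satisfies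
`‖g γ‖ ≤ 8 y ‖γ‖² / Rg y ^ 2`, so `‖g'' 0‖ ≤ 16 y / Rg y ^ 2`, by letting the radius of the circle in
Cauchy's estimate tend to `0`, or from `g γ / γ² `), for `y = - Im s`. For `‖s - l‖ ≤ y₀ / 2`, `y₀ = - Im l`:
`y ∈ [y₀ / 2, 3 y₀ / 2]`, `Rg` is monotone, so `‖∂²_γ Ln (s, 0)‖ ≤ 24 y₀ / Rg (y₀ / 2) ^ 2`, and Cauchy's
estimate on the disc of radius `y₀ / 2` gives `‖∂ₛ∂²_γ Ln (l, 0)‖ ≤ 48 / Rg (y₀ / 2) ^ 2`. So
`‖qn l‖ ≤ 144 / Rg (y₀ / 2) ^ 2 + C0 c n ^ 2 ≤ 145 / Rg (y₀ / 2) ^ 2` for almost all `n`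
(`C0 c n ^ 2 ≤ 1 / Rg (K / 2) ^ 2`); `Rg_inv`. -/
theorem qn_bdd (hB : Base Y h R C0 v G L) (HW : Win v U β C1 c V) {K : ℝ} (hK : 1 ≤ K) :
    ∀ᶠ n in (U : Filter ℕ), ∀ x : ℕ → ℝ, ∀ l : ℂ, 1 / K ≤ -l.im → -l.im ≤ K →
      ‖qn Y h x c V n l‖ ≤ gr β (C3f β C1) (-l.im) := by
  have hK0 : 0 < K := by linarith
  have hK4 : 1 ≤ 4 * K := by linarith
  have hRK : 0 < Rg β C1 (K / 2) := Rg_pos HW (by linarith)
  have e1 : ∀ᶠ n in (U : Filter ℕ), C0 * c n ^ 2 < 1 / Rg β C1 (K / 2) ^ 2 := by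
    have h1 : Tendsto (fun n => C0 * c n ^ 2) U (𝓝 (C0 * 0 ^ 2)) :=
      (HW.c_lim.pow 2).const_mul C0
    have h2 : C0 * (0 : ℝ) ^ 2 = 0 := by ring
    rw [h2] at h1
    exact h1.eventually (gt_mem_nhds (by positivity))
  have e2 : ∀ᶠ n in (U : Filter ℕ), V n * K < h := by
    have h1 : Tendsto (fun n => V n * K) U (𝓝 (0 * K)) := HW.V_lim.mul_const K
    rw [zero_mul] at h1
    exact h1.eventually (gt_mem_nhds hB.h_pos)
  filter_upwards [e1, e2, base_est hB HW hK4, mem_base hB HW hK4] with n h1 h2 h3 h4 x l hl1 hl2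
  have hy0 : 0 < -l.im := lt_of_lt_of_le (by positivity) hl1
  have hKK : 1 / (4 * K) ≤ (-l.im) / 2 := by
    have e3 : 1 / (4 * K) ≤ 1 / (2 * K) := one_div_le_one_div_of_le (by positivity) (by linarith)
    have e4 : 1 / (2 * K) = (1 / K) / 2 := by
      field_simp
    linarith
  have hR0 : 0 < Rg β C1 ((-l.im) / 2) := Rg_pos HW (by linarith)
  have hrange : ∀ s : ℂ, s ∈ closedBall l ((-l.im) / 2) →
      (-l.im) / 2 ≤ -s.im ∧ -s.im ≤ 3 * (-l.im) / 2 := by
    intro s hs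
    rw [mem_closedBall, dist_eq_norm] at hs
    have e3 := (abs_im_le_norm (s - l)).trans hs
    rw [sub_im, abs_le] at e3
    constructor <;> linarith [e3.1, e3.2]
  have hmem : ∀ s : ℂ, s ∈ closedBall l ((-l.im) / 2) → ∀ γ : ℂ, ‖γ‖ ≤ Rg β C1 (-s.im) →
      AnalyticAt ℂ (Ln L h x c V n) (s, γ) := by
    intro s hs γ hγ
    obtain ⟨g1, g2⟩ := hrange s hs
    exact Ln_an hB n x (h4 x s γ (by linarith) (by linarith) hγ)
  -- the second derivative
  have hH : ∀ s : ℂ, s ∈ closedBall l ((-l.im) / 2) →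
      ‖deriv (deriv fun γ => Ln L h x c V n (s, γ)) 0‖ ≤
        24 * (-l.im) / Rg β C1 ((-l.im) / 2) ^ 2 := by
    intro s hs
    obtain ⟨g1, g2⟩ := hrange s hs
    have hys : 0 < -s.im := by linarith
    have hRs : 0 < Rg β C1 (-s.im) := Rg_pos HW hys
    have hr : 0 < Rg β C1 (-s.im) / 4 := by positivity
    have hd : DifferentiableOn ℂ (fun γ => Ln L h x c V n (s, γ) - s)
        (closedBall 0 (Rg β C1 (-s.im) / 4)) := by
      intro γ hγ
      rw [mem_closedBall_zero_iff] at hγ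
      exact ((QA_has_D2 (hmem s hs γ (by linarith))).differentiableAt.sub_const
        s).differentiableWithinAt
    have e3 := Complex.norm_iteratedDeriv_le_of_forall_mem_sphere_norm_le 2 hr
      (hd.diffContOnCl_ball subset_rfl)
      (C := 8 * (-s.im) * (Rg β C1 (-s.im) / 4) ^ 2 / Rg β C1 (-s.im) ^ 2) (by
        intro γ hγ
        rw [mem_sphere_zero_iff_norm] at hγ
        have e4 := h3 x s γ (by linarith) (by linarith) (by rw [hγ]; linarith)
        rw [hγ] at e4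
        exact e4)
    have e5 : iteratedDeriv 2 (fun γ => Ln L h x c V n (s, γ) - s) 0 =
        deriv (deriv fun γ => Ln L h x c V n (s, γ)) 0 := by
      have e6 : (deriv fun γ => Ln L h x c V n (s, γ) - s) =
          deriv fun γ => Ln L h x c V n (s, γ) := by
        funext γ
        exact deriv_sub_const s
      rw [iteratedDeriv_succ, iteratedDeriv_one, e6]
    rw [e5] at e3
    have e7 : ((2 : ℕ).factorial : ℝ) *
        (8 * (-s.im) * (Rg β C1 (-s.im) / 4) ^ 2 / Rg β C1 (-s.im) ^ 2) /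
        (Rg β C1 (-s.im) / 4) ^ 2 = 16 * (-s.im) / Rg β C1 (-s.im) ^ 2 := by
      rw [Nat.factorial_two]
      push_cast
      field_simp
      ring
    rw [e7] at e3
    have e8 : Rg β C1 ((-l.im) / 2) ≤ Rg β C1 (-s.im) :=
      QA_Rg_mono HW (by linarith) g1
    refine e3.trans ?_
    exact div_le_div₀ (by linarith) (by linarith) (by positivity)
      (pow_le_pow_left₀ hR0.le e8 2)
  have hHd : DifferentiableOn ℂ (fun s => deriv (deriv fun γ => Ln L h x c V n (s, γ)) 0)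
      (closedBall l ((-l.im) / 2)) := by
    intro s hs
    refine (QA_an_dd (hmem s hs 0 ?_)).differentiableAt.differentiableWithinAt
    rw [norm_zero]
    obtain ⟨g1, g2⟩ := hrange s hs
    exact (Rg_pos HW (by linarith)).le
  have hHl := Complex.norm_deriv_le_of_forall_mem_sphere_norm_le (half_pos hy0)
    (hHd.diffContOnCl_ball subset_rfl) (fun s hs => hH s (sphere_subset_closedBall hs))
  have e9 : 24 * (-l.im) / Rg β C1 ((-l.im) / 2) ^ 2 / ((-l.im) / 2) =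
      48 / Rg β C1 ((-l.im) / 2) ^ 2 := by
    have hne : l.im ≠ 0 := by
      intro h0
      rw [h0] at hy0
      simp at hy0
    field_simp
    norm_num
  rw [e9, QA_jet L h x c V n (HW.V_pos n).ne' l] at hHl
  have him := QA_pt_im h x V n l
  have hVn := HW.V_pos n
  have e10 : V n * (-l.im) ≤ V n * K := mul_le_mul_of_nonneg_left hl2 hVn.le
  have hqa := hB.qa (pt h x V n l) (by rw [him]; linarith) (by
    rw [him]
    have := mul_pos hVn hy0
    linarith)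
  have e11 : qn Y h x c V n l = (c n : ℂ) ^ 2 * (Y.Q (pt h x V n l) + 3 *
      deriv (fun s => deriv (deriv (fun ρ => L (s, ρ))) 0) (pt h x V n l)) - 3 *
      ((c n : ℂ) ^ 2 * deriv (fun s => deriv (deriv fun ρ => L (s, ρ)) 0) (pt h x V n l)) := by
    unfold qn
    ring
  have hcn : ‖(c n : ℂ) ^ 2‖ = c n ^ 2 := by
    rw [norm_pow, norm_real, Real.norm_of_nonneg (HW.c_pos n).le]
  have e12 : ‖qn Y h x c V n l‖ ≤ c n ^ 2 * C0 + 3 * (48 / Rg β C1 ((-l.im) / 2) ^ 2) := by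
    rw [e11]
    refine (norm_sub_le _ _).trans ?_
    rw [norm_mul, hcn]
    refine add_le_add (mul_le_mul_of_nonneg_left hqa (by positivity)) ?_
    rw [norm_mul]
    have e13 : ‖(3 : ℂ)‖ = 3 := by simp
    rw [e13]
    exact mul_le_mul_of_nonneg_left hHl (by norm_num)
  have e14 : 1 / Rg β C1 (K / 2) ^ 2 ≤ 1 / Rg β C1 ((-l.im) / 2) ^ 2 := by
    refine one_div_le_one_div_of_le (by positivity) (pow_le_pow_left₀ hR0.le ?_ 2)
    exact QA_Rg_mono HW (by linarith) (by linarith)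
  refine le_trans ?_ (Rg_inv HW hy0)
  have e15 : (145 : ℝ) / Rg β C1 ((-l.im) / 2) ^ 2 = 1 / Rg β C1 ((-l.im) / 2) ^ 2 +
      3 * (48 / Rg β C1 ((-l.im) / 2) ^ 2) := by ring
  rw [e15]
  linarith

/-- `qn` is analytic at the points of any bounded depth. -/
theorem qn_an (hB : Base Y h R C0 v G L) (HW : Win v U β C1 c V) (K : ℝ) :
    ∀ᶠ n in (U : Filter ℕ), ∀ x : ℕ → ℝ, ∀ l : ℂ, l.im < 0 → -l.im ≤ K →
      AnalyticAt ℂ (qn Y h x c V n) l := by
  have e2 : ∀ᶠ n in (U : Filter ℕ), V n * K < h := by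
    have h1 : Tendsto (fun n => V n * K) U (𝓝 (0 * K)) := HW.V_lim.mul_const K
    rw [zero_mul] at h1
    exact h1.eventually (gt_mem_nhds hB.h_pos)
  filter_upwards [e2] with n h2 x l hl hlK
  have hVn := HW.V_pos n
  have him := QA_pt_im h x V n l
  have hm : pt h x V n l ∈ St (-h) h := by
    have e3 : V n * (-l.im) ≤ V n * K := mul_le_mul_of_nonneg_left hlK hVn.le
    have e4 := mul_pos hVn (neg_pos.2 hl)
    have hh := hB.h_pos
    constructor
    · rw [him]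
      linarith
    · rw [him]
      linarith
  have h3 : AnalyticAt ℂ (fun z => pt h x V n z) l := by
    unfold pt
    fun_prop
  unfold qn
  exact analyticAt_const.mul (AnalyticAt.fun_comp (f := fun z => pt h x V n z) (hB.qan _ hm) h3)

theorem qn_LB (hB : Base Y h R C0 v G L) (HW : Win v U β C1 c V) (x : ℕ → ℝ) {l : ℂ}
    (hl : l ∈ Hm) : LB U (fun n => qn Y h x c V n) l := by
  have hl' : l.im < 0 := hl
  have hy0 : 0 < -l.im := neg_pos.2 hl'
  obtain ⟨K, hK1, hK2, hK3⟩ : ∃ K : ℝ, 1 ≤ K ∧ 1 / K ≤ (-l.im) / 2 ∧ 3 * (-l.im) / 2 ≤ K := by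
    refine ⟨max 1 (max (2 / (-l.im)) (3 * (-l.im) / 2)), le_max_left _ _, ?_, ?_⟩
    · have e1 : 2 / (-l.im) ≤ max 1 (max (2 / (-l.im)) (3 * (-l.im) / 2)) :=
        (le_max_left _ _).trans (le_max_right _ _)
      have e2 := one_div_le_one_div_of_le (by positivity : (0:ℝ) < 2 / (-l.im)) e1
      refine e2.trans (le_of_eq ?_)
      rw [one_div_div]
    · exact (le_max_right _ _).trans (le_max_right _ _)
  refine ⟨(-l.im) / 2, by positivity, gr β (C3f β C1) ((-l.im) / 2), ?_⟩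
  filter_upwards [qn_bdd hB HW hK1, qn_an hB HW K] with n h1 h2
  have hrange : ∀ s : ℂ, s ∈ ball l ((-l.im) / 2) →
      (-l.im) / 2 ≤ -s.im ∧ -s.im ≤ 3 * (-l.im) / 2 := by
    intro s hs
    rw [mem_ball, dist_eq_norm] at hs
    have e3 := (abs_im_le_norm (s - l)).trans hs.le
    rw [sub_im, abs_le] at e3
    constructor <;> linarith [e3.1, e3.2]
  refine ⟨fun s hs => ?_, fun s hs => ?_⟩
  · obtain ⟨g1, g2⟩ := hrange s hs
    exact h2 x s (by linarith) (by linarith)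
  · obtain ⟨g1, g2⟩ := hrange s hs
    refine (h1 x s (by linarith) (by linarith)).trans ?_
    exact QA_gr_anti HW (QA_C3_nonneg HW) (by positivity) g1

private theorem QA_open_Hm : IsOpen Hm := isOpen_lt continuous_im continuous_const

private theorem QA_qI_eq (Y : Sys) (h : ℝ) (U : Ultrafilter ℕ) (x c V : ℕ → ℝ) :
    EqOn (fun p => ulimC U fun n => qn Y h x c V n p) (qI Y h U x c V) Hm := by
  intro l hl
  have hl' : l.im < 0 := hl
  unfold qI
  rw [if_pos hl']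

theorem qI_hol (hB : Base Y h R C0 v G L) (HW : Win v U β C1 c V) (x : ℕ → ℝ) :
    DifferentiableOn ℂ (qI Y h U x c V) Hm :=
  (montel1 QA_open_Hm fun _ hp => qn_LB hB HW x hp).1.congr fun _ hl =>
    (QA_qI_eq Y h U x c V hl).symm

theorem qI_unif (hB : Base Y h R C0 v G L) (HW : Win v U β C1 c V) (x : ℕ → ℝ) :
    TendstoLocallyUniformlyOn (fun n => qn Y h x c V n) (qI Y h U x c V) U Hm :=
  (montel1 QA_open_Hm fun _ hp => qn_LB hB HW x hp).2.congr_right (QA_qI_eq Y h U x c V)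

theorem qI_bound (hB : Base Y h R C0 v G L) (HW : Win v U β C1 c V) (x : ℕ → ℝ) {l : ℂ}
    (hl : l ∈ Hm) : ‖qI Y h U x c V l‖ ≤ gr β (C3f β C1) (-l.im) := by
  have hl' : l.im < 0 := hl
  have hy0 : 0 < -l.im := neg_pos.2 hl'
  have ht : Tendsto (fun n => qn Y h x c V n l) U (𝓝 (qI Y h U x c V l)) :=
    (qI_unif hB HW x).tendsto_at hl
  refine le_of_tendsto ht.norm ?_
  obtain ⟨K, hK1, hK2, hK3⟩ : ∃ K : ℝ, 1 ≤ K ∧ 1 / K ≤ -l.im ∧ -l.im ≤ K := by
    refine ⟨max 1 (max (1 / (-l.im)) (-l.im)), le_max_left _ _, ?_, ?_⟩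
    · have e1 : 1 / (-l.im) ≤ max 1 (max (1 / (-l.im)) (-l.im)) :=
        (le_max_left _ _).trans (le_max_right _ _)
      have e2 := one_div_le_one_div_of_le (by positivity : (0:ℝ) < 1 / (-l.im)) e1
      refine e2.trans (le_of_eq ?_)
      rw [one_div_one_div]
    · exact (le_max_right _ _).trans (le_max_right _ _)
  filter_upwards [qn_bdd hB HW hK1] with n h1
  exact h1 x l hK2 hK3

theorem qI_out (Y : Sys) (h : ℝ) (U : Ultrafilter ℕ) (x c V : ℕ → ℝ) {l : ℂ}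
    (hl : l ∉ Hm) : qI Y h U x c V l = 0 := by
  have hl' : ¬ l.im < 0 := hl
  unfold qI
  rw [if_neg hl']

/-- change of place by `V n s` -/
theorem qI_shift (hB : Base Y h R C0 v G L) (HW : Win v U β C1 c V) (x : ℕ → ℝ) (s : ℝ) :
    qI Y h U (fun n => x n + V n * s) c V = fun l => qI Y h U x c V (l + s) := by
  funext l
  have h1 : (l + s).im = l.im := by simp
  have h2 : (fun n => qn Y h (fun n => x n + V n * s) c V n l) =
      fun n => qn Y h x c V n (l + s) := by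
    funext n
    have h3 : pt h (fun n => x n + V n * s) V n l = pt h x V n (l + s) := by
      unfold pt
      push_cast
      ring
    unfold qn
    rw [h3]
  unfold qI
  rw [h1, h2]

/-- the potential is the jet of the label. Proof. `hB.qa` times `c n ^ 2 → 0` and convergence of the
derivatives: `∂²_γ Ln (s, 0) → ∂²_γ LI (s, 0)` uniformly for `s` near `l`, then of `∂ₛ`. -/
theorem qI_LI (hB : Base Y h R C0 v G L) (HW : Win v U β C1 c V) (x : ℕ → ℝ) {l : ℂ}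
    (hl : l ∈ Hm) : qI Y h U x c V l =
      -3 * deriv (fun s => deriv (deriv fun γ => LI L h U x c V (s, γ)) 0) l := by
  have hl' : l.im < 0 := hl
  have hy0 : 0 < -l.im := neg_pos.2 hl'
  have hq : Tendsto (fun n => qn Y h x c V n l) U (𝓝 (qI Y h U x c V l)) :=
    (qI_unif hB HW x).tendsto_at hl
  have hopen : IsOpen (DI v U c V) := DI_open hB.nv hB.R_pos HW
  -- the compact set
  have hKc : IsCompact (closedBall l ((-l.im) / 2) ×ˢ ({0} : Set ℂ)) :=
    (isCompact_closedBall _ _).prod isCompact_singleton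
  have hKD : closedBall l ((-l.im) / 2) ×ˢ ({0} : Set ℂ) ⊆ DI v U c V := by
    rintro ⟨s, γ⟩ ⟨hs, hγ⟩
    have hγ' : γ = 0 := hγ
    have hs' : s ∈ closedBall l ((-l.im) / 2) := hs
    rw [hγ']
    refine DI_zero hB.nv hB.R_pos HW ?_
    rw [mem_closedBall, dist_eq_norm] at hs'
    have e3 := (abs_im_le_norm (s - l)).trans hs'
    rw [sub_im, abs_le] at e3
    linarith [e3.2]
  have hlim : Tendsto (fun n => deriv (fun s => deriv (deriv fun γ => Ln L h x c V n (s, γ)) 0) l)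
      U (𝓝 (deriv (fun s => deriv (deriv fun γ => LI L h U x c V (s, γ)) 0) l)) := by
    rw [Metric.tendsto_nhds]
    intro ε hε
    have hε' : 0 < ε * (-l.im) / 8 := by positivity
    have hun := unif_deriv hopen (LI_an hB HW x) (fun p hp => Ln_LB hB HW x hp)
      (LI_unif hB HW x) hKc hKD hε'
    filter_upwards [hun, mem_DKU hB HW hKc hKD] with n h1 h2
    have h3 := cauchy_two (F := fun s => deriv (deriv fun γ => Ln L h x c V n (s, γ)) 0)
      (G := fun s => deriv (deriv fun γ => LI L h U x c V (s, γ)) 0) (z := l)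
      (r := (-l.im) / 2) (η := ε * (-l.im) / 8) (by positivity)
      (fun w hw => (QA_an_dd (Ln_an hB n x (h2 x (w, 0) ⟨hw, rfl⟩))).differentiableAt)
      (fun w hw => (QA_an_dd (LI_an hB HW x (w, 0) (hKD ⟨hw, rfl⟩))).differentiableAt)
      (fun w hw => (h1 (w, 0) ⟨hw, rfl⟩).2.2.2.le)
    rw [dist_eq_norm]
    refine lt_of_le_of_lt h3.1 ?_
    have h4 : 2 * (ε * (-l.im) / 8) / ((-l.im) / 2) = ε / 2 := by
      have hne : l.im ≠ 0 := hl'.ne
      field_simp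
      norm_num
    rw [h4]
    linarith
  -- the relation for finite n
  have hzero : Tendsto (fun n => qn Y h x c V n l + 3 *
      deriv (fun s => deriv (deriv fun γ => Ln L h x c V n (s, γ)) 0) l) U (𝓝 0) := by
    have h0 : Tendsto (fun n => c n ^ 2 * C0) U (𝓝 (0 ^ 2 * C0)) :=
      (HW.c_lim.pow 2).mul_const C0
    have h00 : (0 : ℝ) ^ 2 * C0 = 0 := by ring
    rw [h00] at h0
    refine squeeze_zero_norm' ?_ h0
    have e2 : ∀ᶠ n in (U : Filter ℕ), V n * (-l.im) < h := by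
      have h1 : Tendsto (fun n => V n * (-l.im)) U (𝓝 (0 * (-l.im))) := HW.V_lim.mul_const _
      rw [zero_mul] at h1
      exact h1.eventually (gt_mem_nhds hB.h_pos)
    filter_upwards [e2] with n h2
    have hVn := HW.V_pos n
    have him := QA_pt_im h x V n l
    have hqa := hB.qa (pt h x V n l) (by rw [him]; linarith) (by
      rw [him]
      have := mul_pos hVn hy0
      linarith)
    rw [QA_jet L h x c V n hVn.ne' l]
    have e11 : qn Y h x c V n l + 3 * ((c n : ℂ) ^ 2 *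
        deriv (fun s => deriv (deriv fun ρ => L (s, ρ)) 0) (pt h x V n l)) =
        (c n : ℂ) ^ 2 * (Y.Q (pt h x V n l) + 3 *
        deriv (fun s => deriv (deriv (fun ρ => L (s, ρ))) 0) (pt h x V n l)) := by
      unfold qn
      ring
    have hcn : ‖(c n : ℂ) ^ 2‖ = c n ^ 2 := by
      rw [norm_pow, norm_real, Real.norm_of_nonneg (HW.c_pos n).le]
    rw [e11, norm_mul, hcn]
    exact mul_le_mul_of_nonneg_left hqa (by positivity)
  have h5 := tendsto_nhds_unique hzero (hq.add (hlim.const_mul 3))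
  linear_combination -h5

/-- the family of limits is invariant under real translations -/
theorem WL_trans (hB : Base Y h R C0 v G L) (HW : Win v U β C1 c V) {q : ℂ → ℂ}
    (hq : q ∈ WL Y h U c V) (s : ℝ) : (fun z => q (z + s)) ∈ WL Y h U c V := by
  obtain ⟨x, rfl⟩ := hq
  exact ⟨fun n => x n + V n * s, (qI_shift hB HW x s).symm⟩

end Pool.Agent.MP_ae5b4e_an_M
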