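import Pool.Agent.Lib.MP_ae5b4e_an_M.FnA
import Pool.Agent.Lib.MP_ae5b4e_an_NB5.StB

/-! # Section M: the node function for an almost constant potential (general version of NB5/StB) -/

noncomputable section

namespace Pool.Agent.MP_ae5b4e_an_M

open Complex Set Filter Topology Metric
open Pool.Agent.MP_ae5b4e_an_NB2 (Sys)
open PorTR (Hm)
open Pool.Agent.MP_ae5b4e_an_NB5 (ode_cmp)

/-! ### The comparison functions -/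

private def SA_c (p ζ : ℂ) : ℂ := C1f (p * ζ ^ 2)

private def SA_s (p ζ : ℂ) : ℂ := ζ * S1 (p * ζ ^ 2)

private def SA_k (p ζ : ℂ) : ℂ := 2 * ζ ^ 3 * deriv S1 (p * ζ ^ 2)

private theorem SA_dS (x : ℂ) : HasDerivAt S1 (deriv S1 x) x := (S1_diff x).hasDerivAt

private theorem SA_idS (x : ℂ) : 2 * x * deriv S1 x = C1f x - S1 x := by
  obtain ⟨s, hs, h⟩ := S1_hasDerivAt x
  rw [hs.deriv]
  exact h

private theorem SA_dd (x : ℂ) : HasDerivAt (deriv S1) (deriv (deriv S1) x) x := by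
  have h : Differentiable ℂ (deriv S1) := by
    have h1 : DifferentiableOn ℂ (deriv S1) univ := S1_diff.differentiableOn.deriv isOpen_univ
    intro y
    exact (h1 y (mem_univ y)).differentiableAt univ_mem
  exact (h x).hasDerivAt

private theorem SA_idd (x : ℂ) : 3 * deriv S1 x + 2 * x * deriv (deriv S1) x = -(S1 x) / 2 := by
  have h1 : HasDerivAt (fun x => 2 * x * deriv S1 x)
      (2 * 1 * deriv S1 x + 2 * x * deriv (deriv S1) x) x :=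
    ((hasDerivAt_id x).const_mul 2).mul (SA_dd x)
  have h2 : HasDerivAt (fun x => C1f x - S1 x) (-(S1 x) / 2 - deriv S1 x) x :=
    (C1f_hasDerivAt x).sub (SA_dS x)
  have h3 : (fun x => 2 * x * deriv S1 x) = fun x => C1f x - S1 x := funext SA_idS
  rw [h3] at h1
  have h4 := h1.unique h2
  linear_combination h4

private theorem SA_dsq (p ζ : ℂ) : HasDerivAt (fun ζ : ℂ => p * ζ ^ 2) (2 * p * ζ) ζ := by
  have h := (hasDerivAt_pow 2 ζ).const_mul p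
  convert! h using 1
  norm_num
  ring

private theorem SA_dc (p ζ : ℂ) : HasDerivAt (SA_c p) (-(p * SA_s p ζ)) ζ := by
  have h : HasDerivAt (fun ζ => C1f (p * ζ ^ 2)) _ ζ :=
    HasDerivAt.comp ζ (h₂ := C1f) (C1f_hasDerivAt (p * ζ ^ 2)) (SA_dsq p ζ)
  unfold SA_c
  convert! h using 1
  unfold SA_s
  ring

private theorem SA_ds (p ζ : ℂ) : HasDerivAt (SA_s p) (SA_c p ζ) ζ := by
  have h0 : HasDerivAt (fun ζ => S1 (p * ζ ^ 2)) _ ζ :=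
    HasDerivAt.comp ζ (h₂ := S1) (SA_dS (p * ζ ^ 2)) (SA_dsq p ζ)
  have h : HasDerivAt (fun ζ => ζ * S1 (p * ζ ^ 2)) _ ζ := (hasDerivAt_id ζ).mul h0
  unfold SA_s
  convert! h using 1
  have h1 := SA_idS (p * ζ ^ 2)
  unfold SA_c
  simp only [id]
  linear_combination -h1

private theorem SA_dk (p ζ : ℂ) : HasDerivAt (SA_k p) (-(ζ * SA_s p ζ)) ζ := by
  have h0 : HasDerivAt (fun ζ => deriv S1 (p * ζ ^ 2)) _ ζ :=
    HasDerivAt.comp ζ (h₂ := deriv S1) (SA_dd (p * ζ ^ 2)) (SA_dsq p ζ)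
  have h : HasDerivAt (fun ζ => 2 * ζ ^ 3 * deriv S1 (p * ζ ^ 2)) _ ζ :=
    ((hasDerivAt_pow 3 ζ).const_mul 2).mul h0
  unfold SA_k
  convert! h using 1
  have h1 := SA_idd (p * ζ ^ 2)
  unfold SA_s
  push_cast
  linear_combination (-2 * ζ ^ 2) * h1

private theorem SA_pk (p ζ : ℂ) : p * SA_k p ζ = ζ * SA_c p ζ - SA_s p ζ := by
  have h := SA_idS (p * ζ ^ 2)
  unfold SA_k SA_c SA_s
  linear_combination ζ * h

private theorem SA_E2 (x : ℂ) :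
    2 * C1f x * deriv S1 x + S1 x ^ 2 + 2 * S1 x * deriv S1 x = E2 x := by
  have hc : Continuous (deriv S1) :=
    continuous_iff_continuousAt.2 fun y => (SA_dd y).continuousAt
  have hC := C1f_diff.continuous
  have hS := S1_diff.continuous
  have h1 : (fun x => 2 * C1f x * deriv S1 x + S1 x ^ 2 + 2 * S1 x * deriv S1 x) = E2 := by
    refine Continuous.ext_on (dense_compl_singleton (0 : ℂ)) ?_ E2_diff.continuous fun x hx => ?_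
    · exact (((continuous_const.mul hC).mul hc).add (hS.pow 2)).add
        ((continuous_const.mul hS).mul hc)
    · have hx0 : x ≠ 0 := hx
      rcases IsAlgClosed.exists_pow_nat_eq x (n := 2) (by norm_num) with ⟨w, rfl⟩
      have hw : w ≠ 0 := by
        rintro rfl
        exact hx0 (by simp)
      have e1 := SA_idS (w ^ 2)
      have e2 := C1f_S1 (w ^ 2)
      have e3 := E2_sq w
      have e4 := S1_sq w
      have hw4 : w ^ 4 ≠ 0 := pow_ne_zero 4 hw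
      refine mul_left_cancel₀ hw4 ?_
      rw [e3, ← e4]
      linear_combination (w ^ 2 * (C1f (w ^ 2) + S1 (w ^ 2))) * e1 + w ^ 2 * e2
  exact congrFun h1 x

private theorem SA_final (p ζ : ℂ) :
    ζ * SA_c p ζ * SA_k p ζ + ζ ^ 2 * SA_s p ζ ^ 2 + SA_s p ζ * SA_k p ζ =
      ζ ^ 4 * E2 (p * ζ ^ 2) := by
  have h := SA_E2 (p * ζ ^ 2)
  unfold SA_k SA_c SA_s
  linear_combination ζ ^ 4 * h

/-- the first comparison function -/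
private def SA_V (p p₁ ζ : ℂ) : ℂ := -(p₁ / 2) * (ζ ^ 2 * SA_s p ζ + SA_k p ζ)

private def SA_V' (p p₁ ζ : ℂ) : ℂ := -(p₁ / 2) * (ζ * SA_s p ζ + ζ ^ 2 * SA_c p ζ)

/-- the second comparison function -/
private def SA_U (p p₁ ζ : ℂ) : ℂ := p₁ / 2 * (ζ * SA_k p ζ)

private def SA_U' (p p₁ ζ : ℂ) : ℂ := p₁ / 2 * (SA_k p ζ - ζ ^ 2 * SA_s p ζ)

private theorem SA_dz2 (ζ : ℂ) : HasDerivAt (fun ζ : ℂ => ζ ^ 2) (2 * ζ) ζ := by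
  have h := hasDerivAt_pow 2 ζ
  convert! h using 1
  norm_num

private theorem SA_dV (p p₁ ζ : ℂ) : HasDerivAt (SA_V p p₁) (SA_V' p p₁ ζ) ζ := by
  have h := (((SA_dz2 ζ).mul (SA_ds p ζ)).add (SA_dk p ζ)).const_mul (-(p₁ / 2))
  unfold SA_V'
  convert! h using 1
  ring

private theorem SA_dV' (p p₁ ζ : ℂ) :
    HasDerivAt (SA_V' p p₁) (-(p * SA_V p p₁ ζ) - 2 * p₁ * ζ * SA_c p ζ) ζ := by
  have h := (((hasDerivAt_id ζ).mul (SA_ds p ζ)).add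
    ((SA_dz2 ζ).mul (SA_dc p ζ))).const_mul (-(p₁ / 2))
  have h1 := SA_pk p ζ
  unfold SA_V
  convert! h using 1
  simp only [id]
  linear_combination (p₁ / 2) * h1

private theorem SA_dU (p p₁ ζ : ℂ) : HasDerivAt (SA_U p p₁) (SA_U' p p₁ ζ) ζ := by
  have h := ((hasDerivAt_id ζ).mul (SA_dk p ζ)).const_mul (p₁ / 2)
  unfold SA_U'
  convert! h using 1
  simp only [id]
  ring

private theorem SA_dU' (p p₁ ζ : ℂ) :
    HasDerivAt (SA_U' p p₁) (-(p * SA_U p p₁ ζ) - 2 * p₁ * ζ * SA_s p ζ) ζ := by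
  have h := ((SA_dk p ζ).sub ((SA_dz2 ζ).mul (SA_ds p ζ))).const_mul (p₁ / 2)
  have h1 := SA_pk p ζ
  unfold SA_U
  convert! h using 1
  linear_combination (-(p₁ / 2) * ζ) * h1

/-! ### The comparison -/

private theorem SA_dneg {h : ℂ → ℂ} {a ζ : ℂ} (hh : HasDerivAt h a (-ζ)) :
    HasDerivAt (fun ζ => h (-ζ)) (-a) ζ := by
  have h1 := hh.comp ζ (hasDerivAt_neg ζ)
  convert! h1 using 1
  ring

private structure SA_D (Y : Sys) (W T : ℝ) (p p₁ : ℂ) (ρ ε μ : ℝ) : Prop where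
  hW : 1 ≤ W
  hT : 1 ≤ T
  bT : ∀ x : ℂ, ‖x‖ ≤ W ^ 3 → ‖C1f x‖ ≤ T ∧ ‖S1 x‖ ≤ T ∧ ‖deriv S1 x‖ ≤ T
  hρ1 : 1 ≤ ρ
  hρW : ρ ≤ W
  hp : ‖p‖ ≤ W
  hp₁ : ‖p₁‖ ≤ W
  ε0 : 0 < ε
  μ0 : 0 ≤ μ
  μ1 : μ ≤ 1
  on : Y.On (ball 0 ρ)
  q : ∀ ζ ∈ ball (0:ℂ) ρ, ‖Y.Q ζ - p‖ ≤ μ
  d : ∀ ζ ∈ ball (0:ℂ) ρ, ‖Y.Q ζ - Y.Q (-ζ) - 2 * ε * p₁ * ζ‖ ≤ ε * μ

private def SA_K (W : ℝ) : ℝ := W * Real.exp ((1 + (W + 1)) * W)

variable {Y : Sys} {W T : ℝ} {p p₁ : ℂ} {ρ ε μ : ℝ}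

private theorem SA_D.bz (D : SA_D Y W T p p₁ ρ ε μ) {ζ : ℂ} (hζ : ζ ∈ ball (0:ℂ) ρ) : ‖ζ‖ ≤ W :=
  (mem_ball_zero_iff.1 hζ).le.trans D.hρW

private theorem SA_neg {ζ : ℂ} (hζ : ζ ∈ ball (0:ℂ) ρ) : -ζ ∈ ball (0:ℂ) ρ := by
  rw [mem_ball_zero_iff, norm_neg]
  exact mem_ball_zero_iff.1 hζ

private theorem SA_D.bx (D : SA_D Y W T p p₁ ρ ε μ) {ζ : ℂ} (hζ : ζ ∈ ball (0:ℂ) ρ) :
    ‖p * ζ ^ 2‖ ≤ W ^ 3 := by
  rw [norm_mul, norm_pow]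
  calc ‖p‖ * ‖ζ‖ ^ 2 ≤ W * W ^ 2 :=
        mul_le_mul D.hp (pow_le_pow_left₀ (norm_nonneg _) (D.bz hζ) 2) (by positivity)
          (by linarith [D.hW])
    _ = W ^ 3 := by ring

private theorem SA_D.bc (D : SA_D Y W T p p₁ ρ ε μ) {ζ : ℂ} (hζ : ζ ∈ ball (0:ℂ) ρ) :
    ‖SA_c p ζ‖ ≤ T := (D.bT _ (D.bx hζ)).1

private theorem SA_D.bs (D : SA_D Y W T p p₁ ρ ε μ) {ζ : ℂ} (hζ : ζ ∈ ball (0:ℂ) ρ) :
    ‖SA_s p ζ‖ ≤ W * T := by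
  unfold SA_s
  rw [norm_mul]
  exact mul_le_mul (D.bz hζ) (D.bT _ (D.bx hζ)).2.1 (norm_nonneg _) (by linarith [D.hW])

private theorem SA_D.bk (D : SA_D Y W T p p₁ ρ ε μ) {ζ : ℂ} (hζ : ζ ∈ ball (0:ℂ) ρ) :
    ‖SA_k p ζ‖ ≤ 2 * W ^ 3 * T := by
  have hW := D.hW
  unfold SA_k
  rw [norm_mul, norm_mul, norm_pow]
  have h2 : ‖(2:ℂ)‖ = 2 := by simp
  rw [h2]
  exact mul_le_mul (mul_le_mul_of_nonneg_left
    (pow_le_pow_left₀ (norm_nonneg _) (D.bz hζ) 3) (by norm_num)) (D.bT _ (D.bx hζ)).2.2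
    (norm_nonneg _) (by positivity)

private theorem SA_D.bp (D : SA_D Y W T p p₁ ρ ε μ) : ‖p₁ / 2‖ ≤ W / 2 := by
  rw [norm_div]
  have h2 : ‖(2:ℂ)‖ = 2 := by simp
  rw [h2]
  have := D.hp₁
  linarith

private theorem SA_D.bV (D : SA_D Y W T p p₁ ρ ε μ) {ζ : ℂ} (hζ : ζ ∈ ball (0:ℂ) ρ) :
    ‖SA_V p p₁ ζ‖ ≤ 2 * W ^ 5 * T := by
  have hW := D.hW
  have hT := D.hT
  have h1 : ‖ζ ^ 2 * SA_s p ζ + SA_k p ζ‖ ≤ W ^ 2 * (W * T) + 2 * W ^ 3 * T := by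
    refine (norm_add_le _ _).trans (add_le_add ?_ (D.bk hζ))
    rw [norm_mul, norm_pow]
    exact mul_le_mul (pow_le_pow_left₀ (norm_nonneg _) (D.bz hζ) 2) (D.bs hζ) (norm_nonneg _)
      (by positivity)
  have h2 : ‖SA_V p p₁ ζ‖ ≤ W / 2 * (W ^ 2 * (W * T) + 2 * W ^ 3 * T) := by
    unfold SA_V
    rw [norm_mul, norm_neg]
    exact mul_le_mul D.bp h1 (norm_nonneg _) (by linarith)
  have h3 : W ^ 4 ≤ W ^ 5 := pow_le_pow_right₀ hW (by norm_num)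
  have h4 : W ^ 4 * T ≤ W ^ 5 * T := mul_le_mul_of_nonneg_right h3 (by linarith)
  have h5 : (0:ℝ) ≤ W ^ 5 * T := by positivity
  calc ‖SA_V p p₁ ζ‖ ≤ W / 2 * (W ^ 2 * (W * T) + 2 * W ^ 3 * T) := h2
    _ = 3 / 2 * (W ^ 4 * T) := by ring
    _ ≤ 2 * W ^ 5 * T := by linarith

private theorem SA_D.bU (D : SA_D Y W T p p₁ ρ ε μ) {ζ : ℂ} (hζ : ζ ∈ ball (0:ℂ) ρ) :
    ‖SA_U p p₁ ζ‖ ≤ 2 * W ^ 5 * T := by
  have hW := D.hW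
  have hT := D.hT
  have h1 : ‖ζ * SA_k p ζ‖ ≤ W * (2 * W ^ 3 * T) := by
    rw [norm_mul]
    exact mul_le_mul (D.bz hζ) (D.bk hζ) (norm_nonneg _) (by linarith)
  have h5 : (0:ℝ) ≤ W ^ 5 * T := by positivity
  calc ‖SA_U p p₁ ζ‖ ≤ W / 2 * (W * (2 * W ^ 3 * T)) := by
        unfold SA_U
        rw [norm_mul]
        exact mul_le_mul D.bp h1 (norm_nonneg _) (by linarith)
    _ = W ^ 5 * T := by ring
    _ ≤ 2 * W ^ 5 * T := by linarith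

private theorem SA_D.cmp (D : SA_D Y W T p p₁ ρ ε μ) {G : ℝ} {g y y' : ℂ → ℂ} (hG : 0 ≤ G)
    (hy : ∀ ζ ∈ ball (0:ℂ) ρ, HasDerivAt y (y' ζ) ζ)
    (hy' : ∀ ζ ∈ ball (0:ℂ) ρ, HasDerivAt y' (-(Y.Q ζ * y ζ) + g ζ) ζ) (h0 : y 0 = 0)
    (h0' : y' 0 = 0) (hg : ∀ ζ ∈ ball (0:ℂ) ρ, ‖g ζ‖ ≤ G) :
    ∀ ζ ∈ ball (0:ℂ) ρ, ‖y ζ‖ ≤ G * SA_K W ∧ ‖y' ζ‖ ≤ G * SA_K W := by
  have hρ0 : 0 < ρ := by linarith [D.hρ1]
  have hW := D.hW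
  have hQ : ∀ ζ ∈ ball (0:ℂ) ρ, ‖Y.Q ζ‖ ≤ W + 1 := by
    intro ζ hζ
    have h1 : ‖Y.Q ζ‖ ≤ ‖Y.Q ζ - p‖ + ‖p‖ := by
      have := norm_add_le (Y.Q ζ - p) p
      rwa [sub_add_cancel] at this
    have h2 := D.q ζ hζ
    linarith [D.μ1, D.hp]
  have hM : 0 ≤ W + 1 := by positivity
  have h := ode_cmp (ρ := ρ) (M := W + 1) (G := G) hρ0 hM hG hy hy' h0 h0' hQ hg
  have hb : G * ρ * Real.exp ((1 + (W + 1)) * ρ) ≤ G * SA_K W := by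
    unfold SA_K
    rw [mul_assoc]
    refine mul_le_mul_of_nonneg_left ?_ hG
    refine mul_le_mul D.hρW (Real.exp_le_exp.2 ?_) (Real.exp_nonneg _) (by linarith [D.hW])
    exact mul_le_mul_of_nonneg_left D.hρW (by positivity)
  intro ζ hζ
  exact ⟨(h ζ hζ).1.trans hb, (h ζ hζ).2.trans hb⟩

/-- the comparison of the odd parts -/
private theorem SA_D.odd (D : SA_D Y W T p p₁ ρ ε μ) {σ : ℂ} (hσ : σ = 1 ∨ σ = -1)
    {h h' k V V' : ℂ → ℂ} {C₁ N₀ B : ℝ} (hC₁ : 0 ≤ C₁) (hN₀ : 0 ≤ N₀) (hB : 0 ≤ B)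
    (hh : ∀ ζ ∈ ball (0:ℂ) ρ, HasDerivAt h (h' ζ) ζ)
    (hh' : ∀ ζ ∈ ball (0:ℂ) ρ, HasDerivAt h' (-(Y.Q ζ * h ζ)) ζ)
    (h0 : h 0 = σ * h 0) (h0' : h' 0 = - (σ * h' 0))
    (hk : ∀ ζ, σ * k (-ζ) = k ζ)
    (hhk : ∀ ζ ∈ ball (0:ℂ) ρ, ‖h ζ - k ζ‖ ≤ C₁ * μ) (hb : ∀ ζ ∈ ball (0:ℂ) ρ, ‖h ζ‖ ≤ B)
    (hV : ∀ ζ ∈ ball (0:ℂ) ρ, HasDerivAt V (V' ζ) ζ)
    (hV' : ∀ ζ ∈ ball (0:ℂ) ρ, HasDerivAt V' (-(p * V ζ) - 2 * p₁ * ζ * k ζ) ζ)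
    (V0 : V 0 = 0) (V0' : V' 0 = 0) (hVb : ∀ ζ ∈ ball (0:ℂ) ρ, ‖V ζ‖ ≤ N₀) :
    ∀ ζ ∈ ball (0:ℂ) ρ, ‖(h ζ - σ * h (-ζ)) / ε - V ζ‖ ≤
      μ * (N₀ + 2 * W ^ 2 * C₁ + B) * SA_K W := by
  have hε : (ε:ℂ) ≠ 0 := by
    exact_mod_cast D.ε0.ne'
  have hσ1 : ‖σ‖ = 1 := by
    rcases hσ with rfl | rfl <;> simp
  have hσ2 : σ * σ = 1 := by
    rcases hσ with rfl | rfl <;> norm_num
  have hW0 : 0 < W := by linarith [D.hW]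
  have key := D.cmp (G := μ * (N₀ + 2 * W ^ 2 * C₁ + B))
    (y := fun ζ => (h ζ - σ * h (-ζ)) / ε - V ζ)
    (y' := fun ζ => (h' ζ + σ * h' (-ζ)) / ε - V' ζ)
    (g := fun ζ => (p - Y.Q ζ) * V ζ - 2 * p₁ * ζ * (σ * (h (-ζ) - k (-ζ))) -
      (Y.Q ζ - Y.Q (-ζ) - 2 * ε * p₁ * ζ) / ε * (σ * h (-ζ)))
    (mul_nonneg D.μ0 (by positivity)) ?_ ?_ ?_ ?_ ?_
  · intro ζ hζ
    exact (key ζ hζ).1
  · intro ζ hζ
    have h1 := (((hh ζ hζ).sub ((SA_dneg (hh (-ζ) (SA_neg hζ))).const_mul σ)).div_const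
      (ε:ℂ)).sub (hV ζ hζ)
    convert! h1 using 1
    ring
  · intro ζ hζ
    have h1 := (((hh' ζ hζ).add ((SA_dneg (hh' (-ζ) (SA_neg hζ))).const_mul σ)).div_const
      (ε:ℂ)).sub (hV' ζ hζ)
    convert! h1 using 1
    rw [← hk ζ]
    field_simp
    ring
  · rw [neg_zero, ← h0, V0]
    simp
  · rw [neg_zero, V0']
    have : h' 0 + σ * h' 0 = 0 := by linear_combination h0'
    rw [this]
    simp
  · intro ζ hζ
    have hn := SA_neg hζ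
    have h1 : ‖(p - Y.Q ζ) * V ζ‖ ≤ μ * N₀ := by
      rw [norm_mul, norm_sub_rev]
      exact mul_le_mul (D.q ζ hζ) (hVb ζ hζ) (norm_nonneg _) D.μ0
    have h2 : ‖2 * p₁ * ζ * (σ * (h (-ζ) - k (-ζ)))‖ ≤ 2 * W * W * (C₁ * μ) := by
      rw [norm_mul, norm_mul, norm_mul, norm_mul, hσ1, one_mul]
      have h3 : ‖(2:ℂ)‖ = 2 := by simp
      rw [h3]
      refine mul_le_mul ?_ (hhk _ hn) (norm_nonneg _) (by positivity)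
      refine mul_le_mul ?_ (D.bz hζ) (norm_nonneg _) (by positivity)
      exact mul_le_mul_of_nonneg_left D.hp₁ (by norm_num)
    have h3 : ‖(Y.Q ζ - Y.Q (-ζ) - 2 * ε * p₁ * ζ) / ε * (σ * h (-ζ))‖ ≤ μ * B := by
      rw [norm_mul, norm_mul, hσ1, one_mul, norm_div]
      refine mul_le_mul ?_ (hb _ hn) (norm_nonneg _) D.μ0
      have h4 : ‖(ε:ℂ)‖ = ε := by
        rw [Complex.norm_real, Real.norm_eq_abs, abs_of_pos D.ε0]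
      rw [h4, div_le_iff₀ D.ε0, mul_comm μ ε]
      exact D.d ζ hζ
    have h4 := norm_sub_le ((p - Y.Q ζ) * V ζ - 2 * p₁ * ζ * (σ * (h (-ζ) - k (-ζ))))
      ((Y.Q ζ - Y.Q (-ζ) - 2 * ε * p₁ * ζ) / ε * (σ * h (-ζ)))
    have h5 := norm_sub_le ((p - Y.Q ζ) * V ζ) (2 * p₁ * ζ * (σ * (h (-ζ) - k (-ζ))))
    refine h4.trans ?_
    nlinarith [h1, h2, h3, h5]

/-- the first order comparison -/
private theorem SA_D.first (D : SA_D Y W T p p₁ ρ ε μ) : ∀ a ∈ ball (0:ℂ) ρ,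
    ‖Y.c a 0 - SA_c p a‖ ≤ T * W * SA_K W * μ ∧
    ‖Y.s a 0 - SA_s p a‖ ≤ T * W * SA_K W * μ ∧
    ‖Y.cd a 0 + p * SA_s p a‖ ≤ T * W * SA_K W * μ ∧
    ‖Y.sd a 0 - SA_c p a‖ ≤ T * W * SA_K W * μ := by
  have h0 : (0:ℂ) ∈ ball (0:ℂ) ρ := mem_ball_self (by linarith [D.hρ1])
  have hT : 0 < T := by linarith [D.hT]
  have hW := D.hW
  have hK : 0 < SA_K W := mul_pos (by linarith) (Real.exp_pos _)
  have hc0 : SA_c p 0 = 1 := by simp [SA_c, C1f_zero]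
  have hs0 : SA_s p 0 = 0 := by simp [SA_s]
  have k1 := D.cmp (G := μ * T) (y := fun ζ => Y.c ζ 0 - SA_c p ζ)
    (y' := fun ζ => Y.cd ζ 0 - -(p * SA_s p ζ))
    (g := fun ζ => (p - Y.Q ζ) * SA_c p ζ) (mul_nonneg D.μ0 hT.le)
    (fun ζ hζ => (Sys.hasDerivAt_c D.on hζ).sub (SA_dc p ζ))
    (fun ζ hζ => by
      have h := (Sys.hasDerivAt_cd (l := 0) D.on hζ).sub ((SA_ds p ζ).const_mul p).neg
      convert! h using 1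
      ring)
    (by simp only [hc0, Sys.c_self D.on h0, sub_self])
    (by simp only [hs0, Sys.cd_self, mul_zero, neg_zero, sub_self])
    (fun ζ hζ => by
      rw [norm_mul, norm_sub_rev]
      exact mul_le_mul (D.q ζ hζ) (D.bc hζ) (norm_nonneg _) D.μ0)
  have k2 := D.cmp (G := μ * (W * T)) (y := fun ζ => Y.s ζ 0 - SA_s p ζ)
    (y' := fun ζ => Y.sd ζ 0 - SA_c p ζ)
    (g := fun ζ => (p - Y.Q ζ) * SA_s p ζ)
    (mul_nonneg D.μ0 (by positivity))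
    (fun ζ hζ => (Sys.hasDerivAt_s D.on hζ).sub (SA_ds p ζ))
    (fun ζ hζ => by
      have h := (Sys.hasDerivAt_sd (l := 0) D.on hζ).sub (SA_dc p ζ)
      convert! h using 1
      ring)
    (by simp only [hs0, Sys.s_self, sub_self])
    (by simp only [hc0, Sys.sd_self D.on h0, sub_self])
    (fun ζ hζ => by
      rw [norm_mul, norm_sub_rev]
      exact mul_le_mul (D.q ζ hζ) (D.bs hζ) (norm_nonneg _) D.μ0)
  have e1 : μ * T * SA_K W ≤ T * W * SA_K W * μ := by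
    have h1 : 0 ≤ μ * T * SA_K W := mul_nonneg (mul_nonneg D.μ0 hT.le) hK.le
    have h2 := mul_le_mul_of_nonneg_left hW h1
    rw [mul_one] at h2
    refine h2.trans (le_of_eq ?_)
    ring
  have e2 : μ * (W * T) * SA_K W = T * W * SA_K W * μ := by ring
  intro a ha
  refine ⟨(k1 a ha).1.trans e1, (k2 a ha).1.trans e2.le, ?_, (k2 a ha).2.trans e2.le⟩
  have h := (k1 a ha).2.trans e1
  simp only [sub_neg_eq_add] at h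
  exact h

private theorem SA_bound (W : ℝ) : ∃ T : ℝ, 1 ≤ T ∧ ∀ x : ℂ, ‖x‖ ≤ W ^ 3 →
    ‖C1f x‖ ≤ T ∧ ‖S1 x‖ ≤ T ∧ ‖deriv S1 x‖ ≤ T := by
  have hc : Continuous (deriv S1) :=
    continuous_iff_continuousAt.2 fun y => (SA_dd y).continuousAt
  obtain ⟨A, hA⟩ := (isCompact_closedBall (0:ℂ) (W ^ 3)).exists_bound_of_continuousOn
    C1f_diff.continuous.continuousOn
  obtain ⟨B, hB⟩ := (isCompact_closedBall (0:ℂ) (W ^ 3)).exists_bound_of_continuousOn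
    S1_diff.continuous.continuousOn
  obtain ⟨C, hC⟩ := (isCompact_closedBall (0:ℂ) (W ^ 3)).exists_bound_of_continuousOn
    hc.continuousOn
  refine ⟨max 1 (max A (max B C)), le_max_left _ _, fun x hx => ?_⟩
  have hx' : x ∈ closedBall (0:ℂ) (W ^ 3) := mem_closedBall_zero_iff.2 hx
  refine ⟨(hA x hx').trans ?_, (hB x hx').trans ?_, (hC x hx').trans ?_⟩
  · exact (le_max_left _ _).trans (le_max_right _ _)
  · exact (le_max_left _ _).trans ((le_max_right _ _).trans (le_max_right _ _))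
  · exact (le_max_right _ _).trans ((le_max_right _ _).trans (le_max_right _ _))

/-- General version of `odd_limit` (file NB5/StB.lean; same proof, with the constant potential `ω²`
replaced by an arbitrary complex number `p`, which may be `0`, and `- I ω²` by an arbitrary `p₁`).

Proof. Put `c₀ ζ = C1f (p ζ²)`, `s₀ ζ = ζ S1 (p ζ²)`: `c₀' = - p s₀`, `s₀' = c₀`, `c₀ 0 = 1`, `s₀ 0 = 0`,
`c₀² + p s₀² = 1` (`C1f_S1`, `C1f_hasDerivAt`, `S1_hasDerivAt`), both bounded on `‖ζ‖ ≤ W` by a constant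
which depends only on `W` (`p ζ²` is in a compact set). `f ζ = Y.c ζ 0`, `g ζ = Y.s ζ 0` solve
`y'' + Q y = 0`. FIRST ORDER: `f - c₀` solves `y'' + Q y = (p - Q) c₀` with zero initial values:
`ode_cmp` (NB5/StA.lean); in the same way `g - s₀`, and the derivatives `Y.cd`, `Y.sd`.
THE NODE FUNCTION: `f₁ ζ = f (-ζ)`, `g₁ ζ = - g (-ζ)`, `V = (f - f₁) / ε`, `U = (g - g₁) / ε`. Then
`V'' + Q V = - (Q ζ - Q (-ζ)) f₁ / ε`, which differs from `- 2 p₁ ζ c₀` by `O (μ)`, and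
`U'' + Q U = - (Q ζ - Q (-ζ)) g₁ / ε`, which differs from `- 2 p₁ ζ s₀` by `O (μ)`. Let
`k₀ ζ = 2 ζ³ s` where `s` is the derivative of `S1` at `p ζ²`: it satisfies `k₀' = - ζ s₀`, `k₀ 0 = 0`,
`p k₀ = ζ c₀ - s₀` (`S1_hasDerivAt`). The functions
`V₀ = - (p₁ / 2) (ζ² s₀ + k₀)`, `V₀' = - (p₁ / 2) (ζ s₀ + ζ² c₀)`,
`U₀ = (p₁ / 2) ζ k₀`, `U₀' = (p₁ / 2) (k₀ - ζ² s₀)`
satisfy `V₀'' + p V₀ = - 2 p₁ ζ c₀`, `U₀'' + p U₀ = - 2 p₁ ζ s₀` with zero initial values, so `V - V₀`,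
`U - U₀` are `O (μ)` by `ode_cmp`. Finally `c (a) s (-a) + c (-a) s (a) = - f g₁ + f₁ g = ε (f U - V g)`
at `a`, and `c₀ U₀ - V₀ s₀ = (p₁ / 2) (ζ c₀ k₀ + ζ² s₀² + s₀ k₀) = (p₁ / 2) ζ⁴ E2 (p ζ²)`
(times `p`: `ζ c₀ (ζ c₀ - s₀) + p ζ² s₀² + s₀ (ζ c₀ - s₀) = ζ² - s₀²`, and
`ζ² - s₀² = p ζ⁴ E2 (p ζ²)`; for `p = 0` by continuity in `p`, or directly
`c₀ = 1`, `s₀ = ζ`, `k₀ = - ζ³ / 3`, `E2 0 = 1 / 3`). -/
theorem odd_gen {W : ℝ} (hW : 1 ≤ W) :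
    ∃ C : ℝ, 0 < C ∧ ∀ (Y : Sys) (p p₁ : ℂ) (ρ ε μ : ℝ), 1 ≤ ρ → ρ ≤ W → ‖p‖ ≤ W → ‖p₁‖ ≤ W →
      0 < ε → ε ≤ 1 → 0 ≤ μ → μ ≤ 1 → Y.On (ball 0 ρ) → (∀ ζ ∈ ball (0:ℂ) ρ, ‖Y.Q ζ - p‖ ≤ μ) →
      (∀ ζ ∈ ball (0:ℂ) ρ, ‖Y.Q ζ - Y.Q (-ζ) - 2 * ε * p₁ * ζ‖ ≤ ε * μ) →
      ∀ a ∈ ball (0:ℂ) ρ, ‖Y.c a 0 - C1f (p * a ^ 2)‖ ≤ C * μ ∧
        ‖Y.s a 0 - a * S1 (p * a ^ 2)‖ ≤ C * μ ∧
        ‖Y.cd a 0 + p * (a * S1 (p * a ^ 2))‖ ≤ C * μ ∧ ‖Y.sd a 0 - C1f (p * a ^ 2)‖ ≤ C * μ ∧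
        ‖Y.c a 0 * Y.s (-a) 0 + Y.c (-a) 0 * Y.s a 0 -
          ε * (p₁ / 2 * a ^ 4 * E2 (p * a ^ 2))‖ ≤ C * (ε * μ) := by
  have hW0 : 0 < W := by linarith
  obtain ⟨T, hT1, bT⟩ := SA_bound W
  set K := SA_K W with hKdef
  have hT : 0 < T := by linarith
  have hK : 0 < K := mul_pos hW0 (Real.exp_pos _)
  obtain ⟨C₁, hC₁⟩ : ∃ C₁, C₁ = T * W * K := ⟨_, rfl⟩
  obtain ⟨N₀, hN₀⟩ : ∃ N₀, N₀ = 2 * W ^ 5 * T := ⟨_, rfl⟩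
  obtain ⟨B, hB⟩ : ∃ B, B = T * W + C₁ := ⟨_, rfl⟩
  obtain ⟨C₂, hC₂⟩ : ∃ C₂, C₂ = (N₀ + 2 * W ^ 2 * C₁ + B) * K := ⟨_, rfl⟩
  have p1 : 0 < C₁ := by rw [hC₁]; positivity
  have pN : 0 < N₀ := by rw [hN₀]; positivity
  have pB : 0 < B := by rw [hB]; positivity
  have p2 : 0 < C₂ := by rw [hC₂]; positivity
  refine ⟨C₁ + (C₁ * (N₀ + C₂) + T * C₂ + C₂ * B + N₀ * C₁), by positivity, ?_⟩
  intro Y p p₁ ρ ε μ hρ1 hρW hp hp₁ ε0 ε1 μ0 μ1 on q d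
  have D : SA_D Y W T p p₁ ρ ε μ := ⟨hW, hT1, bT, hρ1, hρW, hp, hp₁, ε0, μ0, μ1, on, q, d⟩
  have hz : (0:ℂ) ∈ ball (0:ℂ) ρ := mem_ball_self (by linarith)
  have hε : (ε:ℂ) ≠ 0 := by exact_mod_cast ε0.ne'
  have hF := D.first
  rw [← hKdef, ← hC₁] at hF
  have hμC : C₁ * μ ≤ C₁ := by
    have := mul_le_mul_of_nonneg_left μ1 p1.le
    rwa [mul_one] at this
  have hTW : T ≤ T * W := by
    have := mul_le_mul_of_nonneg_left hW hT.le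
    rwa [mul_one] at this
  have bc : ∀ ζ ∈ ball (0:ℂ) ρ, ‖Y.c ζ 0‖ ≤ B := fun ζ hζ => by
    have h1 := norm_add_le (Y.c ζ 0 - SA_c p ζ) (SA_c p ζ)
    rw [sub_add_cancel] at h1
    have h2 := (hF ζ hζ).1
    have h3 := D.bc hζ
    rw [hB]
    linarith
  have bs : ∀ ζ ∈ ball (0:ℂ) ρ, ‖Y.s ζ 0‖ ≤ B := fun ζ hζ => by
    have h1 := norm_add_le (Y.s ζ 0 - SA_s p ζ) (SA_s p ζ)
    rw [sub_add_cancel] at h1
    have h2 := (hF ζ hζ).2.1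
    have h3 := D.bs hζ
    rw [hB]
    linarith
  have hV := D.odd (σ := 1) (Or.inl rfl) (h := fun ζ => Y.c ζ 0) (h' := fun ζ => Y.cd ζ 0)
    (k := SA_c p) (V := SA_V p p₁) (V' := SA_V' p p₁) (C₁ := C₁) (N₀ := N₀) (B := B)
    p1.le pN.le pB.le (fun ζ hζ => Sys.hasDerivAt_c D.on hζ)
    (fun ζ hζ => Sys.hasDerivAt_cd (l := 0) D.on hζ) (one_mul _).symm
    (by simp only [Sys.cd_self, mul_zero, neg_zero])
    (fun ζ => by unfold SA_c; rw [one_mul, neg_sq])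
    (fun ζ hζ => (hF ζ hζ).1) bc (fun ζ _ => SA_dV p p₁ ζ) (fun ζ _ => SA_dV' p p₁ ζ)
    (by simp [SA_V, SA_k]) (by simp [SA_V']) (fun ζ hζ => by rw [hN₀]; exact D.bV hζ)
  have hU := D.odd (σ := -1) (Or.inr rfl) (h := fun ζ => Y.s ζ 0) (h' := fun ζ => Y.sd ζ 0)
    (k := SA_s p) (V := SA_U p p₁) (V' := SA_U' p p₁) (C₁ := C₁) (N₀ := N₀)
    (B := B)
    p1.le pN.le pB.le (fun ζ hζ => Sys.hasDerivAt_s D.on hζ)
    (fun ζ hζ => Sys.hasDerivAt_sd (l := 0) D.on hζ)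
    (by simp only [Sys.s_self, mul_zero])
    (by ring)
    (fun ζ => by unfold SA_s; rw [neg_sq]; ring)
    (fun ζ hζ => (hF ζ hζ).2.1) bs (fun ζ _ => SA_dU p p₁ ζ) (fun ζ _ => SA_dU' p p₁ ζ)
    (by simp [SA_U]) (by simp [SA_U', SA_k]) (fun ζ hζ => by rw [hN₀]; exact D.bU hζ)
  have eC : μ * (N₀ + 2 * W ^ 2 * C₁ + B) * K = μ * C₂ := by rw [hC₂]; ring
  intro a ha
  have pR : 0 ≤ C₁ * (N₀ + C₂) + T * C₂ + C₂ * B + N₀ * C₁ := by positivity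
  have up : ∀ x : ℝ, x ≤ C₁ * μ → x ≤
      (C₁ + (C₁ * (N₀ + C₂) + T * C₂ + C₂ * B + N₀ * C₁)) * μ := fun x hx => by
    have := mul_nonneg pR μ0
    linarith
  obtain ⟨h1, h2, h3, h4⟩ := hF a ha
  refine ⟨up _ h1, up _ h2, up _ h3, up _ h4, ?_⟩
  have hVa : ‖(Y.c a 0 - Y.c (-a) 0) / ε - SA_V p p₁ a‖ ≤ μ * C₂ := by
    have := hV a ha
    rw [← hKdef, eC] at this
    simpa only [one_mul] using this
  have hUa : ‖(Y.s a 0 + Y.s (-a) 0) / ε - SA_U p p₁ a‖ ≤ μ * C₂ := by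
    have := hU a ha
    rw [← hKdef, eC] at this
    simpa only [neg_mul, one_mul, sub_neg_eq_add] using this
  obtain ⟨V, hVd⟩ : ∃ V, V = (Y.c a 0 - Y.c (-a) 0) / ε := ⟨_, rfl⟩
  obtain ⟨U, hUd⟩ : ∃ U, U = (Y.s a 0 + Y.s (-a) 0) / ε := ⟨_, rfl⟩
  rw [← hVd] at hVa
  rw [← hUd] at hUa
  have eV : Y.c (-a) 0 = Y.c a 0 - ε * V := by
    rw [hVd]
    field_simp
    ring
  have eU : Y.s (-a) 0 = ε * U - Y.s a 0 := by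
    rw [hUd]
    field_simp
    ring
  have hUn : ‖U‖ ≤ N₀ + C₂ := by
    have h5 := norm_add_le (U - SA_U p p₁ a) (SA_U p p₁ a)
    rw [sub_add_cancel] at h5
    have h6 : ‖SA_U p p₁ a‖ ≤ N₀ := by rw [hN₀]; exact D.bU ha
    have h7 : μ * C₂ ≤ C₂ := by
      have := mul_le_mul_of_nonneg_right μ1 p2.le
      rwa [one_mul] at this
    linarith
  have hVn : ‖SA_V p p₁ a‖ ≤ N₀ := by rw [hN₀]; exact D.bV ha
  have id0 : SA_c p a * SA_U p p₁ a - SA_V p p₁ a * SA_s p a =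
      p₁ / 2 * a ^ 4 * E2 (p * a ^ 2) := by
    have h5 := SA_final p a
    unfold SA_U SA_V
    linear_combination (p₁ / 2) * h5
  have e0 : Y.c a 0 * Y.s (-a) 0 + Y.c (-a) 0 * Y.s a 0 -
      ε * (p₁ / 2 * a ^ 4 * E2 (p * a ^ 2)) =
      ε * ((Y.c a 0 - SA_c p a) * U + SA_c p a * (U - SA_U p p₁ a) -
        (V - SA_V p p₁ a) * Y.s a 0 - SA_V p p₁ a * (Y.s a 0 - SA_s p a)) := by
    rw [eV, eU]
    linear_combination (ε:ℂ) * id0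
  rw [e0, norm_mul]
  have h5 : ‖(ε:ℂ)‖ = ε := by
    rw [Complex.norm_real, Real.norm_eq_abs, abs_of_pos ε0]
  rw [h5]
  have q1 : ‖(Y.c a 0 - SA_c p a) * U‖ ≤ C₁ * μ * (N₀ + C₂) := by
    rw [norm_mul]
    exact mul_le_mul h1 hUn (norm_nonneg _) (mul_nonneg p1.le μ0)
  have q2 : ‖SA_c p a * (U - SA_U p p₁ a)‖ ≤ T * (μ * C₂) := by
    rw [norm_mul]
    exact mul_le_mul (D.bc ha) hUa (norm_nonneg _) hT.le
  have q3 : ‖(V - SA_V p p₁ a) * Y.s a 0‖ ≤ μ * C₂ * B := by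
    rw [norm_mul]
    exact mul_le_mul hVa (bs a ha) (norm_nonneg _) (mul_nonneg μ0 p2.le)
  have q4 : ‖SA_V p p₁ a * (Y.s a 0 - SA_s p a)‖ ≤ N₀ * (C₁ * μ) := by
    rw [norm_mul]
    exact mul_le_mul hVn h2 (norm_nonneg _) pN.le
  have r1 := norm_sub_le ((Y.c a 0 - SA_c p a) * U + SA_c p a * (U - SA_U p p₁ a) -
    (V - SA_V p p₁ a) * Y.s a 0) (SA_V p p₁ a * (Y.s a 0 - SA_s p a))
  have r2 := norm_sub_le ((Y.c a 0 - SA_c p a) * U + SA_c p a * (U - SA_U p p₁ a))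
    ((V - SA_V p p₁ a) * Y.s a 0)
  have r3 := norm_add_le ((Y.c a 0 - SA_c p a) * U) (SA_c p a * (U - SA_U p p₁ a))
  have r4 : ‖(Y.c a 0 - SA_c p a) * U + SA_c p a * (U - SA_U p p₁ a) -
      (V - SA_V p p₁ a) * Y.s a 0 - SA_V p p₁ a * (Y.s a 0 - SA_s p a)‖ ≤
      (C₁ * (N₀ + C₂) + T * C₂ + C₂ * B + N₀ * C₁) * μ := by
    linarith
  have r5 := mul_le_mul_of_nonneg_left r4 ε0.le
  have r6 : 0 ≤ C₁ * (ε * μ) := mul_nonneg p1.le (mul_nonneg ε0.le μ0)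
  refine r5.trans ?_
  linarith

end Pool.Agent.MP_ae5b4e_an_M
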